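import Mathlib

/-!
A trace argument: if `z = [x, y]` commutes with `x` and `y` and `V` is finitely generated over
`k[z]`, then `V` is finite dimensional (characteristic zero).
-/

namespace Pool.Agent.Lib51bf1a

open Polynomial

theorem torsion_of_comm {A M : Type*} [CommRing A] [IsDomain A] [IsPrincipalIdealRing A]
    [CharZero A] [AddCommGroup M] [Module A M] [Module.Finite A M]
    (x y : M →ₗ[A] M) (ζ : A) (hζ : ζ ≠ 0)
    (h : ∀ m, x (y m) - y (x m) = ζ • m) : Module.IsTorsion A M := by
  set T := Submodule.torsion A M with hT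
  have hstab : ∀ (f : M →ₗ[A] M), T ≤ T.comap f := by
    intro f m hm
    rw [hT, Submodule.mem_torsion_iff] at hm
    obtain ⟨a, ha⟩ := hm
    rw [Submodule.mem_comap, hT, Submodule.mem_torsion_iff]
    refine ⟨a, ?_⟩
    have : a • f m = f (a • m) := by
      rw [Submonoid.smul_def, Submonoid.smul_def, map_smul]
    rw [this, ha, map_zero]
  set xb := T.mapQ T x (hstab x)
  set yb := T.mapQ T y (hstab y)
  have hcomm : xb * yb - yb * xb = ζ • (1 : (M ⧸ T) →ₗ[A] (M ⧸ T)) := by
    apply LinearMap.ext
    intro q
    obtain ⟨m, rfl⟩ := Submodule.Quotient.mk_surjective T q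
    simp only [LinearMap.sub_apply, Module.End.mul_apply, LinearMap.smul_apply,
      Module.End.one_apply, xb, yb, Submodule.mapQ_apply]
    rw [← Submodule.Quotient.mk_sub, h m, Submodule.Quotient.mk_smul]
  have : Module.IsTorsionFree A (M ⧸ T) := by
    rw [hT]
    infer_instance
  have : Module.Free A (M ⧸ T) := inferInstance
  have htr := congrArg (LinearMap.trace A (M ⧸ T)) hcomm
  rw [map_sub, LinearMap.trace_mul_comm, sub_self, map_smul, LinearMap.trace_one] at htr
  have hrank : Module.finrank A (M ⧸ T) = 0 := by
    have h2 : ζ * (Module.finrank A (M ⧸ T) : A) = 0 := by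
      simpa [smul_eq_mul] using htr.symm
    rcases mul_eq_zero.mp h2 with h3 | h3
    · exact absurd h3 hζ
    · exact_mod_cast h3
  have hsub : Subsingleton (M ⧸ T) := by
    rw [Module.finrank_eq_zero_iff_of_free] at hrank
    exact hrank
  have hTtop : T = ⊤ := Submodule.Quotient.subsingleton_iff.mp hsub
  intro m
  have hm : m ∈ T := by rw [hTtop]; trivial
  rw [hT, Submodule.mem_torsion_iff] at hm
  exact hm

/-- If `z = [x, y]` is central with respect to `x, y` and `V` is spanned by the `z ^ n V₀` with
`V₀` finite dimensional, then `V` is finite dimensional. -/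
theorem finite_of_commutator {k V : Type*} [Field k] [CharZero k] [AddCommGroup V] [Module k V]
    (x y z : Module.End k V) (hz : ∀ v, x (y v) - y (x v) = z v)
    (hx : ∀ v, x (z v) = z (x v)) (hy : ∀ v, y (z v) = z (y v))
    (V0 : Submodule k V) [FiniteDimensional k V0]
    (hV : ∀ v : V, v ∈ ⨆ n : ℕ, V0.map (z ^ n)) : FiniteDimensional k V := by
  classical
  let x' : Module.AEval' z →ₗ[k[X]] Module.AEval' z :=
    LinearMap.ofAEval z ((Module.AEval'.of z).toLinearMap ∘ₗ x) (by
      intro m
      simp [Module.AEval'.X_smul_of, hx])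
  let y' : Module.AEval' z →ₗ[k[X]] Module.AEval' z :=
    LinearMap.ofAEval z ((Module.AEval'.of z).toLinearMap ∘ₗ y) (by
      intro m
      simp [Module.AEval'.X_smul_of, hy])
  have hx' : ∀ m : V, x' (Module.AEval'.of z m) = Module.AEval'.of z (x m) := by
    intro m; rfl
  have hy' : ∀ m : V, y' (Module.AEval'.of z m) = Module.AEval'.of z (y m) := by
    intro m; rfl
  -- finite generation
  obtain ⟨S, hS⟩ := (Module.finite_def.mp (inferInstance : FiniteDimensional k V0))
  have hfin : Module.Finite k[X] (Module.AEval' z) := by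
    refine ⟨⟨S.image (fun v : V0 => Module.AEval'.of z (v : V)), ?_⟩⟩
    rw [eq_top_iff]
    have key : ∀ v : V, Module.AEval'.of z v ∈
        Submodule.span k[X] (S.image (fun v : V0 => Module.AEval'.of z (v : V)) :
          Set (Module.AEval' z)) := by
      intro v
      have hv := hV v
      refine Submodule.iSup_induction' (p := fun n : ℕ => V0.map (z ^ n))
        (motive := fun v _ => Module.AEval'.of z v ∈
        Submodule.span k[X] (S.image (fun v : V0 => Module.AEval'.of z (v : V)) :
          Set (Module.AEval' z))) ?_ ?_ ?_ hv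
      · intro n v hv
        obtain ⟨u, hu, rfl⟩ := Submodule.mem_map.mp hv
        have : Module.AEval'.of z ((z ^ n) u) = (X : k[X]) ^ n • Module.AEval'.of z u := by
          rw [Module.AEval'.X_pow_smul_of]; rfl
        rw [this]
        apply Submodule.smul_mem
        have hu' : (⟨u, hu⟩ : V0) ∈ Submodule.span k (S : Set V0) := by rw [hS]; trivial
        have : ∀ w : V0, w ∈ Submodule.span k (S : Set V0) → Module.AEval'.of z (w : V) ∈
            Submodule.span k[X] (S.image (fun v : V0 => Module.AEval'.of z (v : V)) :
              Set (Module.AEval' z)) := by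
          intro w hw
          induction hw using Submodule.span_induction with
          | mem w hw =>
            apply Submodule.subset_span
            simp only [Finset.coe_image, Set.mem_image, Finset.mem_coe]
            exact ⟨w, hw, rfl⟩
          | zero => simp
          | add a b _ _ ha hb =>
            rw [Submodule.coe_add, map_add]
            exact Submodule.add_mem _ ha hb
          | smul c a _ ha =>
            rw [Submodule.coe_smul, map_smul]
            have : c • Module.AEval'.of z (a : V) = (C c : k[X]) • Module.AEval'.of z (a : V) := by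
              simp
            rw [this]
            exact Submodule.smul_mem _ _ ha
        exact this _ hu'
      · rw [map_zero]; exact Submodule.zero_mem _
      · intro a b _ _ ha hb
        rw [map_add]; exact Submodule.add_mem _ ha hb
    intro m _
    obtain ⟨v, rfl⟩ := (Module.AEval'.of z).surjective m
    exact key v
  have htors : Module.IsTorsion k[X] (Module.AEval' z) := by
    refine torsion_of_comm x' y' (X : k[X]) Polynomial.X_ne_zero ?_
    intro m
    obtain ⟨v, rfl⟩ := (Module.AEval'.of z).surjective m
    rw [hy', hx', hx', hy', ← map_sub, hz, Module.AEval'.X_smul_of]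
  -- a polynomial killing everything
  have hp : ∃ p : k[X], p ≠ 0 ∧ ∀ v : V0, (aeval z p) (v : V) = 0 := by
    have h1 : ∀ v : V, ∃ p : k[X], p ≠ 0 ∧ (aeval z p) v = 0 := by
      intro v
      obtain ⟨a, ha⟩ := @htors (Module.AEval'.of z v)
      refine ⟨a, nonZeroDivisors.coe_ne_zero a, ?_⟩
      have h2 : Module.AEval'.of z ((aeval z (a : k[X])) v) = (a : k[X]) • Module.AEval'.of z v := by
        exact Module.AEval.of_aeval_smul (R := k) (A := Module.End k V) (M := V) z (a : k[X]) v
      have h3 : (a : k[X]) • Module.AEval'.of z v = 0 := ha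
      rw [h3] at h2
      exact (map_eq_zero_iff _ (Module.AEval'.of z).injective).mp h2
    choose p hp0 hp using h1
    refine ⟨∏ v ∈ S, p (v : V), Finset.prod_ne_zero_iff.mpr (fun v _ => hp0 _), ?_⟩
    intro v
    have hv : v ∈ Submodule.span k (S : Set V0) := by rw [hS]; trivial
    induction hv using Submodule.span_induction with
    | mem w hw =>
      rw [← Finset.prod_erase_mul S _ hw, map_mul, Module.End.mul_apply, hp, map_zero]
    | zero => simp
    | add a b _ _ ha hb => rw [Submodule.coe_add, map_add, ha, hb, add_zero]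
    | smul c a _ ha => rw [Submodule.coe_smul, map_smul, ha, smul_zero]
  obtain ⟨p, hp0, hp⟩ := hp
  have hfin2 : ∀ v : V, v ∈ ⨆ n : Fin p.natDegree, V0.map (z ^ (n : ℕ)) := by
    have hpow : ∀ n : ℕ, ∀ u ∈ V0, (z ^ n) u ∈ ⨆ n : Fin p.natDegree, V0.map (z ^ (n : ℕ)) := by
      intro n u hu
      have hmonic : (p * C p.leadingCoeff⁻¹).Monic := monic_mul_leadingCoeff_inv hp0
      set q := p * C p.leadingCoeff⁻¹ with hq
      have hdeg : q.natDegree = p.natDegree := by
        rw [hq, natDegree_mul_C (inv_ne_zero (leadingCoeff_ne_zero.mpr hp0))]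
      have hqu : (aeval z q) u = 0 := by
        rw [hq, mul_comm, map_mul, Module.End.mul_apply, hp ⟨u, hu⟩, map_zero]
      have hdiv : (X : k[X]) ^ n = q * ((X : k[X]) ^ n /ₘ q) + ((X : k[X]) ^ n %ₘ q) := by
        rw [add_comm, modByMonic_add_div]
      have h1 : (z ^ n) u = (aeval z ((X : k[X]) ^ n %ₘ q)) u := by
        have h2 : z ^ n = aeval z ((X : k[X]) ^ n) := by simp
        rw [h2]
        conv_lhs => rw [hdiv]
        rw [map_add, mul_comm, map_mul, LinearMap.add_apply, Module.End.mul_apply, hqu, map_zero,
          zero_add]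
      rw [h1]
      set r := (X : k[X]) ^ n %ₘ q
      by_cases hp1 : q = 1
      · have : r = 0 := by
          simp only [r, hp1, modByMonic_one]
        rw [this]; simp
      have hr : r.natDegree < p.natDegree := by
        rw [← hdeg]; exact natDegree_modByMonic_lt _ hmonic hp1
      rw [aeval_eq_sum_range' hr, LinearMap.sum_apply]
      apply Submodule.sum_mem
      intro i hi
      rw [LinearMap.smul_apply]
      apply Submodule.smul_mem
      have hi' : i < p.natDegree := Finset.mem_range.mp hi
      exact Submodule.mem_iSup_of_mem (⟨i, hi'⟩ : Fin p.natDegree)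
        (Submodule.mem_map.mpr ⟨u, hu, rfl⟩)
    intro v
    have hle : (⨆ n : ℕ, V0.map (z ^ n)) ≤ ⨆ n : Fin p.natDegree, V0.map (z ^ (n : ℕ)) := by
      apply iSup_le
      intro n
      rintro w hw
      obtain ⟨u, hu, rfl⟩ := Submodule.mem_map.mp hw
      exact hpow n u hu
    exact hle (hV v)
  have htop : (⨆ n : Fin p.natDegree, V0.map (z ^ (n : ℕ))) = ⊤ := by
    rw [eq_top_iff]; intro v _; exact hfin2 v
  have hfd : FiniteDimensional k (⊤ : Submodule k V) := by
    rw [← htop]
    infer_instance
  exact Module.finite_def.mpr ((Submodule.fg_top _).mp (Module.finite_def.mp hfd)) 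

end Pool.Agent.Lib51bf1a
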