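import Mathlib
import Pool.Agent.Lib_51bf1a.A1_Trace

/-!
A finiteness property of the free associative algebra: modulo the two-sided ideal generated by the
right-normed commutators of length `c + 1` and the left ideal generated by the `N`-th powers of the
letters, all long words vanish (characteristic zero).
-/

namespace Pool.Agent.Lib51bf1a

section FA

variable (k : Type*) {ι : Type*} [Field k]

/-- The word `l` in the free associative algebra. -/
noncomputable def W (l : List ι) : MonoidAlgebra k (FreeMonoid ι) :=
  MonoidAlgebra.single (FreeMonoid.ofList l) 1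

theorem W_nil : W k ([] : List ι) = 1 := rfl

theorem W_append (l l' : List ι) : W k (l ++ l') = W k l * W k l' := by
  simp [W, MonoidAlgebra.single_mul_single]

theorem W_cons (i : ι) (l : List ι) : W k (i :: l) = W k [i] * W k l := by
  rw [← W_append]; rfl

theorem span_W : Submodule.span k (Set.range (W k : List ι → _)) = ⊤ := by
  rw [eq_top_iff]
  intro a _
  induction a using MonoidAlgebra.induction_linear with
  | zero => exact Submodule.zero_mem _
  | add f g hf hg => exact Submodule.add_mem _ (hf trivial) (hg trivial)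
  | single w r =>
    have : MonoidAlgebra.single w r = r • W k (FreeMonoid.toList w) := by
      simp [W]
    rw [this]
    exact Submodule.smul_mem _ _ (Submodule.subset_span ⟨_, rfl⟩)

@[elab_as_elim]
theorem W_induction {p : MonoidAlgebra k (FreeMonoid ι) → Prop} (hW : ∀ l, p (W k l))
    (h0 : p 0) (hadd : ∀ a b, p a → p b → p (a + b)) (hsmul : ∀ (c : k) a, p a → p (c • a))
    (a : MonoidAlgebra k (FreeMonoid ι)) : p a := by
  have ha : a ∈ Submodule.span k (Set.range (W k : List ι → _)) := by rw [span_W]; trivial
  induction ha using Submodule.span_induction with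
  | mem x hx => obtain ⟨l, rfl⟩ := hx; exact hW l
  | zero => exact h0
  | add a b _ _ ha hb => exact hadd a b ha hb
  | smul c a _ ha => exact hsmul c a ha

/-- Projection to words of length `n`. -/
noncomputable def pr (n : ℕ) :
    MonoidAlgebra k (FreeMonoid ι) →ₗ[k] MonoidAlgebra k (FreeMonoid ι) where
  toFun x := MonoidAlgebra.ofCoeff (x.coeff.filter (fun w => (FreeMonoid.toList w).length = n))
  map_add' x y := by
    rw [MonoidAlgebra.coeff_add, Finsupp.filter_add, MonoidAlgebra.ofCoeff_add]
  map_smul' c x := by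
    rw [MonoidAlgebra.coeff_smul, Finsupp.filter_smul, MonoidAlgebra.ofCoeff_smul]; rfl

theorem pr_W (n : ℕ) (l : List ι) : pr k n (W k l) = if l.length = n then W k l else 0 := by
  unfold pr W
  simp only [LinearMap.coe_mk, AddHom.coe_mk, MonoidAlgebra.coeff_single]
  split_ifs with h
  · rw [Finsupp.filter_single_of_pos]
    · simp
    · simpa using h
  · rw [Finsupp.filter_single_of_neg]
    · simp
    · simpa using h

/-- Homogeneous elements of degree `n`. -/
noncomputable def Hd (n : ℕ) : Submodule k (MonoidAlgebra k (FreeMonoid ι)) :=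
  Submodule.span k {a | ∃ l : List ι, l.length = n ∧ a = W k l}

theorem W_mem_Hd (l : List ι) : W k l ∈ Hd k l.length :=
  Submodule.subset_span ⟨l, rfl, rfl⟩

theorem pr_mem_Hd (n : ℕ) (a : MonoidAlgebra k (FreeMonoid ι)) : pr k n a ∈ Hd k n := by
  induction a using W_induction with
  | hW l =>
    rw [pr_W]
    split_ifs with h
    · rw [← h]; exact W_mem_Hd k l
    · exact Submodule.zero_mem _
  | h0 => rw [map_zero]; exact Submodule.zero_mem _
  | hadd a b ha hb => rw [map_add]; exact Submodule.add_mem _ ha hb
  | hsmul c a ha => rw [map_smul]; exact Submodule.smul_mem _ _ ha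

theorem pr_of_mem_Hd {n : ℕ} {a : MonoidAlgebra k (FreeMonoid ι)} (ha : a ∈ Hd k n) (m : ℕ) :
    pr k m a = if n = m then a else 0 := by
  induction ha using Submodule.span_induction with
  | mem x hx =>
    obtain ⟨l, hl, rfl⟩ := hx
    rw [pr_W, hl]
  | zero => simp
  | add a b _ _ ha hb =>
    rw [map_add, ha, hb]; split_ifs <;> simp
  | smul c a _ ha =>
    rw [map_smul, ha]; split_ifs <;> simp

theorem mul_mem_Hd {n m : ℕ} {a b : MonoidAlgebra k (FreeMonoid ι)} (ha : a ∈ Hd k n)
    (hb : b ∈ Hd k m) : a * b ∈ Hd k (n + m) := by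
  induction ha using Submodule.span_induction with
  | mem x hx =>
    obtain ⟨l, hl, rfl⟩ := hx
    induction hb using Submodule.span_induction with
    | mem y hy =>
      obtain ⟨l', hl', rfl⟩ := hy
      rw [← W_append]
      refine Submodule.subset_span ⟨l ++ l', ?_, rfl⟩
      rw [List.length_append, hl, hl']
    | zero => rw [mul_zero]; exact Submodule.zero_mem _
    | add a b _ _ ha hb => rw [mul_add]; exact Submodule.add_mem _ ha hb
    | smul c a _ ha => rw [mul_smul_comm]; exact Submodule.smul_mem _ _ ha
  | zero => rw [zero_mul]; exact Submodule.zero_mem _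
  | add a b _ _ ha hb => rw [add_mul]; exact Submodule.add_mem _ ha hb
  | smul c a _ ha => rw [smul_mul_assoc]; exact Submodule.smul_mem _ _ ha

theorem pr_mul {ℓ : ℕ} {z : MonoidAlgebra k (FreeMonoid ι)} (hz : z ∈ Hd k ℓ) (n : ℕ) :
    ∀ b, pr k (ℓ + n) (z * b) = z * pr k n b := by
  intro b
  induction b using W_induction with
  | hW l =>
    rw [pr_of_mem_Hd k (mul_mem_Hd k hz (W_mem_Hd k l)), pr_W]
    by_cases h : l.length = n
    · rw [if_pos (by omega), if_pos h]
    · rw [if_neg (by omega), if_neg h, mul_zero]
  | h0 => simp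
  | hadd a b ha hb => rw [mul_add, map_add, ha, hb, map_add, mul_add]
  | hsmul c a ha => rw [mul_smul_comm, map_smul, ha, map_smul, mul_smul_comm]

/-- Right-normed commutators. -/
noncomputable def cm : List ι → MonoidAlgebra k (FreeMonoid ι)
  | [] => 0
  | [i] => W k [i]
  | i :: j :: l => W k [i] * cm (j :: l) - cm (j :: l) * W k [i]

theorem cm_cons (i : ι) (l : List ι) (hl : l ≠ []) :
    cm k (i :: l) = W k [i] * cm k l - cm k l * W k [i] := by
  cases l with
  | nil => exact absurd rfl hl
  | cons j l => rfl

theorem cm_mem_Hd (l : List ι) : cm k l ∈ Hd k l.length := by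
  induction l with
  | nil => exact Submodule.zero_mem _
  | cons i l ih =>
    cases l with
    | nil => exact W_mem_Hd k [i]
    | cons j l =>
      rw [cm_cons k i _ (by simp)]
      have h1 : W k [i] ∈ Hd k 1 := W_mem_Hd k [i]
      apply Submodule.sub_mem
      · have := mul_mem_Hd k h1 ih
        rwa [add_comm] at this
      · exact mul_mem_Hd k ih h1

end FA

section Ideals

variable {k ι : Type*} [Field k]

theorem left_of_W {P : Submodule k (MonoidAlgebra k (FreeMonoid ι))}
    (h : ∀ (l : List ι) (a), a ∈ P → W k l * a ∈ P) : ∀ b a, a ∈ P → b * a ∈ P := by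
  intro b a ha
  induction b using W_induction with
  | hW l => exact h l a ha
  | h0 => rw [zero_mul]; exact Submodule.zero_mem _
  | hadd b b' hb hb' => rw [add_mul]; exact Submodule.add_mem _ hb hb'
  | hsmul c b hb => rw [smul_mul_assoc]; exact Submodule.smul_mem _ _ hb

/-- A homogeneous left ideal of finite codimension contains all long words. -/
theorem long_words_of_finite (P : Submodule k (MonoidAlgebra k (FreeMonoid ι)))
    (hhom : ∀ n a, a ∈ P → pr k n a ∈ P)
    (hfin : FiniteDimensional k (MonoidAlgebra k (FreeMonoid ι) ⧸ P)) :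
    ∃ D : ℕ, ∀ l : List ι, l.length = D → W k l ∈ P := by
  by_contra hcon
  push Not at hcon
  choose l hl hlP using hcon
  have hli : LinearIndependent k (fun n : ℕ => P.mkQ (W k (l n))) := by
    rw [linearIndependent_iff']
    intro s g hg n hn
    have h1 : P.mkQ (∑ i ∈ s, g i • W k (l i)) = 0 := by
      rw [map_sum]
      simpa using hg
    rw [Submodule.mkQ_apply, Submodule.Quotient.mk_eq_zero] at h1
    have h2 := hhom n _ h1
    rw [map_sum, Finset.sum_eq_single n] at h2
    · rw [map_smul, pr_W, if_pos (hl n)] at h2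
      by_contra hgn
      apply hlP n
      have h3 := Submodule.smul_mem P (g n)⁻¹ h2
      rwa [smul_smul, inv_mul_cancel₀ hgn, one_smul] at h3
    · intro m _ hmn
      rw [map_smul, pr_W, if_neg (by rw [hl m]; exact hmn), smul_zero]
    · intro hn'; exact absurd hn hn'
  exact Module.Finite.not_linearIndependent_of_infinite _ hli

/-- The main step: removing one central commutator. -/
theorem remove_central [CharZero k] [Finite ι] (P : Submodule k (MonoidAlgebra k (FreeMonoid ι)))
    (hleft : ∀ b a, a ∈ P → b * a ∈ P) (hhom : ∀ n a, a ∈ P → pr k n a ∈ P)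
    (i : ι) (y z : MonoidAlgebra k (FreeMonoid ι)) (ℓ : ℕ) (hℓ : 1 ≤ ℓ)
    (hzdef : z = W k [i] * y - y * W k [i]) (hz : z ∈ Hd k ℓ)
    (hcent : ∀ a b, a * z * b - z * a * b ∈ P) (D : ℕ)
    (hD : ∀ l : List ι, l.length = D → ∃ b, W k l - z * b ∈ P) :
    ∃ D' : ℕ, ∀ l : List ι, l.length = D' → W k l ∈ P := by
  apply long_words_of_finite P hhom
  have hst : ∀ a : MonoidAlgebra k (FreeMonoid ι), P ≤ P.comap (LinearMap.mulLeft k a) := by
    intro a b hb
    rw [Submodule.mem_comap, LinearMap.mulLeft_apply]
    exact hleft a b hb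
  let Lm : MonoidAlgebra k (FreeMonoid ι) → Module.End k (MonoidAlgebra k (FreeMonoid ι) ⧸ P) :=
    fun a => P.mapQ P (LinearMap.mulLeft k a) (hst a)
  have hLm : ∀ a b, Lm a (P.mkQ b) = P.mkQ (a * b) := by
    intro a b
    simp [Lm]
  let V0 : Submodule k (MonoidAlgebra k (FreeMonoid ι) ⧸ P) :=
    (Submodule.span k ((fun l : List ι => W k l) '' {l | l.length < D + ℓ})).map P.mkQ
  have hV0 : FiniteDimensional k V0 := by
    have h1 : ((fun l : List ι => W k l) '' {l | l.length < D + ℓ}).Finite :=
      (List.finite_length_lt ι (D + ℓ)).image _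
    have := FiniteDimensional.span_of_finite k h1
    infer_instance
  have hpow : ∀ (n : ℕ) (b), (Lm z ^ n) (P.mkQ b) = P.mkQ (z ^ n * b) := by
    intro n
    induction n with
    | zero => intro b; simp
    | succ n ih =>
      intro b
      rw [pow_succ', Module.End.mul_apply, ih, hLm, pow_succ', mul_assoc]
  -- decomposition of long words with the right degree
  have hD1 : ∀ l : List ι, D + ℓ ≤ l.length →
      ∃ b ∈ Hd k (l.length - ℓ), W k l - z * b ∈ P := by
    intro l hl
    obtain ⟨b, hb⟩ := hD (l.drop (l.length - D)) (by rw [List.length_drop]; omega)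
    set u := l.take (l.length - D)
    set w := l.drop (l.length - D)
    have hl' : W k l = W k u * W k w := by
      rw [← W_append, List.take_append_drop]
    have h1 : W k l - z * (W k u * b) ∈ P := by
      have h2 : W k l - z * (W k u * b) = W k u * (W k w - z * b) + (W k u * z * b - z * W k u * b) := by
        rw [hl', mul_sub]
        simp only [mul_assoc]
        abel
      rw [h2]
      exact Submodule.add_mem _ (hleft _ _ hb) (hcent _ _)
    have h2 := hhom l.length _ h1
    rw [map_sub, pr_W, if_pos rfl] at h2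
    have h3 : pr k l.length (z * (W k u * b)) = z * pr k (l.length - ℓ) (W k u * b) := by
      have h4 : l.length = ℓ + (l.length - ℓ) := by omega
      conv_lhs => rw [h4]
      exact pr_mul k hz _ _
    rw [h3] at h2
    exact ⟨_, pr_mem_Hd k _ _, h2⟩
  have hmain : ∀ (n : ℕ) (l : List ι), l.length = n →
      P.mkQ (W k l) ∈ ⨆ n : ℕ, V0.map (Lm z ^ n) := by
    intro n
    induction n using Nat.strong_induction_on with
    | _ n ih =>
      intro l hl
      by_cases hlD : l.length < D + ℓ
      · apply Submodule.mem_iSup_of_mem 0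
        rw [pow_zero]
        refine Submodule.mem_map.mpr ⟨P.mkQ (W k l), ?_, rfl⟩
        exact Submodule.mem_map.mpr ⟨W k l, Submodule.subset_span ⟨l, hlD, rfl⟩, rfl⟩
      · obtain ⟨b, hb, hb2⟩ := hD1 l (by omega)
        have h1 : P.mkQ (W k l) = Lm z (P.mkQ b) := by
          rw [hLm, ← sub_eq_zero, ← map_sub, Submodule.mkQ_apply, Submodule.Quotient.mk_eq_zero]
          exact hb2
        rw [h1]
        have h2 : ∀ b ∈ Hd k (l.length - ℓ), P.mkQ b ∈ ⨆ n : ℕ, V0.map (Lm z ^ n) := by
          intro b hb
          induction hb using Submodule.span_induction with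
          | mem x hx =>
            obtain ⟨l', hl', rfl⟩ := hx
            exact ih l'.length (by omega) l' rfl
          | zero => rw [map_zero]; exact Submodule.zero_mem _
          | add a b _ _ ha hb => rw [map_add]; exact Submodule.add_mem _ ha hb
          | smul c a _ ha => rw [map_smul]; exact Submodule.smul_mem _ _ ha
        have h3 : ∀ v ∈ ⨆ n : ℕ, V0.map (Lm z ^ n), Lm z v ∈ ⨆ n : ℕ, V0.map (Lm z ^ n) := by
          intro v hv
          refine Submodule.iSup_induction' (p := fun n : ℕ => V0.map (Lm z ^ n))
            (motive := fun v _ => Lm z v ∈ ⨆ n : ℕ, V0.map (Lm z ^ n)) ?_ ?_ ?_ hv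
          · intro n w hw
            obtain ⟨u, hu, rfl⟩ := Submodule.mem_map.mp hw
            apply Submodule.mem_iSup_of_mem (n + 1)
            refine Submodule.mem_map.mpr ⟨u, hu, ?_⟩
            rw [pow_succ', Module.End.mul_apply]
          · rw [map_zero]; exact Submodule.zero_mem _
          · intro a b _ _ ha hb
            rw [map_add]; exact Submodule.add_mem _ ha hb
        exact h3 _ (h2 b hb)
  refine finite_of_commutator (Lm (W k [i])) (Lm y) (Lm z) ?_ ?_ ?_ V0 ?_
  · intro v
    obtain ⟨a, rfl⟩ := P.mkQ_surjective v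
    rw [hLm, hLm, hLm, hLm, hLm, ← map_sub, hzdef, sub_mul, mul_assoc, mul_assoc]
  · intro v
    obtain ⟨a, rfl⟩ := P.mkQ_surjective v
    rw [hLm, hLm, hLm, hLm, ← sub_eq_zero, ← map_sub, Submodule.mkQ_apply,
      Submodule.Quotient.mk_eq_zero, ← mul_assoc, ← mul_assoc]
    exact hcent _ _
  · intro v
    obtain ⟨a, rfl⟩ := P.mkQ_surjective v
    rw [hLm, hLm, hLm, hLm, ← sub_eq_zero, ← map_sub, Submodule.mkQ_apply,
      Submodule.Quotient.mk_eq_zero, ← mul_assoc, ← mul_assoc]
    exact hcent _ _
  · intro v
    obtain ⟨a, rfl⟩ := P.mkQ_surjective v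
    induction a using W_induction with
    | hW l => exact hmain _ l rfl
    | h0 => rw [map_zero]; exact Submodule.zero_mem _
    | hadd a b ha hb => rw [map_add]; exact Submodule.add_mem _ ha hb
    | hsmul c a ha => rw [map_smul]; exact Submodule.smul_mem _ _ ha

end Ideals

end Pool.Agent.Lib51bf1a
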