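import Mathlib
import Pool.Agent.Lib_51bf1a.A2_FreeNil

/-!
The nilpotency statement for the free algebra.
-/

namespace Pool.Agent.Lib51bf1a

variable {k ι : Type*} [Field k]

/-- generators (as a vector space) of the sum of the left ideal generated by the `N`-th powers of
letters and the two-sided ideal generated by `C`. -/
def genSet (k : Type*) {ι : Type*} [Field k] (N : ℕ) (C : Set (List ι)) :
    Set (MonoidAlgebra k (FreeMonoid ι)) :=
  {a | ∃ (u : List ι) (i : ι), a = W k u * W k (List.replicate N i)} ∪
  {a | ∃ (u c v : List ι), c ∈ C ∧ a = W k u * cm k c * W k v}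

/-- The subspace spanned by `genSet`. -/
noncomputable def PI (k : Type*) {ι : Type*} [Field k] (N : ℕ) (C : Set (List ι)) :
    Submodule k (MonoidAlgebra k (FreeMonoid ι)) :=
  Submodule.span k (genSet k N C)

theorem PI_mono {N : ℕ} {C C' : Set (List ι)} (h : C ⊆ C') : PI k N C ≤ PI k N C' := by
  apply Submodule.span_mono
  rintro a (ha | ⟨u, c, v, hc, rfl⟩)
  · exact Or.inl ha
  · exact Or.inr ⟨u, c, v, h hc, rfl⟩

theorem PI_left {N : ℕ} {C : Set (List ι)} : ∀ b a, a ∈ PI k N C → b * a ∈ PI k N C := by
  apply left_of_W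
  intro l a ha
  induction ha using Submodule.span_induction with
  | mem x hx =>
    apply Submodule.subset_span
    rcases hx with ⟨u, i, rfl⟩ | ⟨u, c, v, hc, rfl⟩
    · left; exact ⟨l ++ u, i, by rw [W_append, mul_assoc]⟩
    · right; exact ⟨l ++ u, c, v, hc, by rw [W_append]; simp only [mul_assoc]⟩
  | zero => rw [mul_zero]; exact Submodule.zero_mem _
  | add a b _ _ ha hb => rw [mul_add]; exact Submodule.add_mem _ ha hb
  | smul c a _ ha => rw [mul_smul_comm]; exact Submodule.smul_mem _ _ ha

theorem PI_hom {N : ℕ} {C : Set (List ι)} : ∀ n a, a ∈ PI k N C → pr k n a ∈ PI k N C := by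
  intro n a ha
  induction ha using Submodule.span_induction with
  | mem x hx =>
    rcases hx with ⟨u, i, rfl⟩ | ⟨u, c, v, hc, rfl⟩
    · rw [← W_append, pr_W]
      split_ifs
      · rw [W_append]; exact Submodule.subset_span (Or.inl ⟨u, i, rfl⟩)
      · exact Submodule.zero_mem _
    · rw [pr_of_mem_Hd k (mul_mem_Hd k (mul_mem_Hd k (W_mem_Hd k u) (cm_mem_Hd k c))
        (W_mem_Hd k v))]
      split_ifs
      · exact Submodule.subset_span (Or.inr ⟨u, c, v, hc, rfl⟩)
      · exact Submodule.zero_mem _
  | zero => rw [map_zero]; exact Submodule.zero_mem _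
  | add a b _ _ ha hb => rw [map_add]; exact Submodule.add_mem _ ha hb
  | smul c a _ ha => rw [map_smul]; exact Submodule.smul_mem _ _ ha

theorem cm_mul_mem {N : ℕ} {C : Set (List ι)} {c : List ι} (hc : c ∈ C) (a b) :
    a * cm k c * b ∈ PI k N C := by
  rw [mul_assoc]
  apply PI_left
  induction b using W_induction with
  | hW l =>
    refine Submodule.subset_span (Or.inr ⟨[], c, l, hc, ?_⟩)
    rw [W_nil, one_mul]
  | h0 => rw [mul_zero]; exact Submodule.zero_mem _
  | hadd b b' hb hb' => rw [mul_add]; exact Submodule.add_mem _ hb hb'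
  | hsmul c b hb => rw [mul_smul_comm]; exact Submodule.smul_mem _ _ hb

theorem cent_mem {N : ℕ} {C : Set (List ι)} {l : List ι} (hl : l ≠ [])
    (hC : ∀ i : ι, i :: l ∈ C) (a b) :
    a * cm k l * b - cm k l * a * b ∈ PI k N C := by
  induction a using W_induction generalizing b with
  | hW u =>
    induction u with
    | nil => rw [W_nil]; simp
    | cons j u ih =>
      rw [W_cons]
      have h1 : W k [j] * W k u * cm k l * b - cm k l * (W k [j] * W k u) * b =
          W k [j] * (W k u * cm k l * b - cm k l * W k u * b) +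
          1 * (cm k (j :: l)) * (W k u * b) := by
        rw [cm_cons k j l hl, mul_sub, one_mul, sub_mul]
        simp only [mul_assoc]
        abel
      rw [h1]
      exact Submodule.add_mem _ (PI_left _ _ ih) (cm_mul_mem (hC j) _ _)
  | h0 => simp
  | hadd a a' ha ha' =>
    have : (a + a') * cm k l * b - cm k l * (a + a') * b =
      (a * cm k l * b - cm k l * a * b) + (a' * cm k l * b - cm k l * a' * b) := by
      simp only [add_mul, mul_add]; abel
    rw [this]; exact Submodule.add_mem _ (ha _) (ha' _)
  | hsmul c a ha =>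
    have : (c • a) * cm k l * b - cm k l * (c • a) * b =
      c • (a * cm k l * b - cm k l * a * b) := by
      simp only [smul_mul_assoc, mul_smul_comm, smul_sub]
    rw [this]; exact Submodule.smul_mem _ _ (ha _)

/-- `Q N C` : all words of some length lie in `PI N C`. -/
def QQ (k : Type*) {ι : Type*} [Field k] (N : ℕ) (C : Set (List ι)) : Prop :=
  ∃ D : ℕ, ∀ l : List ι, l.length = D → W k l ∈ PI k N C

theorem QQ_mono {N : ℕ} {C C' : Set (List ι)} (h : C ⊆ C') : QQ k N C → QQ k N C' := by
  rintro ⟨D, hD⟩
  exact ⟨D, fun l hl => PI_mono h (hD l hl)⟩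

theorem QQ_remove [CharZero k] [Finite ι] {N : ℕ} {C : Set (List ι)} (l : List ι)
    (hl : 2 ≤ l.length) (hC : ∀ i : ι, i :: l ∈ C) (h : QQ k N (insert l C)) : QQ k N C := by
  obtain ⟨D, hD⟩ := h
  obtain ⟨i, j, l', rfl⟩ : ∃ i j l', l = i :: j :: l' := by
    match l, hl with
    | i :: j :: l', _ => exact ⟨i, j, l', rfl⟩
  refine remove_central (PI k N C) PI_left PI_hom i (cm k (j :: l')) (cm k (i :: j :: l'))
    (i :: j :: l').length (by simp) (cm_cons k i _ (by simp)) (cm_mem_Hd k _)
    (cent_mem (by simp) hC) D ?_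
  intro w hw
  have h1 := hD w hw
  have h2 : ∀ a ∈ PI k N (insert (i :: j :: l') C),
      ∃ b, a - cm k (i :: j :: l') * b ∈ PI k N C := by
    intro a ha
    induction ha using Submodule.span_induction with
    | mem x hx =>
      rcases hx with ⟨u, i', rfl⟩ | ⟨u, c, v, hc, rfl⟩
      · refine ⟨0, ?_⟩
        rw [mul_zero, sub_zero]
        exact Submodule.subset_span (Or.inl ⟨u, i', rfl⟩)
      · rcases hc with rfl | hc
        · refine ⟨W k u * W k v, ?_⟩
          rw [← mul_assoc]
          exact cent_mem (by simp) hC _ _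
        · refine ⟨0, ?_⟩
          rw [mul_zero, sub_zero]
          exact Submodule.subset_span (Or.inr ⟨u, c, v, hc, rfl⟩)
    | zero => exact ⟨0, by simp⟩
    | add a a' _ _ ha ha' =>
      obtain ⟨b, hb⟩ := ha
      obtain ⟨b', hb'⟩ := ha'
      refine ⟨b + b', ?_⟩
      have : a + a' - cm k (i :: j :: l') * (b + b') =
        (a - cm k (i :: j :: l') * b) + (a' - cm k (i :: j :: l') * b') := by
        rw [mul_add]; abel
      rw [this]; exact Submodule.add_mem _ hb hb'
    | smul c a _ ha =>
      obtain ⟨b, hb⟩ := ha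
      refine ⟨c • b, ?_⟩
      rw [mul_smul_comm, ← smul_sub]
      exact Submodule.smul_mem _ _ hb
  exact h2 _ h1

theorem QQ_remove_finset [CharZero k] [Finite ι] {N : ℕ} {C : Set (List ι)} {S : Set (List ι)}
    (hS : S.Finite)
    (hl : ∀ l ∈ S, 2 ≤ l.length) (hC : ∀ l ∈ S, ∀ i : ι, i :: l ∈ C)
    (h : QQ k N (S ∪ C)) : QQ k N C := by
  induction S, hS using Set.Finite.induction_on with
  | empty => simpa using h
  | insert _ _ ih =>
    rename_i a s _ _
    apply ih
    · intro l hl'; exact hl l (Set.mem_insert_of_mem _ hl')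
    · intro l hl'; exact hC l (Set.mem_insert_of_mem _ hl')
    · apply QQ_remove a (hl a (Set.mem_insert _ _))
      · intro i; right; exact hC a (Set.mem_insert _ _) i
      · rwa [Set.insert_union] at h

theorem perm_mem {N : ℕ} {l l' : List ι} (h : l.Perm l') :
    W k l - W k l' ∈ PI k N {c : List ι | c.length = 2} := by
  induction h with
  | nil => simp
  | cons a h ih =>
    rename_i l₁ l₂
    rw [W_cons k a l₁, W_cons k a l₂, ← mul_sub]
    exact PI_left _ _ ih
  | swap x y l =>
    have h1 : W k (y :: x :: l) - W k (x :: y :: l) = 1 * cm k [y, x] * W k l := by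
      rw [cm_cons k y _ (by simp), W_cons k y (x :: l), W_cons k x l, W_cons k x (y :: l),
        W_cons k y l]
      simp only [cm, one_mul, sub_mul, mul_assoc]
    rw [h1]
    exact cm_mul_mem (by simp) _ _
  | trans _ _ h1 h2 =>
    have := Submodule.add_mem _ h1 h2
    rwa [sub_add_sub_cancel] at this

theorem QQ_base [Finite ι] {N : ℕ} : QQ k N {c : List ι | c.length = 2} := by
  classical
  have := Fintype.ofFinite ι
  refine ⟨Fintype.card ι * N + 1, ?_⟩
  intro l hl
  have h1 : ∃ i : ι, N ≤ l.count i := by
    by_contra hcon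
    push Not at hcon
    have h2 : ∑ i : ι, l.count i = l.length := by
      have h3 := Multiset.sum_count_eq_card (s := (Finset.univ : Finset ι)) (m := (l : Multiset ι))
        (fun a _ => Finset.mem_univ a)
      simpa using h3
    have h3 : ∑ i : ι, l.count i ≤ ∑ i : ι, N := Finset.sum_le_sum (fun i _ => (hcon i).le)
    rw [h2, Finset.sum_const, Finset.card_univ, smul_eq_mul] at h3
    omega
  obtain ⟨i, hi⟩ := h1
  have h2 : ∃ u : List ι, l.Perm (u ++ List.replicate N i) := by
    have h3 : (Multiset.replicate N i) ≤ (l : Multiset ι) := by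
      rw [← Multiset.le_count_iff_replicate_le, Multiset.coe_count]
      exact hi
    obtain ⟨t, ht⟩ := Multiset.le_iff_exists_add.mp h3
    refine ⟨t.toList, ?_⟩
    rw [← Multiset.coe_eq_coe, ht, ← Multiset.coe_add, Multiset.coe_toList, add_comm,
      Multiset.coe_replicate]
  obtain ⟨u, hu⟩ := h2
  have h3 := perm_mem (k := k) (N := N) hu
  have h4 : W k (u ++ List.replicate N i) ∈ PI k N {c : List ι | c.length = 2} := by
    rw [W_append]
    exact Submodule.subset_span (Or.inl ⟨u, i, rfl⟩)
  have := Submodule.add_mem _ h3 h4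
  rwa [sub_add_cancel] at this

theorem QQ_all [CharZero k] [Finite ι] {N : ℕ} (c : ℕ) :
    QQ k N {l : List ι | l.length = c + 2} := by
  induction c with
  | zero => exact QQ_base
  | succ c ih =>
    apply QQ_remove_finset (S := {l : List ι | l.length = c + 2}) (List.finite_length_eq ι (c + 2))
    · intro l hl
      have : l.length = c + 2 := hl
      omega
    · intro l hl i
      have : l.length = c + 2 := hl
      simp [this]
    · exact QQ_mono Set.subset_union_left ih

/-- The homogeneous form. -/
theorem nil_main [CharZero k] [Finite ι] (N c : ℕ) :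
    ∃ D : ℕ, ∀ w : List ι, w.length = D → W k w ∈ Submodule.span k
      ({a | ∃ (u : List ι) (i : ι), u.length + N = D ∧ a = W k u * W k (List.replicate N i)} ∪
       {a | ∃ (u l v : List ι), l.length = c + 2 ∧ u.length + l.length + v.length = D ∧
          a = W k u * cm k l * W k v}) := by
  obtain ⟨D, hD⟩ := QQ_all (k := k) (ι := ι) (N := N) c
  refine ⟨D, fun w hw => ?_⟩
  have h1 := hD w hw
  have h2 : ∀ a ∈ PI k N {l : List ι | l.length = c + 2}, pr k D a ∈ Submodule.span k
      ({a | ∃ (u : List ι) (i : ι), u.length + N = D ∧ a = W k u * W k (List.replicate N i)} ∪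
       {a | ∃ (u l v : List ι), l.length = c + 2 ∧ u.length + l.length + v.length = D ∧
          a = W k u * cm k l * W k v}) := by
    intro a ha
    induction ha using Submodule.span_induction with
    | mem x hx =>
      rcases hx with ⟨u, i, rfl⟩ | ⟨u, l, v, hc, rfl⟩
      · rw [← W_append, pr_W]
        split_ifs with h
        · rw [W_append]
          refine Submodule.subset_span (Or.inl ⟨u, i, ?_, rfl⟩)
          simpa using h
        · exact Submodule.zero_mem _
      · rw [pr_of_mem_Hd k (mul_mem_Hd k (mul_mem_Hd k (W_mem_Hd k u) (cm_mem_Hd k l))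
          (W_mem_Hd k v))]
        split_ifs with h
        · exact Submodule.subset_span (Or.inr ⟨u, l, v, hc, h, rfl⟩)
        · exact Submodule.zero_mem _
    | zero => rw [map_zero]; exact Submodule.zero_mem _
    | add a b _ _ ha hb => rw [map_add]; exact Submodule.add_mem _ ha hb
    | smul c a _ ha => rw [map_smul]; exact Submodule.smul_mem _ _ ha
  have h3 := h2 _ h1
  rwa [pr_W, if_pos hw] at h3

end Pool.Agent.Lib51bf1a
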