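import Mathlib
import Pool.Agent.Lib_51bf1a.A3_Nil

/-!
Finite dimensionality of the solution space of a system of monic ordinary differential equations
along derivations that generate a Lie algebra of finite rank over the field.
-/

namespace Pool.Agent.Lib51bf1a

section

variable {k K ι : Type*} [Field k] [Field K] [Algebra k K]

/-- composition of the derivations along a word. -/
noncomputable def dW (δ : ι → Derivation k K K) (l : List ι) : K →ₗ[k] K :=
  (l.map (fun i => ((δ i : K →ₗ[k] K) : Module.End k K))).prod

theorem dW_nil (δ : ι → Derivation k K K) (x : K) : dW δ [] x = x := rfl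

theorem dW_cons (δ : ι → Derivation k K K) (i : ι) (l : List ι) (x : K) :
    dW δ (i :: l) x = δ i (dW δ l x) := by
  unfold dW
  rw [List.map_cons, List.prod_cons]
  rfl

theorem dW_append (δ : ι → Derivation k K K) (l l' : List ι) (x : K) :
    dW δ (l ++ l') x = dW δ l (dW δ l' x) := by
  induction l with
  | nil => rfl
  | cons i l ih => rw [List.cons_append, dW_cons, dW_cons, ih]

theorem dW_replicate (δ : ι → Derivation k K K) (i : ι) (n : ℕ) (x : K) :
    dW δ (List.replicate n i) x = (δ i)^[n] x := by
  induction n with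
  | zero => rfl
  | succ n ih => rw [List.replicate_succ, dW_cons, ih, Function.iterate_succ_apply']

/-- iterated Lie brackets of the derivations. -/
noncomputable def dcm (δ : ι → Derivation k K K) : List ι → Derivation k K K
  | [] => 0
  | [i] => δ i
  | i :: j :: l => ⁅δ i, dcm δ (j :: l)⁆

theorem dcm_cons (δ : ι → Derivation k K K) (i : ι) (l : List ι) (hl : l ≠ []) :
    dcm δ (i :: l) = ⁅δ i, dcm δ l⁆ := by
  cases l with
  | nil => exact absurd rfl hl
  | cons j l => rfl

/-- Evaluation of the free algebra at the derivations. -/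
noncomputable def ev (δ : ι → Derivation k K K) :
    MonoidAlgebra k (FreeMonoid ι) →ₐ[k] Module.End k K :=
  MonoidAlgebra.lift k (Module.End k K) (FreeMonoid ι)
    (FreeMonoid.lift (fun i => ((δ i : K →ₗ[k] K) : Module.End k K)))

theorem ev_W (δ : ι → Derivation k K K) (l : List ι) : ev δ (W k l) = dW δ l := by
  unfold ev W dW
  rw [MonoidAlgebra.lift_single, one_smul, FreeMonoid.lift_ofList]

theorem ev_cm (δ : ι → Derivation k K K) (l : List ι) (x : K) :
    ev δ (cm k l) x = dcm δ l x := by
  induction l generalizing x with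
  | nil => simp [cm, dcm]
  | cons i l ih =>
    cases l with
    | nil =>
      change ev δ (W k [i]) x = δ i x
      rw [ev_W]; rfl
    | cons j l =>
      rw [cm_cons k i _ (by simp), dcm_cons δ i _ (by simp), map_sub, map_mul, map_mul,
        Derivation.commutator_apply, LinearMap.sub_apply, Module.End.mul_apply,
        Module.End.mul_apply, ih, ih, ev_W, dW_cons, dW_nil, dW_cons, dW_nil]

/-- Span over `K` of the words of length `< n`. -/
noncomputable def Ult (δ : ι → Derivation k K K) (n : ℕ) : Submodule K (K →ₗ[k] K) :=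
  Submodule.span K {T | ∃ l : List ι, l.length < n ∧ T = dW δ l}

theorem Ult_mono (δ : ι → Derivation k K K) {n m : ℕ} (h : n ≤ m) : Ult δ n ≤ Ult δ m := by
  apply Submodule.span_mono
  rintro T ⟨l, hl, rfl⟩
  exact ⟨l, lt_of_lt_of_le hl h, rfl⟩

theorem Ult_right (δ : ι → Derivation k K K) {n : ℕ} {T : K →ₗ[k] K} (hT : T ∈ Ult δ n)
    (v : List ι) : T ∘ₗ dW δ v ∈ Ult δ (n + v.length) := by
  induction hT using Submodule.span_induction with
  | mem x hx =>
    obtain ⟨l, hl, rfl⟩ := hx
    refine Submodule.subset_span ⟨l ++ v, by rw [List.length_append]; omega, ?_⟩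
    ext y
    rw [dW_append]; rfl
  | zero => rw [LinearMap.zero_comp]; exact Submodule.zero_mem _
  | add a b _ _ ha hb => rw [LinearMap.add_comp]; exact Submodule.add_mem _ ha hb
  | smul c a _ ha =>
    have : (c • a) ∘ₗ dW δ v = c • (a ∘ₗ dW δ v) := rfl
    rw [this]; exact Submodule.smul_mem _ _ ha

/-- annihilator of a set of functions. -/
def JJ (Sol : Submodule k K) : Submodule K (K →ₗ[k] K) where
  carrier := {T | ∀ f ∈ Sol, T f = 0}
  add_mem' := by
    intro a b ha hb f hf
    rw [LinearMap.add_apply, ha f hf, hb f hf, add_zero]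
  zero_mem' := by intro f _; rfl
  smul_mem' := by
    intro c a ha f hf
    rw [LinearMap.smul_apply, ha f hf, smul_zero]

theorem left_cons (δ : ι → Derivation k K K) (Sol : Submodule k K) {n : ℕ} {T : K →ₗ[k] K}
    (hT : T ∈ JJ Sol ⊔ Ult δ n) (i : ι) : dW δ [i] ∘ₗ T ∈ JJ Sol ⊔ Ult δ (n + 1) := by
  obtain ⟨A, hA, B, hB, rfl⟩ := Submodule.mem_sup.mp hT
  rw [LinearMap.comp_add]
  apply Submodule.add_mem
  · apply Submodule.mem_sup_left
    intro f hf
    rw [LinearMap.comp_apply, hA f hf, map_zero]
  · apply Submodule.mem_sup_right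
    clear hA hT A
    induction hB using Submodule.span_induction with
    | mem x hx =>
      obtain ⟨l, hl, rfl⟩ := hx
      refine Submodule.subset_span ⟨i :: l, by simpa using hl, ?_⟩
      ext y
      rw [dW_cons]; rfl
    | zero => rw [LinearMap.comp_zero]; exact Submodule.zero_mem _
    | add a b _ _ ha hb => rw [LinearMap.comp_add]; exact Submodule.add_mem _ ha hb
    | smul c a ha' ha =>
      have h1 : dW δ [i] ∘ₗ (c • a) = c • (dW δ [i] ∘ₗ a) + (δ i c) • a := by
        ext y
        simp only [LinearMap.comp_apply, LinearMap.smul_apply, LinearMap.add_apply, dW_cons,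
          dW_nil, smul_eq_mul, Derivation.leibniz]
        ring
      rw [h1]
      exact Submodule.add_mem _ (Submodule.smul_mem _ _ ha)
        (Submodule.smul_mem _ _ (Ult_mono δ (Nat.le_succ n) ha'))

theorem left_word (δ : ι → Derivation k K K) (Sol : Submodule k K) {n : ℕ} {T : K →ₗ[k] K}
    (hT : T ∈ JJ Sol ⊔ Ult δ n) (u : List ι) : dW δ u ∘ₗ T ∈ JJ Sol ⊔ Ult δ (n + u.length) := by
  induction u with
  | nil => exact hT
  | cons i u ih =>
    have h1 := left_cons δ Sol ih i
    have h2 : dW δ (i :: u) ∘ₗ T = dW δ [i] ∘ₗ (dW δ u ∘ₗ T) := by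
      ext y
      simp only [LinearMap.comp_apply, dW_cons, dW_nil]
    rw [h2]
    exact h1

theorem ev_Hd (δ : ι → Derivation k K K) {n : ℕ} {a : MonoidAlgebra k (FreeMonoid ι)}
    (ha : a ∈ Hd k n) : (ev δ a : K →ₗ[k] K) ∈ Ult δ (n + 1) := by
  induction ha using Submodule.span_induction with
  | mem x hx =>
    obtain ⟨l, hl, rfl⟩ := hx
    rw [ev_W]
    exact Submodule.subset_span ⟨l, by omega, rfl⟩
  | zero => rw [map_zero]; exact Submodule.zero_mem _
  | add a b _ _ ha hb => rw [map_add]; exact Submodule.add_mem _ ha hb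
  | smul c a _ ha =>
    rw [map_smul]
    have : (c • (ev δ a) : K →ₗ[k] K) = (algebraMap k K c) • (ev δ a : K →ₗ[k] K) := by
      ext y
      simp [Algebra.smul_def]
    rw [this]
    exact Submodule.smul_mem _ _ ha

theorem dcm_mem (δ : ι → Derivation k K K) (l : List ι) :
    ((dcm δ l : Derivation k K K) : K →ₗ[k] K) ∈ Ult δ (l.length + 1) := by
  have h := ev_Hd δ (cm_mem_Hd k l)
  have h2 : (ev δ (cm k l) : K →ₗ[k] K) = ((dcm δ l : Derivation k K K) : K →ₗ[k] K) := by
    ext y
    exact ev_cm δ l y
  rwa [h2] at h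

theorem span_dcm_mem (δ : ι → Derivation k K K) (n : ℕ) (d : Derivation k K K)
    (hd : d ∈ Submodule.span K {d | ∃ l' : List ι, l'.length ≤ n ∧ d = dcm δ l'}) :
    (d : K →ₗ[k] K) ∈ Ult δ (n + 1) := by
  induction hd using Submodule.span_induction with
  | mem x hx =>
    obtain ⟨l', hl', rfl⟩ := hx
    exact Ult_mono δ (by omega) (dcm_mem δ l')
  | zero => exact Submodule.zero_mem _
  | add a b _ _ ha hb => exact Submodule.add_mem _ ha hb
  | smul c a _ ha => exact Submodule.smul_mem _ _ ha

/-- Key proposition: long words reduce. -/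
theorem exists_reduce [CharZero k] [Finite ι] (δ : ι → Derivation k K K) (c : ℕ)
    (hbg : ∀ l : List ι, l.length = c + 2 →
      dcm δ l ∈ Submodule.span K {d | ∃ l' : List ι, l'.length ≤ c + 1 ∧ d = dcm δ l'})
    (Sol : Submodule k K)
    (hode : ∀ i : ι, ∃ (n : ℕ) (a : ℕ → K), ∀ f ∈ Sol,
      (δ i)^[n] f = ∑ j ∈ Finset.range n, a j * (δ i)^[j] f) :
    ∃ D : ℕ, 1 ≤ D ∧ ∀ w : List ι, dW δ w ∈ JJ Sol ⊔ Ult δ D := by
  classical
  -- a common exponent
  have hode2 : ∃ N : ℕ, ∀ i : ι, dW δ (List.replicate N i) ∈ JJ Sol ⊔ Ult δ N := by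
    choose n a ha using hode
    have := Fintype.ofFinite ι
    refine ⟨∑ i, n i, ?_⟩
    intro i
    have h1 : dW δ (List.replicate (n i) i) ∈ JJ Sol ⊔ Ult δ (n i) := by
      have h2 : dW δ (List.replicate (n i) i) =
          (dW δ (List.replicate (n i) i) -
            ∑ j ∈ Finset.range (n i), a i j • dW δ (List.replicate j i)) +
            ∑ j ∈ Finset.range (n i), a i j • dW δ (List.replicate j i) := by abel
      rw [h2]
      apply Submodule.add_mem
      · apply Submodule.mem_sup_left
        intro f hf
        rw [LinearMap.sub_apply, LinearMap.sum_apply, dW_replicate, ha i f hf, sub_eq_zero]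
        apply Finset.sum_congr rfl
        intro j _
        rw [LinearMap.smul_apply, dW_replicate, smul_eq_mul]
      · apply Submodule.mem_sup_right
        apply Submodule.sum_mem
        intro j hj
        apply Submodule.smul_mem
        refine Submodule.subset_span ⟨_, ?_, rfl⟩
        rw [List.length_replicate]
        exact Finset.mem_range.mp hj
    have hle : n i ≤ ∑ i, n i := Finset.single_le_sum (fun _ _ => Nat.zero_le _) (Finset.mem_univ i)
    have h3 := left_word δ Sol h1 (List.replicate (∑ i, n i - n i) i)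
    rw [List.length_replicate, Nat.add_sub_cancel' hle] at h3
    have h4 : dW δ (List.replicate (∑ i, n i - n i) i) ∘ₗ dW δ (List.replicate (n i) i) =
        dW δ (List.replicate (∑ i, n i) i) := by
      ext y
      rw [LinearMap.comp_apply, ← dW_append, ← List.replicate_add, Nat.sub_add_cancel hle]
    rwa [h4] at h3
  obtain ⟨N, hN⟩ := hode2
  obtain ⟨D, hD⟩ := nil_main (k := k) (ι := ι) N c
  have h1 : ∀ w : List ι, w.length = D → dW δ w ∈ JJ Sol ⊔ Ult δ D := by
    intro w hw
    have h2 := hD w hw
    rw [← ev_W]
    have h3 : ∀ a ∈ Submodule.span k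
      ({a | ∃ (u : List ι) (i : ι), u.length + N = D ∧ a = W k u * W k (List.replicate N i)} ∪
       {a | ∃ (u l v : List ι), l.length = c + 2 ∧ u.length + l.length + v.length = D ∧
          a = W k u * cm k l * W k v}), (ev δ a : K →ₗ[k] K) ∈ JJ Sol ⊔ Ult δ D := by
      intro a ha
      induction ha using Submodule.span_induction with
      | mem x hx =>
        rcases hx with ⟨u, i, hu, rfl⟩ | ⟨u, l, v, hl, huv, rfl⟩
        · rw [map_mul, ev_W, ev_W]
          have h4 := left_word δ Sol (hN i) u
          rw [add_comm, hu] at h4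
          exact h4
        · rw [map_mul, map_mul, ev_W, ev_W]
          have h5 : (ev δ (cm k l) : K →ₗ[k] K) = ((dcm δ l : Derivation k K K) : K →ₗ[k] K) := by
            ext y
            exact ev_cm δ l y
          have h6 : (ev δ (cm k l) : K →ₗ[k] K) ∈ Ult δ (c + 2) := by
            rw [h5]
            exact span_dcm_mem δ (c + 1) _ (hbg l hl)
          have h8 := left_word δ Sol
            (Submodule.mem_sup_right (S := JJ Sol) (Ult_right δ h6 v)) u
          have h9 : c + 2 + v.length + u.length = D := by omega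
          rw [h9] at h8
          exact h8
      | zero => rw [map_zero]; exact Submodule.zero_mem _
      | add a b _ _ ha hb => rw [map_add]; exact Submodule.add_mem _ ha hb
      | smul c a _ ha =>
        rw [map_smul]
        have : (c • (ev δ a) : K →ₗ[k] K) = (algebraMap k K c) • (ev δ a : K →ₗ[k] K) := by
          ext y
          simp [Algebra.smul_def]
        rw [this]
        exact Submodule.smul_mem _ _ ha
    exact h3 _ h2
  have h1' : ∀ w : List ι, w.length = D + 1 → dW δ w ∈ JJ Sol ⊔ Ult δ (D + 1) := by
    intro w hw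
    cases w with
    | nil => simp at hw
    | cons i w =>
      have h2 := left_cons δ Sol (h1 w (by simpa using hw)) i
      have h3 : dW δ [i] ∘ₗ dW δ w = dW δ (i :: w) := by
        ext y
        simp only [LinearMap.comp_apply, dW_cons, dW_nil]
      rwa [h3] at h2
  refine ⟨D + 1, by omega, ?_⟩
  have h2 : ∀ (n : ℕ) (w : List ι), w.length = n → dW δ w ∈ JJ Sol ⊔ Ult δ (D + 1) := by
    intro n
    induction n using Nat.strong_induction_on with
    | _ n ih =>
      intro w hw
      by_cases hlt : w.length < D + 1
      · apply Submodule.mem_sup_right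
        exact Submodule.subset_span ⟨w, hlt, rfl⟩
      · have h3 := left_word δ Sol
          (h1' (w.drop (w.length - (D + 1))) (by rw [List.length_drop]; omega))
          (w.take (w.length - (D + 1)))
        have h4 : dW δ (w.take (w.length - (D + 1))) ∘ₗ dW δ (w.drop (w.length - (D + 1))) =
            dW δ w := by
          ext y
          rw [LinearMap.comp_apply, ← dW_append, List.take_append_drop]
        rw [h4, List.length_take] at h3
        have h5 : D + 1 + min (w.length - (D + 1)) w.length = w.length := by omega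
        rw [h5] at h3
        have h6 : JJ Sol ⊔ Ult δ w.length ≤ JJ Sol ⊔ Ult δ (D + 1) := by
          apply sup_le le_sup_left
          apply Submodule.span_le.mpr
          rintro T ⟨l, hl, rfl⟩
          exact ih l.length (by omega) l rfl
        exact h6 h3
  intro w
  exact h2 _ w rfl

theorem exists_matrix [CharZero k] [Finite ι] (δ : ι → Derivation k K K) (Sol : Submodule k K)
    {D : ℕ} (hD : ∀ w : List ι, dW δ w ∈ JJ Sol ⊔ Ult δ D) (w : List ι) :
    ∃ A : {l : List ι // l.length < D} →₀ K, ∀ f ∈ Sol, dW δ w f = A.sum (fun l a => a * dW δ l f) := by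
  obtain ⟨T, hT, B, hB, hTB⟩ := Submodule.mem_sup.mp (hD w)
  have h1 : ∃ A : {l : List ι // l.length < D} →₀ K, B = A.sum (fun l a => a • dW δ l) := by
    clear hTB hT
    induction hB using Submodule.span_induction with
    | mem x hx =>
      obtain ⟨l, hl, rfl⟩ := hx
      refine ⟨Finsupp.single ⟨l, hl⟩ 1, ?_⟩
      rw [Finsupp.sum_single_index (by rw [zero_smul]), one_smul]
    | zero => exact ⟨0, by simp⟩
    | add a b _ _ ha hb =>
      obtain ⟨A, hA⟩ := ha
      obtain ⟨A', hA'⟩ := hb
      refine ⟨A + A', ?_⟩
      rw [Finsupp.sum_add_index' (by intro; rw [zero_smul]) (by intros; rw [add_smul]), hA, hA']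
    | smul c a _ ha =>
      obtain ⟨A, hA⟩ := ha
      refine ⟨c • A, ?_⟩
      rw [Finsupp.sum_smul_index (by intro; rw [zero_smul]), hA, Finsupp.smul_sum]
      simp only [mul_smul]
  obtain ⟨A, hA⟩ := h1
  refine ⟨A, fun f hf => ?_⟩
  rw [← hTB, LinearMap.add_apply, hT f hf, zero_add, hA, Finsupp.sum, LinearMap.sum_apply]
  rfl

/-- Wronskian argument. -/
theorem linearIndependent_jets [CharZero k] [Finite ι] (δ : ι → Derivation k K K)
    (hconst : ∀ x : K, (∀ i, δ i x = 0) → ∃ c : k, algebraMap k K c = x)
    (Sol : Submodule k K) {D : ℕ} (hD1 : 1 ≤ D) (hD : ∀ w : List ι, dW δ w ∈ JJ Sol ⊔ Ult δ D)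
    (r : ℕ) (v : Fin r → K) (hv : ∀ j, v j ∈ Sol) (hli : LinearIndependent k v) :
    LinearIndependent K (fun (j : Fin r) (l : {l : List ι // l.length < D}) => dW δ l (v j)) := by
  induction r with
  | zero => exact linearIndependent_empty_type
  | succ r ih =>
    rw [linearIndependent_finSucc] at hli ⊢
    have ih' := ih (Fin.tail v) (fun j => hv _) hli.1
    refine ⟨ih', ?_⟩
    intro hmem
    obtain ⟨g, hg⟩ := (Submodule.mem_span_range_iff_exists_fun K).mp hmem
    have hg' : ∀ l : {l : List ι // l.length < D},
        dW δ l (v 0) = ∑ j, g j * dW δ l (v (Fin.succ j)) := by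
      intro l
      have := congrFun hg l
      rw [Finset.sum_apply] at this
      exact this.symm
    have hder : ∀ i j, δ i (g j) = 0 := by
      intro i
      have h1 : ∀ l : {l : List ι // l.length < D},
          ∑ j, δ i (g j) * dW δ l (v (Fin.succ j)) = 0 := by
        intro l
        obtain ⟨A, hA⟩ := exists_matrix δ Sol hD (i :: (l : List ι))
        have h2 : δ i (dW δ l (v 0)) = ∑ j, g j * δ i (dW δ l (v (Fin.succ j))) := by
          rw [← dW_cons, hA _ (hv 0)]
          have h3 : ∀ j : Fin r, δ i (dW δ l (v (Fin.succ j))) =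
              A.sum (fun l a => a * dW δ l (v (Fin.succ j))) := by
            intro j; rw [← dW_cons, hA _ (hv _)]
          simp only [h3, Finsupp.sum, hg']
          simp only [Finset.mul_sum]
          rw [Finset.sum_comm]
          apply Finset.sum_congr rfl
          intro j _
          apply Finset.sum_congr rfl
          intro l _
          ring
        rw [hg' l, map_sum] at h2
        simp only [Derivation.leibniz, smul_eq_mul] at h2
        rw [Finset.sum_add_distrib] at h2
        have h4 : ∑ j, dW δ (l : List ι) (v (Fin.succ j)) * δ i (g j) = 0 := by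
          linear_combination h2
        rw [← h4]
        apply Finset.sum_congr rfl
        intro j _
        ring
      have h2 := Fintype.linearIndependent_iff.mp ih' (fun j => δ i (g j)) (by
        funext l
        rw [Finset.sum_apply]
        exact h1 l)
      exact h2
    have hc : ∀ j, ∃ c : k, algebraMap k K c = g j := fun j => hconst _ (fun i => hder i j)
    choose c hc using hc
    apply hli.2
    rw [Submodule.mem_span_range_iff_exists_fun]
    refine ⟨c, ?_⟩
    have h5 := hg' ⟨[], show ([] : List ι).length < D from hD1⟩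
    simp only [dW_nil] at h5
    rw [h5]
    apply Finset.sum_congr rfl
    intro j _
    rw [← hc j, Algebra.smul_def]
    rfl

/-- The finiteness theorem. -/
theorem finiteDimensional_sol [CharZero k] [Finite ι] (δ : ι → Derivation k K K) (c : ℕ)
    (hbg : ∀ l : List ι, l.length = c + 2 →
      dcm δ l ∈ Submodule.span K {d | ∃ l' : List ι, l'.length ≤ c + 1 ∧ d = dcm δ l'})
    (hconst : ∀ x : K, (∀ i, δ i x = 0) → ∃ c : k, algebraMap k K c = x)
    (Sol : Submodule k K)
    (hode : ∀ i : ι, ∃ (n : ℕ) (a : ℕ → K), ∀ f ∈ Sol,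
      (δ i)^[n] f = ∑ j ∈ Finset.range n, a j * (δ i)^[j] f) :
    FiniteDimensional k Sol := by
  classical
  obtain ⟨D, hD1, hD⟩ := exists_reduce δ c hbg Sol hode
  have hfin : Finite {l : List ι // l.length < D} := (List.finite_length_lt ι D).to_subtype
  have := Fintype.ofFinite {l : List ι // l.length < D}
  have hrank : Module.rank k Sol ≤ (Fintype.card {l : List ι // l.length < D} : ℕ) := by
    apply rank_le
    intro s hs
    have h1 : LinearIndependent k (fun j : Fin s.card => ((s.equivFin.symm j : Sol) : K)) := by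
      have h2 : LinearIndependent k (fun j : Fin s.card => (s.equivFin.symm j : Sol)) :=
        hs.comp _ s.equivFin.symm.injective
      exact h2.map' Sol.subtype (Submodule.ker_subtype _)
    have h2 := linearIndependent_jets δ hconst Sol hD1 hD s.card _ (fun j => Submodule.coe_mem _) h1
    have h3 := h2.fintype_card_le_finrank
    simpa using h3
  exact Module.rank_lt_aleph0_iff.mp (lt_of_le_of_lt hrank (Cardinal.natCast_lt_aleph0))

end

end Pool.Agent.Lib51bf1a
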