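import Mathlib

/-!
Extension of derivations to the fraction field; constants of the field of fractions of a formal
power series ring.
-/

namespace Pool.Agent.Lib51bf1a

section Ext

variable {k R K : Type*} [Field k] [CommRing R] [IsDomain R] [Algebra k R]
  [Field K] [Algebra R K] [IsFractionRing R K] [Algebra k K] [IsScalarTower k R K]

/-- The ring homomorphism `r ↦ r + ε D r`. -/
noncomputable def dualHom (D : Derivation k R R) : R →+* TrivSqZeroExt K K where
  toFun r := TrivSqZeroExt.inl (algebraMap R K r) + TrivSqZeroExt.inr (algebraMap R K (D r))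
  map_one' := by simp
  map_mul' x y := by
    apply TrivSqZeroExt.ext
    · simp
    · simp only [TrivSqZeroExt.snd_add, TrivSqZeroExt.snd_inl, TrivSqZeroExt.snd_inr,
        TrivSqZeroExt.snd_mul, TrivSqZeroExt.fst_add, TrivSqZeroExt.fst_inl,
        TrivSqZeroExt.fst_inr, smul_eq_mul, MulOpposite.smul_eq_mul_unop, MulOpposite.unop_op,
        Derivation.leibniz, map_add, map_mul, zero_add, add_zero]
      ring
  map_zero' := by simp
  map_add' x y := by
    apply TrivSqZeroExt.ext
    · simp
    · simp only [TrivSqZeroExt.snd_add, TrivSqZeroExt.snd_inl, TrivSqZeroExt.snd_inr, map_add,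
        zero_add]

theorem dualHom_isUnit (D : Derivation k R R) (y : nonZeroDivisors R) :
    IsUnit (dualHom (K := K) D y) := by
  rw [TrivSqZeroExt.isUnit_iff_isUnit_fst]
  have h : (dualHom (K := K) D y).fst = algebraMap R K y := by simp [dualHom]
  rw [h]
  exact IsLocalization.map_units K y

/-- The lift to the fraction field. -/
noncomputable def dualLift (D : Derivation k R R) : K →+* TrivSqZeroExt K K :=
  IsLocalization.lift (M := nonZeroDivisors R) (dualHom_isUnit (K := K) D)

theorem dualLift_algebraMap (D : Derivation k R R) (r : R) :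
    dualLift (K := K) D (algebraMap R K r) =
      TrivSqZeroExt.inl (algebraMap R K r) + TrivSqZeroExt.inr (algebraMap R K (D r)) := by
  unfold dualLift
  rw [IsLocalization.lift_eq]
  rfl

theorem dualLift_fst (D : Derivation k R R) (x : K) : (dualLift (K := K) D x).fst = x := by
  have h : ((TrivSqZeroExt.fstHom K K K : TrivSqZeroExt K K →ₐ[K] K) : TrivSqZeroExt K K →+* K).comp
      (dualLift (K := K) D) = RingHom.id K := by
    apply IsLocalization.ringHom_ext (nonZeroDivisors R)
    ext r
    simp [dualLift_algebraMap]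
  exact congrArg (fun f : K →+* K => f x) h

/-- Extension of a derivation to the fraction field. -/
noncomputable def extDer (D : Derivation k R R) : Derivation k K K where
  toFun x := (dualLift (K := K) D x).snd
  map_add' x y := by rw [map_add]; rfl
  map_smul' c x := by
    rw [Algebra.smul_def, map_mul, IsScalarTower.algebraMap_apply k R K, dualLift_algebraMap,
      Derivation.map_algebraMap]
    rw [TrivSqZeroExt.snd_mul]
    simp [dualLift_fst, Algebra.smul_def, IsScalarTower.algebraMap_apply k R K]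
  map_one_eq_zero' := by
    change (dualLift (K := K) D 1).snd = 0
    rw [map_one]; rfl
  leibniz' x y := by
    change (dualLift (K := K) D (x * y)).snd = _
    rw [map_mul, TrivSqZeroExt.snd_mul, dualLift_fst, dualLift_fst]
    simp [mul_comm]

theorem extDer_algebraMap (D : Derivation k R R) (r : R) :
    extDer (K := K) D (algebraMap R K r) = algebraMap R K (D r) := by
  change (dualLift (K := K) D _).snd = _
  rw [dualLift_algebraMap]
  simp only [TrivSqZeroExt.snd_add, TrivSqZeroExt.snd_inl, TrivSqZeroExt.snd_inr, zero_add]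

omit [Algebra k R] [IsScalarTower k R K] in
theorem der_ext (D₁ D₂ : Derivation k K K) (h : ∀ r : R, D₁ (algebraMap R K r) =
    D₂ (algebraMap R K r)) : D₁ = D₂ := by
  ext x
  obtain ⟨a, b, hb, rfl⟩ := IsFractionRing.div_surjective (A := R) x
  have hb0 : algebraMap R K b ≠ 0 := by
    rw [Ne, FaithfulSMul.algebraMap_eq_zero_iff]
    exact nonZeroDivisors.ne_zero hb
  have key : ∀ D : Derivation k K K, D (algebraMap R K a / algebraMap R K b) =
      (D (algebraMap R K a) - (algebraMap R K a / algebraMap R K b) * D (algebraMap R K b)) /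
        algebraMap R K b := by
    intro D
    have h1 : D (algebraMap R K a) =
        D ((algebraMap R K a / algebraMap R K b) * algebraMap R K b) := by
      rw [div_mul_cancel₀ _ hb0]
    rw [Derivation.leibniz] at h1
    rw [h1]
    field_simp
    simp only [smul_eq_mul]
    field_simp
    ring
  rw [key D₁, key D₂, h a, h b]

theorem extDer_comm (D₁ D₂ : Derivation k R R) (h : ∀ r, D₁ (D₂ r) = D₂ (D₁ r)) (x : K) :
    extDer (K := K) D₁ (extDer (K := K) D₂ x) = extDer (K := K) D₂ (extDer (K := K) D₁ x) := by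
  have h1 : ⁅extDer (K := K) D₁, extDer (K := K) D₂⁆ = 0 := by
    apply der_ext (R := R)
    intro r
    rw [Derivation.commutator_apply, extDer_algebraMap, extDer_algebraMap, extDer_algebraMap,
      extDer_algebraMap, h r, sub_self]
    rfl
  have h2 := congrArg (fun D : Derivation k K K => D x) h1
  simp only [Derivation.commutator_apply, Derivation.coe_zero, Pi.zero_apply] at h2
  exact sub_eq_zero.mp h2

end Ext

section Const

open MvPowerSeries

variable {m : ℕ}

instance instIsDomainPS : IsDomain (MvPowerSeries (Fin m) ℂ) := NoZeroDivisors.to_isDomain _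

theorem coeff_mul_lex {φ ψ : MvPowerSeries (Fin m) ℂ} {p q : Fin m →₀ ℕ}
    (hp : ((toLex p : Lex (Fin m →₀ ℕ)) : WithTop (Lex (Fin m →₀ ℕ))) ≤ lexOrder φ)
    (hq : ((toLex q : Lex (Fin m →₀ ℕ)) : WithTop (Lex (Fin m →₀ ℕ))) ≤ lexOrder ψ) :
    coeff (p + q) (φ * ψ) = coeff p φ * coeff q ψ := by
  rw [coeff_mul, Finset.sum_eq_single_of_mem ⟨p, q⟩ (by simp)]
  rintro ⟨u, v⟩ h h'
  rw [Finset.HasAntidiagonal.mem_antidiagonal] at h
  rcases trichotomy_of_add_eq_add (congrArg toLex h) with h'' | h'' | h''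
  · exact False.elim (h' (Prod.ext h''.1 h''.2))
  · rw [coeff_eq_zero_of_lt_lexOrder (d := u), zero_mul]
    refine lt_of_lt_of_le ?_ hp
    exact_mod_cast h''
  · rw [coeff_eq_zero_of_lt_lexOrder (d := v), mul_zero]
    refine lt_of_lt_of_le ?_ hq
    exact_mod_cast h''

/-- The Euler-type operator `X_i ∂_i`. -/
theorem coeff_X_mul_pderiv (f : MvPowerSeries (Fin m) ℂ) (i : Fin m) (n : Fin m →₀ ℕ) :
    coeff n (X i * pderiv ℂ i f) = (n i : ℂ) * coeff n f := by
  classical
  rw [X, coeff_monomial_mul]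
  by_cases h : n i = 0
  · have h1 : ¬ Finsupp.single i 1 ≤ n := by
      intro h2
      have := h2 i
      rw [Finsupp.single_eq_same, h] at this
      omega
    rw [if_neg h1, h]; simp
  · have h1 : Finsupp.single i 1 ≤ n := by
      rw [Finsupp.single_le_iff]; omega
    rw [if_pos h1, one_mul, coeff_pderiv, tsub_add_cancel_of_le h1, Finsupp.tsub_apply,
      Finsupp.single_eq_same, Nat.cast_sub (by omega)]
    push_cast
    ring

theorem lex_min_eq {a b : MvPowerSeries (Fin m) ℂ} {p q : Fin m →₀ ℕ}
    (hp : lexOrder a = toLex p) (hq : lexOrder b = toLex q)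
    (h : ∀ i, a * pderiv ℂ i b = b * pderiv ℂ i a) : p = q := by
  have ha := coeff_ne_zero_of_lexOrder hp.symm
  have hb := coeff_ne_zero_of_lexOrder hq.symm
  have hle : ∀ (f : MvPowerSeries (Fin m) ℂ) (r : Fin m →₀ ℕ) (i : Fin m), lexOrder f = toLex r →
      ((toLex r : Lex (Fin m →₀ ℕ)) : WithTop (Lex (Fin m →₀ ℕ))) ≤
        lexOrder (X i * pderiv ℂ i f) := by
    intro f r i hr
    rw [le_lexOrder_iff]
    intro d hd
    rw [coeff_X_mul_pderiv, coeff_eq_zero_of_lt_lexOrder (by rw [hr]; exact hd), mul_zero]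
  ext i
  have h1 : a * (X i * pderiv ℂ i b) = b * (X i * pderiv ℂ i a) := by
    linear_combination (X i) * h i
  have h2 := congrArg (coeff (p + q)) h1
  rw [coeff_mul_lex hp.ge (hle b q i hq), add_comm p q, coeff_mul_lex hq.ge (hle a p i hp),
    coeff_X_mul_pderiv, coeff_X_mul_pderiv] at h2
  have h3 : (coeff p a * coeff q b) * ((q i : ℂ) - (p i : ℂ)) = 0 := by
    linear_combination h2
  rcases mul_eq_zero.mp h3 with h4 | h4
  · exact absurd h4 (mul_ne_zero ha hb)
  · have h5 : (q i : ℂ) = (p i : ℂ) := sub_eq_zero.mp h4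
    exact_mod_cast h5.symm

theorem const_ratio {a b : MvPowerSeries (Fin m) ℂ} (hb : b ≠ 0)
    (h : ∀ i, a * pderiv ℂ i b = b * pderiv ℂ i a) : ∃ c : ℂ, a = C c * b := by
  obtain ⟨q, hq⟩ := exists_finsupp_eq_lexOrder_of_ne_zero hb
  have hbq := coeff_ne_zero_of_lexOrder hq.symm
  refine ⟨coeff q a / coeff q b, ?_⟩
  by_contra hne
  have hne' : a - C (coeff q a / coeff q b) * b ≠ 0 := sub_ne_zero.mpr hne
  obtain ⟨p, hp⟩ := exists_finsupp_eq_lexOrder_of_ne_zero hne'
  have h1 : p = q := by
    apply lex_min_eq hp hq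
    intro i
    rw [map_sub, Derivation.leibniz, pderiv_C, smul_zero, add_zero, smul_eq_mul, sub_mul, mul_sub,
      h i]
    ring
  subst h1
  have h2 := coeff_ne_zero_of_lexOrder hp.symm
  apply h2
  rw [map_sub, coeff_C_mul, div_mul_cancel₀ _ hbq, sub_self]

/-- Constants of the fraction field. -/
theorem const_frac {K : Type*} [Field K] [Algebra (MvPowerSeries (Fin m) ℂ) K]
    [IsFractionRing (MvPowerSeries (Fin m) ℂ) K] [Algebra ℂ K]
    [IsScalarTower ℂ (MvPowerSeries (Fin m) ℂ) K] (x : K)
    (h : ∀ i : Fin m, extDer (R := MvPowerSeries (Fin m) ℂ) (K := K) (pderiv ℂ i) x = 0) :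
    ∃ c : ℂ, algebraMap ℂ K c = x := by
  obtain ⟨a, b, hb, rfl⟩ := IsFractionRing.div_surjective (A := MvPowerSeries (Fin m) ℂ) x
  have hb0 : b ≠ 0 := nonZeroDivisors.ne_zero hb
  have hbK : algebraMap (MvPowerSeries (Fin m) ℂ) K b ≠ 0 := by
    rw [Ne, FaithfulSMul.algebraMap_eq_zero_iff]
    exact hb0
  have h1 : ∀ i, a * pderiv ℂ i b = b * pderiv ℂ i a := by
    intro i
    have h2 := h i
    set y := algebraMap (MvPowerSeries (Fin m) ℂ) K a / algebraMap (MvPowerSeries (Fin m) ℂ) K b
      with hy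
    have h3 : algebraMap (MvPowerSeries (Fin m) ℂ) K a =
        y * algebraMap (MvPowerSeries (Fin m) ℂ) K b := by
      rw [hy, div_mul_cancel₀ _ hbK]
    have h4 : extDer (K := K) (pderiv ℂ i) (algebraMap (MvPowerSeries (Fin m) ℂ) K a) =
        y * extDer (K := K) (pderiv ℂ i) (algebraMap (MvPowerSeries (Fin m) ℂ) K b) := by
      rw [h3, Derivation.leibniz, h2, smul_zero, add_zero, smul_eq_mul]
    rw [extDer_algebraMap, extDer_algebraMap] at h4
    apply FaithfulSMul.algebraMap_injective (MvPowerSeries (Fin m) ℂ) K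
    rw [map_mul, map_mul, h4, h3]
    ring
  obtain ⟨c, hc⟩ := const_ratio hb0 h1
  refine ⟨c, ?_⟩
  rw [hc, map_mul, mul_div_assoc, div_self hbK, mul_one,
    IsScalarTower.algebraMap_apply ℂ (MvPowerSeries (Fin m) ℂ) K]
  rfl

end Const

end Pool.Agent.Lib51bf1a
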