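import Mathlib
import Pool.Agent.Lib_51bf1a.A4_Holonomic
import Pool.Agent.Lib_51bf1a.A5_FracDer

/-!
The algebraic core: formal infinitesimal CR automorphisms are finitely determined.
-/

namespace Pool.Agent.Lib51bf1a

open MvPowerSeries

/-- Formal power series in `m` variables. -/
abbrev PS (m : ℕ) := MvPowerSeries (Fin m) ℂ

/-- The field of fractions. -/
abbrev KK (m : ℕ) := FractionRing (PS m)

variable {m : ℕ}

/-- Partial derivatives on the fraction field. -/
noncomputable def pdK (i : Fin m) : Derivation ℂ (KK m) (KK m) :=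
  extDer (R := PS m) (pderiv ℂ i)

theorem pderiv_comm (i j : Fin m) (f : PS m) :
    pderiv ℂ i (pderiv ℂ j f) = pderiv ℂ j (pderiv ℂ i f) := by
  ext n
  rw [coeff_pderiv, coeff_pderiv, coeff_pderiv, coeff_pderiv, add_right_comm]
  by_cases h : i = j
  · subst h; ring
  · simp only [Finsupp.add_apply, Finsupp.single_eq_of_ne (Ne.symm h), Finsupp.single_eq_of_ne h,
      add_zero]
    ring

theorem pdK_comm (i j : Fin m) (x : KK m) : pdK i (pdK j x) = pdK j (pdK i x) :=
  extDer_comm _ _ (pderiv_comm i j) x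

theorem pdK_algebraMap (i : Fin m) (f : PS m) :
    pdK i (algebraMap (PS m) (KK m) f) = algebraMap (PS m) (KK m) (pderiv ℂ i f) :=
  extDer_algebraMap _ _

/-- The derivation with given coefficients. -/
noncomputable def DD (a : Fin m → KK m) : Derivation ℂ (KK m) (KK m) := ∑ i, a i • pdK i

theorem DD_apply (a : Fin m → KK m) (x : KK m) : DD a x = ∑ i, a i * pdK i x := by
  unfold DD
  rw [← Derivation.coeFnAddMonoidHom_apply, map_sum, Finset.sum_apply]
  rfl

theorem DD_add (a b : Fin m → KK m) : DD (a + b) = DD a + DD b := by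
  ext x
  rw [Derivation.add_apply, DD_apply, DD_apply, DD_apply, ← Finset.sum_add_distrib]
  apply Finset.sum_congr rfl
  intro i _
  rw [Pi.add_apply, add_mul]

theorem DD_smul (c : KK m) (a : Fin m → KK m) : DD (c • a) = c • DD a := by
  ext x
  rw [Derivation.smul_apply, DD_apply, DD_apply, smul_eq_mul, Finset.mul_sum]
  apply Finset.sum_congr rfl
  intro i _
  rw [Pi.smul_apply, smul_eq_mul, mul_assoc]

theorem DD_zero : DD (0 : Fin m → KK m) = 0 := by
  ext x
  rw [DD_apply]
  simp

/-- `DD` as a linear map. -/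
noncomputable def DDl : (Fin m → KK m) →ₗ[KK m] Derivation ℂ (KK m) (KK m) where
  toFun := DD
  map_add' := DD_add
  map_smul' := DD_smul

/-- Bracket of vector fields. -/
noncomputable def br (a b : Fin m → KK m) : Fin m → KK m := fun j => DD a (b j) - DD b (a j)

theorem DD_br (a b : Fin m → KK m) : DD (br a b) = ⁅DD a, DD b⁆ := by
  ext x
  rw [Derivation.commutator_apply, DD_apply, DD_apply b x, DD_apply a x, map_sum, map_sum]
  simp only [Derivation.leibniz, smul_eq_mul, Finset.sum_add_distrib]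
  have h1 : ∑ i, b i * DD a (pdK i x) = ∑ i, a i * DD b (pdK i x) := by
    simp only [DD_apply, Finset.mul_sum]
    rw [Finset.sum_comm]
    apply Finset.sum_congr rfl
    intro i _
    apply Finset.sum_congr rfl
    intro j _
    rw [pdK_comm i j]
    ring
  rw [h1]
  have h2 : ∑ i, br a b i * pdK i x = ∑ i, pdK i x * DD a (b i) - ∑ i, pdK i x * DD b (a i) := by
    rw [← Finset.sum_sub_distrib]
    apply Finset.sum_congr rfl
    intro i _
    unfold br
    ring
  rw [h2]
  ring

theorem br_add_right (a b c : Fin m → KK m) : br a (b + c) = br a b + br a c := by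
  funext j
  simp only [br, Pi.add_apply, map_add, DD_add, Derivation.add_apply]
  ring

theorem br_smul_right (k : KK m) (a b : Fin m → KK m) :
    br a (k • b) = k • br a b + DD a k • b := by
  funext j
  simp only [br, Pi.add_apply, Pi.smul_apply, smul_eq_mul, Derivation.leibniz, DD_smul,
    Derivation.smul_apply]
  ring

theorem br_sub_right (a b c : Fin m → KK m) : br a (b - c) = br a b - br a c := by
  have h := br_add_right a (b - c) c
  rw [sub_add_cancel] at h
  rw [h, add_sub_cancel_right]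

/-- Vector fields annihilating the functions `ψ`. -/
noncomputable def kerS {N : ℕ} (ψ : Fin N → KK m) : Submodule (KK m) (Fin m → KK m) where
  carrier := {a | ∀ j, DD a (ψ j) = 0}
  add_mem' := by
    intro a b ha hb j
    rw [DD_add, Derivation.add_apply, ha j, hb j, add_zero]
  zero_mem' := by intro j; rw [DD_zero]; rfl
  smul_mem' := by
    intro c a ha j
    rw [DD_smul, Derivation.smul_apply, ha j, smul_zero]

theorem mem_kerS {N : ℕ} {ψ : Fin N → KK m} {a : Fin m → KK m} :
    a ∈ kerS ψ ↔ ∀ j, DD a (ψ j) = 0 := Iff.rfl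

theorem br_mem_kerS {N : ℕ} {ψ : Fin N → KK m} {a b : Fin m → KK m} (ha : a ∈ kerS ψ)
    (hb : b ∈ kerS ψ) : br a b ∈ kerS ψ := by
  intro j
  rw [DD_br, Derivation.commutator_apply, ha j, hb j, map_zero, map_zero, sub_zero]

/-- iterated brackets of coefficient vectors. -/
noncomputable def bcm {ι : Type*} (g : ι → Fin m → KK m) : List ι → (Fin m → KK m)
  | [] => 0
  | [i] => g i
  | i :: j :: l => br (g i) (bcm g (j :: l))

theorem dcm_DD {ι : Type*} (g : ι → Fin m → KK m) (l : List ι) :
    dcm (fun i => DD (g i)) l = DD (bcm g l) := by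
  induction l with
  | nil => simp [dcm, bcm, DD_zero]
  | cons i l ih =>
    cases l with
    | nil => rfl
    | cons j l =>
      change ⁅DD (g i), dcm (fun i => DD (g i)) (j :: l)⁆ = DD (br (g i) (bcm g (j :: l)))
      rw [ih, DD_br]

/-- dual action on functionals. -/
noncomputable def nb (l : Fin m → KK m) (μ : (Fin m → KK m) →ₗ[KK m] KK m) :
    (Fin m → KK m) →ₗ[KK m] KK m where
  toFun y := DD l (μ y) - μ (br l y)
  map_add' y z := by
    rw [map_add, map_add, br_add_right, map_add]; ring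
  map_smul' c y := by
    have h1 : DD l (μ (c • y)) = c * DD l (μ y) + μ y * DD l c := by
      rw [map_smul, smul_eq_mul, Derivation.leibniz]; rfl
    have h2 : μ (br l (c • y)) = c * μ (br l y) + DD l c * μ y := by
      rw [br_smul_right, map_add, map_smul, map_smul]; rfl
    rw [h1, h2]
    simp only [smul_eq_mul, RingHom.id_apply]
    ring

theorem exists_monic_relation {V : Type*} [AddCommGroup V] [Module (KK m) V]
    [FiniteDimensional (KK m) V] (v : ℕ → V) :
    ∃ (n : ℕ) (a : ℕ → KK m), v n = ∑ j ∈ Finset.range n, a j • v j := by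
  classical
  by_contra hcon
  push Not at hcon
  have hli : ∀ n : ℕ, LinearIndependent (KK m) (fun j : Fin n => v j) := by
    intro n
    induction n with
    | zero => exact linearIndependent_empty_type
    | succ n ih =>
      have h1 : (fun j : Fin (n + 1) => v j) = Fin.snoc (fun j : Fin n => v j) (v n) := by
        funext j
        refine Fin.lastCases ?_ (fun i => ?_) j
        · simp
        · simp
      rw [h1, linearIndependent_finSnoc]
      refine ⟨ih, ?_⟩
      intro hmem
      obtain ⟨c, hc⟩ := (Submodule.mem_span_range_iff_exists_fun (KK m)).mp hmem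
      apply hcon n (fun j => if h : j < n then c ⟨j, h⟩ else 0)
      rw [← hc, Finset.sum_range]
      apply Finset.sum_congr rfl
      intro j _
      rw [dif_pos j.2]
  have h1 := (hli (Module.finrank (KK m) V + 1)).fintype_card_le_finrank
  rw [Fintype.card_fin] at h1
  omega

/-- Infinitesimal symmetries. -/
noncomputable def symS {N N' : ℕ} (ψ : Fin N → KK m) (φ : Fin N' → KK m) :
    Submodule ℂ (Fin m → KK m) where
  carrier := {x | (∀ l ∈ kerS ψ, br l x ∈ kerS ψ) ∧ (∀ l ∈ kerS φ, br l x ∈ kerS φ)}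
  add_mem' := by
    intro a b ha hb
    refine ⟨fun l hl => ?_, fun l hl => ?_⟩
    · rw [br_add_right]; exact Submodule.add_mem _ (ha.1 l hl) (hb.1 l hl)
    · rw [br_add_right]; exact Submodule.add_mem _ (ha.2 l hl) (hb.2 l hl)
  zero_mem' := by
    have h0 : ∀ l : Fin m → KK m, br l 0 = 0 := by
      intro l; funext j; simp [br, DD_zero]
    refine ⟨fun l _ => ?_, fun l _ => ?_⟩ <;> rw [h0] <;> exact Submodule.zero_mem _
  smul_mem' := by
    intro c a ha
    have h0 : ∀ l : Fin m → KK m, br l (c • a) = (algebraMap ℂ (KK m) c) • br l a := by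
      intro l
      have : c • a = (algebraMap ℂ (KK m) c) • a := by
        funext j; simp [Algebra.smul_def]
      rw [this, br_smul_right, Derivation.map_algebraMap, zero_smul, add_zero]
    refine ⟨fun l hl => ?_, fun l hl => ?_⟩
    · rw [h0]; exact Submodule.smul_mem _ _ (ha.1 l hl)
    · rw [h0]; exact Submodule.smul_mem _ _ (ha.2 l hl)

theorem ode_aux {N : ℕ} (ψ : Fin N → KK m) (X : Set (Fin m → KK m))
    (hX : ∀ x ∈ X, ∀ l ∈ kerS ψ, br l x ∈ kerS ψ) (l : Fin m → KK m) (hl : l ∈ kerS ψ)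
    (μ : (Fin m → KK m) →ₗ[KK m] KK m) (hμ : ∀ a ∈ kerS ψ, μ a = 0) :
    ∃ (n : ℕ) (a : ℕ → KK m), ∀ x ∈ X, (DD l)^[n] (μ x) =
      ∑ j ∈ Finset.range n, a j * (DD l)^[j] (μ x) := by
  have h1 : ∀ k : ℕ, (∀ a ∈ kerS ψ, ((nb l)^[k] μ) a = 0) ∧
      ∀ x ∈ X, (DD l)^[k] (μ x) = ((nb l)^[k] μ) x := by
    intro k
    induction k with
    | zero => exact ⟨hμ, fun x _ => rfl⟩
    | succ k ih =>
      rw [Function.iterate_succ_apply']
      refine ⟨?_, ?_⟩
      · intro a ha
        change DD l (((nb l)^[k] μ) a) - ((nb l)^[k] μ) (br l a) = 0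
        rw [ih.1 a ha, ih.1 _ (br_mem_kerS hl ha), map_zero, sub_zero]
      · intro x hx
        rw [Function.iterate_succ_apply', ih.2 x hx]
        change _ = DD l (((nb l)^[k] μ) x) - ((nb l)^[k] μ) (br l x)
        rw [ih.1 _ (hX x hx l hl), sub_zero]
  obtain ⟨n, a, ha⟩ := exists_monic_relation (m := m) (fun k => (nb l)^[k] μ)
  refine ⟨n, a, fun x hx => ?_⟩
  rw [(h1 n).2 x hx]
  have h2 := congrArg (fun ν : (Fin m → KK m) →ₗ[KK m] KK m => ν x) ha
  simp only [LinearMap.sum_apply, LinearMap.smul_apply, smul_eq_mul] at h2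
  rw [h2]
  apply Finset.sum_congr rfl
  intro j _
  rw [(h1 j).2 x hx]

/-- Power series all of whose coefficients of degree `< k` vanish. -/
def Ord (k : ℕ) : Submodule ℂ (PS m) where
  carrier := {f | ∀ n : Fin m →₀ ℕ, n.degree < k → coeff n f = 0}
  add_mem' := by
    intro a b ha hb n hn
    rw [map_add, ha n hn, hb n hn, add_zero]
  zero_mem' := by intro n _; simp
  smul_mem' := by
    intro c a ha n hn
    rw [map_smul, ha n hn, smul_zero]

theorem mem_Ord {k : ℕ} {f : PS m} : f ∈ Ord k ↔ ∀ n : Fin m →₀ ℕ, n.degree < k → coeff n f = 0 :=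
  Iff.rfl

theorem Ord_anti {k l : ℕ} (h : k ≤ l) : (Ord l : Submodule ℂ (PS m)) ≤ Ord k :=
  fun _ hf n hn => hf n (lt_of_lt_of_le hn h)

theorem mul_mem_Ord {k l : ℕ} {f g : PS m} (hf : f ∈ Ord k) (hg : g ∈ Ord l) :
    f * g ∈ Ord (k + l) := by
  classical
  intro n hn
  rw [coeff_mul]
  apply Finset.sum_eq_zero
  rintro ⟨u, v⟩ huv
  rw [Finset.HasAntidiagonal.mem_antidiagonal] at huv
  have h1 : u.degree + v.degree < k + l := by
    rw [← map_add, huv]; exact hn
  rcases Nat.lt_or_ge u.degree k with h | h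
  · rw [hf u h, zero_mul]
  · rw [hg v (by omega), mul_zero]

theorem mul_mem_Ord_right {k : ℕ} {f g : PS m} (hg : g ∈ Ord k) : f * g ∈ Ord k := by
  have h0 : f ∈ Ord 0 := fun n hn => absurd hn (Nat.not_lt_zero _)
  have := mul_mem_Ord h0 hg
  rwa [zero_add] at this

theorem eq_zero_of_forall_Ord {f : PS m} (h : ∀ k, f ∈ Ord k) : f = 0 := by
  ext n
  rw [h (n.degree + 1) n (Nat.lt_succ_self _)]
  simp

/-- finite dimensional subspaces meet the high order part trivially. -/
theorem exists_order_bound (S : Submodule ℂ (KK m)) [FiniteDimensional ℂ S] :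
    ∃ k : ℕ, ∀ r : PS m, algebraMap (PS m) (KK m) r ∈ S → r ∈ Ord k → r = 0 := by
  classical
  let e : PS m →ₗ[ℂ] KK m := (IsScalarTower.toAlgHom ℂ (PS m) (KK m)).toLinearMap
  let S' : Submodule ℂ (PS m) := S.comap e
  have he : Function.Injective e := FaithfulSMul.algebraMap_injective (PS m) (KK m)
  have hfd : FiniteDimensional ℂ S' := by
    let f : S' →ₗ[ℂ] S := e.restrict (fun x hx => hx)
    apply FiniteDimensional.of_injective f
    intro x y hxy
    apply Subtype.ext
    apply he
    exact congrArg Subtype.val hxy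
  let F : ℕ → Submodule ℂ (PS m) := fun k => S' ⊓ Ord k
  have hF : ∀ k, FiniteDimensional ℂ (F k) := fun k =>
    Submodule.finiteDimensional_of_le (inf_le_left : F k ≤ S')
  obtain ⟨k, hk⟩ : ∃ k, ∀ l, Module.finrank ℂ (F k) ≤ Module.finrank ℂ (F l) := by
    obtain ⟨k, hk⟩ := WellFounded.has_min (wellFounded_lt (α := ℕ))
      (Set.range (fun k => Module.finrank ℂ (F k))) ⟨_, 0, rfl⟩
    obtain ⟨⟨k', rfl⟩, hk2⟩ := hk
    exact ⟨k', fun l => not_lt.mp (hk2 _ ⟨l, rfl⟩)⟩
  refine ⟨k, fun r hr hrk => ?_⟩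
  have hmem : r ∈ F k := ⟨hr, hrk⟩
  apply eq_zero_of_forall_Ord
  intro l
  rcases le_total l k with h | h
  · exact Ord_anti h hrk
  · have hle : F l ≤ F k := inf_le_inf_left _ (Ord_anti h)
    have heq : F l = F k := Submodule.eq_of_le_of_finrank_le hle (hk l)
    rw [← heq] at hmem
    exact hmem.2

/-- **The algebraic core.** -/
theorem algebraic_core {N N' : ℕ} {ι : Type*} [Finite ι] (ψ : Fin N → KK m) (φ : Fin N' → KK m)
    (g : ι → Fin m → KK m) (hg : ∀ i, g i ∈ kerS ψ ∨ g i ∈ kerS φ)
    (hbg : Submodule.span (KK m) (Set.range (bcm g)) = ⊤)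
    (hnd : ∀ y ∈ kerS φ, (∀ l ∈ kerS ψ, br l y ∈ kerS ψ) → y = 0) :
    ∃ k : ℕ, ∀ x : Fin m → PS m, (fun i => algebraMap (PS m) (KK m) (x i)) ∈ symS ψ φ →
      (∀ i, x i ∈ Ord k) → (fun i => algebraMap (PS m) (KK m) (x i)) ∈ kerS ψ := by
  classical
  set δ : ι → Derivation ℂ (KK m) (KK m) := fun i => DD (g i) with hδ
  -- the bracket condition
  obtain ⟨c, hc⟩ : ∃ c : ℕ,
      Submodule.span (KK m) {a | ∃ l : List ι, l.length ≤ c + 1 ∧ a = bcm g l} = ⊤ := by
    have h0 : ∀ y ∈ Submodule.span (KK m) (Set.range (bcm g)), ∃ c : ℕ, y ∈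
        Submodule.span (KK m) {a | ∃ l : List ι, l.length ≤ c + 1 ∧ a = bcm g l} := by
      intro y h2
      induction h2 using Submodule.span_induction with
      | mem x hx =>
        obtain ⟨l, rfl⟩ := hx
        exact ⟨l.length, Submodule.subset_span ⟨l, by omega, rfl⟩⟩
      | zero => exact ⟨0, Submodule.zero_mem _⟩
      | add a b _ _ ha hb =>
        obtain ⟨c1, h1⟩ := ha
        obtain ⟨c2, h2⟩ := hb
        refine ⟨c1 + c2, Submodule.add_mem _ ?_ ?_⟩
        · refine Submodule.span_mono ?_ h1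
          rintro a ⟨l, hl, rfl⟩; exact ⟨l, by omega, rfl⟩
        · refine Submodule.span_mono ?_ h2
          rintro a ⟨l, hl, rfl⟩; exact ⟨l, by omega, rfl⟩
      | smul k a _ ha =>
        obtain ⟨c1, h1⟩ := ha
        exact ⟨c1, Submodule.smul_mem _ _ h1⟩
    have h1 : ∀ i : Fin m, ∃ c : ℕ, (Pi.single i 1 : Fin m → KK m) ∈
        Submodule.span (KK m) {a | ∃ l : List ι, l.length ≤ c + 1 ∧ a = bcm g l} := by
      intro i
      exact h0 _ (by rw [hbg]; trivial)
    choose c hc using h1
    refine ⟨∑ i, c i, ?_⟩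
    rw [eq_top_iff]
    intro x _
    rw [pi_eq_sum_univ' x]
    apply Submodule.sum_mem
    intro i _
    apply Submodule.smul_mem
    refine Submodule.span_mono ?_ (hc i)
    rintro a ⟨l, hl, rfl⟩
    refine ⟨l, ?_, rfl⟩
    have : c i ≤ ∑ i, c i := Finset.single_le_sum (fun _ _ => Nat.zero_le _) (Finset.mem_univ i)
    omega
  have hbgδ : ∀ l : List ι, l.length = c + 2 →
      dcm δ l ∈ Submodule.span (KK m) {d | ∃ l' : List ι, l'.length ≤ c + 1 ∧ d = dcm δ l'} := by
    intro l _
    rw [hδ, dcm_DD]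
    have h1 : bcm g l ∈ Submodule.span (KK m)
      {a | ∃ l : List ι, l.length ≤ c + 1 ∧ a = bcm g l} := by rw [hc]; trivial
    have h2 := Submodule.mem_map_of_mem (f := DDl (m := m)) h1
    rw [Submodule.map_span] at h2
    refine Submodule.span_mono ?_ h2
    rintro _ ⟨_, ⟨l', hl', rfl⟩, rfl⟩
    exact ⟨l', hl', (dcm_DD g l').symm⟩
  have hconst : ∀ x : KK m, (∀ i, δ i x = 0) → ∃ c : ℂ, algebraMap ℂ (KK m) c = x := by
    intro x hx
    have h1 : ∀ l : List ι, DD (bcm g l) x = 0 := by
      intro l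
      rw [← dcm_DD]
      have h2 : ∀ l : List ι, dcm (fun i => DD (g i)) l x = 0 := by
        intro l
        induction l with
        | nil => rfl
        | cons i l ih =>
          cases l with
          | nil => exact hx i
          | cons j l =>
            change ⁅DD (g i), dcm (fun i => DD (g i)) (j :: l)⁆ x = 0
            rw [Derivation.commutator_apply, ih]
            have : DD (g i) x = 0 := hx i
            rw [this, map_zero, map_zero, sub_zero]
      exact h2 l
    have h2 : ∀ a : Fin m → KK m, DD a x = 0 := by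
      intro a
      have ha : a ∈ Submodule.span (KK m) (Set.range (bcm g)) := by rw [hbg]; trivial
      induction ha using Submodule.span_induction with
      | mem y hy => obtain ⟨l, rfl⟩ := hy; exact h1 l
      | zero => rw [DD_zero]; rfl
      | add a b _ _ ha hb => rw [DD_add, Derivation.add_apply, ha, hb, add_zero]
      | smul k a _ ha => rw [DD_smul, Derivation.smul_apply, ha, smul_zero]
    apply const_frac (m := m) (K := KK m) x
    intro i
    have h3 := h2 (Pi.single i 1)
    rw [DD_apply, Finset.sum_eq_single i] at h3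
    · rw [Pi.single_eq_same, one_mul] at h3
      exact h3
    · intro j _ hj; rw [Pi.single_eq_of_ne hj, zero_mul]
    · intro h; exact absurd (Finset.mem_univ i) h
  -- finite dimensionality for each functional
  have hfin : ∀ μ : (Fin m → KK m) →ₗ[KK m] KK m, (∀ a ∈ kerS ψ, μ a = 0) →
      (∀ a ∈ kerS φ, μ a = 0) →
      FiniteDimensional ℂ ((symS ψ φ).map (μ.restrictScalars ℂ)) := by
    intro μ hμ1 hμ2
    apply finiteDimensional_sol δ c hbgδ hconst
    intro i
    rcases hg i with hi | hi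
    · obtain ⟨n, a, ha⟩ := ode_aux ψ (symS ψ φ) (fun x hx => hx.1) (g i) hi μ hμ1
      refine ⟨n, a, ?_⟩
      rintro f ⟨x, hx, rfl⟩
      exact ha x hx
    · obtain ⟨n, a, ha⟩ := ode_aux φ (symS ψ φ) (fun x hx => hx.2) (g i) hi μ hμ2
      refine ⟨n, a, ?_⟩
      rintro f ⟨x, hx, rfl⟩
      exact ha x hx
  -- bounds for functionals with power series coefficients
  have hbound : ∀ μ : (Fin m → KK m) →ₗ[KK m] KK m, (∀ a ∈ kerS ψ ⊔ kerS φ, μ a = 0) →
      ∃ k : ℕ, ∀ x : Fin m → PS m, (fun i => algebraMap (PS m) (KK m) (x i)) ∈ symS ψ φ →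
        (∀ i, x i ∈ Ord k) → μ (fun i => algebraMap (PS m) (KK m) (x i)) = 0 := by
    intro μ hμ
    obtain ⟨b, hb⟩ := IsLocalization.exist_integer_multiples (nonZeroDivisors (PS m))
      (Finset.univ : Finset (Fin m)) (fun i => μ (Pi.single i 1))
    have hb0 : algebraMap (PS m) (KK m) (b : PS m) ≠ 0 := by
      rw [Ne, FaithfulSMul.algebraMap_eq_zero_iff]
      exact nonZeroDivisors.ne_zero b.2
    choose! r hr using fun i => hb i (Finset.mem_univ i)
    set ν : (Fin m → KK m) →ₗ[KK m] KK m := algebraMap (PS m) (KK m) (b : PS m) • μ with hν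
    have hν1 : ∀ a ∈ kerS ψ ⊔ kerS φ, ν a = 0 := by
      intro a ha
      rw [hν, LinearMap.smul_apply, hμ a ha, smul_zero]
    have := hfin ν (fun a ha => hν1 a (Submodule.mem_sup_left ha))
      (fun a ha => hν1 a (Submodule.mem_sup_right ha))
    obtain ⟨k, hk⟩ := exists_order_bound ((symS ψ φ).map (ν.restrictScalars ℂ))
    refine ⟨k, fun x hx hxk => ?_⟩
    have h1 : ν (fun i => algebraMap (PS m) (KK m) (x i)) =
        algebraMap (PS m) (KK m) (∑ i, r i * x i) := by
      conv_lhs => rw [pi_eq_sum_univ' (fun i => algebraMap (PS m) (KK m) (x i))]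
      rw [map_sum, map_sum]
      apply Finset.sum_congr rfl
      intro i _
      rw [map_smul, map_mul, hr i, smul_eq_mul, hν, LinearMap.smul_apply, smul_eq_mul,
        Algebra.smul_def, mul_comm]
    have h2 : (∑ i, r i * x i) = 0 := by
      apply hk
      · rw [← h1]
        exact ⟨_, hx, rfl⟩
      · apply Submodule.sum_mem
        intro i _
        exact mul_mem_Ord_right (hxk i)
    rw [h2, map_zero, hν, LinearMap.smul_apply, smul_eq_mul] at h1
    rcases mul_eq_zero.mp h1 with h3 | h3
    · exact absurd h3 hb0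
    · exact h3
  -- finitely many functionals suffice
  obtain ⟨k, hk⟩ : ∃ k : ℕ, ∀ x : Fin m → PS m,
      (fun i => algebraMap (PS m) (KK m) (x i)) ∈ symS ψ φ → (∀ i, x i ∈ Ord k) →
      (fun i => algebraMap (PS m) (KK m) (x i)) ∈ kerS ψ ⊔ kerS φ := by
    obtain ⟨S, hS⟩ : (kerS ψ ⊔ kerS φ).dualAnnihilator.FG := IsNoetherian.noetherian _
    choose! k hk using hbound
    have hSmem : ∀ μ ∈ S, ∀ a ∈ kerS ψ ⊔ kerS φ, μ a = 0 := by
      intro μ hμ
      have h1 : μ ∈ (kerS ψ ⊔ kerS φ).dualAnnihilator := by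
        rw [← hS]; exact Submodule.subset_span hμ
      exact (Submodule.mem_dualAnnihilator _).mp h1
    refine ⟨∑ μ ∈ S, k μ, fun x hx hxk => ?_⟩
    rw [← Subspace.dualAnnihilator_dualCoannihilator_eq (W := kerS ψ ⊔ kerS φ),
      Submodule.mem_dualCoannihilator]
    intro μ hμ
    rw [← hS] at hμ
    induction hμ using Submodule.span_induction with
    | mem ν hν =>
      apply hk ν (hSmem ν hν) x hx
      intro i
      refine Ord_anti ?_ (hxk i)
      exact Finset.single_le_sum (f := k) (fun _ _ => Nat.zero_le _) hν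
    | zero => rfl
    | add a b _ _ ha hb => rw [LinearMap.add_apply, ha, hb, add_zero]
    | smul c a _ ha => rw [LinearMap.smul_apply, ha, smul_zero]
  refine ⟨k, fun x hx hxk => ?_⟩
  obtain ⟨y1, hy1, y2, hy2, hy⟩ := Submodule.mem_sup.mp (hk x hx hxk)
  have h1 : y2 = 0 := by
    apply hnd y2 hy2
    intro l hl
    have h2 : y2 = (fun i => algebraMap (PS m) (KK m) (x i)) - y1 := by
      rw [← hy, add_sub_cancel_left]
    rw [h2, br_sub_right]
    exact Submodule.sub_mem _ (hx.1 l hl) (br_mem_kerS hl hy1)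
  rw [← hy, h1, add_zero]
  exact hy1

end Pool.Agent.Lib51bf1a
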