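import Mathlib
import Pool.Agent.Lib_51bf1a.A6_Alg

/-!
The Taylor series at the origin of real-analytic complex valued functions on `ℝ^m`.
-/

namespace Pool.Agent.Lib51bf1a

open MvPowerSeries Topology Filter

variable {m : ℕ}

/-- Partial derivative. -/
noncomputable def dA (i : Fin m) (f : (Fin m → ℝ) → ℂ) : (Fin m → ℝ) → ℂ :=
  fun t => fderiv ℝ f t (Pi.single i 1)

theorem dA_analytic (i : Fin m) {f : (Fin m → ℝ) → ℂ} {x : Fin m → ℝ} (hf : AnalyticAt ℝ f x) :
    AnalyticAt ℝ (dA i f) x := by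
  have h1 := hf.fderiv
  exact (ContinuousLinearMap.apply ℝ ℂ (Pi.single i (1 : ℝ) : Fin m → ℝ)).analyticAt _ |>.comp h1

theorem dA_congr (i : Fin m) {f g : (Fin m → ℝ) → ℂ} {x : Fin m → ℝ} (h : f =ᶠ[𝓝 x] g) :
    dA i f =ᶠ[𝓝 x] dA i g := by
  filter_upwards [h.fderiv (𝕜 := ℝ)] with t ht
  simp only [dA, ht]

theorem dA_comm (i j : Fin m) {f : (Fin m → ℝ) → ℂ} {x : Fin m → ℝ} (hf : AnalyticAt ℝ f x) :
    dA i (dA j f) x = dA j (dA i f) x := by
  have h1 : ContDiffAt ℝ ⊤ f x := hf.contDiffAt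
  have h2 := h1.isSymmSndFDerivAt_of_omega
  have key : ∀ i j : Fin m, dA i (dA j f) x =
      fderiv ℝ (fderiv ℝ f) x (Pi.single i 1) (Pi.single j 1) := by
    intro i j
    have h3 : DifferentiableAt ℝ (fderiv ℝ f) x := hf.fderiv.differentiableAt
    have h4 : dA j f = fun t => (ContinuousLinearMap.apply ℝ ℂ (Pi.single j (1 : ℝ) : Fin m → ℝ))
        (fderiv ℝ f t) := rfl
    unfold dA at h4 ⊢
    rw [h4, fderiv_fun_comp]
    · simp
    · exact ContinuousLinearMap.differentiableAt _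
    · exact h3
  rw [key, key]
  exact h2 _ _

/-- Iterated partial derivatives. -/
noncomputable def pdl : List (Fin m) → ((Fin m → ℝ) → ℂ) → ((Fin m → ℝ) → ℂ)
  | [], f => f
  | i :: l, f => dA i (pdl l f)

theorem pdl_analytic (l : List (Fin m)) {f : (Fin m → ℝ) → ℂ} {x : Fin m → ℝ}
    (hf : AnalyticAt ℝ f x) : AnalyticAt ℝ (pdl l f) x := by
  induction l with
  | nil => exact hf
  | cons i l ih => exact dA_analytic i ih

theorem pdl_congr (l : List (Fin m)) {f g : (Fin m → ℝ) → ℂ} {x : Fin m → ℝ}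
    (h : f =ᶠ[𝓝 x] g) : pdl l f =ᶠ[𝓝 x] pdl l g := by
  induction l with
  | nil => exact h
  | cons i l ih => exact dA_congr i ih

theorem pdl_perm {l l' : List (Fin m)} (h : l.Perm l') {f : (Fin m → ℝ) → ℂ} {x : Fin m → ℝ}
    (hf : AnalyticAt ℝ f x) : pdl l f =ᶠ[𝓝 x] pdl l' f := by
  induction h with
  | nil => exact EventuallyEq.rfl
  | cons a h ih => exact dA_congr a ih
  | swap a b l =>
    filter_upwards [hf.eventually_analyticAt] with y hy
    exact dA_comm b a (pdl_analytic l hy)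
  | trans _ _ h1 h2 => exact h1.trans h2

theorem pdl_append (l : List (Fin m)) (i : Fin m) (f : (Fin m → ℝ) → ℂ) :
    pdl (l ++ [i]) f = pdl l (dA i f) := by
  induction l with
  | nil => rfl
  | cons j l ih =>
    change dA j (pdl (l ++ [i]) f) = dA j (pdl l (dA i f))
    rw [ih]

/-- The Taylor series at the origin. -/
noncomputable def TT (f : (Fin m → ℝ) → ℂ) : PS m := fun n =>
  pdl n.toMultiset.toList f 0 / ((∏ i, (n i).factorial : ℕ) : ℂ)

theorem coeff_TT (f : (Fin m → ℝ) → ℂ) (n : Fin m →₀ ℕ) :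
    coeff n (TT f) = pdl n.toMultiset.toList f 0 / ((∏ i, (n i).factorial : ℕ) : ℂ) := rfl

theorem TT_congr {f g : (Fin m → ℝ) → ℂ} (h : f =ᶠ[𝓝 0] g) : TT f = TT g := by
  ext n
  rw [coeff_TT, coeff_TT, (pdl_congr _ h).eq_of_nhds]

theorem coeff_zero_TT (f : (Fin m → ℝ) → ℂ) : coeff 0 (TT f) = f 0 := by
  rw [coeff_TT]
  simp [pdl]

theorem pderiv_TT (i : Fin m) {f : (Fin m → ℝ) → ℂ} (hf : AnalyticAt ℝ f 0) :
    pderiv ℂ i (TT f) = TT (dA i f) := by
  ext n
  rw [coeff_pderiv, coeff_TT, coeff_TT]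
  have h1 : ((n + Finsupp.single i 1).toMultiset.toList).Perm (n.toMultiset.toList ++ [i]) := by
    rw [← Multiset.coe_eq_coe, Multiset.coe_toList, ← Multiset.coe_add, Multiset.coe_toList,
      map_add, Finsupp.toMultiset_single]
    simp
  rw [(pdl_perm h1 hf).eq_of_nhds, pdl_append]
  have h2 : (∏ j, ((n + Finsupp.single i 1 : Fin m →₀ ℕ) j).factorial) =
      (n i + 1) * ∏ j, (n j).factorial := by
    rw [← Finset.mul_prod_erase Finset.univ _ (Finset.mem_univ i),
      ← Finset.mul_prod_erase Finset.univ (fun j => (n j).factorial) (Finset.mem_univ i)]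
    rw [Finsupp.add_apply, Finsupp.single_eq_same, Nat.factorial_succ, mul_assoc]
    congr 2
    apply Finset.prod_congr rfl
    intro j hj
    rw [Finsupp.add_apply, Finsupp.single_eq_of_ne (Finset.ne_of_mem_erase hj), add_zero]
  rw [h2]
  have h3 : ((n i : ℂ) + 1) ≠ 0 := by exact_mod_cast Nat.succ_ne_zero (n i)
  have h4 : ((∏ j, (n j).factorial : ℕ) : ℂ) ≠ 0 := by
    exact_mod_cast Finset.prod_ne_zero_iff.mpr (fun j _ => Nat.factorial_ne_zero _)
  push_cast
  push_cast at h4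
  field_simp

theorem coeff_succ_eq {f : PS m} (i : Fin m) (n : Fin m →₀ ℕ) :
    coeff (n + Finsupp.single i 1) f = coeff n (pderiv ℂ i f) / ((n i : ℂ) + 1) := by
  have h3 : ((n i : ℂ) + 1) ≠ 0 := by exact_mod_cast Nat.succ_ne_zero (n i)
  rw [coeff_pderiv, mul_div_cancel_right₀ _ h3]

/-- Induction principle for identities between power series. -/
theorem ps_ext {J : Type*} (u v : J → PS m) (P : J → Prop)
    (h0 : ∀ j, P j → coeff 0 (u j) = coeff 0 (v j))
    (h1 : ∀ j, P j → ∀ (i : Fin m) (d : ℕ), (∀ j', P j' → ∀ n : Fin m →₀ ℕ, n.degree ≤ d →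
      coeff n (u j') = coeff n (v j')) → ∀ n : Fin m →₀ ℕ, n.degree ≤ d →
      coeff n (pderiv ℂ i (u j)) = coeff n (pderiv ℂ i (v j))) :
    ∀ j, P j → u j = v j := by
  have key : ∀ d : ℕ, ∀ j, P j → ∀ n : Fin m →₀ ℕ, n.degree ≤ d → coeff n (u j) = coeff n (v j) := by
    intro d
    induction d with
    | zero =>
      intro j hj n hn
      have : n = 0 := by
        rw [← Finsupp.degree_eq_zero_iff]; omega
      rw [this]; exact h0 j hj
    | succ d ih =>
      intro j hj n hn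
      by_cases hn0 : n = 0
      · rw [hn0]; exact h0 j hj
      · obtain ⟨i, hi⟩ : ∃ i, n i ≠ 0 := by
          by_contra hcon
          push Not at hcon
          exact hn0 (Finsupp.ext hcon)
        have h2 : Finsupp.single i 1 ≤ n := by rw [Finsupp.single_le_iff]; omega
        have h3 : n = (n - Finsupp.single i 1) + Finsupp.single i 1 := (tsub_add_cancel_of_le h2).symm
        have h4 : (n - Finsupp.single i 1).degree ≤ d := by
          have h5 : n.degree = (n - Finsupp.single i 1).degree + 1 := by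
            conv_lhs => rw [h3]
            rw [map_add, Finsupp.degree_single]
          omega
        rw [h3, coeff_succ_eq, coeff_succ_eq, h1 j hj i d ih _ h4]
  intro j hj
  ext n
  exact key n.degree j hj n le_rfl

theorem dA_add {f g : (Fin m → ℝ) → ℂ} {x : Fin m → ℝ} (i : Fin m) (hf : AnalyticAt ℝ f x)
    (hg : AnalyticAt ℝ g x) : dA i (f + g) =ᶠ[𝓝 x] dA i f + dA i g := by
  filter_upwards [hf.eventually_analyticAt, hg.eventually_analyticAt] with y hy hy'
  simp only [dA, Pi.add_apply]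
  rw [fderiv_add hy.differentiableAt hy'.differentiableAt]
  rfl

theorem dA_mul {f g : (Fin m → ℝ) → ℂ} {x : Fin m → ℝ} (i : Fin m) (hf : AnalyticAt ℝ f x)
    (hg : AnalyticAt ℝ g x) : dA i (f * g) =ᶠ[𝓝 x] dA i f * g + f * dA i g := by
  filter_upwards [hf.eventually_analyticAt, hg.eventually_analyticAt] with y hy hy'
  simp only [dA, Pi.add_apply, Pi.mul_apply]
  rw [fderiv_mul hy.differentiableAt hy'.differentiableAt]
  simp only [_root_.add_apply, _root_.smul_apply, smul_eq_mul]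
  ring

theorem dA_const (i : Fin m) (c : ℂ) : dA i (fun _ => c) = 0 := by
  funext t
  simp [dA]

theorem dA_neg (i : Fin m) (f : (Fin m → ℝ) → ℂ) : dA i (-f) = - dA i f := by
  funext t
  simp [dA, fderiv_neg]

theorem TT_add {f g : (Fin m → ℝ) → ℂ} (hf : AnalyticAt ℝ f 0) (hg : AnalyticAt ℝ g 0) :
    TT (f + g) = TT f + TT g := by
  refine ps_ext (J := ((Fin m → ℝ) → ℂ) × ((Fin m → ℝ) → ℂ)) (fun j => TT (j.1 + j.2))
    (fun j => TT j.1 + TT j.2) (fun j => AnalyticAt ℝ j.1 0 ∧ AnalyticAt ℝ j.2 0) ?_ ?_ (f, g)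
    ⟨hf, hg⟩
  · rintro ⟨f, g⟩ _
    simp only [map_add, coeff_zero_TT, Pi.add_apply]
  · rintro ⟨f, g⟩ ⟨hf, hg⟩ i d ih n hn
    simp only at hf hg ⊢
    rw [pderiv_TT i (hf.add hg), map_add, pderiv_TT i hf, pderiv_TT i hg, TT_congr (dA_add i hf hg)]
    exact ih (dA i f, dA i g) ⟨dA_analytic i hf, dA_analytic i hg⟩ n hn

theorem TT_mul {f g : (Fin m → ℝ) → ℂ} (hf : AnalyticAt ℝ f 0) (hg : AnalyticAt ℝ g 0) :
    TT (f * g) = TT f * TT g := by
  refine ps_ext (J := ((Fin m → ℝ) → ℂ) × ((Fin m → ℝ) → ℂ)) (fun j => TT (j.1 * j.2))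
    (fun j => TT j.1 * TT j.2) (fun j => AnalyticAt ℝ j.1 0 ∧ AnalyticAt ℝ j.2 0) ?_ ?_ (f, g)
    ⟨hf, hg⟩
  · rintro ⟨f, g⟩ _
    simp only [coeff_zero_TT, Pi.mul_apply]
    rw [coeff_zero_eq_constantCoeff_apply, map_mul, ← coeff_zero_eq_constantCoeff_apply,
      ← coeff_zero_eq_constantCoeff_apply, coeff_zero_TT, coeff_zero_TT]
  · rintro ⟨f, g⟩ ⟨hf, hg⟩ i d ih n hn
    simp only at hf hg ⊢
    rw [pderiv_TT i (hf.mul hg), Derivation.leibniz, pderiv_TT i hf, pderiv_TT i hg,
      TT_congr (dA_mul i hf hg),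
      TT_add ((dA_analytic i hf).mul hg) (hf.mul (dA_analytic i hg)), map_add, map_add, smul_eq_mul,
      smul_eq_mul, mul_comm (TT g)]
    rw [ih (dA i f, g) ⟨dA_analytic i hf, hg⟩ n hn, ih (f, dA i g) ⟨hf, dA_analytic i hg⟩ n hn,
      add_comm]

theorem TT_zero : TT (0 : (Fin m → ℝ) → ℂ) = 0 := by
  have h : TT (0 + 0 : (Fin m → ℝ) → ℂ) = TT 0 + TT 0 :=
    TT_add analyticAt_const analyticAt_const
  rw [add_zero] at h
  exact left_eq_add.mp h

theorem TT_const (c : ℂ) : TT (fun _ : Fin m → ℝ => c) = C c := by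
  apply pderiv.ext
  · intro i
    rw [pderiv_TT i analyticAt_const, dA_const, TT_zero, pderiv_C]
  · rw [← coeff_zero_eq_constantCoeff_apply, ← coeff_zero_eq_constantCoeff_apply, coeff_zero_TT]
    simp

theorem TT_const_mul (c : ℂ) {f : (Fin m → ℝ) → ℂ} (hf : AnalyticAt ℝ f 0) :
    TT (fun t => c * f t) = C c * TT f := by
  have h : (fun t => c * f t) = (fun _ => c) * f := rfl
  rw [h, TT_mul analyticAt_const hf, TT_const]

theorem TT_neg {f : (Fin m → ℝ) → ℂ} (hf : AnalyticAt ℝ f 0) : TT (-f) = - TT f := by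
  have h : -f = (fun t => (-1 : ℂ) * f t) := by funext t; simp
  rw [h, TT_const_mul _ hf]
  simp

theorem TT_sub {f g : (Fin m → ℝ) → ℂ} (hf : AnalyticAt ℝ f 0) (hg : AnalyticAt ℝ g 0) :
    TT (f - g) = TT f - TT g := by
  rw [sub_eq_add_neg, TT_add hf hg.neg, TT_neg hg, sub_eq_add_neg]

theorem TT_sum {J : Type*} (s : Finset J) (f : J → (Fin m → ℝ) → ℂ)
    (hf : ∀ j ∈ s, AnalyticAt ℝ (f j) 0) : TT (∑ j ∈ s, f j) = ∑ j ∈ s, TT (f j) := by
  classical
  induction s using Finset.induction_on with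
  | empty => simp [TT_zero]
  | insert a s ha ih =>
    rw [Finset.sum_insert ha, Finset.sum_insert ha, TT_add (hf a (Finset.mem_insert_self a s)), ih]
    · intro j hj; exact hf j (Finset.mem_insert_of_mem hj)
    · apply Finset.analyticAt_sum
      intro j hj; exact hf j (Finset.mem_insert_of_mem hj)

theorem TT_prod {J : Type*} (s : Finset J) (f : J → (Fin m → ℝ) → ℂ)
    (hf : ∀ j ∈ s, AnalyticAt ℝ (f j) 0) : TT (∏ j ∈ s, f j) = ∏ j ∈ s, TT (f j) := by
  classical
  induction s using Finset.induction_on with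
  | empty => 
    simp only [Finset.prod_empty]
    exact (TT_const 1).trans (map_one _)
  | insert a s ha ih =>
    rw [Finset.prod_insert ha, Finset.prod_insert ha, TT_mul (hf a (Finset.mem_insert_self a s)), ih]
    · intro j hj; exact hf j (Finset.mem_insert_of_mem hj)
    · apply Finset.analyticAt_prod
      intro j hj; exact hf j (Finset.mem_insert_of_mem hj)

/-- Coordinate function. -/
def co (i : Fin m) : (Fin m → ℝ) → ℂ := fun t => (t i : ℂ)

theorem co_analytic (i : Fin m) (x : Fin m → ℝ) : AnalyticAt ℝ (co i) x := by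
  have h : co i = fun t : Fin m → ℝ => (Complex.ofRealCLM.comp
    (ContinuousLinearMap.proj (R := ℝ) (φ := fun _ : Fin m => ℝ) i)) t := rfl
  rw [h]
  exact ContinuousLinearMap.analyticAt _ _

theorem dA_co (i j : Fin m) : dA i (co j) = fun _ => if i = j then 1 else 0 := by
  funext t
  have h : co j = fun t : Fin m → ℝ => (Complex.ofRealCLM.comp
    (ContinuousLinearMap.proj (R := ℝ) (φ := fun _ : Fin m => ℝ) j)) t := rfl
  unfold dA
  rw [h, ContinuousLinearMap.fderiv]
  simp only [ContinuousLinearMap.comp_apply, ContinuousLinearMap.proj_apply,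
    Complex.ofRealCLM_apply]
  by_cases hij : i = j
  · subst hij; simp
  · rw [if_neg hij, Pi.single_eq_of_ne (Ne.symm hij)]; simp

theorem TT_co (i : Fin m) : TT (co i) = X i := by
  apply pderiv.ext
  · intro j
    rw [pderiv_TT j (co_analytic i 0), dA_co, TT_const, pderiv_X]
    by_cases h : j = i
    · subst h; simp
    · rw [if_neg h, Pi.single_eq_of_ne (Ne.symm h), map_zero]
  · rw [← coeff_zero_eq_constantCoeff_apply, ← coeff_zero_eq_constantCoeff_apply, coeff_zero_TT]
    simp [co, coeff_zero_X]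

/-- Membership in `Ord (k+1)` through derivatives. -/
theorem TT_mem_Ord_succ {f : (Fin m → ℝ) → ℂ} (hf : AnalyticAt ℝ f 0) (k : ℕ) :
    TT f ∈ Ord (k + 1) ↔ f 0 = 0 ∧ ∀ i, TT (dA i f) ∈ Ord k := by
  constructor
  · intro h
    refine ⟨?_, ?_⟩
    · rw [← coeff_zero_TT f]; exact h 0 (by simp)
    · intro i n hn
      rw [← pderiv_TT i hf, coeff_pderiv, h, zero_mul]
      rw [map_add, Finsupp.degree_single]; omega
  · rintro ⟨h0, h1⟩ n hn
    by_cases hn0 : n = 0
    · rw [hn0, coeff_zero_TT, h0]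
    · obtain ⟨i, hi⟩ : ∃ i, n i ≠ 0 := by
        by_contra hcon
        push Not at hcon
        exact hn0 (Finsupp.ext hcon)
      have h2 : Finsupp.single i 1 ≤ n := by rw [Finsupp.single_le_iff]; omega
      have h3 : n = (n - Finsupp.single i 1) + Finsupp.single i 1 := (tsub_add_cancel_of_le h2).symm
      have h4 : (n - Finsupp.single i 1).degree < k := by
        have h5 : n.degree = (n - Finsupp.single i 1).degree + 1 := by
          conv_lhs => rw [h3]
          rw [map_add, Finsupp.degree_single]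
        omega
      rw [h3, coeff_succ_eq, pderiv_TT i hf, h1 i _ h4, zero_div]

theorem pdl_eq_iteratedFDeriv (n : ℕ) (v : Fin n → Fin m) {f : (Fin m → ℝ) → ℂ} {x : Fin m → ℝ}
    (hf : AnalyticAt ℝ f x) : pdl (List.ofFn v) f x =
      iteratedFDeriv ℝ n f x (fun j => Pi.single (v j) 1) := by
  induction n generalizing x with
  | zero => simp [pdl]
  | succ n ih =>
    rw [List.ofFn_succ]
    have h1 : pdl (List.ofFn fun i => v i.succ) f =ᶠ[𝓝 x] fun y =>
        iteratedFDeriv ℝ n f y (fun j => Pi.single (v j.succ) 1) := by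
      filter_upwards [hf.eventually_analyticAt] with y hy
      exact ih _ hy
    change dA (v 0) (pdl _ f) x = _
    rw [(dA_congr (v 0) h1).eq_of_nhds]
    unfold dA
    have h2 : DifferentiableAt ℝ (iteratedFDeriv ℝ n f) x := by
      have h3 : ContDiffAt ℝ ⊤ f x := hf.contDiffAt
      exact h3.differentiableAt_iteratedFDeriv (by exact_mod_cast WithTop.coe_lt_top _)
    have h4 : (fun y => iteratedFDeriv ℝ n f y (fun j => Pi.single (v j.succ) 1)) =
        fun y => (ContinuousMultilinearMap.apply ℝ (fun _ : Fin n => Fin m → ℝ) ℂ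
          (fun j => Pi.single (v j.succ) 1)) (iteratedFDeriv ℝ n f y) := rfl
    rw [h4, fderiv_fun_comp _ (ContinuousLinearMap.differentiableAt _) h2]
    rw [ContinuousLinearMap.fderiv, ContinuousLinearMap.comp_apply,
      ContinuousMultilinearMap.apply_apply, iteratedFDeriv_succ_apply_left]
    rfl

theorem card_toMultiset_eq (d : Fin m →₀ ℕ) : Multiset.card d.toMultiset = d.degree := by
  rw [Finsupp.card_toMultiset]
  rfl

theorem iteratedFDeriv_eq_zero_of_TT {f : (Fin m → ℝ) → ℂ} (hf : AnalyticAt ℝ f 0)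
    {k : ℕ} (h : TT f ∈ Ord k) (n : ℕ) (hn : n < k) : iteratedFDeriv ℝ n f 0 = 0 := by
  apply ContinuousMultilinearMap.toMultilinearMap_injective
  apply Module.Basis.ext_multilinear (fun _ => Pi.basisFun ℝ (Fin m))
  intro v
  simp only [Pi.basisFun_apply]
  change iteratedFDeriv ℝ n f 0 (fun j => Pi.single (v j) 1) = 0
  rw [← pdl_eq_iteratedFDeriv n v hf]
  set l := List.ofFn v with hl
  set d : Fin m →₀ ℕ := Multiset.toFinsupp (l : Multiset (Fin m)) with hd
  have h1 : coeff d (TT f) = 0 := by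
    apply h
    have h2 : d.degree = n := by
      rw [← card_toMultiset_eq, hd, Multiset.toFinsupp_toMultiset]
      simp [hl]
    omega
  rw [coeff_TT, div_eq_zero_iff] at h1
  rcases h1 with h1 | h1
  · have h2 : d.toMultiset.toList.Perm l := by
      rw [← Multiset.coe_eq_coe, Multiset.coe_toList, hd, Multiset.toFinsupp_toMultiset]
    rw [← (pdl_perm h2 hf).eq_of_nhds]
    exact h1
  · exfalso
    have h4 : ((∏ j, (d j).factorial : ℕ) : ℂ) ≠ 0 := by
      exact_mod_cast Finset.prod_ne_zero_iff.mpr (fun j _ => Nat.factorial_ne_zero _)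
    exact h4 h1

theorem TT_eq_zero {f : (Fin m → ℝ) → ℂ} (hf : AnalyticAt ℝ f 0) (h : TT f = 0) :
    f =ᶠ[𝓝 0] 0 := by
  have h0 : ∀ n, iteratedFDeriv ℝ n f 0 = 0 := by
    intro n
    apply iteratedFDeriv_eq_zero_of_TT hf (k := n + 1) _ n (Nat.lt_succ_self n)
    rw [h]; exact Submodule.zero_mem _
  obtain ⟨p, r, hp⟩ := hf
  have hr : 0 < r := hp.r_pos
  filter_upwards [Metric.eball_mem_nhds (0 : Fin m → ℝ) hr] with y hy
  have h1 := hp.hasSum_iteratedFDeriv (y := y) hy
  simp only [h0, _root_.zero_apply, smul_zero, zero_add] at h1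
  exact h1.unique hasSum_zero

theorem Ord_of_iteratedFDeriv {f : (Fin m → ℝ) → ℂ} (hf : AnalyticAt ℝ f 0)
    {k : ℕ} (h : ∀ n < k, iteratedFDeriv ℝ n f 0 = 0) : TT f ∈ Ord k := by
  intro d hd
  rw [coeff_TT]
  set l := d.toMultiset.toList with hl
  have h1 : l = List.ofFn l.get := (List.ofFn_get l).symm
  rw [h1, pdl_eq_iteratedFDeriv _ _ hf, h]
  · simp
  · rw [hl, Multiset.length_toList, card_toMultiset_eq]
    exact hd

end Pool.Agent.Lib51bf1a
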