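import Mathlib
import Pool.Agent.Lib_51bf1a.B1_Taylor

/-!
The logarithm of an analytic diffeomorphism germ tangent to the identity.
-/

namespace Pool.Agent.Lib51bf1a

open MvPowerSeries Topology Filter Polynomial

variable {m : ℕ}

/-! ### Composition and order -/

theorem dA_comp {h : (Fin m → ℝ) → (Fin m → ℝ)} {f : (Fin m → ℝ) → ℂ} {x : Fin m → ℝ}
    (hh : DifferentiableAt ℝ h x) (hf : DifferentiableAt ℝ f (h x)) (i : Fin m) :
    dA i (f ∘ h) x = ∑ l, dA l f (h x) * dA i (co l ∘ h) x := by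
  unfold dA
  rw [fderiv_comp x hf hh, ContinuousLinearMap.comp_apply]
  have h1 : ∀ l, fderiv ℝ (co l ∘ h) x (Pi.single i 1) =
      ((fderiv ℝ h x (Pi.single i 1) l : ℝ) : ℂ) := by
    intro l
    have h2 : co l = fun t : Fin m → ℝ => (Complex.ofRealCLM.comp
      (ContinuousLinearMap.proj (R := ℝ) (φ := fun _ : Fin m => ℝ) l)) t := rfl
    rw [h2, fderiv_comp x (ContinuousLinearMap.differentiableAt _) hh, ContinuousLinearMap.fderiv]
    rfl
  simp only [h1]
  set v := fderiv ℝ h x (Pi.single i 1) with hv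
  have h3 : v = ∑ l, v l • (Pi.single l 1 : Fin m → ℝ) := pi_eq_sum_univ' v
  conv_lhs => rw [h3]
  rw [map_sum]
  apply Finset.sum_congr rfl
  intro l _
  rw [map_smul, mul_comm, Complex.real_smul]

theorem TT_comp_Ord {h : (Fin m → ℝ) → (Fin m → ℝ)} (hh : AnalyticAt ℝ h 0) (h0 : h 0 = 0)
    (k : ℕ) : ∀ f : (Fin m → ℝ) → ℂ, AnalyticAt ℝ f 0 → TT f ∈ Ord k → TT (f ∘ h) ∈ Ord k := by
  induction k with
  | zero => intro f _ _ n hn; exact absurd hn (Nat.not_lt_zero _)
  | succ k ih =>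
    intro f hf hk
    have hf' : AnalyticAt ℝ f (h 0) := by rw [h0]; exact hf
    have hfh : AnalyticAt ℝ (f ∘ h) 0 := hf'.comp hh
    rw [TT_mem_Ord_succ hf] at hk
    rw [TT_mem_Ord_succ hfh]
    refine ⟨by rw [Function.comp_apply, h0, hk.1], fun i => ?_⟩
    have h1 : dA i (f ∘ h) =ᶠ[𝓝 0] ∑ l, (dA l f ∘ h) * dA i (co l ∘ h) := by
      filter_upwards [hh.eventually_analyticAt,
        hh.continuousAt.eventually hf'.eventually_analyticAt] with x hx hx'
      rw [dA_comp hx.differentiableAt hx'.differentiableAt i, Finset.sum_apply]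
      rfl
    have h2 : ∀ l, AnalyticAt ℝ (dA l f ∘ h) 0 := by
      intro l
      have : AnalyticAt ℝ (dA l f) (h 0) := dA_analytic l hf'
      exact this.comp hh
    have h3 : ∀ l, AnalyticAt ℝ (dA i (co l ∘ h)) 0 := fun l =>
      dA_analytic i ((co_analytic l _).comp hh)
    rw [TT_congr h1, TT_sum _ _ (fun l _ => (h2 l).mul (h3 l))]
    apply Submodule.sum_mem
    intro l _
    rw [TT_mul (h2 l) (h3 l), mul_comm]
    exact mul_mem_Ord_right (ih _ (dA_analytic l hf) (hk.2 l))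

/-- Composition operator minus the identity. -/
noncomputable def Dl (h : (Fin m → ℝ) → (Fin m → ℝ)) : Module.End ℂ ((Fin m → ℝ) → ℂ) :=
  LinearMap.funLeft ℂ ℂ h - 1

theorem Dl_apply (h : (Fin m → ℝ) → (Fin m → ℝ)) (f : (Fin m → ℝ) → ℂ) :
    Dl h f = f ∘ h - f := rfl

theorem Dl_analytic {h : (Fin m → ℝ) → (Fin m → ℝ)} (hh : AnalyticAt ℝ h 0) (h0 : h 0 = 0)
    {f : (Fin m → ℝ) → ℂ} (hf : AnalyticAt ℝ f 0) : AnalyticAt ℝ (Dl h f) 0 := by
  rw [Dl_apply]
  have hf' : AnalyticAt ℝ f (h 0) := by rw [h0]; exact hf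
  exact (hf'.comp hh).sub hf

theorem Dl_pow_analytic {h : (Fin m → ℝ) → (Fin m → ℝ)} (hh : AnalyticAt ℝ h 0) (h0 : h 0 = 0)
    {f : (Fin m → ℝ) → ℂ} (hf : AnalyticAt ℝ f 0) (q : ℕ) : AnalyticAt ℝ ((Dl h ^ q) f) 0 := by
  induction q with
  | zero => exact hf
  | succ q ih =>
    rw [pow_succ', Module.End.mul_apply]
    exact Dl_analytic hh h0 ih

theorem comp_iterate (h : (Fin m → ℝ) → (Fin m → ℝ)) (f : (Fin m → ℝ) → ℂ) (n : ℕ) :
    f ∘ h^[n] = ∑ q ∈ Finset.range (n + 1), (n.choose q : ℂ) • (Dl h ^ q) f := by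
  have h1 : f ∘ h^[n] = ((LinearMap.funLeft ℂ ℂ h : Module.End ℂ ((Fin m → ℝ) → ℂ)) ^ n) f := by
    induction n with
    | zero => rfl
    | succ n ih =>
      rw [pow_succ', Module.End.mul_apply, ← ih, Function.iterate_succ]
      rfl
  have h2 : (LinearMap.funLeft ℂ ℂ h : Module.End ℂ ((Fin m → ℝ) → ℂ)) = Dl h + 1 := by
    unfold Dl; rw [sub_add_cancel]
  rw [h1, h2, (Commute.one_right _).add_pow, LinearMap.sum_apply]
  apply Finset.sum_congr rfl
  intro q _
  rw [one_pow, mul_one, Module.End.mul_apply, Module.End.natCast_apply, map_nsmul,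
    Nat.cast_smul_eq_nsmul]

theorem TT_Dl_Ord {h : (Fin m → ℝ) → (Fin m → ℝ)} (hh : AnalyticAt ℝ h 0) (h0 : h 0 = 0)
    (h2 : ∀ l, TT (co l ∘ h - co l) ∈ Ord 2)
    (k : ℕ) : ∀ f : (Fin m → ℝ) → ℂ, AnalyticAt ℝ f 0 → TT f ∈ Ord k →
      TT (Dl h f) ∈ Ord (k + 1) := by
  induction k with
  | zero =>
    intro f hf _
    rw [TT_mem_Ord_succ (Dl_analytic hh h0 hf)]
    refine ⟨by rw [Dl_apply, Pi.sub_apply, Function.comp_apply, h0, sub_self], fun i n hn =>
      absurd hn (Nat.not_lt_zero _)⟩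
  | succ k ih =>
    intro f hf hk
    have hf' : AnalyticAt ℝ f (h 0) := by rw [h0]; exact hf
    rw [TT_mem_Ord_succ (Dl_analytic hh h0 hf)]
    refine ⟨by rw [Dl_apply, Pi.sub_apply, Function.comp_apply, h0, sub_self], fun i => ?_⟩
    rw [TT_mem_Ord_succ hf] at hk
    have h1 : dA i (Dl h f) =ᶠ[𝓝 0]
        ∑ l, (dA l f ∘ h) * dA i (co l ∘ h - co l) + Dl h (dA i f) := by
      filter_upwards [hh.eventually_analyticAt, hf.eventually_analyticAt,
        hh.continuousAt.eventually hf'.eventually_analyticAt] with x hx hxf hx'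
      have e1 : dA i (Dl h f) x = dA i (f ∘ h) x - dA i f x := by
        rw [Dl_apply]
        unfold dA
        rw [fderiv_sub (hx'.comp hx).differentiableAt hxf.differentiableAt]
        rfl
      have e2 : ∀ l, dA i (co l ∘ h - co l) x = dA i (co l ∘ h) x - (if i = l then 1 else 0) := by
        intro l
        have : (if i = l then (1 : ℂ) else 0) = dA i (co l) x := by rw [dA_co]
        rw [this]
        unfold dA
        rw [fderiv_sub ((co_analytic l _).comp hx).differentiableAt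
          (co_analytic l x).differentiableAt]
        rfl
      rw [e1, dA_comp hx.differentiableAt hx'.differentiableAt i, Pi.add_apply, Finset.sum_apply,
        Dl_apply, Pi.sub_apply]
      simp only [Pi.mul_apply, e2, mul_sub, Finset.sum_sub_distrib, Function.comp_apply]
      simp
    have a1 : ∀ l, AnalyticAt ℝ (dA l f ∘ h) 0 := by
      intro l
      have : AnalyticAt ℝ (dA l f) (h 0) := dA_analytic l hf'
      exact this.comp hh
    have a2 : ∀ l, AnalyticAt ℝ (co l ∘ h - co l) 0 := fun l =>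
      ((co_analytic l _).comp hh).sub (co_analytic l 0)
    have a3 : ∀ l, AnalyticAt ℝ (dA i (co l ∘ h - co l)) 0 := fun l => dA_analytic i (a2 l)
    rw [TT_congr h1, TT_add (Finset.analyticAt_sum _ (fun l _ => (a1 l).mul (a3 l)))
      (Dl_analytic hh h0 (dA_analytic i hf)), TT_sum _ _ (fun l _ => (a1 l).mul (a3 l))]
    apply Submodule.add_mem
    · apply Submodule.sum_mem
      intro l _
      rw [TT_mul (a1 l) (a3 l)]
      apply mul_mem_Ord
      · exact TT_comp_Ord hh h0 k _ (dA_analytic l hf) (hk.2 l)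
      · exact ((TT_mem_Ord_succ (a2 l) 1).mp (h2 l)).2 i
    · exact ih _ (dA_analytic i hf) (hk.2 i)

theorem TT_Dl_pow_Ord {h : (Fin m → ℝ) → (Fin m → ℝ)} (hh : AnalyticAt ℝ h 0) (h0 : h 0 = 0)
    (h2 : ∀ l, TT (co l ∘ h - co l) ∈ Ord 2)
    (k : ℕ) (f : (Fin m → ℝ) → ℂ) (hf : AnalyticAt ℝ f 0) (hk : TT f ∈ Ord k) (q : ℕ) :
      TT ((Dl h ^ q) f) ∈ Ord (k + q) := by
  induction q with
  | zero => exact hk
  | succ q ih =>
    rw [pow_succ', Module.End.mul_apply]
    exact TT_Dl_Ord hh h0 h2 _ _ (Dl_pow_analytic hh h0 hf q) ih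

/-! ### Power series with polynomial coefficients -/

/-- evaluation at `n`. -/
noncomputable def evP (n : ℕ) : MvPowerSeries (Fin m) ℂ[X] →+* PS m :=
  MvPowerSeries.map (Polynomial.evalRingHom (n : ℂ))

theorem coeff_evP (n : ℕ) (u : MvPowerSeries (Fin m) ℂ[X]) (d : Fin m →₀ ℕ) :
    MvPowerSeries.coeff d (evP n u) = (MvPowerSeries.coeff d u).eval (n : ℂ) := by
  unfold evP
  rw [MvPowerSeries.coeff_map]
  rfl

theorem evP_ext {u v : MvPowerSeries (Fin m) ℂ[X]} (h : ∀ n, evP n u = evP n v) : u = v := by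
  ext1 d
  apply Polynomial.eq_of_infinite_eval_eq
  apply Set.Infinite.mono (s := Set.range (fun n : ℕ => (n : ℂ)))
  · rintro _ ⟨n, rfl⟩
    have := congrArg (MvPowerSeries.coeff d) (h n)
    rwa [coeff_evP, coeff_evP] at this
  · exact Set.infinite_range_of_injective Nat.cast_injective

/-- derivative at `n = 0`. -/
noncomputable def dE (u : MvPowerSeries (Fin m) ℂ[X]) : PS m :=
  fun d => (MvPowerSeries.coeff d u).coeff 1

theorem coeff_dE (u : MvPowerSeries (Fin m) ℂ[X]) (d : Fin m →₀ ℕ) :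
    MvPowerSeries.coeff d (dE u) = (MvPowerSeries.coeff d u).coeff 1 := rfl

theorem dE_add (u v : MvPowerSeries (Fin m) ℂ[X]) : dE (u + v) = dE u + dE v := by
  ext d
  rw [coeff_dE, map_add, map_add, coeff_dE, coeff_dE, Polynomial.coeff_add]

theorem dE_zero : dE (0 : MvPowerSeries (Fin m) ℂ[X]) = 0 := by
  ext d
  rw [coeff_dE]
  simp

theorem dE_sum {J : Type*} (s : Finset J) (u : J → MvPowerSeries (Fin m) ℂ[X]) :
    dE (∑ j ∈ s, u j) = ∑ j ∈ s, dE (u j) := by
  classical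
  induction s using Finset.induction_on with
  | empty => simp [dE_zero]
  | insert a s ha ih => rw [Finset.sum_insert ha, Finset.sum_insert ha, dE_add, ih]

theorem dE_mul (u v : MvPowerSeries (Fin m) ℂ[X]) :
    dE (u * v) = dE u * evP 0 v + evP 0 u * dE v := by
  classical
  ext d
  rw [coeff_dE, MvPowerSeries.coeff_mul, map_add, MvPowerSeries.coeff_mul,
    MvPowerSeries.coeff_mul, ← Finset.sum_add_distrib, Polynomial.finsetSum_coeff]
  apply Finset.sum_congr rfl
  rintro ⟨a, b⟩ _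
  rw [coeff_dE, coeff_dE, coeff_evP, coeff_evP, Polynomial.coeff_mul]
  have h1 : Finset.HasAntidiagonal.antidiagonal (1 : ℕ) = {(0, 1), (1, 0)} := rfl
  rw [h1, Finset.sum_pair (by simp)]
  simp only [Nat.cast_zero, ← Polynomial.coeff_zero_eq_eval_zero]
  ring

theorem dE_pderiv (i : Fin m) (u : MvPowerSeries (Fin m) ℂ[X]) :
    dE (pderiv ℂ[X] i u) = pderiv ℂ i (dE u) := by
  ext d
  rw [coeff_dE, coeff_pderiv, coeff_pderiv, coeff_dE]
  have h1 : ((d i : ℂ[X]) + 1) = Polynomial.C ((d i : ℂ) + 1) := by simp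
  rw [h1, Polynomial.coeff_mul_C]

theorem evP_pderiv (n : ℕ) (i : Fin m) (u : MvPowerSeries (Fin m) ℂ[X]) :
    evP n (pderiv ℂ[X] i u) = pderiv ℂ i (evP n u) := by
  ext d
  rw [coeff_evP, coeff_pderiv, coeff_pderiv, coeff_evP]
  simp

/-- the binomial polynomial. -/
noncomputable def bp (q : ℕ) : ℂ[X] := Polynomial.C ((q.factorial : ℂ)⁻¹) * descPochhammer ℂ q

theorem bp_eval (q n : ℕ) : (bp q).eval (n : ℂ) = (n.choose q : ℂ) := by
  unfold bp
  rw [Polynomial.eval_mul, Polynomial.eval_C, descPochhammer_eval_eq_descFactorial,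
    Nat.descFactorial_eq_factorial_mul_choose]
  have : (q.factorial : ℂ) ≠ 0 := by exact_mod_cast Nat.factorial_ne_zero q
  push_cast
  field_simp

theorem bp_zero : bp 0 = 1 := by
  simp [bp]

theorem bp_one : bp 1 = Polynomial.X := by
  simp [bp]

/-- The Taylor series of the iterates. -/
noncomputable def uhat (h : (Fin m → ℝ) → (Fin m → ℝ)) (f : (Fin m → ℝ) → ℂ) :
    MvPowerSeries (Fin m) ℂ[X] :=
  fun d => ∑ q ∈ Finset.range (d.degree + 1),
    Polynomial.C (MvPowerSeries.coeff d (TT ((Dl h ^ q) f))) * bp q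

theorem coeff_uhat (h : (Fin m → ℝ) → (Fin m → ℝ)) (f : (Fin m → ℝ) → ℂ) (d : Fin m →₀ ℕ) :
    MvPowerSeries.coeff d (uhat h f) = ∑ q ∈ Finset.range (d.degree + 1),
    Polynomial.C (MvPowerSeries.coeff d (TT ((Dl h ^ q) f))) * bp q := rfl

/-- Standing assumptions: analytic germ fixing the origin, tangent to the identity. -/
structure Tan (h : (Fin m → ℝ) → (Fin m → ℝ)) : Prop where
  an : AnalyticAt ℝ h 0
  zero : h 0 = 0
  ord : ∀ l, TT (co l ∘ h - co l) ∈ Ord 2

theorem evP_uhat {h : (Fin m → ℝ) → (Fin m → ℝ)} (hh : Tan h) {f : (Fin m → ℝ) → ℂ}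
    (hf : AnalyticAt ℝ f 0) (n : ℕ) : evP n (uhat h f) = TT (f ∘ h^[n]) := by
  ext d
  rw [coeff_evP, coeff_uhat, Polynomial.eval_finsetSum, comp_iterate, TT_sum, map_sum]
  · have h1 : ∀ q, MvPowerSeries.coeff d (TT ((n.choose q : ℂ) • (Dl h ^ q) f)) =
        (n.choose q : ℂ) * MvPowerSeries.coeff d (TT ((Dl h ^ q) f)) := by
      intro q
      have : (n.choose q : ℂ) • (Dl h ^ q) f = fun t => (n.choose q : ℂ) * ((Dl h ^ q) f) t := rfl
      rw [this, TT_const_mul _ (Dl_pow_analytic hh.an hh.zero hf q), MvPowerSeries.coeff_C_mul]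
    simp only [h1, Polynomial.eval_mul, Polynomial.eval_C, bp_eval]
    have e1 : ∑ q ∈ Finset.range (d.degree + 1),
        MvPowerSeries.coeff d (TT ((Dl h ^ q) f)) * (n.choose q : ℂ) =
        ∑ q ∈ Finset.range (d.degree + n + 1),
        MvPowerSeries.coeff d (TT ((Dl h ^ q) f)) * (n.choose q : ℂ) := by
      apply Finset.sum_subset
      · intro q hq
        simp only [Finset.mem_range] at hq ⊢
        omega
      · intro q _ hq
        simp only [Finset.mem_range, not_lt] at hq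
        rw [TT_Dl_pow_Ord hh.an hh.zero hh.ord 0 f hf (fun n hn => absurd hn (Nat.not_lt_zero _)) q d
          (by omega), zero_mul]
    have e2 : ∑ q ∈ Finset.range (n + 1),
        (n.choose q : ℂ) * MvPowerSeries.coeff d (TT ((Dl h ^ q) f)) =
        ∑ q ∈ Finset.range (d.degree + n + 1),
        (n.choose q : ℂ) * MvPowerSeries.coeff d (TT ((Dl h ^ q) f)) := by
      apply Finset.sum_subset
      · intro q hq
        simp only [Finset.mem_range] at hq ⊢
        omega
      · intro q _ hq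
        simp only [Finset.mem_range, not_lt] at hq
        rw [Nat.choose_eq_zero_of_lt (by omega)]
        simp
    rw [e1, e2]
    apply Finset.sum_congr rfl
    intro q _
    ring
  · intro q _
    exact (Dl_pow_analytic hh.an hh.zero hf q).const_smul

/-- The logarithm acting on functions. -/
noncomputable def logT (h : (Fin m → ℝ) → (Fin m → ℝ)) (f : (Fin m → ℝ) → ℂ) : PS m :=
  dE (uhat h f)

theorem iterate_analytic {h : (Fin m → ℝ) → (Fin m → ℝ)} (hh : Tan h) (n : ℕ) :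
    AnalyticAt ℝ (h^[n]) 0 ∧ h^[n] 0 = 0 := by
  induction n with
  | zero => exact ⟨analyticAt_id, rfl⟩
  | succ n ih =>
    refine ⟨?_, ?_⟩
    · rw [Function.iterate_succ]
      have h1 : AnalyticAt ℝ (h^[n]) (h 0) := by rw [hh.zero]; exact ih.1
      exact h1.comp hh.an
    · rw [Function.iterate_succ_apply, hh.zero, ih.2]

theorem pderiv_uhat {h : (Fin m → ℝ) → (Fin m → ℝ)} (hh : Tan h) {f : (Fin m → ℝ) → ℂ}
    (hf : AnalyticAt ℝ f 0) (k : Fin m) :
    pderiv ℂ[X] k (uhat h f) = ∑ i, uhat h (dA i f) * pderiv ℂ[X] k (uhat h (co i)) := by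
  apply evP_ext
  intro n
  rw [evP_pderiv, evP_uhat hh hf, map_sum]
  obtain ⟨hn, hn0⟩ := iterate_analytic hh n
  have hf' : AnalyticAt ℝ f (h^[n] 0) := by rw [hn0]; exact hf
  have a1 : ∀ l, AnalyticAt ℝ (dA l f ∘ h^[n]) 0 := by
    intro l
    have : AnalyticAt ℝ (dA l f) (h^[n] 0) := dA_analytic l hf'
    exact this.comp hn
  have a2 : ∀ l, AnalyticAt ℝ (co l ∘ h^[n]) 0 := fun l => (co_analytic l _).comp hn
  have h1 : dA k (f ∘ h^[n]) =ᶠ[𝓝 0] ∑ l, (dA l f ∘ h^[n]) * dA k (co l ∘ h^[n]) := by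
    filter_upwards [hn.eventually_analyticAt,
      hn.continuousAt.eventually hf'.eventually_analyticAt] with x hx hx'
    rw [dA_comp hx.differentiableAt hx'.differentiableAt k, Finset.sum_apply]
    rfl
  rw [pderiv_TT k (hf'.comp hn), TT_congr h1, TT_sum _ _ (fun l _ => (a1 l).mul
    (dA_analytic k (a2 l)))]
  apply Finset.sum_congr rfl
  intro i _
  rw [map_mul, evP_pderiv, evP_uhat hh (dA_analytic i hf), evP_uhat hh (co_analytic i 0),
    pderiv_TT k (a2 i), TT_mul (a1 i) (dA_analytic k (a2 i))]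

theorem coeff_zero_logT (h : (Fin m → ℝ) → (Fin m → ℝ)) (f : (Fin m → ℝ) → ℂ) :
    MvPowerSeries.coeff 0 (logT h f) = 0 := by
  unfold logT
  rw [coeff_dE, coeff_uhat]
  simp [bp_zero]

theorem evP_zero_uhat {h : (Fin m → ℝ) → (Fin m → ℝ)} (hh : Tan h) {f : (Fin m → ℝ) → ℂ}
    (hf : AnalyticAt ℝ f 0) : evP 0 (uhat h f) = TT f := by
  rw [evP_uhat hh hf]; rfl

/-- chain rule for the logarithm. -/
theorem logT_chain {h : (Fin m → ℝ) → (Fin m → ℝ)} (hh : Tan h) {f : (Fin m → ℝ) → ℂ}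
    (hf : AnalyticAt ℝ f 0) :
    logT h f = ∑ i, logT h (co i) * pderiv ℂ i (TT f) := by
  refine ps_ext (J := (Fin m → ℝ) → ℂ) (fun f => logT h f)
    (fun f => ∑ i, logT h (co i) * pderiv ℂ i (TT f)) (fun f => AnalyticAt ℝ f 0) ?_ ?_ f hf
  · intro f _
    rw [coeff_zero_logT, map_sum]
    symm
    apply Finset.sum_eq_zero
    intro i _
    rw [coeff_zero_eq_constantCoeff_apply, map_mul, ← coeff_zero_eq_constantCoeff_apply,
      coeff_zero_logT, zero_mul]
  · intro f hf k d ih n hn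
    have h1 : pderiv ℂ k (logT h f) = logT h (dA k f) +
        ∑ i, TT (dA i f) * pderiv ℂ k (logT h (co i)) := by
      unfold logT
      rw [← dE_pderiv, pderiv_uhat hh hf, dE_sum]
      simp only [dE_mul, evP_pderiv, evP_zero_uhat hh (co_analytic _ 0), TT_co, dE_pderiv,
        Finset.sum_add_distrib]
      congr 1
      · rw [Finset.sum_eq_single k]
        · rw [pderiv_X_self, mul_one]
        · intro i _ hik
          rw [pderiv_X_of_ne hik, mul_zero]
        · intro hk; exact absurd (Finset.mem_univ k) hk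
      · apply Finset.sum_congr rfl
        intro i _
        rw [evP_zero_uhat hh (dA_analytic i hf)]
    have h2 : pderiv ℂ k (∑ i, logT h (co i) * pderiv ℂ i (TT f)) =
        ∑ i, logT h (co i) * pderiv ℂ i (TT (dA k f)) +
        ∑ i, TT (dA i f) * pderiv ℂ k (logT h (co i)) := by
      rw [map_sum, ← Finset.sum_add_distrib]
      apply Finset.sum_congr rfl
      intro i _
      rw [Derivation.leibniz, pderiv_comm k i, pderiv_TT k hf, pderiv_TT i hf, smul_eq_mul,
        smul_eq_mul]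
    rw [h1, h2, map_add, map_add, ih _ (dA_analytic k hf) n hn]

/-- Linear first order relations pass to the logarithm. -/
theorem logT_relation {h : (Fin m → ℝ) → (Fin m → ℝ)} (hh : Tan h) {f : (Fin m → ℝ) → ℂ}
    (hf : AnalyticAt ℝ f 0) (l : Fin m → PS m)
    (hl : ∀ n, ∑ i, l i * pderiv ℂ i (TT (f ∘ h^[n])) = 0) :
    ∑ i, l i * pderiv ℂ i (logT h f) = 0 := by
  set L : Fin m → MvPowerSeries (Fin m) ℂ[X] := fun i => MvPowerSeries.map Polynomial.C (l i)
    with hL
  have hLn : ∀ n i, evP n (L i) = l i := by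
    intro n i
    ext d
    rw [coeff_evP, hL, MvPowerSeries.coeff_map, Polynomial.eval_C]
  have hLd : ∀ i, dE (L i) = 0 := by
    intro i
    ext d
    rw [coeff_dE, hL, MvPowerSeries.coeff_map, Polynomial.coeff_C]
    simp
  have h1 : ∑ i, L i * pderiv ℂ[X] i (uhat h f) = 0 := by
    apply evP_ext
    intro n
    rw [map_sum, map_zero, ← hl n]
    apply Finset.sum_congr rfl
    intro i _
    rw [map_mul, hLn, evP_pderiv, evP_uhat hh hf]
  have h2 := congrArg dE h1
  rw [dE_sum, dE_zero] at h2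
  rw [← h2]
  apply Finset.sum_congr rfl
  intro i _
  rw [dE_mul, hLd, zero_mul, zero_add, hLn, dE_pderiv]
  rfl

/-- leading term of the logarithm. -/
theorem logT_sub_Ord {h : (Fin m → ℝ) → (Fin m → ℝ)} (hh : Tan h) {f : (Fin m → ℝ) → ℂ}
    (hf : AnalyticAt ℝ f 0) (k : ℕ) (hk : TT (Dl h f) ∈ Ord k) :
    logT h f - TT (Dl h f) ∈ Ord (k + 1) := by
  intro d hd
  rw [map_sub]
  unfold logT
  rw [coeff_dE, coeff_uhat, Polynomial.finsetSum_coeff]
  simp only [Polynomial.coeff_C_mul]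
  have hq : ∀ q, 2 ≤ q → MvPowerSeries.coeff d (TT ((Dl h ^ q) f)) = 0 := by
    intro q hq
    obtain ⟨r, rfl⟩ : ∃ r, q = r + 1 := ⟨q - 1, by omega⟩
    rw [pow_succ, Module.End.mul_apply]
    exact TT_Dl_pow_Ord hh.an hh.zero hh.ord k _ (Dl_analytic hh.an hh.zero hf) hk r d (by omega)
  have h1 : ∑ q ∈ Finset.range (d.degree + 1),
      MvPowerSeries.coeff d (TT ((Dl h ^ q) f)) * (bp q).coeff 1 =
      ∑ q ∈ Finset.range (d.degree + 2),
      MvPowerSeries.coeff d (TT ((Dl h ^ q) f)) * (bp q).coeff 1 := by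
    rw [Finset.sum_range_succ _ (d.degree + 1)]
    have : MvPowerSeries.coeff d (TT ((Dl h ^ (d.degree + 1)) f)) = 0 :=
      TT_Dl_pow_Ord hh.an hh.zero hh.ord 0 f hf (fun n hn => absurd hn (Nat.not_lt_zero _))
        (d.degree + 1) d (by omega)
    rw [this, zero_mul, add_zero]
  rw [h1, Finset.sum_eq_single 1]
  · rw [bp_one, Polynomial.coeff_X_one, mul_one, pow_one, sub_self]
  · intro q _ hq1
    rcases Nat.lt_or_ge q 2 with h2 | h2
    · have : q = 0 := by omega
      subst this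
      rw [bp_zero, Polynomial.coeff_one]; simp
    · rw [hq q h2, zero_mul]
  · intro h2
    exact absurd (Finset.mem_range.mpr (by omega)) h2

theorem logT_Ord {h : (Fin m → ℝ) → (Fin m → ℝ)} (hh : Tan h) {f : (Fin m → ℝ) → ℂ}
    (hf : AnalyticAt ℝ f 0) (k : ℕ) (hk : TT (Dl h f) ∈ Ord k) : logT h f ∈ Ord k := by
  have h1 := Ord_anti (Nat.le_succ k) (logT_sub_Ord hh hf k hk)
  have := Submodule.add_mem _ h1 hk
  rwa [sub_add_cancel] at this

theorem TT_Dl_eq_zero {h : (Fin m → ℝ) → (Fin m → ℝ)} (hh : Tan h) {f : (Fin m → ℝ) → ℂ}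
    (hf : AnalyticAt ℝ f 0) (h0 : logT h f = 0) : TT (Dl h f) = 0 := by
  apply eq_zero_of_forall_Ord
  intro k
  induction k with
  | zero => intro n hn; exact absurd hn (Nat.not_lt_zero _)
  | succ k ih =>
    have h1 := logT_sub_Ord hh hf k ih
    rw [h0, zero_sub] at h1
    exact (Submodule.neg_mem_iff _).mp h1

end Pool.Agent.Lib51bf1a
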