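import Mathlib
import Pool.Agent.Lib_51bf1a.B2_Log

/-!
Local parametrisations of a generic submanifold, and calculus of complex vector fields on the
parameter space.
-/

namespace Pool.Agent.Lib51bf1a

open MvPowerSeries Topology Filter

/-- Local parametrisation data. -/
structure Loc (N m : ℕ) (M : Set (Fin N → ℂ)) where
  ψ : (Fin m → ℝ) → (Fin N → ℂ)
  σ : (Fin N → ℂ) → (Fin m → ℝ)
  U : Set (Fin m → ℝ)
  R : (Fin m → ℝ) → Fin m → Fin N → ℂ
  hU : IsOpen U
  hUc : IsPreconnected U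
  h0 : (0 : Fin m → ℝ) ∈ U
  ψ_an : ∀ t ∈ U, AnalyticAt ℝ ψ t
  σ_an : ∀ t ∈ U, AnalyticAt ℝ σ (ψ t)
  σψ : ∀ t ∈ U, σ (ψ t) = t
  ψM : ∀ t ∈ U, ψ t ∈ M
  ψσ : ∀ t ∈ U, ∀ᶠ z in 𝓝 (ψ t), z ∈ M → ψ (σ z) = z
  R_an : ∀ t ∈ U, ∀ k j, AnalyticAt ℝ (fun s => R s k j) t
  BR : ∀ t ∈ U, ∀ j j', ∑ k, dA k (fun s => ψ s j) t * R t k j' = if j = j' then 1 else 0

variable {N m : ℕ} {M : Set (Fin N → ℂ)}

namespace Loc

variable (D : Loc N m M)

/-- components of the parametrisation. -/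
def pc (j : Fin N) : (Fin m → ℝ) → ℂ := fun t => D.ψ t j

theorem pc_an {t : Fin m → ℝ} (ht : t ∈ D.U) (j : Fin N) : AnalyticAt ℝ (D.pc j) t := by
  have h := D.ψ_an t ht
  exact ((ContinuousLinearMap.proj (R := ℝ) (φ := fun _ : Fin N => ℂ) j).analyticAt _).comp h

theorem eventually_U {t : Fin m → ℝ} (ht : t ∈ D.U) : ∀ᶠ s in 𝓝 t, s ∈ D.U := D.hU.mem_nhds ht

theorem BR' {t : Fin m → ℝ} (ht : t ∈ D.U) (j j' : Fin N) :
    ∑ k, dA k (D.pc j) t * D.R t k j' = if j = j' then 1 else 0 := D.BR t ht j j'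

theorem fderiv_ψ {t : Fin m → ℝ} (ht : t ∈ D.U) (x : Fin m → ℝ) (j : Fin N) :
    fderiv ℝ D.ψ t x j = ∑ k, dA k (D.pc j) t * (x k : ℂ) := by
  have h1 : fderiv ℝ (D.pc j) t = (ContinuousLinearMap.proj (R := ℝ) (φ := fun _ : Fin N => ℂ) j).comp
      (fderiv ℝ D.ψ t) := by
    have h2 : D.pc j = (fun v : Fin N → ℂ => (ContinuousLinearMap.proj (R := ℝ)
      (φ := fun _ : Fin N => ℂ) j) v) ∘ D.ψ := rfl
    rw [h2, fderiv_comp t (ContinuousLinearMap.differentiableAt _) (D.ψ_an t ht).differentiableAt,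
      ContinuousLinearMap.fderiv]
  have h3 : fderiv ℝ D.ψ t x j = fderiv ℝ (D.pc j) t x := by rw [h1]; rfl
  rw [h3]
  have h4 : x = ∑ k, x k • (Pi.single k 1 : Fin m → ℝ) := pi_eq_sum_univ' x
  conv_lhs => rw [h4]
  rw [map_sum]
  apply Finset.sum_congr rfl
  intro k _
  rw [map_smul, mul_comm, Complex.real_smul]
  rfl

end Loc

/-! ### calculus of vector fields -/

/-- Action of a complex vector field on a function. -/
noncomputable def ap (a : (Fin m → ℝ) → Fin m → ℂ) (f : (Fin m → ℝ) → ℂ) : (Fin m → ℝ) → ℂ :=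
  fun t => ∑ i, a t i * dA i f t

/-- componentwise analyticity. -/
def VAn (a : (Fin m → ℝ) → Fin m → ℂ) (t : Fin m → ℝ) : Prop :=
  ∀ i, AnalyticAt ℝ (fun s => a s i) t

theorem VAn.eventually {a : (Fin m → ℝ) → Fin m → ℂ} {t : Fin m → ℝ} (h : VAn a t) :
    ∀ᶠ s in 𝓝 t, VAn a s := by
  have : ∀ᶠ s in 𝓝 t, ∀ i, AnalyticAt ℝ (fun s => a s i) s := by
    rw [eventually_all]
    intro i
    exact (h i).eventually_analyticAt
  exact this

theorem ap_analytic {a : (Fin m → ℝ) → Fin m → ℂ} {f : (Fin m → ℝ) → ℂ} {t : Fin m → ℝ}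
    (ha : VAn a t) (hf : AnalyticAt ℝ f t) : AnalyticAt ℝ (ap a f) t := by
  have h : ap a f = ∑ i, (fun s => a s i) * dA i f := by
    funext s; simp [ap, Finset.sum_apply]
  rw [h]
  apply Finset.analyticAt_sum
  intro i _
  exact (ha i).mul (dA_analytic i hf)

theorem ap_congr {a b : (Fin m → ℝ) → Fin m → ℂ} {f g : (Fin m → ℝ) → ℂ} {t : Fin m → ℝ}
    (hab : a =ᶠ[𝓝 t] b) (hfg : f =ᶠ[𝓝 t] g) : ap a f =ᶠ[𝓝 t] ap b g := by
  have h1 : ∀ᶠ s in 𝓝 t, ∀ i, dA i f s = dA i g s := by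
    rw [eventually_all]; intro i; exact dA_congr i hfg
  filter_upwards [hab, h1] with s hs hs'
  unfold ap
  rw [hs]
  simp only [hs']

theorem ap_add_fun {a : (Fin m → ℝ) → Fin m → ℂ} {f g : (Fin m → ℝ) → ℂ} {t : Fin m → ℝ}
    (hf : AnalyticAt ℝ f t) (hg : AnalyticAt ℝ g t) :
    ap a (f + g) t = ap a f t + ap a g t := by
  unfold ap
  rw [← Finset.sum_add_distrib]
  apply Finset.sum_congr rfl
  intro i _
  rw [(dA_add i hf hg).eq_of_nhds, Pi.add_apply, mul_add]

theorem ap_mul_fun {a : (Fin m → ℝ) → Fin m → ℂ} {f g : (Fin m → ℝ) → ℂ} {t : Fin m → ℝ}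
    (hf : AnalyticAt ℝ f t) (hg : AnalyticAt ℝ g t) :
    ap a (f * g) t = ap a f t * g t + f t * ap a g t := by
  unfold ap
  rw [Finset.sum_mul, Finset.mul_sum, ← Finset.sum_add_distrib]
  apply Finset.sum_congr rfl
  intro i _
  rw [(dA_mul i hf hg).eq_of_nhds, Pi.add_apply, Pi.mul_apply, Pi.mul_apply]
  ring

theorem ap_sum_fun {J : Type*} (s : Finset J) {a : (Fin m → ℝ) → Fin m → ℂ}
    {f : J → (Fin m → ℝ) → ℂ} {t : Fin m → ℝ}
    (hf : ∀ j ∈ s, AnalyticAt ℝ (f j) t) :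
    ap a (∑ j ∈ s, f j) t = ∑ j ∈ s, ap a (f j) t := by
  classical
  induction s using Finset.induction_on with
  | empty =>
    simp only [Finset.sum_empty]
    have : (0 : (Fin m → ℝ) → ℂ) = fun _ => 0 := rfl
    unfold ap
    rw [this]
    simp [dA_const]
  | insert b s hb ih =>
    rw [Finset.sum_insert hb, Finset.sum_insert hb,
      ap_add_fun (hf b (Finset.mem_insert_self b s))
        (Finset.analyticAt_sum s (fun j hj => hf j (Finset.mem_insert_of_mem hj))), ih]
    intro j hj; exact hf j (Finset.mem_insert_of_mem hj)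

theorem ap_const (a : (Fin m → ℝ) → Fin m → ℂ) (c : ℂ) (t : Fin m → ℝ) :
    ap a (fun _ => c) t = 0 := by
  unfold ap
  simp [dA_const]

theorem ap_co (a : (Fin m → ℝ) → Fin m → ℂ) (i : Fin m) (t : Fin m → ℝ) :
    ap a (co i) t = a t i := by
  unfold ap
  simp [dA_co]

/-- Bracket of complex vector fields. -/
noncomputable def bA (a b : (Fin m → ℝ) → Fin m → ℂ) : (Fin m → ℝ) → Fin m → ℂ :=
  fun t j => ap a (fun s => b s j) t - ap b (fun s => a s j) t

theorem bA_analytic {a b : (Fin m → ℝ) → Fin m → ℂ} {t : Fin m → ℝ} (ha : VAn a t)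
    (hb : VAn b t) : VAn (bA a b) t := by
  intro j
  exact (ap_analytic ha (hb j)).sub (ap_analytic hb (ha j))

theorem bA_congr {a b a' b' : (Fin m → ℝ) → Fin m → ℂ} {t : Fin m → ℝ} (ha : a =ᶠ[𝓝 t] a')
    (hb : b =ᶠ[𝓝 t] b') : bA a b =ᶠ[𝓝 t] bA a' b' := by
  have h1 : ∀ᶠ s in 𝓝 t, ∀ j, ap a (fun s => b s j) s = ap a' (fun s => b' s j) s := by
    rw [eventually_all]; intro j
    apply ap_congr ha
    filter_upwards [hb] with s hs; rw [hs]
  have h2 : ∀ᶠ s in 𝓝 t, ∀ j, ap b (fun s => a s j) s = ap b' (fun s => a' s j) s := by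
    rw [eventually_all]; intro j
    apply ap_congr hb
    filter_upwards [ha] with s hs; rw [hs]
  filter_upwards [h1, h2] with s hs1 hs2
  funext j
  simp only [bA, hs1 j, hs2 j]

/-- The bracket acts as the commutator. -/
theorem ap_bA {a b : (Fin m → ℝ) → Fin m → ℂ} {f : (Fin m → ℝ) → ℂ} {t : Fin m → ℝ}
    (ha : VAn a t) (hb : VAn b t) (hf : AnalyticAt ℝ f t) :
    ap (bA a b) f t = ap a (ap b f) t - ap b (ap a f) t := by
  have key : ∀ a b : (Fin m → ℝ) → Fin m → ℂ, VAn a t → VAn b t → ap a (ap b f) t =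
      ∑ j, ap a (fun s => b s j) t * dA j f t + ∑ i, ∑ j, a t i * b t j * dA i (dA j f) t := by
    intro a b ha hb
    have h1 : ap b f = ∑ j, (fun s => b s j) * dA j f := by
      funext s; simp [ap, Finset.sum_apply]
    rw [h1, ap_sum_fun _ (fun j _ => (hb j).mul (dA_analytic j hf))]
    have h2 : ∀ j, ap a ((fun s => b s j) * dA j f) t =
        ap a (fun s => b s j) t * dA j f t + b t j * ap a (dA j f) t := fun j =>
      ap_mul_fun (hb j) (dA_analytic j hf)
    simp only [h2, Finset.sum_add_distrib]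
    congr 1
    rw [Finset.sum_comm]
    apply Finset.sum_congr rfl
    intro j _
    unfold ap
    rw [Finset.mul_sum]
    apply Finset.sum_congr rfl
    intro i _
    ring
  rw [key a b ha hb, key b a hb ha]
  have h3 : ∑ i, ∑ j, b t i * a t j * dA i (dA j f) t =
      ∑ i, ∑ j, a t i * b t j * dA i (dA j f) t := by
    rw [Finset.sum_comm]
    apply Finset.sum_congr rfl
    intro j _
    apply Finset.sum_congr rfl
    intro i _
    rw [dA_comm i j hf]
    ring
  rw [h3]
  have h4 : ap (bA a b) f t = ∑ j, (ap a (fun s => b s j) t - ap b (fun s => a s j) t) *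
    dA j f t := rfl
  rw [h4]
  simp only [sub_mul, Finset.sum_sub_distrib]
  ring

theorem vf_ext {a b : (Fin m → ℝ) → Fin m → ℂ} {t : Fin m → ℝ}
    (h : ∀ f, AnalyticAt ℝ f t → ap a f t = ap b f t) : a t = b t := by
  funext i
  have := h (co i) (co_analytic i t)
  rwa [ap_co, ap_co] at this

theorem jacobi {a b c : (Fin m → ℝ) → Fin m → ℂ} {t : Fin m → ℝ}
    (ha : VAn a t) (hb : VAn b t) (hc : VAn c t) :
    bA (bA a b) c t = bA a (bA b c) t - bA b (bA a c) t := by
  have h : bA (bA a b) c t = (fun s => bA a (bA b c) s - bA b (bA a c) s) t := by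
    apply vf_ext
    intro f hf
    have e0 : ap (fun s => bA a (bA b c) s - bA b (bA a c) s) f t =
        ap (bA a (bA b c)) f t - ap (bA b (bA a c)) f t := by
      unfold ap
      rw [← Finset.sum_sub_distrib]
      apply Finset.sum_congr rfl
      intro i _
      change (bA a (bA b c) t i - bA b (bA a c) t i) * _ = _
      rw [sub_mul]
    have e1 : ∀ x y z : (Fin m → ℝ) → Fin m → ℂ, VAn x t → VAn y t → VAn z t →
        ap x (ap (bA y z) f) t = ap x (ap y (ap z f)) t - ap x (ap z (ap y f)) t := by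
      intro x y z hx hy hz
      have h1 : ap (bA y z) f =ᶠ[𝓝 t] ap y (ap z f) - ap z (ap y f) := by
        filter_upwards [hy.eventually, hz.eventually, hf.eventually_analyticAt] with s h1 h2 h3
        exact ap_bA h1 h2 h3
      rw [(ap_congr (EventuallyEq.refl _ x) h1).eq_of_nhds]
      have h2 : ap y (ap z f) - ap z (ap y f) = ap y (ap z f) + (fun _ => (-1 : ℂ)) * ap z (ap y f) := by
        funext s; simp [sub_eq_add_neg]
      rw [h2, ap_add_fun (ap_analytic hy (ap_analytic hz hf))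
        (analyticAt_const.mul (ap_analytic hz (ap_analytic hy hf))),
        ap_mul_fun analyticAt_const (ap_analytic hz (ap_analytic hy hf)), ap_const]
      ring
    rw [e0, ap_bA (bA_analytic ha hb) hc hf, ap_bA ha (bA_analytic hb hc) hf,
      ap_bA hb (bA_analytic ha hc) hf, e1 c a b hc ha hb, e1 a b c ha hb hc, e1 b a c hb ha hc,
      ap_bA ha hb (ap_analytic hc hf), ap_bA hb hc (ap_analytic ha hf),
      ap_bA ha hc (ap_analytic hb hf)]
    ring
  exact h

theorem bA_smul_right {a b : (Fin m → ℝ) → Fin m → ℂ} {f : (Fin m → ℝ) → ℂ} {t : Fin m → ℝ}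
    (hb : VAn b t) (hf : AnalyticAt ℝ f t) :
    bA a (fun s => f s • b s) t = f t • bA a b t + ap a f t • b t := by
  funext j
  have h2 : ap (fun s => f s • b s) (fun s => a s j) t = f t * ap b (fun s => a s j) t := by
    unfold ap
    rw [Finset.mul_sum]
    apply Finset.sum_congr rfl
    intro i _
    change f t * b t i * _ = _
    ring
  change ap a (f * (fun s => b s j)) t - ap (fun s => f s • b s) (fun s => a s j) t =
    f t * (ap a (fun s => b s j) t - ap b (fun s => a s j) t) + ap a f t * b t j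
  rw [h2, ap_mul_fun hf (hb j)]
  ring

theorem bA_add_right {a b c : (Fin m → ℝ) → Fin m → ℂ} {t : Fin m → ℝ}
    (hb : VAn b t) (hc : VAn c t) :
    bA a (fun s => b s + c s) t = bA a b t + bA a c t := by
  funext j
  have h2 : ap (fun s => b s + c s) (fun s => a s j) t =
      ap b (fun s => a s j) t + ap c (fun s => a s j) t := by
    unfold ap
    rw [← Finset.sum_add_distrib]
    apply Finset.sum_congr rfl
    intro i _
    change (b t i + c t i) * _ = _
    rw [add_mul]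
  change ap a ((fun s => b s j) + (fun s => c s j)) t - ap (fun s => b s + c s) (fun s => a s j) t =
    (ap a (fun s => b s j) t - ap b (fun s => a s j) t) +
    (ap a (fun s => c s j) t - ap c (fun s => a s j) t)
  rw [h2, ap_add_fun (hb j) (hc j)]
  ring

theorem bA_antisymm (a b : (Fin m → ℝ) → Fin m → ℂ) (t : Fin m → ℝ) :
    bA a b t = - bA b a t := by
  funext j
  simp only [bA, Pi.neg_apply]
  ring

end Pool.Agent.Lib51bf1a
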