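import Mathlib

/-!
Definitions used in the statement about finite jet determination.
-/

namespace Pool.Agent.MP_51bf1a_an

open Topology Filter

/-- `z` ranges over `ℂ^N = Fin N → ℂ`.  `IsDefiningAt M d ρ q`: the map `ρ : ℂ^N → ℝ^d` is
real-analytic at `q`, near `q` the set `M` is the zero set of `ρ`, and the complex differentials
`∂ρ_1, …, ∂ρ_d` at `q` are linearly independent over `ℂ` (the `ℂ`-linear map
`v ↦ (dρ(v) - i dρ(iv)) = 2 ∂ρ(v)` from `ℂ^N` to `ℂ^d` is onto). -/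
structure IsDefiningAt {N : ℕ} (M : Set (Fin N → ℂ)) (d : ℕ)
    (ρ : (Fin N → ℂ) → (Fin d → ℝ)) (q : Fin N → ℂ) : Prop where
  analytic : AnalyticAt ℝ ρ q
  zeroSet : ∀ᶠ z in 𝓝 q, z ∈ M ↔ ρ z = 0
  generic : ∀ w : Fin d → ℂ, ∃ v : Fin N → ℂ, ∀ l : Fin d,
    ((fderiv ℝ ρ q v l : ℝ) : ℂ) - Complex.I * ((fderiv ℝ ρ q (Complex.I • v) l : ℝ) : ℂ) = w l

/-- `M` is a real-analytic generic submanifold of `ℂ^N` of real codimension `d`. -/
def IsGenericSubmanifold {N : ℕ} (M : Set (Fin N → ℂ)) (d : ℕ) : Prop :=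
  ∀ q ∈ M, ∃ ρ : (Fin N → ℂ) → (Fin d → ℝ), IsDefiningAt M d ρ q

/-- The complex tangent space `T^c_z M`: all `v` such that every complex multiple of `v` is tangent
to `M` at `z`. -/
def ComplexTangent {N : ℕ} (M : Set (Fin N → ℂ)) (z : Fin N → ℂ) : Set (Fin N → ℂ) :=
  {v | ∀ c : ℂ, c • v ∈ tangentConeAt ℝ M z}

/-- `M` is holomorphically nondegenerate: at no point `q` of `M` is there a germ of a nonzero
holomorphic vector field tangent to `M`. -/
def HolomorphicallyNondegenerate {N : ℕ} (M : Set (Fin N → ℂ)) : Prop :=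
  ∀ q ∈ M, ∀ X : (Fin N → ℂ) → (Fin N → ℂ), AnalyticAt ℂ X q →
    (∀ᶠ z in 𝓝[M] q, X z ∈ ComplexTangent M z) → ∀ᶠ z in 𝓝 q, X z = 0

/-- The real Lie algebra generated by the germs at `q` of real-analytic vector fields which are
sections of the complex tangent bundle `T^c M` along `M`. -/
inductive CRField {N : ℕ} (M : Set (Fin N → ℂ)) (q : Fin N → ℂ) :
    ((Fin N → ℂ) → (Fin N → ℂ)) → Prop
  | base (V : (Fin N → ℂ) → (Fin N → ℂ)) : AnalyticAt ℝ V q →
      (∀ᶠ z in 𝓝[M] q, V z ∈ ComplexTangent M z) → CRField M q V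
  | add (V W : (Fin N → ℂ) → (Fin N → ℂ)) : CRField M q V → CRField M q W → CRField M q (V + W)
  | smul (c : ℝ) (V : (Fin N → ℂ) → (Fin N → ℂ)) : CRField M q V → CRField M q (c • V)
  | bracket (V W : (Fin N → ℂ) → (Fin N → ℂ)) : CRField M q V → CRField M q W →
      CRField M q (VectorField.lieBracket ℝ V W)

/-- `M` is of finite type (in the sense of Kohn and Bloom-Graham) at `q`: the vector fields in the
Lie algebra `CRField` span the tangent space of `M` at `q`. -/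
def FiniteTypeAt {N : ℕ} (M : Set (Fin N → ℂ)) (q : Fin N → ℂ) : Prop :=
  ∀ v ∈ tangentConeAt ℝ M q, ∃ W : (Fin N → ℂ) → (Fin N → ℂ), CRField M q W ∧ W q = v

/-- `H` represents a local analytic CR automorphism of `M` fixing `p`: a germ at `p` of a
biholomorphic map of `ℂ^N` fixing `p` and mapping `M` into itself. -/
structure IsLocalAutomorphism {N : ℕ} (M : Set (Fin N → ℂ)) (p : Fin N → ℂ)
    (H : (Fin N → ℂ) → (Fin N → ℂ)) : Prop where
  analytic : AnalyticAt ℂ H p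
  fix : H p = p
  bij : Function.Bijective (fderiv ℂ H p)
  maps : ∀ᶠ z in 𝓝 p, z ∈ M → H z ∈ M

/-- Finite jet determination at `p`. -/
def FiniteJetDetermination {N : ℕ} (M : Set (Fin N → ℂ)) (p : Fin N → ℂ) : Prop :=
  ∃ k : ℕ, ∀ H₁ H₂ : (Fin N → ℂ) → (Fin N → ℂ), IsLocalAutomorphism M p H₁ →
    IsLocalAutomorphism M p H₂ →
    (∀ i ≤ k, iteratedFDeriv ℂ i H₁ p = iteratedFDeriv ℂ i H₂ p) → H₁ =ᶠ[𝓝 p] H₂

end Pool.Agent.MP_51bf1a_an
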