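import Mathlib
import Pool.Agent.Lib_51bf1a.C1_Local
import Pool.Agent.Lib_51bf1a.Defs

/-!
Finite type in terms of the local parametrisation.
-/

namespace Pool.Agent.Lib51bf1a

open MvPowerSeries Topology Filter Pool.Agent.MP_51bf1a_an

theorem analyticAt_clm_apply {X E F : Type*} [NormedAddCommGroup X] [NormedSpace ℝ X]
    [NormedAddCommGroup E] [NormedSpace ℝ E] [NormedAddCommGroup F] [NormedSpace ℝ F]
    {A : X → (E →L[ℝ] F)} {v : X → E} {x : X} (hA : AnalyticAt ℝ A x) (hv : AnalyticAt ℝ v x) :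
    AnalyticAt ℝ (fun y => A y (v y)) x := by
  have h1 := (ContinuousLinearMap.id ℝ (E →L[ℝ] F)).analyticAt_bilinear (A x, v x)
  exact AnalyticAt.comp₂ h1 hA hv

variable {N m : ℕ}

theorem analyticAt_conj {X : Type*} [NormedAddCommGroup X] [NormedSpace ℝ X] {f : X → ℂ} {t : X}
    (hf : AnalyticAt ℝ f t) : AnalyticAt ℝ (fun s => (starRingEnd ℂ) (f s)) t :=
  ((Complex.conjCLE : ℂ →L[ℝ] ℂ).analyticAt _).comp hf

theorem analyticAt_ofReal {X : Type*} [NormedAddCommGroup X] [NormedSpace ℝ X] {f : X → ℝ} {t : X}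
    (hf : AnalyticAt ℝ f t) : AnalyticAt ℝ (fun s => ((f s : ℝ) : ℂ)) t :=
  (Complex.ofRealCLM.analyticAt _).comp hf

theorem analyticAt_re {X : Type*} [NormedAddCommGroup X] [NormedSpace ℝ X] {f : X → ℂ} {t : X}
    (hf : AnalyticAt ℝ f t) : AnalyticAt ℝ (fun s => (f s).re) t :=
  (Complex.reCLM.analyticAt _).comp hf

theorem dA_conj (i : Fin m) {f : (Fin m → ℝ) → ℂ} {t : Fin m → ℝ} (hf : DifferentiableAt ℝ f t) :
    dA i (fun s => (starRingEnd ℂ) (f s)) t = (starRingEnd ℂ) (dA i f t) := by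
  unfold dA
  have h1 : (fun s => (starRingEnd ℂ) (f s)) = (fun z => (Complex.conjCLE : ℂ →L[ℝ] ℂ) z) ∘ f := rfl
  rw [h1, fderiv_comp t (ContinuousLinearMap.differentiableAt _) hf, ContinuousLinearMap.fderiv]
  rfl

namespace Loc

variable {M : Set (Fin N → ℂ)} (D : Loc N m M)

/-- The basic vector fields annihilating the components of the parametrisation. -/
noncomputable def Lk (k : Fin m) : (Fin m → ℝ) → Fin m → ℂ :=
  fun t i => (if i = k then 1 else 0) - ∑ j, D.R t i j * dA k (D.pc j) t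

theorem Lk_an (k : Fin m) {t : Fin m → ℝ} (ht : t ∈ D.U) : VAn (D.Lk k) t := by
  intro i
  apply analyticAt_const.sub
  have : (fun s => ∑ j, D.R s i j * dA k (D.pc j) s) =
      ∑ j, (fun s => D.R s i j) * dA k (D.pc j) := by
    funext s; simp [Finset.sum_apply]
  rw [this]
  apply Finset.analyticAt_sum
  intro j _
  exact (D.R_an t ht i j).mul (dA_analytic k (D.pc_an ht j))

theorem ap_Lk (k : Fin m) (j : Fin N) {t : Fin m → ℝ} (ht : t ∈ D.U) :
    ap (D.Lk k) (D.pc j) t = 0 := by
  unfold ap Lk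
  simp only [sub_mul, Finset.sum_sub_distrib, Finset.sum_mul]
  rw [Finset.sum_comm]
  have h1 : ∀ j' : Fin N, ∑ i, D.R t i j' * dA k (D.pc j') t * dA i (D.pc j) t =
      (if j = j' then 1 else 0) * dA k (D.pc j') t := by
    intro j'
    rw [← D.BR' ht j j', Finset.sum_mul]
    apply Finset.sum_congr rfl
    intro i _
    ring
  simp only [h1]
  simp

theorem span_Lk {t : Fin m → ℝ} {a : Fin m → ℂ}
    (ha : ∀ j, ∑ i, a i * dA i (D.pc j) t = 0) : a = ∑ k, a k • D.Lk k t := by
  funext i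
  rw [Finset.sum_apply]
  simp only [Pi.smul_apply, smul_eq_mul, Lk, mul_sub, Finset.sum_sub_distrib, Finset.mul_sum]
  rw [Finset.sum_comm (γ := Fin m)]
  have h1 : ∀ j : Fin N, ∑ k, a k * (D.R t i j * dA k (D.pc j) t) = 0 := by
    intro j
    have : ∑ k, a k * (D.R t i j * dA k (D.pc j) t) = D.R t i j * ∑ k, a k * dA k (D.pc j) t := by
      rw [Finset.mul_sum]
      apply Finset.sum_congr rfl
      intro k _
      ring
    rw [this, ha j, mul_zero]
  simp only [h1]
  simp

/-- generators: the fields and their conjugates. -/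
noncomputable def gen : Fin m ⊕ Fin m → ((Fin m → ℝ) → Fin m → ℂ)
  | Sum.inl k => D.Lk k
  | Sum.inr k => fun t i => (starRingEnd ℂ) (D.Lk k t i)

theorem gen_an (a : Fin m ⊕ Fin m) {t : Fin m → ℝ} (ht : t ∈ D.U) : VAn (D.gen a) t := by
  rcases a with k | k
  · exact D.Lk_an k ht
  · intro i
    exact analyticAt_conj (D.Lk_an k ht i)

end Loc

/-- iterated brackets. -/
noncomputable def BRl {ι : Type*} (g : ι → (Fin m → ℝ) → Fin m → ℂ) :
    List ι → ((Fin m → ℝ) → Fin m → ℂ)
  | [] => fun _ _ => 0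
  | [i] => g i
  | i :: j :: l => bA (g i) (BRl g (j :: l))

theorem BRl_cons {ι : Type*} (g : ι → (Fin m → ℝ) → Fin m → ℂ) (i : ι) (l : List ι)
    (hl : l ≠ []) : BRl g (i :: l) = bA (g i) (BRl g l) := by
  cases l with
  | nil => exact absurd rfl hl
  | cons j l => rfl

theorem BRl_an {ι : Type*} {g : ι → (Fin m → ℝ) → Fin m → ℂ} {t : Fin m → ℝ}
    (hg : ∀ i, VAn (g i) t) (l : List ι) : VAn (BRl g l) t := by
  induction l with
  | nil => intro i; exact analyticAt_const
  | cons i l ih =>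
    by_cases hl : l = []
    · subst hl; exact hg i
    · rw [BRl_cons g i l hl]
      exact bA_analytic (hg i) ih

/-- analytic module generated by the iterated brackets. -/
inductive Mod {ι : Type*} (g : ι → (Fin m → ℝ) → Fin m → ℂ) (t : Fin m → ℝ) :
    ((Fin m → ℝ) → Fin m → ℂ) → Prop
  | base (l : List ι) : Mod g t (BRl g l)
  | smul (f : (Fin m → ℝ) → ℂ) (w : (Fin m → ℝ) → Fin m → ℂ) : AnalyticAt ℝ f t → Mod g t w →
      Mod g t (fun s => f s • w s)
  | add (v w : (Fin m → ℝ) → Fin m → ℂ) : Mod g t v → Mod g t w → Mod g t (fun s => v s + w s)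
  | congr (v w : (Fin m → ℝ) → Fin m → ℂ) : v =ᶠ[𝓝 t] w → Mod g t v → Mod g t w

section ModLemmas

variable {ι : Type*} {g : ι → (Fin m → ℝ) → Fin m → ℂ} {t : Fin m → ℝ}

theorem Mod.an (hg : ∀ i, VAn (g i) t) {w : (Fin m → ℝ) → Fin m → ℂ} (hw : Mod g t w) :
    VAn w t := by
  induction hw with
  | base l => exact BRl_an hg l
  | smul f w hf _ ih => intro i; exact hf.mul (ih i)
  | add v w _ _ ihv ihw => intro i; exact (ihv i).add (ihw i)
  | congr v w h _ ih =>
    intro i
    refine (ih i).congr ?_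
    filter_upwards [h] with s hs
    rw [hs]

theorem Mod.eval {w : (Fin m → ℝ) → Fin m → ℂ} (hw : Mod g t w) :
    w t ∈ Submodule.span ℂ (Set.range (fun l => BRl g l t)) := by
  induction hw with
  | base l => exact Submodule.subset_span ⟨l, rfl⟩
  | smul f w _ _ ih => exact Submodule.smul_mem _ _ ih
  | add v w _ _ ihv ihw => exact Submodule.add_mem _ ihv ihw
  | congr v w h _ ih => rw [← h.eq_of_nhds]; exact ih

theorem Mod.zero : Mod g t (fun _ _ => 0) := Mod.base []

theorem Mod.neg {w : (Fin m → ℝ) → Fin m → ℂ} (hw : Mod g t w) : Mod g t (fun s => - w s) := by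
  have h := Mod.smul (fun _ => (-1 : ℂ)) w analyticAt_const hw
  refine Mod.congr _ _ ?_ h
  filter_upwards with s
  funext i
  simp

theorem Mod.sub {v w : (Fin m → ℝ) → Fin m → ℂ} (hv : Mod g t v) (hw : Mod g t w) :
    Mod g t (fun s => v s - w s) := by
  have h := Mod.add _ _ hv hw.neg
  refine Mod.congr _ _ ?_ h
  filter_upwards with s
  rw [sub_eq_add_neg]

theorem Mod.sum {J : Type*} (S : Finset J) {v : J → (Fin m → ℝ) → Fin m → ℂ}
    (hv : ∀ j ∈ S, Mod g t (v j)) : Mod g t (fun s => ∑ j ∈ S, v j s) := by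
  classical
  induction S using Finset.induction_on with
  | empty =>
    simp only [Finset.sum_empty]
    exact Mod.zero
  | insert a S ha ih =>
    simp only [Finset.sum_insert ha]
    exact Mod.add _ _ (hv a (Finset.mem_insert_self a S))
      (ih (fun j hj => hv j (Finset.mem_insert_of_mem hj)))

/-- bracket with an element, given closure on the basis. -/
theorem Mod.bracket_aux {b : (Fin m → ℝ) → Fin m → ℂ} (hg : ∀ i, VAn (g i) t)
    (hb : ∀ l, Mod g t (bA b (BRl g l))) {w : (Fin m → ℝ) → Fin m → ℂ}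
    (hbv : VAn b t) (hw : Mod g t w) : Mod g t (bA b w) := by
  induction hw with
  | base l => exact hb l
  | smul f w hf hw ih =>
    have hwv := hw.an hg
    have h1 : (fun s => f s • bA b w s + ap b f s • w s) =ᶠ[𝓝 t] bA b (fun s => f s • w s) := by
      filter_upwards [hwv.eventually, hf.eventually_analyticAt] with s h1 h2
      exact (bA_smul_right h1 h2).symm
    exact Mod.congr _ _ h1 (Mod.add _ _ (Mod.smul f _ hf ih) (Mod.smul _ _ (ap_analytic hbv hf) hw))
  | add v w hv hw ihv ihw =>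
    have hv' := hv.an hg
    have hw' := hw.an hg
    have h1 : (fun s => bA b v s + bA b w s) =ᶠ[𝓝 t] bA b (fun s => v s + w s) := by
      filter_upwards [hv'.eventually, hw'.eventually] with s h1 h2
      exact (bA_add_right h1 h2).symm
    exact Mod.congr _ _ h1 (Mod.add _ _ ihv ihw)
  | congr v w h _ ih =>
    exact Mod.congr _ _ (bA_congr (EventuallyEq.refl _ b) h) ih

theorem Mod.bracket_gen (hg : ∀ i, VAn (g i) t) (i : ι) {w : (Fin m → ℝ) → Fin m → ℂ}
    (hw : Mod g t w) : Mod g t (bA (g i) w) := by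
  apply Mod.bracket_aux hg _ (hg i) hw
  intro l
  by_cases hl : l = []
  · subst hl
    refine Mod.congr (fun _ _ => 0) _ ?_ Mod.zero
    filter_upwards with s
    funext j
    change 0 = ap (g i) (fun _ => 0) s - ap (fun _ _ => 0) (fun s => g i s j) s
    rw [ap_const]
    simp [ap]
  · rw [← BRl_cons g i l hl]
    exact Mod.base _

theorem Mod.bracket_base (hg : ∀ i, VAn (g i) t) (l : List ι) :
    ∀ {w : (Fin m → ℝ) → Fin m → ℂ}, Mod g t w → Mod g t (bA (BRl g l) w) := by
  induction l with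
  | nil =>
    intro w hw
    have hw' := hw.an hg
    refine Mod.congr (fun _ _ => 0) _ ?_ Mod.zero
    filter_upwards with s
    funext j
    change 0 = ap (fun _ _ => 0) (fun s => w s j) s - ap w (fun _ => 0) s
    rw [ap_const]
    simp [ap]
  | cons i l ih =>
    intro w hw
    by_cases hl : l = []
    · subst hl
      exact Mod.bracket_gen hg i hw
    · rw [BRl_cons g i l hl]
      have h1 : (fun s => bA (g i) (bA (BRl g l) w) s - bA (BRl g l) (bA (g i) w) s) =ᶠ[𝓝 t]
          bA (bA (g i) (BRl g l)) w := by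
        have h2 : ∀ᶠ s in 𝓝 t, VAn (g i) s := (hg i).eventually
        filter_upwards [h2, (BRl_an hg l).eventually, (hw.an hg).eventually] with s h3 h4 h5
        exact (jacobi h3 h4 h5).symm
      exact Mod.congr _ _ h1 (Mod.sub (Mod.bracket_gen hg i (ih hw)) (ih (Mod.bracket_gen hg i hw)))

theorem Mod.bracket (hg : ∀ i, VAn (g i) t) {v w : (Fin m → ℝ) → Fin m → ℂ}
    (hv : Mod g t v) (hw : Mod g t w) : Mod g t (bA v w) := by
  apply Mod.bracket_aux hg _ (hv.an hg) hw
  intro l
  have h1 := (Mod.bracket_base hg l hv).neg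
  refine Mod.congr _ _ ?_ h1
  filter_upwards with s
  rw [bA_antisymm v (BRl g l) s]

end ModLemmas

end Pool.Agent.Lib51bf1a
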