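import Mathlib
import Pool.Agent.Lib_51bf1a.C2_FT

/-!
Tangent cones and the correspondence between ambient CR fields and fields on the parameter space.
-/

namespace Pool.Agent.Lib51bf1a

open MvPowerSeries Topology Filter Pool.Agent.MP_51bf1a_an

variable {N m : ℕ} {M : Set (Fin N → ℂ)}

namespace Loc

variable (D : Loc N m M)

theorem dσ_dψ {t : Fin m → ℝ} (ht : t ∈ D.U) (x : Fin m → ℝ) :
    fderiv ℝ D.σ (D.ψ t) (fderiv ℝ D.ψ t x) = x := by
  have h1 : D.σ ∘ D.ψ =ᶠ[𝓝 t] id := by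
    filter_upwards [D.eventually_U ht] with s hs
    exact D.σψ s hs
  have h2 := h1.fderiv_eq (𝕜 := ℝ)
  rw [fderiv_comp t (D.σ_an t ht).differentiableAt (D.ψ_an t ht).differentiableAt, fderiv_id] at h2
  have h3 := congrArg (fun A : (Fin m → ℝ) →L[ℝ] (Fin m → ℝ) => A x) h2
  exact h3

theorem tangentCone_eq {t : Fin m → ℝ} (ht : t ∈ D.U) :
    tangentConeAt ℝ M (D.ψ t) = Set.range (fderiv ℝ D.ψ t) := by
  apply Set.Subset.antisymm
  · intro v hv
    have hσ := (D.σ_an t ht).differentiableAt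
    have hψ : DifferentiableAt ℝ D.ψ (D.σ (D.ψ t)) := by
      rw [D.σψ t ht]; exact (D.ψ_an t ht).differentiableAt
    have h1 : HasFDerivWithinAt (D.ψ ∘ D.σ) ((fderiv ℝ D.ψ t).comp (fderiv ℝ D.σ (D.ψ t))) M
        (D.ψ t) := by
      have := hψ.hasFDerivAt.comp (D.ψ t) hσ.hasFDerivAt
      rw [D.σψ t ht] at this
      exact this.hasFDerivWithinAt
    have h2 : HasFDerivWithinAt (D.ψ ∘ D.σ) (ContinuousLinearMap.id ℝ (Fin N → ℂ)) M (D.ψ t) := by
      have h3 : HasFDerivWithinAt id (ContinuousLinearMap.id ℝ (Fin N → ℂ)) M (D.ψ t) :=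
        (hasFDerivAt_id _).hasFDerivWithinAt
      refine h3.congr_of_eventuallyEq ?_ ?_
      · have h4 := D.ψσ t ht
        rw [EventuallyEq, eventually_nhdsWithin_iff]
        filter_upwards [h4] with z hz hzM
        exact hz hzM
      · change D.ψ (D.σ (D.ψ t)) = D.ψ t
        rw [D.σψ t ht]
    have h5 := h1.unique_on h2 hv
    exact ⟨fderiv ℝ D.σ (D.ψ t) v, h5⟩
  · rintro _ ⟨x, rfl⟩
    have h1 : HasFDerivWithinAt D.ψ (fderiv ℝ D.ψ t) D.U t :=
      (D.ψ_an t ht).differentiableAt.hasFDerivAt.hasFDerivWithinAt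
    have h2 := h1.mapsTo_tangent_cone
    have h3 : x ∈ tangentConeAt ℝ D.U t := by
      rw [tangentConeAt_of_mem_nhds (D.hU.mem_nhds ht)]; trivial
    have h4 := h2 h3
    refine tangentConeAt_mono ?_ h4
    rintro _ ⟨s, hs, rfl⟩
    exact D.ψM s hs

/-- points of `M` near `ψ t` are parametrised by points near `t`. -/
theorem eventually_param {t : Fin m → ℝ} (ht : t ∈ D.U) {P : (Fin m → ℝ) → Prop}
    (hP : ∀ᶠ s in 𝓝 t, P s) : ∀ᶠ z in 𝓝 (D.ψ t), z ∈ M → ∃ s, s ∈ D.U ∧ P s ∧ D.ψ s = z ∧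
      s = D.σ z := by
  have h1 : Tendsto D.σ (𝓝 (D.ψ t)) (𝓝 t) := by
    have := (D.σ_an t ht).continuousAt.tendsto
    rwa [D.σψ t ht] at this
  filter_upwards [D.ψσ t ht, h1.eventually hP, h1.eventually (D.eventually_U ht)] with z h2 h3 h4 hz
  exact ⟨D.σ z, h4, h3, h2 hz, rfl⟩

/-- membership in the complex tangent space. -/
theorem mem_cxT {t : Fin m → ℝ} (ht : t ∈ D.U) {v : Fin N → ℂ} :
    v ∈ ComplexTangent M (D.ψ t) ↔ ∃ x y : Fin m → ℝ, fderiv ℝ D.ψ t x = v ∧
      fderiv ℝ D.ψ t y = Complex.I • v := by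
  constructor
  · intro h
    have h1 := h 1
    have h2 := h Complex.I
    rw [D.tangentCone_eq ht] at h1 h2
    obtain ⟨x, hx⟩ := h1
    obtain ⟨y, hy⟩ := h2
    exact ⟨x, y, by rw [hx, one_smul], hy⟩
  · rintro ⟨x, y, hx, hy⟩ c
    rw [D.tangentCone_eq ht]
    refine ⟨c.re • x + c.im • y, ?_⟩
    rw [map_add, map_smul, map_smul, hx, hy]
    funext j
    simp only [Pi.add_apply, Pi.smul_apply, smul_eq_mul, Complex.real_smul]
    conv_rhs => rw [← Complex.re_add_im c]
    ring

/-- representation of an ambient field by a field on the parameter space. -/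
def Rep (t : Fin m → ℝ) (V : (Fin N → ℂ) → (Fin N → ℂ)) (v : (Fin m → ℝ) → Fin m → ℂ) : Prop :=
  ∀ᶠ s in 𝓝 t, ∀ j, V (D.ψ s) j = ap v (D.pc j) s

/-- real fields. -/
def IsRe (t : Fin m → ℝ) (v : (Fin m → ℝ) → Fin m → ℂ) : Prop :=
  ∀ᶠ s in 𝓝 t, ∀ i, (starRingEnd ℂ) (v s i) = v s i

theorem Rep.eq_fderiv {t : Fin m → ℝ} (ht : t ∈ D.U) {V : (Fin N → ℂ) → (Fin N → ℂ)}
    {v : (Fin m → ℝ) → Fin m → ℂ} (h : D.Rep t V v) (hv : IsRe t v) :
    ∀ᶠ s in 𝓝 t, V (D.ψ s) = fderiv ℝ D.ψ s (fun i => (v s i).re) := by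
  filter_upwards [h, hv, D.eventually_U ht] with s h1 h2 h3
  funext j
  rw [h1 j, D.fderiv_ψ h3]
  unfold ap
  apply Finset.sum_congr rfl
  intro i _
  have : (((v s i).re : ℝ) : ℂ) = v s i := Complex.conj_eq_iff_re.mp (h2 i)
  rw [this, mul_comm]

theorem Rep.bracket {t : Fin m → ℝ} (ht : t ∈ D.U) {V W : (Fin N → ℂ) → (Fin N → ℂ)}
    {v w : (Fin m → ℝ) → Fin m → ℂ} (hV : AnalyticAt ℝ V (D.ψ t)) (hW : AnalyticAt ℝ W (D.ψ t))
    (hv : VAn v t) (hw : VAn w t)
    (hVv : D.Rep t V v) (hWw : D.Rep t W w) (hvr : IsRe t v) (hwr : IsRe t w) :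
    D.Rep t (VectorField.lieBracket ℝ V W) (bA v w) := by
  have key : ∀ {V W : (Fin N → ℂ) → (Fin N → ℂ)} {v w : (Fin m → ℝ) → Fin m → ℂ},
      AnalyticAt ℝ W (D.ψ t) → D.Rep t V v → D.Rep t W w → IsRe t v →
      ∀ᶠ s in 𝓝 t, ∀ j, fderiv ℝ W (D.ψ s) (V (D.ψ s)) j = ap v (ap w (D.pc j)) s := by
    intro V W v w hW hVv hWw hvr
    have hψc := (D.ψ_an t ht).continuousAt
    have e1 : ∀ᶠ s in 𝓝 t, ∀ᶠ s' in 𝓝 s, ∀ j, W (D.ψ s') j = ap w (D.pc j) s' :=
      eventually_eventually_nhds.mpr hWw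
    filter_upwards [Rep.eq_fderiv D ht hVv hvr, hψc.eventually hW.eventually_analyticAt,
      D.eventually_U ht, hvr, e1] with s h1 h2 h3 h4 h5 j
    rw [h1]
    have h6 : fderiv ℝ W (D.ψ s) (fderiv ℝ D.ψ s (fun i => (v s i).re)) =
        fderiv ℝ (W ∘ D.ψ) s (fun i => (v s i).re) := by
      rw [fderiv_comp s h2.differentiableAt (D.ψ_an s h3).differentiableAt]; rfl
    rw [h6]
    have hWψ : DifferentiableAt ℝ (W ∘ D.ψ) s :=
      h2.differentiableAt.comp s (D.ψ_an s h3).differentiableAt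
    have h7 : fderiv ℝ (W ∘ D.ψ) s (fun i => (v s i).re) j =
        fderiv ℝ (fun s' => W (D.ψ s') j) s (fun i => (v s i).re) := by
      have h8 : (fun s' => W (D.ψ s') j) = (fun v : Fin N → ℂ => (ContinuousLinearMap.proj (R := ℝ)
        (φ := fun _ : Fin N => ℂ) j) v) ∘ (W ∘ D.ψ) := rfl
      rw [h8, fderiv_comp s (ContinuousLinearMap.differentiableAt _) hWψ, ContinuousLinearMap.fderiv]
      rfl
    rw [h7]
    have h9 : (fun s' => W (D.ψ s') j) =ᶠ[𝓝 s] ap w (D.pc j) := by
      filter_upwards [h5] with s' hs'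
      exact hs' j
    rw [h9.fderiv_eq]
    have h10 : (fun i => (v s i).re) = ∑ i, (v s i).re • (Pi.single i 1 : Fin m → ℝ) :=
      pi_eq_sum_univ' _
    rw [h10, map_sum]
    unfold ap
    apply Finset.sum_congr rfl
    intro i _
    rw [map_smul, Complex.real_smul]
    have : (((v s i).re : ℝ) : ℂ) = v s i := Complex.conj_eq_iff_re.mp (h4 i)
    rw [this]
    rfl
  filter_upwards [key hW hVv hWw hvr, key hV hWw hVv hwr, hv.eventually, hw.eventually,
    D.eventually_U ht] with s h1 h2 h3 h4 h5 j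
  rw [ap_bA h3 h4 (D.pc_an h5 j), ← h1 j, ← h2 j]
  rfl

theorem Rep.add {t : Fin m → ℝ} {V W : (Fin N → ℂ) → (Fin N → ℂ)}
    {v w : (Fin m → ℝ) → Fin m → ℂ} (hVv : D.Rep t V v) (hWw : D.Rep t W w) :
    D.Rep t (V + W) (fun s => v s + w s) := by
  filter_upwards [hVv, hWw] with s h1 h2 j
  rw [Pi.add_apply, Pi.add_apply, h1 j, h2 j]
  unfold ap
  rw [← Finset.sum_add_distrib]
  apply Finset.sum_congr rfl
  intro i _
  change _ = (v s i + w s i) * _
  ring

theorem Rep.smul {t : Fin m → ℝ} {V : (Fin N → ℂ) → (Fin N → ℂ)}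
    {v : (Fin m → ℝ) → Fin m → ℂ} (c : ℝ) (hVv : D.Rep t V v) :
    D.Rep t (c • V) (fun s => (c : ℂ) • v s) := by
  filter_upwards [hVv] with s h1 j
  rw [Pi.smul_apply, Pi.smul_apply, h1 j]
  unfold ap
  rw [Complex.real_smul, Finset.mul_sum]
  apply Finset.sum_congr rfl
  intro i _
  change _ = ((c : ℂ) * v s i) * _
  ring

theorem CRField_analytic {q : Fin N → ℂ} {V : (Fin N → ℂ) → (Fin N → ℂ)}
    (hV : CRField M q V) : AnalyticAt ℝ V q := by
  induction hV with
  | base V h _ => exact h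
  | add V W _ _ hV hW => exact hV.add hW
  | smul c V _ hV => exact hV.const_smul
  | bracket V W _ _ hV hW =>
    exact (analyticAt_clm_apply hW.fderiv hV).sub (analyticAt_clm_apply hV.fderiv hW)

/-- every CR field is represented by a real field in the module. -/
theorem exists_rep {t : Fin m → ℝ} (ht : t ∈ D.U) {V : (Fin N → ℂ) → (Fin N → ℂ)}
    (hV : CRField M (D.ψ t) V) : ∃ v : (Fin m → ℝ) → Fin m → ℂ, VAn v t ∧ IsRe t v ∧
      D.Rep t V v ∧ Mod D.gen t v := by
  have hg : ∀ i, VAn (D.gen i) t := fun i => D.gen_an i ht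
  induction hV with
  | base V hV hT =>
    have hψ := D.ψ_an t ht
    have hψc := hψ.continuousAt
    -- the real fields v and v'
    set v : (Fin m → ℝ) → Fin m → ℂ := fun s i => ((fderiv ℝ D.σ (D.ψ s) (V (D.ψ s)) i : ℝ) : ℂ)
      with hv
    set v' : (Fin m → ℝ) → Fin m → ℂ :=
      fun s i => ((fderiv ℝ D.σ (D.ψ s) (Complex.I • V (D.ψ s)) i : ℝ) : ℂ) with hv'
    have hσψ : AnalyticAt ℝ (fun s => fderiv ℝ D.σ (D.ψ s)) t :=
      (D.σ_an t ht).fderiv.comp hψ
    have hVψ : AnalyticAt ℝ (fun s => V (D.ψ s)) t := hV.comp hψ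
    have van : VAn v t := by
      intro i
      have h1 := analyticAt_clm_apply hσψ hVψ
      exact analyticAt_ofReal
        (((ContinuousLinearMap.proj (R := ℝ) (φ := fun _ : Fin m => ℝ) i).analyticAt _).comp h1)
    have v'an : VAn v' t := by
      intro i
      have h0 : AnalyticAt ℝ (fun s => Complex.I • V (D.ψ s)) t :=
        ((ContinuousLinearMap.lsmul ℝ ℂ (E := Fin N → ℂ) Complex.I).analyticAt _).comp hVψ
      have h1 := analyticAt_clm_apply hσψ h0
      exact analyticAt_ofReal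
        (((ContinuousLinearMap.proj (R := ℝ) (φ := fun _ : Fin m => ℝ) i).analyticAt _).comp h1)
    have hT' : ∀ᶠ s in 𝓝 t, V (D.ψ s) ∈ ComplexTangent M (D.ψ s) := by
      rw [eventually_nhdsWithin_iff] at hT
      filter_upwards [hψc.eventually hT, D.eventually_U ht] with s h1 h2
      exact h1 (D.ψM s h2)
    have hrep : D.Rep t V v ∧ D.Rep t (fun z => Complex.I • V z) v' := by
      constructor
      · filter_upwards [hT', D.eventually_U ht] with s h1 h2 j
        obtain ⟨x, y, hx, hy⟩ := (D.mem_cxT h2).mp h1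
        have h3 : fderiv ℝ D.σ (D.ψ s) (V (D.ψ s)) = x := by rw [← hx, D.dσ_dψ h2]
        have h4 : ap v (D.pc j) s = ∑ i, ((x i : ℝ) : ℂ) * dA i (D.pc j) s := by
          unfold ap; simp only [hv, h3]
        rw [h4, ← hx, D.fderiv_ψ h2]
        apply Finset.sum_congr rfl
        intro i _; ring
      · filter_upwards [hT', D.eventually_U ht] with s h1 h2 j
        obtain ⟨x, y, hx, hy⟩ := (D.mem_cxT h2).mp h1
        have h3 : fderiv ℝ D.σ (D.ψ s) (Complex.I • V (D.ψ s)) = y := by rw [← hy, D.dσ_dψ h2]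
        have h4 : ap v' (D.pc j) s = ∑ i, ((y i : ℝ) : ℂ) * dA i (D.pc j) s := by
          unfold ap; simp only [hv', h3]
        rw [h4, ← hy, D.fderiv_ψ h2]
        apply Finset.sum_congr rfl
        intro i _; ring
    refine ⟨v, van, ?_, hrep.1, ?_⟩
    · filter_upwards with s i
      simp only [hv, Complex.conj_ofReal]
    · -- v = (L + conj L)/2, L = v + i v'
      set L : (Fin m → ℝ) → Fin m → ℂ := fun s i => v s i + Complex.I * v' s i with hL
      have Lan : ∀ i, AnalyticAt ℝ (fun s => L s i) t := fun i =>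
        (van i).add (analyticAt_const.mul (v'an i))
      have h1 : ∀ᶠ s in 𝓝 t, L s = ∑ k, L s k • D.Lk k s := by
        filter_upwards [hrep.1, hrep.2] with s h2 h3
        apply D.span_Lk
        intro j
        have h4 : ∑ i, L s i * dA i (D.pc j) s = ap v (D.pc j) s + Complex.I * ap v' (D.pc j) s := by
          unfold ap
          rw [Finset.mul_sum, ← Finset.sum_add_distrib]
          apply Finset.sum_congr rfl
          intro i _
          simp only [hL]; ring
        rw [h4, ← h2 j, ← h3 j, Pi.smul_apply, smul_eq_mul, ← mul_assoc, Complex.I_mul_I]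
        ring
      have hmodL : Mod D.gen t (fun s => ∑ k, L s k • D.gen (Sum.inl k) s) := by
        apply Mod.sum (v := fun k s => L s k • D.gen (Sum.inl k) s)
        intro k _
        exact Mod.smul (fun s => L s k) _ (Lan k) (Mod.base [Sum.inl k])
      have hmodL' : Mod D.gen t (fun s => ∑ k, (starRingEnd ℂ) (L s k) • D.gen (Sum.inr k) s) := by
        apply Mod.sum (v := fun k s => (starRingEnd ℂ) (L s k) • D.gen (Sum.inr k) s)
        intro k _
        exact Mod.smul (fun s => (starRingEnd ℂ) (L s k)) _ (analyticAt_conj (Lan k))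
          (Mod.base [Sum.inr k])
      have hmod := Mod.smul (fun _ => (1 / 2 : ℂ)) _ analyticAt_const (Mod.add _ _ hmodL hmodL')
      refine Mod.congr _ _ ?_ hmod
      filter_upwards [h1] with s h2
      have h3 : ∑ k, (starRingEnd ℂ) (L s k) • D.gen (Sum.inr k) s =
          fun i => (starRingEnd ℂ) (L s i) := by
        funext i
        have h4 := congrArg (starRingEnd ℂ) (congrFun h2 i)
        rw [Finset.sum_apply, map_sum] at h4
        rw [h4, Finset.sum_apply]
        apply Finset.sum_congr rfl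
        intro k _
        simp only [Pi.smul_apply, smul_eq_mul, map_mul]
        rfl
      have h5 : ∑ k, L s k • D.gen (Sum.inl k) s = L s := h2.symm
      rw [h3, h5]
      funext i
      simp only [Pi.smul_apply, Pi.add_apply, smul_eq_mul, hL, map_add, map_mul, Complex.conj_I,
        hv, hv', Complex.conj_ofReal]
      ring
  | add V W hV hW ihV ihW =>
    obtain ⟨v, v1, v2, v3, v4⟩ := ihV
    obtain ⟨w, w1, w2, w3, w4⟩ := ihW
    refine ⟨fun s => v s + w s, fun i => (v1 i).add (w1 i), ?_, Rep.add D v3 w3, Mod.add _ _ v4 w4⟩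
    filter_upwards [v2, w2] with s h1 h2 i
    rw [Pi.add_apply, map_add, h1 i, h2 i]
  | smul c V hV ih =>
    obtain ⟨v, v1, v2, v3, v4⟩ := ih
    refine ⟨fun s => (c : ℂ) • v s, fun i => (v1 i).const_smul, ?_, Rep.smul D c v3,
      Mod.smul (fun _ => (c : ℂ)) _ analyticAt_const v4⟩
    filter_upwards [v2] with s h1 i
    rw [Pi.smul_apply, smul_eq_mul, map_mul, h1 i, Complex.conj_ofReal]
  | bracket V W hV hW ihV ihW =>
    obtain ⟨v, v1, v2, v3, v4⟩ := ihV
    obtain ⟨w, w1, w2, w3, w4⟩ := ihW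
    refine ⟨bA v w, bA_analytic v1 w1, ?_, Rep.bracket D ht (CRField_analytic hV)
      (CRField_analytic hW) v1 w1 v3 w3 v2 w2, Mod.bracket hg v4 w4⟩
    have key : ∀ {v w : (Fin m → ℝ) → Fin m → ℂ}, VAn w t → IsRe t v → IsRe t w →
        ∀ᶠ s in 𝓝 t, ∀ j, (starRingEnd ℂ) (ap v (fun s => w s j) s) = ap v (fun s => w s j) s := by
      intro v w w1 v2 w2
      have e1 : ∀ᶠ s in 𝓝 t, ∀ᶠ s' in 𝓝 s, ∀ i, (starRingEnd ℂ) (w s' i) = w s' i :=
        eventually_eventually_nhds.mpr w2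
      filter_upwards [v2, e1, w1.eventually] with s h1 h2 h3 j
      unfold ap
      rw [map_sum]
      apply Finset.sum_congr rfl
      intro i _
      rw [map_mul, h1 i, ← dA_conj i (h3 j).differentiableAt]
      congr 1
      have h4 : (fun s => (starRingEnd ℂ) (w s j)) =ᶠ[𝓝 s] (fun s => w s j) := by
        filter_upwards [h2] with s' hs'
        exact hs' j
      exact (dA_congr i h4).eq_of_nhds
    filter_upwards [key w1 v2 w2, key v1 w2 v2] with s h1 h2 j
    change (starRingEnd ℂ) (ap v (fun s => w s j) s - ap w (fun s => v s j) s) =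
      ap v (fun s => w s j) s - ap w (fun s => v s j) s
    rw [map_sub, h1 j, h2 j]

/-- finite type implies that the brackets span. -/
theorem span_of_finiteType {t : Fin m → ℝ} (ht : t ∈ D.U) (h : FiniteTypeAt M (D.ψ t)) :
    Submodule.span ℂ (Set.range (fun l => BRl D.gen l t)) = ⊤ := by
  have h1 : ∀ x : Fin m → ℝ, (fun i => ((x i : ℝ) : ℂ)) ∈
      Submodule.span ℂ (Set.range (fun l => BRl D.gen l t)) := by
    intro x
    have h2 : fderiv ℝ D.ψ t x ∈ tangentConeAt ℝ M (D.ψ t) := by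
      rw [D.tangentCone_eq ht]; exact ⟨x, rfl⟩
    obtain ⟨W, hW, hWx⟩ := h _ h2
    obtain ⟨w, w1, w2, w3, w4⟩ := D.exists_rep ht hW
    have h3 := (Rep.eq_fderiv D ht w3 w2).self_of_nhds
    rw [hWx] at h3
    have h4 : x = fun i => (w t i).re := by
      have := congrArg (fderiv ℝ D.σ (D.ψ t)) h3
      rwa [D.dσ_dψ ht, D.dσ_dψ ht] at this
    have h5 : (fun i => ((x i : ℝ) : ℂ)) = w t := by
      funext i
      rw [h4]
      exact Complex.conj_eq_iff_re.mp (w2.self_of_nhds i)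
    rw [h5]
    exact w4.eval
  rw [eq_top_iff]
  intro y _
  have h2 : y = (fun i => (((y i).re : ℝ) : ℂ)) + Complex.I • (fun i => (((y i).im : ℝ) : ℂ)) := by
    funext i
    simp only [Pi.add_apply, Pi.smul_apply, smul_eq_mul]
    rw [mul_comm, Complex.re_add_im]
  rw [h2]
  exact Submodule.add_mem _ (h1 _) (Submodule.smul_mem _ _ (h1 _))

/-- ambient extension of a field on the parameter space. -/
noncomputable def ext (v : (Fin m → ℝ) → Fin m → ℂ) : (Fin N → ℂ) → (Fin N → ℂ) :=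
  fun z j => ap v (D.pc j) (D.σ z)

theorem ext_analytic {t : Fin m → ℝ} (ht : t ∈ D.U) {v : (Fin m → ℝ) → Fin m → ℂ}
    (hv : VAn v t) : AnalyticAt ℝ (D.ext v) (D.ψ t) := by
  rw [analyticAt_pi_iff]
  intro j
  have h1 : AnalyticAt ℝ (ap v (D.pc j)) (D.σ (D.ψ t)) := by
    rw [D.σψ t ht]; exact ap_analytic hv (D.pc_an ht j)
  exact h1.comp (D.σ_an t ht)

theorem ext_rep {t : Fin m → ℝ} (ht : t ∈ D.U) (v : (Fin m → ℝ) → Fin m → ℂ) :
    D.Rep t (D.ext v) v := by
  filter_upwards [D.eventually_U ht] with s hs j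
  change ap v (D.pc j) (D.σ (D.ψ s)) = _
  rw [D.σψ s hs]

theorem ap_real {s : Fin m → ℝ} (hs : s ∈ D.U) (x : Fin m → ℝ) (j : Fin N)
    (v : (Fin m → ℝ) → Fin m → ℂ) (hv : ∀ i, v s i = ((x i : ℝ) : ℂ)) :
    ap v (D.pc j) s = fderiv ℝ D.ψ s x j := by
  rw [D.fderiv_ψ hs]
  unfold ap
  apply Finset.sum_congr rfl
  intro i _
  rw [hv i, mul_comm]

/-- real and imaginary parts of the generators give CR fields. -/
theorem base_field {t : Fin m → ℝ} (ht : t ∈ D.U) (k : Fin m) :
    CRField M (D.ψ t) (D.ext (fun s i => (((D.Lk k s i).re : ℝ) : ℂ))) ∧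
    CRField M (D.ψ t) (D.ext (fun s i => (((D.Lk k s i).im : ℝ) : ℂ))) := by
  have hL := D.Lk_an k ht
  have key : ∀ s ∈ D.U, fderiv ℝ D.ψ s (fun i => (D.Lk k s i).re) =
      - (Complex.I • fderiv ℝ D.ψ s (fun i => (D.Lk k s i).im)) := by
    intro s hs
    funext j
    have h1 := D.ap_Lk k j hs
    have h2 : ap (D.Lk k) (D.pc j) s = fderiv ℝ D.ψ s (fun i => (D.Lk k s i).re) j +
        Complex.I * fderiv ℝ D.ψ s (fun i => (D.Lk k s i).im) j := by
      rw [D.fderiv_ψ hs, D.fderiv_ψ hs, Finset.mul_sum, ← Finset.sum_add_distrib]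
      unfold ap
      apply Finset.sum_congr rfl
      intro i _
      conv_lhs => rw [← Complex.re_add_im (D.Lk k s i)]
      ring
    rw [h2] at h1
    rw [Pi.neg_apply, Pi.smul_apply, smul_eq_mul]
    exact eq_neg_of_add_eq_zero_left h1
  constructor
  · apply CRField.base
    · apply D.ext_analytic ht
      intro i
      exact analyticAt_ofReal (analyticAt_re (hL i))
    · rw [eventually_nhdsWithin_iff]
      filter_upwards [D.eventually_param ht (P := fun _ => True) (by simp)] with z hz hzM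
      obtain ⟨s, hs, -, rfl, h3⟩ := hz hzM
      rw [D.mem_cxT hs]
      refine ⟨fun i => (D.Lk k s i).re, fun i => (D.Lk k s i).im, ?_, ?_⟩
      · funext j
        change _ = ap _ (D.pc j) (D.σ (D.ψ s))
        rw [D.σψ s hs, D.ap_real hs (fun i => (D.Lk k s i).re) j _ (fun i => rfl)]
      · have e1 : D.ext (fun s i => (((D.Lk k s i).re : ℝ) : ℂ)) (D.ψ s) =
            fderiv ℝ D.ψ s (fun i => (D.Lk k s i).re) := by
          funext j
          change ap _ (D.pc j) (D.σ (D.ψ s)) = _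
          rw [D.σψ s hs, D.ap_real hs (fun i => (D.Lk k s i).re) j _ (fun i => rfl)]
        rw [e1, key s hs, smul_neg, smul_smul, Complex.I_mul_I, neg_smul, one_smul, neg_neg]
  · apply CRField.base
    · apply D.ext_analytic ht
      intro i
      exact analyticAt_ofReal ((Complex.imCLM.analyticAt _).comp (hL i))
    · rw [eventually_nhdsWithin_iff]
      filter_upwards [D.eventually_param ht (P := fun _ => True) (by simp)] with z hz hzM
      obtain ⟨s, hs, -, rfl, h3⟩ := hz hzM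
      rw [D.mem_cxT hs]
      have e1 : D.ext (fun s i => (((D.Lk k s i).im : ℝ) : ℂ)) (D.ψ s) =
            fderiv ℝ D.ψ s (fun i => (D.Lk k s i).im) := by
        funext j
        change ap _ (D.pc j) (D.σ (D.ψ s)) = _
        rw [D.σψ s hs, D.ap_real hs (fun i => (D.Lk k s i).im) j _ (fun i => rfl)]
      refine ⟨fun i => (D.Lk k s i).im, fun i => - (D.Lk k s i).re, e1.symm, ?_⟩
      have h2 : (fun i => - (D.Lk k s i).re) = - (fun i => (D.Lk k s i).re) := rfl
      rw [e1, h2, map_neg, key s hs, neg_neg]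

/-- CR fields representing the real and imaginary parts. -/
def HasRI (t : Fin m → ℝ) (b : (Fin m → ℝ) → Fin m → ℂ) : Prop :=
  ∃ V W : (Fin N → ℂ) → (Fin N → ℂ), CRField M (D.ψ t) V ∧ CRField M (D.ψ t) W ∧
    D.Rep t V (fun s i => (((b s i).re : ℝ) : ℂ)) ∧ D.Rep t W (fun s i => (((b s i).im : ℝ) : ℂ))

theorem Rep.congr {t : Fin m → ℝ} {V : (Fin N → ℂ) → (Fin N → ℂ)}
    {v w : (Fin m → ℝ) → Fin m → ℂ} (h : D.Rep t V v) (hvw : ∀ᶠ s in 𝓝 t, v s = w s) :
    D.Rep t V w := by
  filter_upwards [h, hvw] with s h1 h2 j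
  rw [h1 j]
  unfold ap
  rw [h2]

theorem hasRI_gen {t : Fin m → ℝ} (ht : t ∈ D.U) (a : Fin m ⊕ Fin m) : D.HasRI t (D.gen a) := by
  rcases a with k | k
  · exact ⟨_, _, (D.base_field ht k).1, (D.base_field ht k).2, D.ext_rep ht _, D.ext_rep ht _⟩
  · refine ⟨_, _, (D.base_field ht k).1, CRField.smul (-1) _ (D.base_field ht k).2, ?_, ?_⟩
    · refine Rep.congr D (D.ext_rep ht _) ?_
      filter_upwards with s
      funext i
      simp [gen]
    · refine Rep.congr D (Rep.smul D (-1) (D.ext_rep ht _)) ?_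
      filter_upwards with s
      funext i
      simp [gen]

theorem hasRI_bracket {t : Fin m → ℝ} (ht : t ∈ D.U) {a b : (Fin m → ℝ) → Fin m → ℂ}
    (ha : VAn a t) (hb : VAn b t) (hA : D.HasRI t a) (hB : D.HasRI t b) :
    D.HasRI t (bA a b) := by
  obtain ⟨V, W, hV, hW, hVr, hWr⟩ := hA
  obtain ⟨V', W', hV', hW', hVr', hWr'⟩ := hB
  have are : VAn (fun s i => (((a s i).re : ℝ) : ℂ)) t := fun i =>
    analyticAt_ofReal (analyticAt_re (ha i))
  have aim : VAn (fun s i => (((a s i).im : ℝ) : ℂ)) t := fun i =>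
    analyticAt_ofReal ((Complex.imCLM.analyticAt _).comp (ha i))
  have bre : VAn (fun s i => (((b s i).re : ℝ) : ℂ)) t := fun i =>
    analyticAt_ofReal (analyticAt_re (hb i))
  have bim : VAn (fun s i => (((b s i).im : ℝ) : ℂ)) t := fun i =>
    analyticAt_ofReal ((Complex.imCLM.analyticAt _).comp (hb i))
  have hre : ∀ f : (Fin m → ℝ) → Fin m → ℝ, IsRe t (fun s i => ((f s i : ℝ) : ℂ)) := by
    intro f
    filter_upwards with s i
    exact Complex.conj_ofReal _
  have r1 := Rep.bracket D ht (CRField_analytic hV) (CRField_analytic hV') are bre hVr hVr'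
    (hre _) (hre _)
  have r2 := Rep.bracket D ht (CRField_analytic hW) (CRField_analytic hW') aim bim hWr hWr'
    (hre _) (hre _)
  have r3 := Rep.bracket D ht (CRField_analytic hV) (CRField_analytic hW') are bim hVr hWr'
    (hre _) (hre _)
  have r4 := Rep.bracket D ht (CRField_analytic hW) (CRField_analytic hV') aim bre hWr hVr'
    (hre _) (hre _)
  -- the real part formulas
  have key : ∀ᶠ s in 𝓝 t, ∀ j, bA a b s j =
      (bA (fun s i => (((a s i).re : ℝ) : ℂ)) (fun s i => (((b s i).re : ℝ) : ℂ)) s j -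
      bA (fun s i => (((a s i).im : ℝ) : ℂ)) (fun s i => (((b s i).im : ℝ) : ℂ)) s j) +
      Complex.I *
      (bA (fun s i => (((a s i).re : ℝ) : ℂ)) (fun s i => (((b s i).im : ℝ) : ℂ)) s j +
      bA (fun s i => (((a s i).im : ℝ) : ℂ)) (fun s i => (((b s i).re : ℝ) : ℂ)) s j) := by
    have e : ∀ {a b : (Fin m → ℝ) → Fin m → ℂ}, VAn b t →
        VAn (fun s i => (((b s i).re : ℝ) : ℂ)) t → VAn (fun s i => (((b s i).im : ℝ) : ℂ)) t →
        ∀ᶠ s in 𝓝 t, ∀ j, ap a (fun s => b s j) s =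
        (ap (fun s i => (((a s i).re : ℝ) : ℂ)) (fun s => (((b s j).re : ℝ) : ℂ)) s -
        ap (fun s i => (((a s i).im : ℝ) : ℂ)) (fun s => (((b s j).im : ℝ) : ℂ)) s) +
        Complex.I *
        (ap (fun s i => (((a s i).re : ℝ) : ℂ)) (fun s => (((b s j).im : ℝ) : ℂ)) s +
        ap (fun s i => (((a s i).im : ℝ) : ℂ)) (fun s => (((b s j).re : ℝ) : ℂ)) s) := by
      intro a b hb bre bim
      filter_upwards [hb.eventually, bre.eventually, bim.eventually] with s h1 h2 h3 j
      have h4 : ∀ i, dA i (fun s => b s j) s = dA i (fun s => (((b s j).re : ℝ) : ℂ)) s +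
          Complex.I * dA i (fun s => (((b s j).im : ℝ) : ℂ)) s := by
        intro i
        have h5 : (fun s => b s j) = (fun s => (((b s j).re : ℝ) : ℂ)) +
            (fun _ => Complex.I) * (fun s => (((b s j).im : ℝ) : ℂ)) := by
          funext s'
          simp only [Pi.add_apply, Pi.mul_apply]
          rw [mul_comm, Complex.re_add_im]
        conv_lhs => rw [h5]
        rw [(dA_add i (h2 j) (analyticAt_const.mul (h3 j))).eq_of_nhds, Pi.add_apply,
          (dA_mul i analyticAt_const (h3 j)).eq_of_nhds, dA_const]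
        simp
      unfold ap
      rw [← Finset.sum_sub_distrib, ← Finset.sum_add_distrib, Finset.mul_sum,
        ← Finset.sum_add_distrib]
      apply Finset.sum_congr rfl
      intro i _
      rw [h4 i]
      conv_lhs => rw [← Complex.re_add_im (a s i)]
      linear_combination (((a s i).im : ℝ) : ℂ) * dA i (fun s => (((b s j).im : ℝ) : ℂ)) s *
        Complex.I_mul_I
    filter_upwards [e (a := a) hb bre bim, e (a := b) ha are aim] with s h1 h2 j
    simp only [bA]
    rw [h1 j, h2 j]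
    ring
  have hreal : ∀ {x y : (Fin m → ℝ) → Fin m → ℝ}, VAn (fun s i => ((x s i : ℝ) : ℂ)) t →
      VAn (fun s i => ((y s i : ℝ) : ℂ)) t →
      ∀ᶠ s in 𝓝 t, ∀ j, (bA (fun s i => ((x s i : ℝ) : ℂ)) (fun s i => ((y s i : ℝ) : ℂ)) s j).im
        = 0 := by
    intro x y hx hy
    filter_upwards [hx.eventually, hy.eventually] with s h1 h2 j
    have e1 : ∀ {x y : (Fin m → ℝ) → Fin m → ℝ}, VAn (fun s i => ((y s i : ℝ) : ℂ)) s →
        (ap (fun s i => ((x s i : ℝ) : ℂ)) (fun s => ((y s j : ℝ) : ℂ)) s).im = 0 := by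
      intro x y h2
      unfold ap
      rw [Complex.im_sum]
      apply Finset.sum_eq_zero
      intro i _
      rw [Complex.im_ofReal_mul]
      have h3 := dA_conj i (h2 j).differentiableAt
      have h4 : (fun s => (starRingEnd ℂ) ((y s j : ℝ) : ℂ)) = fun s => ((y s j : ℝ) : ℂ) := by
        funext s; exact Complex.conj_ofReal _
      rw [h4] at h3
      have h5 := Complex.conj_eq_iff_im.mp h3.symm
      rw [h5, mul_zero]
    simp only [bA]
    rw [Complex.sub_im, e1 h2, e1 h1, sub_zero]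
  have cR : ∀ X Y Z T : ℂ, X.im = 0 → Y.im = 0 → Z.im = 0 → T.im = 0 →
      (((((X - Y) + Complex.I * (Z + T)).re : ℝ) : ℂ) = X + ((-1 : ℝ) : ℂ) * Y) ∧
      (((((X - Y) + Complex.I * (Z + T)).im : ℝ) : ℂ) = Z + T) := by
    intro X Y Z T hX hY hZ hT
    constructor
    · apply Complex.ext
      · simp [hZ, hT]; ring
      · simp [hX, hY]
    · apply Complex.ext
      · simp [hX, hY]
      · simp [hZ, hT]
  refine ⟨_, _, CRField.add _ _ (CRField.bracket _ _ hV hV')
      (CRField.smul (-1) _ (CRField.bracket _ _ hW hW')),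
    CRField.add _ _ (CRField.bracket _ _ hV hW') (CRField.bracket _ _ hW hV'), ?_, ?_⟩
  · refine Rep.congr D (Rep.add D r1 (Rep.smul D (-1) r2)) ?_
    filter_upwards [key, hreal are bre, hreal aim bim, hreal are bim, hreal aim bre]
      with s h1 h2 h3 h4 h5
    funext j
    rw [h1 j]
    exact ((cR _ _ _ _ (h2 j) (h3 j) (h4 j) (h5 j)).1).symm
  · refine Rep.congr D (Rep.add D r3 r4) ?_
    filter_upwards [key, hreal are bre, hreal aim bim, hreal are bim, hreal aim bre]
      with s h1 h2 h3 h4 h5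
    funext j
    rw [h1 j]
    exact ((cR _ _ _ _ (h2 j) (h3 j) (h4 j) (h5 j)).2).symm

theorem hasRI_BRl {t : Fin m → ℝ} (ht : t ∈ D.U) (l : List (Fin m ⊕ Fin m)) :
    D.HasRI t (BRl D.gen l) := by
  have hg : ∀ i, VAn (D.gen i) t := fun i => D.gen_an i ht
  induction l with
  | nil =>
    have h0 : CRField M (D.ψ t) (D.ext (fun _ _ => 0)) := by
      apply CRField.base
      · exact D.ext_analytic ht (fun i => analyticAt_const)
      · rw [eventually_nhdsWithin_iff]
        filter_upwards [D.eventually_param ht (P := fun _ => True) (by simp)] with z hz hzM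
        obtain ⟨s, hs, -, rfl, h3⟩ := hz hzM
        have e1 : D.ext (fun _ _ => 0) (D.ψ s) = 0 := by
          funext j
          simp [ext, ap]
        rw [D.mem_cxT hs, e1]
        exact ⟨0, 0, by rw [map_zero], by rw [map_zero, smul_zero]⟩
    refine ⟨_, _, h0, h0, ?_, ?_⟩
    · refine Rep.congr D (D.ext_rep ht _) ?_
      filter_upwards with s
      funext i
      simp [BRl]
    · refine Rep.congr D (D.ext_rep ht _) ?_
      filter_upwards with s
      funext i
      simp [BRl]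
  | cons i l ih =>
    by_cases hl : l = []
    · subst hl; exact D.hasRI_gen ht i
    · rw [BRl_cons D.gen i l hl]
      exact D.hasRI_bracket ht (hg i) (BRl_an hg l) (D.hasRI_gen ht i) ih

/-- if the brackets span then `M` is of finite type. -/
theorem finiteType_of_span {t : Fin m → ℝ} (ht : t ∈ D.U)
    (h : Submodule.span ℂ (Set.range (fun l => BRl D.gen l t)) = ⊤) :
    FiniteTypeAt M (D.ψ t) := by
  -- the set of vectors with representable real and imaginary parts
  have key : ∀ y : Fin m → ℂ, ∃ V W : (Fin N → ℂ) → (Fin N → ℂ), CRField M (D.ψ t) V ∧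
      CRField M (D.ψ t) W ∧ V (D.ψ t) = fderiv ℝ D.ψ t (fun i => (y i).re) ∧
      W (D.ψ t) = fderiv ℝ D.ψ t (fun i => (y i).im) := by
    intro y
    have hy : y ∈ Submodule.span ℂ (Set.range (fun l => BRl D.gen l t)) := by rw [h]; trivial
    have hbase : ∀ l, ∃ V W : (Fin N → ℂ) → (Fin N → ℂ), CRField M (D.ψ t) V ∧
      CRField M (D.ψ t) W ∧ V (D.ψ t) = fderiv ℝ D.ψ t (fun i => (BRl D.gen l t i).re) ∧
      W (D.ψ t) = fderiv ℝ D.ψ t (fun i => (BRl D.gen l t i).im) := by
      intro l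
      obtain ⟨V, W, hV, hW, hVr, hWr⟩ := D.hasRI_BRl ht l
      refine ⟨V, W, hV, hW, ?_, ?_⟩
      · funext j
        rw [hVr.self_of_nhds j]
        exact D.ap_real ht _ j _ (fun i => rfl)
      · funext j
        rw [hWr.self_of_nhds j]
        exact D.ap_real ht _ j _ (fun i => rfl)
    induction hy using Submodule.span_induction with
    | mem x hx => obtain ⟨l, rfl⟩ := hx; exact hbase l
    | zero =>
      obtain ⟨V, W, hV, hW, h1, h2⟩ := hbase []
      exact ⟨V, W, hV, hW, h1, h2⟩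
    | add a b _ _ ha hb =>
      obtain ⟨V, W, hV, hW, h1, h2⟩ := ha
      obtain ⟨V', W', hV', hW', h1', h2'⟩ := hb
      refine ⟨V + V', W + W', CRField.add _ _ hV hV', CRField.add _ _ hW hW', ?_, ?_⟩
      · rw [Pi.add_apply, h1, h1', ← map_add]
        congr 1
      · rw [Pi.add_apply, h2, h2', ← map_add]
        congr 1
    | smul c a _ ha =>
      obtain ⟨V, W, hV, hW, h1, h2⟩ := ha
      refine ⟨c.re • V + (-c.im) • W, c.re • W + c.im • V,
        CRField.add _ _ (CRField.smul _ _ hV) (CRField.smul _ _ hW),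
        CRField.add _ _ (CRField.smul _ _ hW) (CRField.smul _ _ hV), ?_, ?_⟩
      · rw [Pi.add_apply, Pi.smul_apply, Pi.smul_apply, h1, h2, ← map_smul, ← map_smul, ← map_add]
        congr 1
        funext i
        simp [Complex.mul_re, sub_eq_add_neg]
      · rw [Pi.add_apply, Pi.smul_apply, Pi.smul_apply, h1, h2, ← map_smul, ← map_smul, ← map_add]
        congr 1
  intro v hv
  rw [D.tangentCone_eq ht] at hv
  obtain ⟨x, rfl⟩ := hv
  obtain ⟨V, W, hV, hW, h1, h2⟩ := key (fun i => ((x i : ℝ) : ℂ))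
  refine ⟨V, hV, ?_⟩
  rw [h1]
  rfl

end Loc

end Pool.Agent.Lib51bf1a
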