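import Mathlib
import Pool.Agent.Lib_51bf1a.C2_FT

/-!
Complexification of real-analytic functions and holomorphic extension of CR functions.
-/

namespace Pool.Agent.Lib51bf1a

open Topology Filter

variable {N m : ℕ}

/-- real points in `ℂ^m`. -/
def cx (t : Fin m → ℝ) : Fin m → ℂ := fun i => (t i : ℂ)

/-- `cx` as a continuous linear map. -/
noncomputable def cxL (m : ℕ) : (Fin m → ℝ) →L[ℝ] (Fin m → ℂ) :=
  ContinuousLinearMap.pi (fun i => Complex.ofRealCLM.comp (ContinuousLinearMap.proj i))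

theorem cxL_apply (t : Fin m → ℝ) : cxL m t = cx t := rfl

/-- the complexified multilinear map. -/
noncomputable def cxMul (n : ℕ) (p : ContinuousMultilinearMap ℝ (fun _ : Fin n => Fin m → ℝ) ℂ) :
    ContinuousMultilinearMap ℂ (fun _ : Fin n => Fin m → ℂ) ℂ :=
  ∑ κ : Fin n → Fin m, (p (fun i => Pi.single (κ i) 1)) •
    ((ContinuousMultilinearMap.mkPiAlgebra ℂ (Fin n) ℂ).compContinuousLinearMap
      (fun i => ContinuousLinearMap.proj (R := ℂ) (φ := fun _ : Fin m => ℂ) (κ i)))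

theorem cxMul_apply (n : ℕ) (p : ContinuousMultilinearMap ℝ (fun _ : Fin n => Fin m → ℝ) ℂ)
    (v : Fin n → Fin m → ℂ) : cxMul n p v = ∑ κ : Fin n → Fin m,
      p (fun i => Pi.single (κ i) 1) * ∏ i, v i (κ i) := by
  unfold cxMul
  rw [_root_.sum_apply]
  apply Finset.sum_congr rfl
  intro κ _
  simp

theorem cxMul_norm (n : ℕ) (p : ContinuousMultilinearMap ℝ (fun _ : Fin n => Fin m → ℝ) ℂ) :
    ‖cxMul n p‖ ≤ (m : ℝ) ^ n * ‖p‖ := by
  apply ContinuousMultilinearMap.opNorm_le_bound (by positivity)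
  intro v
  rw [cxMul_apply]
  calc ‖∑ κ : Fin n → Fin m, p (fun i => Pi.single (κ i) 1) * ∏ i, v i (κ i)‖
      ≤ ∑ κ : Fin n → Fin m, ‖p (fun i => Pi.single (κ i) 1) * ∏ i, v i (κ i)‖ := norm_sum_le _ _
    _ ≤ ∑ κ : Fin n → Fin m, ‖p‖ * ∏ i, ‖v i‖ := by
        apply Finset.sum_le_sum
        intro κ _
        rw [norm_mul, norm_prod]
        apply mul_le_mul
        · refine (p.le_opNorm _).trans ?_
          have : ∏ i : Fin n, ‖(Pi.single (κ i) (1 : ℝ) : Fin m → ℝ)‖ = 1 := by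
            apply Finset.prod_eq_one
            intro i _
            rw [Pi.norm_single, norm_one]
          rw [this, mul_one]
        · apply Finset.prod_le_prod
          · intro i _; exact norm_nonneg _
          · intro i _; exact norm_le_pi_norm (v i) (κ i)
        · positivity
        · positivity
    _ = (m : ℝ) ^ n * ‖p‖ * ∏ i, ‖v i‖ := by
        rw [Finset.sum_const, Finset.card_univ, Fintype.card_fun, Fintype.card_fin, Fintype.card_fin]
        simp only [nsmul_eq_mul]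
        push_cast
        ring

theorem cxMul_real (n : ℕ) (p : ContinuousMultilinearMap ℝ (fun _ : Fin n => Fin m → ℝ) ℂ)
    (y : Fin m → ℝ) : cxMul n p (fun _ => cx y) = p (fun _ => y) := by
  rw [cxMul_apply]
  have h1 : (fun _ : Fin n => y) = fun _ : Fin n => ∑ k, y k • (Pi.single k 1 : Fin m → ℝ) := by
    funext i; exact pi_eq_sum_univ' y
  rw [h1, ContinuousMultilinearMap.map_sum]
  apply Finset.sum_congr rfl
  intro κ _
  rw [ContinuousMultilinearMap.map_smul_univ, mul_comm, Complex.real_smul]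
  congr 1
  simp [cx]

theorem exists_complexification {f : (Fin m → ℝ) → ℂ} {t : Fin m → ℝ} (hf : AnalyticAt ℝ f t) :
    ∃ g : (Fin m → ℂ) → ℂ, AnalyticAt ℂ g (cx t) ∧ ∀ᶠ s in 𝓝 t, g (cx s) = f s := by
  obtain ⟨p, r, hp⟩ := hf
  set q : FormalMultilinearSeries ℂ (Fin m → ℂ) ℂ := fun n => cxMul n (p n) with hq
  have hqr : 0 < q.radius := by
    have h1 : 0 < p.radius := lt_of_lt_of_le hp.r_pos hp.r_le
    obtain ⟨ρ, hρ0, hρ⟩ := ENNReal.lt_iff_exists_nnreal_btwn.mp h1
    obtain ⟨C, hC, hCn⟩ := p.norm_mul_pow_le_of_lt_radius hρ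
    have hρ0' : (0 : ℝ) < ρ := by exact_mod_cast hρ0
    have h2 : ((ρ / (m + 1) : NNReal) : ENNReal) ≤ q.radius := by
      apply q.le_radius_of_bound C
      intro n
      refine le_trans ?_ (hCn n)
      have h3 : ‖q n‖ ≤ (m : ℝ) ^ n * ‖p n‖ := cxMul_norm n (p n)
      have h4 : ((ρ / (m + 1) : NNReal) : ℝ) = (ρ : ℝ) / (m + 1) := by push_cast; rfl
      rw [h4, div_pow]
      have h5 : (0 : ℝ) < ((m : ℝ) + 1) ^ n := by positivity
      calc ‖q n‖ * ((ρ : ℝ) ^ n / ((m : ℝ) + 1) ^ n)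
          ≤ ((m : ℝ) ^ n * ‖p n‖) * ((ρ : ℝ) ^ n / ((m : ℝ) + 1) ^ n) := by gcongr
        _ = (((m : ℝ) ^ n) / ((m : ℝ) + 1) ^ n) * (‖p n‖ * (ρ : ℝ) ^ n) := by ring
        _ ≤ 1 * (‖p n‖ * (ρ : ℝ) ^ n) := by
            apply mul_le_mul_of_nonneg_right _ (by positivity)
            rw [div_le_one h5]
            gcongr
            linarith
        _ = ‖p n‖ * (ρ : ℝ) ^ n := one_mul _
    refine lt_of_lt_of_le ?_ h2
    have : (0 : NNReal) < ρ / (m + 1) := by
      have h6 : (0 : NNReal) < ρ := by exact_mod_cast hρ0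
      positivity
    exact_mod_cast this
  have hqs := q.hasFPowerSeriesOnBall hqr
  refine ⟨fun z => q.sum (z - cx t), ?_, ?_⟩
  · have h1 : AnalyticAt ℂ q.sum (cx t - cx t) := by
      rw [sub_self]; exact hqs.analyticAt
    have h2 : AnalyticAt ℂ (fun z : Fin m → ℂ => z - cx t) (cx t) :=
      analyticAt_id.sub analyticAt_const
    exact AnalyticAt.comp (g := q.sum) (f := fun z : Fin m → ℂ => z - cx t) h1 h2
  · have e1 : ∀ᶠ s in 𝓝 t, s - t ∈ Metric.eball (0 : Fin m → ℝ) r := by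
      have h1 : Tendsto (fun s : Fin m → ℝ => s - t) (𝓝 t) (𝓝 0) := by
        have : Tendsto (fun s : Fin m → ℝ => s - t) (𝓝 t) (𝓝 (t - t)) :=
          (continuous_id.sub continuous_const).tendsto t
        rwa [sub_self] at this
      exact h1.eventually (Metric.eball_mem_nhds _ hp.r_pos)
    have e2 : ∀ᶠ s in 𝓝 t, cx (s - t) ∈ Metric.eball (0 : Fin m → ℂ) q.radius := by
      have h1 : Tendsto (fun s : Fin m → ℝ => cx (s - t)) (𝓝 t) (𝓝 0) := by
        have h2 : Tendsto (fun s : Fin m → ℝ => cxL m (s - t)) (𝓝 t) (𝓝 (cxL m (t - t))) :=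
          ((cxL m).continuous.comp (continuous_id.sub continuous_const)).tendsto t
        rwa [sub_self, map_zero] at h2
      exact h1.eventually (Metric.eball_mem_nhds _ hqr)
    filter_upwards [e1, e2] with s h1 h2
    have h3 := hp.hasSum h1
    have h4 := hqs.hasSum h2
    have h5 : cx s - cx t = cx (s - t) := by
      funext i; simp [cx]
    rw [h5]
    simp only [hq, cxMul_real, zero_add] at h4
    rw [add_sub_cancel] at h3
    exact h4.unique h3

theorem eq_zero_of_real {g : (Fin m → ℂ) → ℂ} {t : Fin m → ℝ} (hg : AnalyticAt ℂ g (cx t))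
    (h : ∀ᶠ s in 𝓝 t, g (cx s) = 0) : ∀ᶠ z in 𝓝 (cx t), g z = 0 := by
  obtain ⟨r1, hr1, h1⟩ := Metric.eventually_nhds_iff_ball.mp hg.eventually_analyticAt
  obtain ⟨r2, hr2, h2⟩ := Metric.eventually_nhds_iff_ball.mp h
  set r := min r1 r2 with hr
  have hr0 : 0 < r := lt_min hr1 hr2
  rw [Metric.eventually_nhds_iff_ball]
  refine ⟨r / 4, by positivity, fun z hz => ?_⟩
  set x : Fin m → ℝ := fun j => (z j).re - t j with hx
  set y : Fin m → ℝ := fun j => (z j).im with hy
  have hz' : ∀ j, ‖z j - (t j : ℂ)‖ < r / 4 := by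
    intro j
    have h3 : ‖z - cx t‖ < r / 4 := by rwa [← dist_eq_norm]
    exact lt_of_le_of_lt (norm_le_pi_norm (z - cx t) j) h3
  have hxj : ∀ j, |x j| < r / 4 := by
    intro j
    have h3 := Complex.abs_re_le_norm (z j - (t j : ℂ))
    rw [Complex.sub_re, Complex.ofReal_re] at h3
    exact lt_of_le_of_lt h3 (hz' j)
  have hyj : ∀ j, |y j| < r / 4 := by
    intro j
    have h3 := Complex.abs_im_le_norm (z j - (t j : ℂ))
    rw [Complex.sub_im, Complex.ofReal_im, sub_zero] at h3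
    exact lt_of_le_of_lt h3 (hz' j)
  set γ : ℂ → (Fin m → ℂ) := fun lam => cx t + cx x + lam • cx y with hγ
  have hγan : ∀ lam, AnalyticAt ℂ γ lam := by
    intro lam
    exact analyticAt_const.add (analyticAt_id.smul analyticAt_const)
  have hγball : ∀ lam ∈ Metric.ball (0 : ℂ) 2, γ lam ∈ Metric.ball (cx t) r := by
    intro lam hlam
    rw [Metric.mem_ball, dist_eq_norm]
    have h3 : γ lam - cx t = cx x + lam • cx y := by simp only [hγ]; abel
    rw [h3, pi_norm_lt_iff hr0]
    intro j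
    have h4 : ‖lam‖ < 2 := by simpa using hlam
    calc ‖(cx x + lam • cx y) j‖ = ‖((x j : ℝ) : ℂ) + lam * ((y j : ℝ) : ℂ)‖ := rfl
      _ ≤ ‖((x j : ℝ) : ℂ)‖ + ‖lam * ((y j : ℝ) : ℂ)‖ := norm_add_le _ _
      _ = |x j| + ‖lam‖ * |y j| := by rw [norm_mul, Complex.norm_real, Complex.norm_real]; rfl
      _ < r := by nlinarith [hxj j, hyj j, abs_nonneg (y j), abs_nonneg (x j), norm_nonneg lam]
  have hcomp : AnalyticOnNhd ℂ (g ∘ γ) (Metric.ball (0 : ℂ) 2) := by
    intro lam hlam
    have h3 := h1 _ (Metric.ball_subset_ball (min_le_left r1 r2) (hγball lam hlam))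
    exact h3.comp (hγan lam)
  have hfreq : ∃ᶠ lam in 𝓝[≠] (0 : ℂ), (g ∘ γ) lam = 0 := by
    have h3 : Tendsto (fun a : ℝ => (a : ℂ)) (𝓝[>] (0 : ℝ)) (𝓝[≠] (0 : ℂ)) := by
      apply tendsto_nhdsWithin_of_tendsto_nhds_of_eventually_within
      · have : Tendsto (fun a : ℝ => (a : ℂ)) (𝓝 (0 : ℝ)) (𝓝 ((0 : ℝ) : ℂ)) :=
          Complex.continuous_ofReal.tendsto 0
        rw [Complex.ofReal_zero] at this
        exact this.mono_left nhdsWithin_le_nhds
      · filter_upwards [self_mem_nhdsWithin] with a ha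
        have : (0 : ℝ) < a := ha
        simp only [Set.mem_compl_iff, Set.mem_singleton_iff, Complex.ofReal_eq_zero]
        exact this.ne'
    have h4 : ∀ᶠ a : ℝ in 𝓝[>] (0 : ℝ), (g ∘ γ) (a : ℂ) = 0 := by
      have h5 : ∀ᶠ a : ℝ in 𝓝[>] (0 : ℝ), a ∈ Set.Ioo (0 : ℝ) 2 := Ioo_mem_nhdsGT (by norm_num)
      filter_upwards [h5] with a ha
      have h6 : γ (a : ℂ) = cx (t + x + a • y) := by
        funext j; simp [hγ, cx]
      rw [Function.comp_apply, h6]
      apply h2
      have h7 := hγball (a : ℂ) (by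
        rw [Metric.mem_ball, dist_zero_right, Complex.norm_real, Real.norm_eq_abs, abs_of_pos ha.1]
        exact ha.2)
      rw [h6, Metric.mem_ball, dist_eq_norm] at h7
      rw [Metric.mem_ball, dist_eq_norm]
      have h8 : ‖cx (t + x + a • y) - cx t‖ = ‖(t + x + a • y) - t‖ := by
        have h9 : cx (t + x + a • y) - cx t = cx ((t + x + a • y) - t) := by
          funext j; simp [cx]
        rw [h9]
        simp only [Pi.norm_def]
        congr 1
        apply Finset.sup_congr rfl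
        intro j _
        simp only [cx]
        apply NNReal.eq
        simp only [coe_nnnorm, Complex.norm_real]
      rw [h8] at h7
      exact lt_of_lt_of_le h7 (min_le_right r1 r2)
    exact h3.frequently h4.frequently
  have h3 := hcomp.eqOn_zero_of_preconnected_of_frequently_eq_zero
    (convex_ball (0 : ℂ) 2).isPreconnected (Metric.mem_ball_self (by norm_num)) hfreq
  have h4 := h3 (x := Complex.I) (by rw [Metric.mem_ball, dist_zero_right, Complex.norm_I]; norm_num)
  have h5 : γ Complex.I = z := by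
    funext j
    simp only [hγ, hx, hy, cx, Pi.add_apply, Pi.smul_apply, smul_eq_mul]
    push_cast
    conv_rhs => rw [← Complex.re_add_im (z j)]
    ring
  rw [Function.comp_apply, h5] at h4
  exact h4

end Pool.Agent.Lib51bf1a
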