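import Mathlib
import Pool.Agent.Lib_51bf1a.C4_Complexify
import Pool.Agent.Lib_51bf1a.C3_Rep

/-!
Real-analytic CR functions on a generic submanifold extend holomorphically.
-/

namespace Pool.Agent.Lib51bf1a

open Topology Filter

/-- The analytic inverse function theorem. -/
theorem exists_analytic_inverse {𝕜 : Type*} [RCLike 𝕜] {E F : Type*} [NormedAddCommGroup E]
    [NormedSpace 𝕜 E] [NormedAddCommGroup F] [NormedSpace 𝕜 F] [CompleteSpace E] [CompleteSpace F]
    {f : E → F} {x₀ : E} (hf : AnalyticAt 𝕜 f x₀) (e : E ≃L[𝕜] F)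
    (he : fderiv 𝕜 f x₀ = (e : E →L[𝕜] F)) :
    ∃ g : F → E, AnalyticAt 𝕜 g (f x₀) ∧ g (f x₀) = x₀ ∧ (∀ᶠ x in 𝓝 x₀, g (f x) = x) ∧
      (∀ᶠ y in 𝓝 (f x₀), f (g y) = y) := by
  have h1 : HasStrictFDerivAt f (e : E →L[𝕜] F) x₀ := by rw [← he]; exact hf.hasStrictFDerivAt
  refine ⟨h1.localInverse f e x₀, ?_, h1.localInverse_apply_image, h1.eventually_left_inverse,
    h1.eventually_right_inverse⟩
  rw [h1.localInverse_def]
  exact OpenPartialHomeomorph.analyticAt_symm' (h1.toOpenPartialHomeomorph f)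
    h1.mem_toOpenPartialHomeomorph_source hf he

variable {N m : ℕ}

theorem cx_continuous : Continuous (cx : (Fin m → ℝ) → (Fin m → ℂ)) := (cxL m).continuous

/-- derivatives of a complexification at real points. -/
theorem dA_complexification {f : (Fin m → ℝ) → ℂ} {g : (Fin m → ℂ) → ℂ} {t : Fin m → ℝ}
    (hg : AnalyticAt ℂ g (cx t)) (h : ∀ᶠ s in 𝓝 t, g (cx s) = f s) (k : Fin m) :
    ∀ᶠ s in 𝓝 t, dA k f s = fderiv ℂ g (cx s) (Pi.single k 1) := by
  have h1 : ∀ᶠ s in 𝓝 t, AnalyticAt ℂ g (cx s) :=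
    cx_continuous.continuousAt.eventually hg.eventually_analyticAt
  filter_upwards [h1, eventually_eventually_nhds.mpr h] with s h2 h3
  have h4 : f =ᶠ[𝓝 s] g ∘ (cxL m) := by
    filter_upwards [h3] with s' hs'
    rw [← hs']; rfl
  unfold dA
  rw [h4.fderiv_eq]
  have h5 : DifferentiableAt ℝ g (cxL m s) := h2.differentiableAt.restrictScalars ℝ
  rw [fderiv_comp s h5 (cxL m).differentiableAt, ContinuousLinearMap.fderiv]
  have h6 : fderiv ℝ g (cxL m s) = (fderiv ℂ g (cx s)).restrictScalars ℝ :=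
    h2.differentiableAt.fderiv_restrictScalars ℝ
  rw [h6]
  change fderiv ℂ g (cx s) (cxL m (Pi.single k 1)) = _
  congr 1
  funext i
  rw [cxL_apply]
  unfold cx
  by_cases hik : i = k
  · subst hik; simp
  · rw [Pi.single_eq_of_ne hik, Pi.single_eq_of_ne hik]; simp

namespace Loc

variable {M : Set (Fin N → ℂ)} (D : Loc N m M)

/-- the matrix `R` as a linear map. -/
noncomputable def RL (t : Fin m → ℝ) : (Fin N → ℂ) →L[ℂ] (Fin m → ℂ) :=
  ContinuousLinearMap.pi (fun i => ∑ j, (D.R t i j) • ContinuousLinearMap.proj j)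

theorem RL_apply (t : Fin m → ℝ) (w : Fin N → ℂ) (i : Fin m) :
    D.RL t w i = ∑ j, D.R t i j * w j := by
  simp [RL, _root_.sum_apply]

/-- Holomorphic extension of CR functions. -/
theorem extend {t : Fin m → ℝ} (ht : t ∈ D.U) {f : (Fin m → ℝ) → ℂ} (hf : AnalyticAt ℝ f t)
    (hcr : ∀ k, ∀ᶠ s in 𝓝 t, ap (D.Lk k) f s = 0) :
    ∃ F : (Fin N → ℂ) → ℂ, AnalyticAt ℂ F (D.ψ t) ∧ ∀ᶠ s in 𝓝 t, F (D.ψ s) = f s := by
  -- the coefficient functions
  set fj : Fin N → (Fin m → ℝ) → ℂ := fun j s => ∑ i, D.R s i j * dA i f s with hfj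
  have fj_an : ∀ j, AnalyticAt ℝ (fj j) t := by
    intro j
    have : fj j = ∑ i, (fun s => D.R s i j) * dA i f := by
      funext s; simp [hfj, Finset.sum_apply]
    rw [this]
    apply Finset.analyticAt_sum
    intro i _
    exact (D.R_an t ht i j).mul (dA_analytic i hf)
  have hrel : ∀ k, ∀ᶠ s in 𝓝 t, dA k f s = ∑ j, fj j s * dA k (D.pc j) s := by
    intro k
    filter_upwards [hcr k] with s hs
    unfold ap Lk at hs
    simp only [sub_mul, Finset.sum_sub_distrib, ite_mul, one_mul, zero_mul,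
      Finset.sum_ite_eq', Finset.mem_univ, if_true, Finset.sum_ite_eq] at hs
    rw [sub_eq_zero] at hs
    rw [hs]
    simp only [hfj, Finset.sum_mul]
    rw [Finset.sum_comm]
    apply Finset.sum_congr rfl
    intro j _
    apply Finset.sum_congr rfl
    intro i _
    ring
  -- complexifications
  have hex : ∀ j, ∃ g : (Fin m → ℂ) → ℂ, AnalyticAt ℂ g (cx t) ∧
      ∀ᶠ s in 𝓝 t, g (cx s) = D.pc j s := fun j => exists_complexification (D.pc_an ht j)
  choose g g_an g_eq using hex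
  have hexf : ∀ j, ∃ u : (Fin m → ℂ) → ℂ, AnalyticAt ℂ u (cx t) ∧
      ∀ᶠ s in 𝓝 t, u (cx s) = fj j s := fun j => exists_complexification (fj_an j)
  choose u u_an u_eq using hexf
  obtain ⟨fc, fc_an, fc_eq⟩ := exists_complexification hf
  -- differential relation
  have hdrel : ∀ᶠ z in 𝓝 (cx t), ∀ k, fderiv ℂ fc z (Pi.single k 1) =
      ∑ j, u j z * fderiv ℂ (g j) z (Pi.single k 1) := by
    rw [eventually_all]
    intro k
    have hval : ∀ (h : (Fin m → ℂ) → ℂ), AnalyticAt ℂ h (cx t) →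
        AnalyticAt ℂ (fun z => fderiv ℂ h z (Pi.single k 1)) (cx t) := fun h hh =>
      ((ContinuousLinearMap.apply ℂ ℂ (Pi.single k (1 : ℂ) : Fin m → ℂ)).analyticAt _).comp hh.fderiv
    have h1 : AnalyticAt ℂ (fun z => fderiv ℂ fc z (Pi.single k 1) -
        ∑ j, u j z * fderiv ℂ (g j) z (Pi.single k 1)) (cx t) := by
      apply (hval fc fc_an).sub
      have e1 : (fun z => ∑ j, u j z * fderiv ℂ (g j) z (Pi.single k 1)) =
          ∑ j, (u j) * (fun z => fderiv ℂ (g j) z (Pi.single k 1)) := by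
        funext z; simp [Finset.sum_apply]
      rw [e1]
      apply Finset.analyticAt_sum
      intro j _
      exact (u_an j).mul (hval (g j) (g_an j))
    have h2 := eq_zero_of_real h1 (by
      have h3 : ∀ᶠ s in 𝓝 t, ∀ j, dA k (D.pc j) s = fderiv ℂ (g j) (cx s) (Pi.single k 1) := by
        rw [eventually_all]; intro j
        exact dA_complexification (g_an j) (g_eq j) k
      have h4 : ∀ᶠ s in 𝓝 t, ∀ j, u j (cx s) = fj j s := by
        rw [eventually_all]; exact u_eq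
      filter_upwards [hrel k, dA_complexification fc_an fc_eq k, h3, h4] with s s1 s2 s3 s4
      rw [← s2, s1, sub_eq_zero]
      apply Finset.sum_congr rfl
      intro j _
      rw [s3 j, s4 j])
    filter_upwards [h2] with z hz
    exact sub_eq_zero.mp hz
  have hdrel' : ∀ᶠ z in 𝓝 (cx t), ∀ v, fderiv ℂ fc z v = ∑ j, u j z * fderiv ℂ (g j) z v := by
    filter_upwards [hdrel] with z hz v
    have h1 : v = ∑ k, v k • (Pi.single k 1 : Fin m → ℂ) := pi_eq_sum_univ' v
    conv_lhs => rw [h1]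
    rw [map_sum]
    have h2 : ∀ j, fderiv ℂ (g j) z v = ∑ k, v k * fderiv ℂ (g j) z (Pi.single k 1) := by
      intro j
      conv_lhs => rw [h1]
      rw [map_sum]
      apply Finset.sum_congr rfl
      intro k _
      rw [map_smul, smul_eq_mul]
    simp only [h2, Finset.mul_sum]
    rw [Finset.sum_comm]
    apply Finset.sum_congr rfl
    intro k _
    rw [map_smul, smul_eq_mul, hz k, Finset.mul_sum]
    apply Finset.sum_congr rfl
    intro j _
    ring
  -- the vector valued complexification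
  set gg : (Fin m → ℂ) → (Fin N → ℂ) := fun z j => g j z with hgg
  have gg_an : AnalyticAt ℂ gg (cx t) := by
    rw [hgg]
    exact AnalyticAt.pi g_an
  have gg_eq : ∀ᶠ s in 𝓝 t, gg (cx s) = D.ψ s := by
    have h4 : ∀ᶠ s in 𝓝 t, ∀ j, g j (cx s) = D.pc j s := by
      rw [eventually_all]; exact g_eq
    filter_upwards [h4] with s hs
    funext j; exact hs j
  have gg_fd : ∀ z, (∀ j, DifferentiableAt ℂ (g j) z) → ∀ v j, fderiv ℂ gg z v j =
      fderiv ℂ (g j) z v := by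
    intro z hz v j
    rw [hgg, fderiv_pi hz]
    rfl
  set B₀ : (Fin m → ℂ) →L[ℂ] (Fin N → ℂ) := fderiv ℂ gg (cx t) with hB₀
  set R₀ : (Fin N → ℂ) →L[ℂ] (Fin m → ℂ) := D.RL t with hR₀
  have hBR : ∀ w, B₀ (R₀ w) = w := by
    intro w
    funext j
    rw [hB₀, gg_fd (cx t) (fun j => (g_an j).differentiableAt)]
    have h1 : R₀ w = ∑ k, (R₀ w) k • (Pi.single k 1 : Fin m → ℂ) := pi_eq_sum_univ' _
    rw [h1, map_sum]
    have h2 : ∀ k, fderiv ℂ (g j) (cx t) (Pi.single k 1) = dA k (D.pc j) t := fun k =>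
      ((dA_complexification (g_an j) (g_eq j) k).self_of_nhds).symm
    simp only [map_smul, h2, hR₀, D.RL_apply, smul_eq_mul, Finset.sum_mul]
    rw [Finset.sum_comm]
    have h3 : ∀ j', ∑ k, D.R t k j' * w j' * dA k (D.pc j) t = (if j = j' then 1 else 0) * w j' := by
      intro j'
      rw [← D.BR' ht j j', Finset.sum_mul]
      apply Finset.sum_congr rfl
      intro k _
      ring
    simp only [h3]
    simp
  -- the map Φ
  set A : (Fin m → ℂ) × (Fin N → ℂ) →L[ℂ] (Fin m → ℂ) :=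
    ContinuousLinearMap.fst ℂ _ _ + R₀.comp (ContinuousLinearMap.snd ℂ _ _) with hA
  have hA' : ∀ τ w, A (τ, w) = τ + R₀ w := fun τ w => rfl
  set Φ : (Fin m → ℂ) × (Fin N → ℂ) → (Fin m → ℂ) × (Fin N → ℂ) := fun y => (y.1, gg (A y)) with hΦ
  set x₀ : (Fin m → ℂ) × (Fin N → ℂ) := (cx t, 0) with hx₀
  have hAx₀ : A x₀ = cx t := by rw [hx₀, hA', map_zero, add_zero]
  have ggA_an : AnalyticAt ℂ (fun y => gg (A y)) x₀ := by
    have : AnalyticAt ℂ gg (A x₀) := by rw [hAx₀]; exact gg_an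
    exact this.comp (A.analyticAt x₀)
  have Φ_an : AnalyticAt ℂ Φ x₀ := (analyticAt_fst).prod ggA_an
  set e : ((Fin m → ℂ) × (Fin N → ℂ)) ≃L[ℂ] ((Fin m → ℂ) × (Fin N → ℂ)) :=
    ContinuousLinearEquiv.equivOfInverse
      ((ContinuousLinearMap.fst ℂ _ _).prod
        (B₀.comp (ContinuousLinearMap.fst ℂ _ _) + ContinuousLinearMap.snd ℂ _ _))
      ((ContinuousLinearMap.fst ℂ _ _).prod
        (ContinuousLinearMap.snd ℂ _ _ - B₀.comp (ContinuousLinearMap.fst ℂ _ _)))
      (by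
        rintro ⟨a, b⟩
        change (a, (B₀ a + b) - B₀ a) = (a, b)
        rw [add_sub_cancel_left])
      (by
        rintro ⟨a, b⟩
        change (a, B₀ a + (b - B₀ a)) = (a, b)
        rw [add_sub_cancel]) with he
  have hΦ' : fderiv ℂ Φ x₀ = (e : ((Fin m → ℂ) × (Fin N → ℂ)) →L[ℂ] ((Fin m → ℂ) × (Fin N → ℂ))) := by
    have h1 : HasFDerivAt (fun y => gg (A y)) (B₀.comp A) x₀ := by
      have h2 : HasFDerivAt gg B₀ (A x₀) := by
        rw [hAx₀]; exact gg_an.differentiableAt.hasFDerivAt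
      exact h2.comp x₀ A.hasFDerivAt
    have h3 : HasFDerivAt Φ ((ContinuousLinearMap.fst ℂ _ _).prod (B₀.comp A)) x₀ :=
      hasFDerivAt_fst.prodMk h1
    rw [h3.fderiv]
    apply ContinuousLinearMap.ext
    rintro ⟨a, b⟩
    change (a, B₀ (A (a, b))) = (a, B₀ a + b)
    rw [hA', map_add, hBR]
  obtain ⟨Θ, Θ_an, Θx₀, hl, hr⟩ := exists_analytic_inverse Φ_an e hΦ'
  have hΦx₀ : Φ x₀ = (cx t, D.ψ t) := by
    rw [hΦ]
    change (x₀.1, gg (A x₀)) = _
    rw [hAx₀, gg_eq.self_of_nhds]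
  set y₀ : (Fin m → ℂ) × (Fin N → ℂ) := (cx t, D.ψ t) with hy₀
  rw [hΦx₀] at Θ_an Θx₀ hr
  have hAΘ : A (Θ y₀) = cx t := by rw [Θx₀, hAx₀]
  -- the function G
  set G : (Fin m → ℂ) × (Fin N → ℂ) → ℂ := fun y => fc (A (Θ y)) with hG
  have AΘ_an : AnalyticAt ℂ (fun y => A (Θ y)) y₀ := (A.analyticAt _).comp Θ_an
  have G_an : AnalyticAt ℂ G y₀ := by
    have h1 : AnalyticAt ℂ fc (A (Θ y₀)) := by rw [hAΘ]; exact fc_an
    exact AnalyticAt.comp (g := fc) (f := fun y => A (Θ y)) h1 AΘ_an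
  have hcontA : Tendsto (fun y => A (Θ y)) (𝓝 y₀) (𝓝 (cx t)) := by
    have := AΘ_an.continuousAt.tendsto
    rwa [hAΘ] at this
  have hG0 : ∀ᶠ y in 𝓝 y₀, DifferentiableAt ℂ G y ∧ ∀ v : Fin m → ℂ, fderiv ℂ G y (v, 0) = 0 := by
    have hgan : ∀ᶠ z in 𝓝 (cx t), ∀ j, AnalyticAt ℂ (g j) z := by
      rw [eventually_all]; intro j; exact (g_an j).eventually_analyticAt
    filter_upwards [G_an.eventually_analyticAt, AΘ_an.eventually_analyticAt,
      hcontA.eventually hdrel', hcontA.eventually fc_an.eventually_analyticAt,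
      hcontA.eventually hgan, eventually_eventually_nhds.mpr hr] with y h1 h2 h3 h4 h5 h6
    refine ⟨h1.differentiableAt, fun v => ?_⟩
    have h7 : fderiv ℂ G y = (fderiv ℂ fc (A (Θ y))).comp (fderiv ℂ (fun y => A (Θ y)) y) := by
      exact fderiv_comp (g := fc) (f := fun y => A (Θ y)) y h4.differentiableAt h2.differentiableAt
    rw [h7, ContinuousLinearMap.comp_apply, h3]
    apply Finset.sum_eq_zero
    intro j _
    have h8 : fderiv ℂ (g j) (A (Θ y)) (fderiv ℂ (fun y => A (Θ y)) y (v, 0)) =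
        fderiv ℂ (fun y => g j (A (Θ y))) y (v, 0) := by
      rw [← ContinuousLinearMap.comp_apply]
      congr 1
      exact (fderiv_comp (g := g j) (f := fun y => A (Θ y)) y (h5 j).differentiableAt
        h2.differentiableAt).symm
    rw [h8]
    have h9 : (fun y => g j (A (Θ y))) =ᶠ[𝓝 y] fun y => y.2 j := by
      filter_upwards [h6] with y' hy'
      have h10 := congrArg (fun p : (Fin m → ℂ) × (Fin N → ℂ) => p.2 j) hy'
      exact h10
    rw [h9.fderiv_eq]
    have h10 : (fun y : (Fin m → ℂ) × (Fin N → ℂ) => y.2 j) =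
        ((ContinuousLinearMap.proj (R := ℂ) (φ := fun _ : Fin N => ℂ) j).comp
          (ContinuousLinearMap.snd ℂ (Fin m → ℂ) (Fin N → ℂ))) := rfl
    rw [h10, ContinuousLinearMap.fderiv]
    change u j (A (Θ y)) * (0 : ℂ) = 0
    rw [mul_zero]
  obtain ⟨r, hr0, hball⟩ := Metric.eventually_nhds_iff_ball.mp hG0
  have hconst : ∀ τ Z, (τ, Z) ∈ Metric.ball y₀ r → G (cx t, Z) = G (τ, Z) := by
    intro τ Z hτZ
    have hmem : ∀ τ', (τ', Z) ∈ Metric.ball y₀ r ↔ τ' ∈ Metric.ball (cx t) r := by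
      intro τ'
      have hZ : dist Z (D.ψ t) < r := by
        have := hτZ
        rw [Metric.mem_ball, Prod.dist_eq, max_lt_iff] at this
        exact this.2
      rw [Metric.mem_ball, Metric.mem_ball, Prod.dist_eq, max_lt_iff]
      exact ⟨fun h => h.1, fun h => ⟨h, hZ⟩⟩
    have h1 : ∀ τ' ∈ Metric.ball (cx t) r, HasFDerivAt (fun τ => G (τ, Z))
        (0 : (Fin m → ℂ) →L[ℂ] ℂ) τ' := by
      intro τ' hτ'
      obtain ⟨h2, h3⟩ := hball _ ((hmem τ').mpr hτ')
      have h4 : HasFDerivAt (fun τ : Fin m → ℂ => (τ, Z)) (ContinuousLinearMap.inl ℂ (Fin m → ℂ) (Fin N → ℂ)) τ' :=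
        hasFDerivAt_prodMk_left τ' Z
      have h5 := HasFDerivAt.comp (g := G) (f := fun τ : Fin m → ℂ => (τ, Z)) τ' h2.hasFDerivAt h4
      have h6 : (fderiv ℂ G (τ', Z)).comp (ContinuousLinearMap.inl ℂ (Fin m → ℂ) (Fin N → ℂ)) = 0 := by
        apply ContinuousLinearMap.ext
        intro v
        exact h3 v
      rw [h6] at h5
      exact h5
    have h2 := (Metric.isOpen_ball (x := cx t) (ε := r)).is_const_of_fderiv_eq_zero (𝕜 := ℂ)
      (convex_ball (cx t) r).isPreconnected (f := fun τ => G (τ, Z))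
      (fun τ' hτ' => (h1 τ' hτ').differentiableAt.differentiableWithinAt)
      (fun τ' hτ' => (h1 τ' hτ').fderiv)
      (x := cx t) (y := τ) (Metric.mem_ball_self hr0) ((hmem τ).mp hτZ)
    exact h2
  refine ⟨fun Z => G (cx t, Z), ?_, ?_⟩
  · exact AnalyticAt.comp (g := G) (f := fun Z => (cx t, Z)) G_an
      (analyticAt_const.prod analyticAt_id)
  · have c1 : Tendsto (fun s => (cx s, (0 : Fin N → ℂ))) (𝓝 t) (𝓝 x₀) :=
      (cx_continuous.prodMk continuous_const).tendsto t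
    have c2 : Tendsto (fun s => (cx s, D.ψ s)) (𝓝 t) (𝓝 y₀) :=
      (cx_continuous.continuousAt).prodMk (D.ψ_an t ht).continuousAt
    filter_upwards [c1.eventually hl, c2.eventually (Metric.ball_mem_nhds y₀ hr0), gg_eq,
      fc_eq] with s h1 h2 h3 h4
    change G (cx t, D.ψ s) = f s
    rw [hconst (cx s) (D.ψ s) h2]
    have h5 : Φ (cx s, 0) = (cx s, D.ψ s) := by
      change (cx s, gg (A (cx s, 0))) = _
      rw [hA', map_zero, add_zero, h3]
    rw [← h5]
    change fc (A (Θ (Φ (cx s, 0)))) = f s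
    rw [h1, hA', map_zero, add_zero, h4]

end Loc

end Pool.Agent.Lib51bf1a
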