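import Mathlib
import Pool.Agent.Lib_51bf1a.C5_Extend

/-!
Holomorphic nondegeneracy in terms of the parametrisation.
-/

namespace Pool.Agent.Lib51bf1a

open Topology Filter Pool.Agent.MP_51bf1a_an

variable {N m : ℕ}

theorem an_sum {J X : Type*} [NormedAddCommGroup X] [NormedSpace ℝ X] (s : Finset J)
    {f : J → X → ℂ} {t : X} (h : ∀ j ∈ s, AnalyticAt ℝ (f j) t) :
    AnalyticAt ℝ (fun x => ∑ j ∈ s, f j x) t := by
  have h1 : (fun x => ∑ j ∈ s, f j x) = ∑ j ∈ s, f j := by
    funext x; rw [Finset.sum_apply]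
  rw [h1]
  exact Finset.analyticAt_sum s h

theorem an_prod {J X : Type*} [NormedAddCommGroup X] [NormedSpace ℝ X] (s : Finset J)
    {f : J → X → ℂ} {t : X} (h : ∀ j ∈ s, AnalyticAt ℝ (f j) t) :
    AnalyticAt ℝ (fun x => ∏ j ∈ s, f j x) t := by
  have h1 : (fun x => ∏ j ∈ s, f j x) = ∏ j ∈ s, f j := by
    funext x; rw [Finset.prod_apply]
  rw [h1]
  exact Finset.analyticAt_prod s h

theorem an_det {d : ℕ} {X : Type*} [NormedAddCommGroup X] [NormedSpace ℝ X]
    {P : X → Matrix (Fin d) (Fin d) ℂ} {t : X} (h : ∀ a b, AnalyticAt ℝ (fun x => P x a b) t) :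
    AnalyticAt ℝ (fun x => (P x).det) t := by
  simp only [Matrix.det_apply']
  apply an_sum
  intro σ _
  apply AnalyticAt.mul analyticAt_const
  apply an_prod
  intro i _
  exact h _ _

theorem an_adjugate {d : ℕ} {X : Type*} [NormedAddCommGroup X] [NormedSpace ℝ X]
    {P : X → Matrix (Fin d) (Fin d) ℂ} {t : X} (h : ∀ a b, AnalyticAt ℝ (fun x => P x a b) t)
    (a b : Fin d) : AnalyticAt ℝ (fun x => (P x).adjugate a b) t := by
  simp only [Matrix.adjugate_apply]
  apply an_det
  intro c e
  by_cases hc : c = b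
  · subst hc
    simp only [Matrix.updateRow_self]
    exact analyticAt_const
  · simp only [Matrix.updateRow_ne hc]
    exact h _ _

theorem an_inv {d : ℕ} {X : Type*} [NormedAddCommGroup X] [NormedSpace ℝ X]
    {P : X → Matrix (Fin d) (Fin d) ℂ} {t : X} (h : ∀ a b, AnalyticAt ℝ (fun x => P x a b) t)
    (hdet : (P t).det ≠ 0) (a b : Fin d) : AnalyticAt ℝ (fun x => (P x)⁻¹ a b) t := by
  have h1 : (fun x => (P x)⁻¹ a b) = (fun x => (P x).det)⁻¹ * (fun x => (P x).adjugate a b) := by
    funext x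
    rw [Matrix.inv_def, Ring.inverse_eq_inv']
    rfl
  rw [h1]
  exact ((an_det h).inv hdet).mul (an_adjugate h a b)

namespace Loc

variable {M : Set (Fin N → ℂ)} (D : Loc N m M)

/-- the `(1,0)` part of the differential of `σ`. -/
noncomputable def Sc (k : Fin m) (j : Fin N) : (Fin m → ℝ) → ℂ := fun t =>
  (1 / 2 : ℂ) * (((fderiv ℝ D.σ (D.ψ t) (Pi.single j (1 : ℂ)) k : ℝ) : ℂ) -
    Complex.I * ((fderiv ℝ D.σ (D.ψ t) (Pi.single j Complex.I) k : ℝ) : ℂ))

theorem Sc_an {t : Fin m → ℝ} (ht : t ∈ D.U) (k : Fin m) (j : Fin N) :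
    AnalyticAt ℝ (D.Sc k j) t := by
  have hσψ : AnalyticAt ℝ (fun s => fderiv ℝ D.σ (D.ψ s)) t := (D.σ_an t ht).fderiv.comp (D.ψ_an t ht)
  have h1 : ∀ v : Fin N → ℂ, AnalyticAt ℝ (fun s => ((fderiv ℝ D.σ (D.ψ s) v k : ℝ) : ℂ)) t := by
    intro v
    have h2 := analyticAt_clm_apply hσψ (analyticAt_const (v := v))
    exact analyticAt_ofReal
      (((ContinuousLinearMap.proj (R := ℝ) (φ := fun _ : Fin m => ℝ) k).analyticAt _).comp h2)
  exact analyticAt_const.mul ((h1 _).sub (analyticAt_const.mul (h1 _)))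

/-- `dσ` on a vector in terms of `Sc`. -/
theorem dσ_eq (t : Fin m → ℝ) (v : Fin N → ℂ) (k : Fin m) :
    ((fderiv ℝ D.σ (D.ψ t) v k : ℝ) : ℂ) = ∑ j, D.Sc k j t * v j +
      ∑ j, (starRingEnd ℂ) (D.Sc k j t) * (starRingEnd ℂ) (v j) := by
  have h1 : v = ∑ j, ((v j).re • (Pi.single j (1 : ℂ) : Fin N → ℂ) +
      (v j).im • (Pi.single j Complex.I : Fin N → ℂ)) := by
    funext i
    rw [Finset.sum_apply, Finset.sum_eq_single i]
    · simp only [Pi.add_apply, Pi.smul_apply, Pi.single_eq_same, Complex.real_smul, mul_one]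
      exact (Complex.re_add_im (v i)).symm
    · intro j _ hj
      simp [Pi.single_eq_of_ne (Ne.symm hj)]
    · intro h; exact absurd (Finset.mem_univ i) h
  conv_lhs => rw [h1]
  rw [map_sum, Finset.sum_apply, Complex.ofReal_sum, ← Finset.sum_add_distrib]
  apply Finset.sum_congr rfl
  intro j _
  rw [map_add, map_smul, map_smul, Pi.add_apply, Pi.smul_apply, Pi.smul_apply, smul_eq_mul,
    smul_eq_mul]
  unfold Sc
  simp only [map_mul, map_sub, Complex.conj_ofReal, Complex.conj_I, map_div₀, map_one, map_ofNat]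
  push_cast
  have e1 : v j = ((v j).re : ℂ) + ((v j).im : ℂ) * Complex.I := (Complex.re_add_im (v j)).symm
  have e2 : (starRingEnd ℂ) (v j) = ((v j).re : ℂ) - ((v j).im : ℂ) * Complex.I := by
    conv_lhs => rw [e1]
    simp only [map_add, map_mul, Complex.conj_ofReal, Complex.conj_I]
    ring
  generalize ((fderiv ℝ D.σ (D.ψ t) (Pi.single j (1 : ℂ)) k : ℝ) : ℂ) = a
  generalize ((fderiv ℝ D.σ (D.ψ t) (Pi.single j Complex.I) k : ℝ) : ℂ) = b
  linear_combination (-(1 / 2) * (a - Complex.I * b)) * e1 - (1 / 2) * (a + Complex.I * b) * e2 +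
    ((v j).im : ℂ) * b * Complex.I_mul_I

theorem Sc_id {t : Fin m → ℝ} (ht : t ∈ D.U) (k l : Fin m) :
    ∑ j, D.Sc k j t * dA l (D.pc j) t +
      ∑ j, (starRingEnd ℂ) (D.Sc k j t) * (starRingEnd ℂ) (dA l (D.pc j) t) =
      if k = l then 1 else 0 := by
  have h1 := D.dσ_dψ ht (Pi.single l 1)
  have h2 := D.dσ_eq t (fderiv ℝ D.ψ t (Pi.single l 1)) k
  have h3 : ∀ j, fderiv ℝ D.ψ t (Pi.single l 1) j = dA l (D.pc j) t := by
    intro j
    rw [D.fderiv_ψ ht, Finset.sum_eq_single l]
    · simp
    · intro b _ hb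
      simp [Pi.single_eq_of_ne hb]
    · intro h; exact absurd (Finset.mem_univ l) h
  simp only [h3] at h2
  rw [← h2, h1]
  by_cases hkl : k = l
  · subst hkl; simp
  · rw [Pi.single_eq_of_ne hkl, if_neg hkl]; simp

/-- the rows of the matrix of equations for tangent holomorphic vectors. -/
noncomputable def Th : Fin N ⊕ Fin N → (Fin m → ℝ) → Fin N → ℂ
  | Sum.inl i => fun t j => (if i = j then 1 else 0) - ∑ k, dA k (D.pc i) t * D.Sc k j t
  | Sum.inr i => fun t j => ∑ k, (starRingEnd ℂ) (dA k (D.pc i) t) * D.Sc k j t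

theorem Th_an (a : Fin N ⊕ Fin N) {t : Fin m → ℝ} (ht : t ∈ D.U) (j : Fin N) :
    AnalyticAt ℝ (fun s => D.Th a s j) t := by
  rcases a with i | i
  · exact analyticAt_const.sub (an_sum _ (fun k _ => (dA_analytic k (D.pc_an ht i)).mul
      (D.Sc_an ht k j)))
  · exact an_sum _ (fun k _ => (analyticAt_conj (dA_analytic k (D.pc_an ht i))).mul (D.Sc_an ht k j))

/-- iterated derivatives of the rows. -/
noncomputable def rw' : List (Fin m) → Fin N ⊕ Fin N → (Fin m → ℝ) → Fin N → ℂ
  | [], a => D.Th a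
  | k :: w, a => fun t j => ap (D.Lk k) (fun s => rw' w a s j) t

theorem rw'_an (w : List (Fin m)) (a : Fin N ⊕ Fin N) {t : Fin m → ℝ} (ht : t ∈ D.U) (j : Fin N) :
    AnalyticAt ℝ (fun s => D.rw' w a s j) t := by
  induction w generalizing j with
  | nil => exact D.Th_an a ht j
  | cons k w ih => exact ap_analytic (D.Lk_an k ht) (ih j)

theorem of_Th {t : Fin m → ℝ} {X : Fin N → ℂ} (h : ∀ a, ∑ j, D.Th a t j * X j = 0) :
    (∀ i, ∑ k, dA k (D.pc i) t * (∑ j, D.Sc k j t * X j) = X i) ∧
    (∀ i, ∑ k, (starRingEnd ℂ) (dA k (D.pc i) t) * (∑ j, D.Sc k j t * X j) = 0) := by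
  constructor
  · intro i
    have h1 := h (Sum.inl i)
    simp only [Th, sub_mul, Finset.sum_sub_distrib, ite_mul, one_mul, zero_mul,
      Finset.sum_ite_eq, Finset.mem_univ, if_true, Finset.sum_mul] at h1
    rw [sub_eq_zero] at h1
    rw [h1, Finset.sum_comm]
    apply Finset.sum_congr rfl
    intro k _
    rw [Finset.mul_sum]
    apply Finset.sum_congr rfl
    intro j _
    ring
  · intro i
    have h1 := h (Sum.inr i)
    simp only [Th, Finset.sum_mul] at h1
    rw [← h1, Finset.sum_comm]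
    apply Finset.sum_congr rfl
    intro k _
    rw [Finset.mul_sum]
    apply Finset.sum_congr rfl
    intro j _
    ring

theorem complexTangent_of_Th {t : Fin m → ℝ} (ht : t ∈ D.U) {X : Fin N → ℂ}
    (h : ∀ a, ∑ j, D.Th a t j * X j = 0) : X ∈ ComplexTangent M (D.ψ t) := by
  obtain ⟨h1, h2⟩ := D.of_Th h
  set y : Fin m → ℂ := fun k => ∑ j, D.Sc k j t * X j with hy
  rw [D.mem_cxT ht]
  have key : ∀ c : ℂ, fderiv ℝ D.ψ t (fun k => 2 * (c * y k).re) = c • X := by
    intro c
    funext i
    rw [D.fderiv_ψ ht, Pi.smul_apply, smul_eq_mul, ← h1 i]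
    have h3 : ∀ k, dA k (D.pc i) t * (((2 * (c * y k).re : ℝ)) : ℂ) =
        dA k (D.pc i) t * (c * y k) + dA k (D.pc i) t * (starRingEnd ℂ) (c * y k) := by
      intro k
      rw [← mul_add, Complex.add_conj]
    simp only [h3, Finset.sum_add_distrib]
    have h4 : ∑ k, dA k (D.pc i) t * (starRingEnd ℂ) (c * y k) = 0 := by
      have h5 := congrArg (starRingEnd ℂ) (h2 i)
      rw [map_sum, map_zero] at h5
      have h6 : ∑ k, dA k (D.pc i) t * (starRingEnd ℂ) (c * y k) =
          (starRingEnd ℂ) c * ∑ k, (starRingEnd ℂ) ((starRingEnd ℂ) (dA k (D.pc i) t) * y k) := by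
        rw [Finset.mul_sum]
        apply Finset.sum_congr rfl
        intro k _
        simp only [map_mul, Complex.conj_conj]
        ring
      rw [h6, h5, mul_zero]
    rw [h4, add_zero, Finset.mul_sum]
    apply Finset.sum_congr rfl
    intro k _
    ring
  refine ⟨fun k => 2 * (1 * y k).re, fun k => 2 * (Complex.I * y k).re, ?_, key Complex.I⟩
  have := key 1
  rw [one_smul] at this
  exact this

/-- In the holomorphically nondegenerate case the rows span somewhere. -/
theorem exists_full_rank (hnd : HolomorphicallyNondegenerate M) :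
    ∃ t ∈ D.U, Submodule.span ℂ (Set.range
      (fun p : List (Fin m) × (Fin N ⊕ Fin N) => D.rw' p.1 p.2 t)) = ⊤ := by
  classical
  set W : (Fin m → ℝ) → Submodule ℂ (Fin N → ℂ) := fun t => Submodule.span ℂ (Set.range
      (fun p : List (Fin m) × (Fin N ⊕ Fin N) => D.rw' p.1 p.2 t)) with hW
  -- point of maximal rank
  obtain ⟨t, ht, hmax⟩ : ∃ t ∈ D.U, ∀ s ∈ D.U, Module.finrank ℂ (W s) ≤ Module.finrank ℂ (W t) := by
    have h1 : Set.Finite ((fun t => Module.finrank ℂ (W t)) '' D.U) := by
      apply Set.Finite.subset (Set.finite_Iic N)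
      rintro _ ⟨t, _, rfl⟩
      have := Submodule.finrank_le (W t)
      simpa using this
    obtain ⟨x, ⟨t, ht, rfl⟩, hx⟩ := Set.exists_max_image _ id h1 ⟨_, ⟨0, D.h0, rfl⟩⟩
    exact ⟨t, ht, fun s hs => hx _ ⟨s, hs, rfl⟩⟩
  refine ⟨t, ht, ?_⟩
  obtain ⟨d, hWd, f, hf1, hf3⟩ : ∃ d : ℕ, Module.finrank ℂ (W t) = d ∧
      ∃ f : Fin d → Fin N → ℂ, (∀ i, f i ∈ (Set.range
      (fun p : List (Fin m) × (Fin N ⊕ Fin N) => D.rw' p.1 p.2 t))) ∧ LinearIndependent ℂ f := by
    obtain ⟨f, hf1, hf2, hf3⟩ := Submodule.exists_fun_fin_finrank_span_eq ℂ (Set.range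
      (fun p : List (Fin m) × (Fin N ⊕ Fin N) => D.rw' p.1 p.2 t))
    exact ⟨_, rfl, f, hf1, hf3⟩
  choose p hp using hf1
  -- the left inverse
  obtain ⟨g, hg⟩ := LinearMap.exists_leftInverse_of_injective (Fintype.linearCombination ℂ f)
    (by rw [LinearMap.ker_eq_bot]; exact hf3.fintypeLinearCombination_injective)
  set C : Fin N → Fin d → ℂ := fun j b => g (Pi.single j 1) b with hC
  have hgC : ∀ v : Fin N → ℂ, ∀ b, g v b = ∑ j, v j * C j b := by
    intro v b
    have h1 : v = ∑ j, v j • (Pi.single j 1 : Fin N → ℂ) := pi_eq_sum_univ' v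
    conv_lhs => rw [h1]
    rw [map_sum, Finset.sum_apply]
    apply Finset.sum_congr rfl
    intro j _
    rw [map_smul]; rfl
  set P : (Fin m → ℝ) → Matrix (Fin d) (Fin d) ℂ := fun s =>
    Matrix.of (fun a b => ∑ j, D.rw' (p a).1 (p a).2 s j * C j b) with hP
  have hPt : P t = 1 := by
    ext a b
    have h1 : P t a b = g (f a) b := by
      rw [hgC]
      simp only [hP, Matrix.of_apply]
      have := hp a
      simp only at this
      rw [this]
    rw [h1]
    have h2 := congrArg (fun A : (Fin d → ℂ) →ₗ[ℂ] (Fin d → ℂ) => A (Pi.single a 1) b) hg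
    simp only [LinearMap.comp_apply, LinearMap.id_apply, Fintype.linearCombination_apply_single,
      one_smul] at h2
    rw [h2, Matrix.one_apply]
    by_cases hab : a = b
    · subst hab; simp
    · rw [Pi.single_eq_of_ne (Ne.symm hab), if_neg hab]
  have P_an : ∀ s ∈ D.U, ∀ a b, AnalyticAt ℝ (fun x => P x a b) s := by
    intro s hs a b
    have h1 : ∀ j ∈ (Finset.univ : Finset (Fin N)),
        AnalyticAt ℝ (fun x => D.rw' (p a).1 (p a).2 x j * C j b) s := fun j _ =>
      (D.rw'_an (p a).1 (p a).2 hs j).mul analyticAt_const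
    exact an_sum Finset.univ h1
  have hdet : ∀ᶠ s in 𝓝 t, (P s).det ≠ 0 := by
    have h1 : ContinuousAt (fun s => (P s).det) t := (an_det (P_an t ht)).continuousAt
    have h2 : (P t).det ≠ 0 := by rw [hPt, Matrix.det_one]; exact one_ne_zero
    exact h1.eventually_ne h2
  -- near t, all rows are combinations of the chosen ones
  have hrows : ∀ᶠ s in 𝓝 t, ∀ X : Fin N → ℂ, (∀ a, ∑ j, D.rw' (p a).1 (p a).2 s j * X j = 0) →
      ∀ w b, ∑ j, D.rw' w b s j * X j = 0 := by
    filter_upwards [hdet, D.eventually_U ht] with s hs hsU X hX w b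
    have hli : LinearIndependent ℂ (fun a => D.rw' (p a).1 (p a).2 s) := by
      rw [Fintype.linearIndependent_iff]
      intro c hc
      have h1 : Matrix.vecMul c (P s) = 0 := by
        funext b
        simp only [Matrix.vecMul, dotProduct, hP, Matrix.of_apply, Pi.zero_apply]
        have h2 : ∀ j, ∑ a, c a * D.rw' (p a).1 (p a).2 s j = 0 := by
          intro j
          have := congrFun hc j
          rwa [Finset.sum_apply] at this
        have h3 : ∑ a, c a * ∑ j, D.rw' (p a).1 (p a).2 s j * C j b =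
            ∑ j, (∑ a, c a * D.rw' (p a).1 (p a).2 s j) * C j b := by
          simp only [Finset.mul_sum, Finset.sum_mul]
          rw [Finset.sum_comm]
          apply Finset.sum_congr rfl; intro j _
          apply Finset.sum_congr rfl; intro a _
          ring
        rw [h3]
        simp only [h2, zero_mul, Finset.sum_const_zero]
      have h4 : c = 0 := by
        have h5 : IsUnit (P s) := (Matrix.isUnit_iff_isUnit_det _).mpr (isUnit_iff_ne_zero.mpr hs)
        have h6 := Matrix.vecMul_injective_of_isUnit h5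
        apply h6
        change Matrix.vecMul c (P s) = Matrix.vecMul 0 (P s)
        rw [h1, Matrix.zero_vecMul]
      intro i
      rw [h4]; rfl
    have h1 : Submodule.span ℂ (Set.range (fun a => D.rw' (p a).1 (p a).2 s)) = W s := by
      apply Submodule.eq_of_le_of_finrank_le
      · apply Submodule.span_mono
        rintro _ ⟨a, rfl⟩
        exact ⟨p a, rfl⟩
      · rw [finrank_span_eq_card hli, Fintype.card_fin]
        rw [← hWd]; exact hmax s hsU
    have h2 : D.rw' w b s ∈ Submodule.span ℂ (Set.range (fun a => D.rw' (p a).1 (p a).2 s)) := by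
      rw [h1]
      exact Submodule.subset_span ⟨(w, b), rfl⟩
    rw [Submodule.mem_span_range_iff_exists_fun] at h2
    obtain ⟨c, hc⟩ := h2
    rw [← hc]
    have h3 : ∀ j, (∑ a, c a • D.rw' (p a).1 (p a).2 s) j * X j =
        ∑ a, c a * (D.rw' (p a).1 (p a).2 s j * X j) := by
      intro j
      rw [Finset.sum_apply, Finset.sum_mul]
      apply Finset.sum_congr rfl; intro a _
      rw [Pi.smul_apply, smul_eq_mul]; ring
    simp only [h3]
    rw [Finset.sum_comm]
    apply Finset.sum_eq_zero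
    intro a _
    rw [← Finset.mul_sum, hX a, mul_zero]
  -- the vector fields
  have main : ∀ v : Fin N → ℂ, ∃ q : Fin d → ℂ, ∀ j, v j = ∑ b, C j b * q b := by
    intro v
    set q : Fin d → (Fin m → ℝ) → ℂ := fun b s =>
      ∑ a, (P s)⁻¹ b a * ∑ j, D.rw' (p a).1 (p a).2 s j * v j with hq
    have q_an : ∀ᶠ s in 𝓝 t, ∀ b, AnalyticAt ℝ (q b) s := by
      filter_upwards [hdet, D.eventually_U ht] with s hs hsU b
      apply an_sum
      intro a _
      exact (an_inv (P_an s hsU) hs b a).mul
        (an_sum _ (fun j _ => (D.rw'_an _ _ hsU j).mul analyticAt_const))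
    set X : Fin N → (Fin m → ℝ) → ℂ := fun j s => v j - ∑ b, C j b * q b s with hX
    have X_an : ∀ᶠ s in 𝓝 t, ∀ j, AnalyticAt ℝ (X j) s := by
      filter_upwards [q_an] with s hs j
      exact analyticAt_const.sub (an_sum _ (fun b _ => analyticAt_const.mul (hs b)))
    -- A X = 0
    have hAX : ∀ᶠ s in 𝓝 t, ∀ a, ∑ j, D.rw' (p a).1 (p a).2 s j * X j s = 0 := by
      filter_upwards [hdet] with s hs a
      have h1 : ∑ j, D.rw' (p a).1 (p a).2 s j * X j s =
          ∑ j, D.rw' (p a).1 (p a).2 s j * v j - ∑ b, P s a b * q b s := by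
        simp only [hX, mul_sub, Finset.sum_sub_distrib]
        congr 1
        simp only [hP, Matrix.of_apply, Finset.mul_sum, Finset.sum_mul]
        rw [Finset.sum_comm]
        apply Finset.sum_congr rfl; intro b _
        apply Finset.sum_congr rfl; intro j _
        ring
      rw [h1]
      have h2 : ∑ b, P s a b * q b s = ∑ j, D.rw' (p a).1 (p a).2 s j * v j := by
        have h3 : ∀ b, P s a b * q b s =
          ∑ a', P s a b * (P s)⁻¹ b a' * ∑ j, D.rw' (p a').1 (p a').2 s j * v j := by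
          intro b
          have h7 : q b s = ∑ a', (P s)⁻¹ b a' * ∑ j, D.rw' (p a').1 (p a').2 s j * v j := rfl
          rw [h7, Finset.mul_sum]
          apply Finset.sum_congr rfl; intro a' _; ring
        simp only [h3]
        rw [Finset.sum_comm]
        have h4 : ∀ a', ∑ b, P s a b * (P s)⁻¹ b a' * ∑ j, D.rw' (p a').1 (p a').2 s j * v j =
            (if a = a' then 1 else 0) * ∑ j, D.rw' (p a').1 (p a').2 s j * v j := by
          intro a'
          rw [← Finset.sum_mul]
          congr 1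
          have h5 : P s * (P s)⁻¹ = 1 := Matrix.mul_nonsing_inv _ (isUnit_iff_ne_zero.mpr hs)
          have h6 := congrFun (congrFun h5 a) a'
          rw [Matrix.mul_apply, Matrix.one_apply] at h6
          exact h6
        simp only [h4, ite_mul, one_mul, zero_mul, Finset.sum_ite_eq, Finset.mem_univ, if_true]
      rw [h2, sub_self]
    have hallX : ∀ᶠ s in 𝓝 t, ∀ w b, ∑ j, D.rw' w b s j * X j s = 0 := by
      filter_upwards [hAX, hrows] with s h1 h2 w b
      exact h2 _ h1 w b
    -- X is CR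
    have hLX : ∀ k, ∀ᶠ s in 𝓝 t, ∀ j, ap (D.Lk k) (X j) s = 0 := by
      intro k
      filter_upwards [eventually_eventually_nhds.mpr hAX, hallX, X_an, q_an, hdet,
        D.eventually_U ht] with s h1 h2 h3 h4 h5 hsU
      have e0 : ∀ j, ap (D.Lk k) (X j) s = - ∑ b, C j b * ap (D.Lk k) (q b) s := by
        intro j
        have e1 : X j = (fun _ => v j) + ∑ b, (fun _ => - C j b) * q b := by
          funext s'
          simp only [hX, Pi.add_apply, Finset.sum_apply, Pi.mul_apply, neg_mul,
            Finset.sum_neg_distrib]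
          ring
        rw [e1, ap_add_fun analyticAt_const (Finset.analyticAt_sum _
          (fun b _ => analyticAt_const.mul (h4 b))), ap_const, zero_add,
          ap_sum_fun _ (fun b _ => analyticAt_const.mul (h4 b)), ← Finset.sum_neg_distrib]
        apply Finset.sum_congr rfl
        intro b _
        rw [ap_mul_fun analyticAt_const (h4 b), ap_const]
        ring
      have e2 : ∀ a, ∑ j, D.rw' (p a).1 (p a).2 s j * ap (D.Lk k) (X j) s = 0 := by
        intro a
        have e3 : (∑ j, (fun s => D.rw' (p a).1 (p a).2 s j) * X j) =ᶠ[𝓝 s] fun _ => (0 : ℂ) := by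
          filter_upwards [h1] with s' hs'
          rw [Finset.sum_apply]
          exact hs' a
        have e4 := (ap_congr (EventuallyEq.refl _ (D.Lk k)) e3).eq_of_nhds
        rw [ap_const, ap_sum_fun _ (fun j _ => (D.rw'_an _ _ hsU j).mul (h3 j))] at e4
        have e5 : ∀ j, ap (D.Lk k) ((fun s => D.rw' (p a).1 (p a).2 s j) * X j) s =
            D.rw' (k :: (p a).1) (p a).2 s j * X j s +
            D.rw' (p a).1 (p a).2 s j * ap (D.Lk k) (X j) s := fun j =>
          ap_mul_fun (D.rw'_an _ _ hsU j) (h3 j)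
        simp only [e5, Finset.sum_add_distrib] at e4
        rw [h2 (k :: (p a).1) (p a).2, zero_add] at e4
        exact e4
      have e6 : Matrix.mulVec (P s) (fun b => ap (D.Lk k) (q b) s) = 0 := by
        funext a
        simp only [Matrix.mulVec, dotProduct, hP, Matrix.of_apply, Pi.zero_apply]
        have e7 := e2 a
        simp only [e0] at e7
        have e8 : ∑ b, (∑ j, D.rw' (p a).1 (p a).2 s j * C j b) * ap (D.Lk k) (q b) s =
            - ∑ j, D.rw' (p a).1 (p a).2 s j * (- ∑ b, C j b * ap (D.Lk k) (q b) s) := by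
          simp only [mul_neg, Finset.sum_neg_distrib, neg_neg, Finset.mul_sum, Finset.sum_mul]
          rw [Finset.sum_comm]
          apply Finset.sum_congr rfl; intro j _
          apply Finset.sum_congr rfl; intro b _
          ring
        rw [e8, e7, neg_zero]
      have e9 : (fun b => ap (D.Lk k) (q b) s) = 0 := by
        have h5' : IsUnit (P s) := (Matrix.isUnit_iff_isUnit_det _).mpr (isUnit_iff_ne_zero.mpr h5)
        have h6 := Matrix.mulVec_injective_of_isUnit h5'
        apply h6
        change Matrix.mulVec (P s) _ = Matrix.mulVec (P s) 0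
        rw [e6, Matrix.mulVec_zero]
      intro j
      rw [e0 j]
      have e10 : ∀ b, ap (D.Lk k) (q b) s = 0 := fun b => congrFun e9 b
      simp [e10]
    -- holomorphic extension
    have hext : ∀ j, ∃ F : (Fin N → ℂ) → ℂ, AnalyticAt ℂ F (D.ψ t) ∧
        ∀ᶠ s in 𝓝 t, F (D.ψ s) = X j s := by
      intro j
      apply D.extend ht (X_an.self_of_nhds j)
      intro k
      filter_upwards [hLX k] with s hs
      exact hs j
    choose F F_an F_eq using hext
    have FF_an : AnalyticAt ℂ (fun z j => F j z) (D.ψ t) := AnalyticAt.pi F_an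
    have hF : ∀ᶠ s in 𝓝 t, ∀ j, F j (D.ψ s) = X j s := by
      rw [eventually_all]; exact F_eq
    have htan : ∀ᶠ z in 𝓝[M] (D.ψ t), (fun j => F j z) ∈ ComplexTangent M z := by
      rw [eventually_nhdsWithin_iff]
      filter_upwards [D.eventually_param ht (hF.and hallX)] with z hz hzM
      obtain ⟨s, hsU, ⟨hs1, hs2⟩, rfl, -⟩ := hz hzM
      apply D.complexTangent_of_Th hsU
      intro a
      have := hs2 [] a
      simp only [hs1]
      exact this
    have h0 := hnd (D.ψ t) (D.ψM t ht) (fun z j => F j z) FF_an htan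
    refine ⟨fun b => q b t, fun j => ?_⟩
    have h1 := congrFun h0.self_of_nhds j
    simp only [Pi.zero_apply] at h1
    rw [hF.self_of_nhds j] at h1
    exact sub_eq_zero.mp h1
  -- conclusion: d ≥ N
  have hsurj : Function.Surjective (Matrix.mulVecLin (Matrix.of C : Matrix (Fin N) (Fin d) ℂ)) := by
    intro v
    obtain ⟨q, hq⟩ := main v
    refine ⟨q, ?_⟩
    funext j
    rw [hq j]
    simp [Matrix.mulVec, dotProduct]
  have hle : N ≤ d := by
    have := LinearMap.finrank_le_finrank_of_surjective hsurj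
    simpa using this
  apply Submodule.eq_top_of_finrank_eq
  apply le_antisymm
  · exact Submodule.finrank_le _
  · rw [Module.finrank_fin_fun]
    exact le_of_le_of_eq hle hWd.symm

end Loc

end Pool.Agent.Lib51bf1a
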