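import Mathlib
import Pool.Agent.Lib_51bf1a.D1_Nondeg

/-!
Transfer of the geometric hypotheses to the field of fractions of the formal power series.
-/

namespace Pool.Agent.Lib51bf1a

open Topology Filter Pool.Agent.MP_51bf1a_an MvPowerSeries

variable {N m : ℕ}

/-- Taylor series of a function, in the fraction field. -/
noncomputable def hf (f : (Fin m → ℝ) → ℂ) : KK m := algebraMap (PS m) (KK m) (TT f)

/-- Taylor series of a vector field. -/
noncomputable def hat {n : ℕ} (a : (Fin m → ℝ) → Fin n → ℂ) : Fin n → KK m :=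
  fun i => hf (fun s => a s i)

theorem hf_congr {f g : (Fin m → ℝ) → ℂ} (h : f =ᶠ[𝓝 0] g) : hf f = hf g := by
  unfold hf; rw [TT_congr h]

theorem hf_zero : hf (fun _ : Fin m → ℝ => (0 : ℂ)) = 0 := by
  unfold hf
  have : TT (fun _ : Fin m → ℝ => (0 : ℂ)) = 0 := TT_zero
  rw [this, map_zero]

theorem hf_one : hf (fun _ : Fin m → ℝ => (1 : ℂ)) = 1 := by
  unfold hf
  rw [TT_const, map_one, map_one]

theorem hf_add {f g : (Fin m → ℝ) → ℂ} (hf' : AnalyticAt ℝ f 0) (hg : AnalyticAt ℝ g 0) :
    hf (fun s => f s + g s) = hf f + hf g := by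
  have h : (fun s => f s + g s) = f + g := rfl
  unfold hf
  rw [h, TT_add hf' hg, map_add]

theorem hf_sub {f g : (Fin m → ℝ) → ℂ} (hf' : AnalyticAt ℝ f 0) (hg : AnalyticAt ℝ g 0) :
    hf (fun s => f s - g s) = hf f - hf g := by
  have h : (fun s => f s - g s) = f - g := rfl
  unfold hf
  rw [h, TT_sub hf' hg, map_sub]

theorem hf_mul {f g : (Fin m → ℝ) → ℂ} (hf' : AnalyticAt ℝ f 0) (hg : AnalyticAt ℝ g 0) :
    hf (fun s => f s * g s) = hf f * hf g := by
  have h : (fun s => f s * g s) = f * g := rfl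
  unfold hf
  rw [h, TT_mul hf' hg, map_mul]

theorem hf_sum {J : Type*} (s : Finset J) {f : J → (Fin m → ℝ) → ℂ}
    (h : ∀ j ∈ s, AnalyticAt ℝ (f j) 0) : hf (fun x => ∑ j ∈ s, f j x) = ∑ j ∈ s, hf (f j) := by
  have h1 : (fun x => ∑ j ∈ s, f j x) = ∑ j ∈ s, f j := by
    funext x; rw [Finset.sum_apply]
  unfold hf
  rw [h1, TT_sum s f h, map_sum]

theorem hf_prod {J : Type*} (s : Finset J) {f : J → (Fin m → ℝ) → ℂ}
    (h : ∀ j ∈ s, AnalyticAt ℝ (f j) 0) : hf (fun x => ∏ j ∈ s, f j x) = ∏ j ∈ s, hf (f j) := by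
  have h1 : (fun x => ∏ j ∈ s, f j x) = ∏ j ∈ s, f j := by
    funext x; rw [Finset.prod_apply]
  unfold hf
  rw [h1, TT_prod s f h, map_prod]

theorem hf_int (n : ℤ) : hf (fun _ : Fin m → ℝ => (n : ℂ)) = n := by
  unfold hf
  rw [TT_const, map_intCast, map_intCast]

theorem hf_dA {f : (Fin m → ℝ) → ℂ} (h : AnalyticAt ℝ f 0) (i : Fin m) :
    hf (dA i f) = pdK i (hf f) := by
  unfold hf
  rw [pdK_algebraMap, pderiv_TT i h]

theorem hf_ap {a : (Fin m → ℝ) → Fin m → ℂ} {f : (Fin m → ℝ) → ℂ} (ha : VAn a 0)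
    (h : AnalyticAt ℝ f 0) : hf (ap a f) = DD (hat a) (hf f) := by
  rw [DD_apply]
  unfold ap
  rw [hf_sum _ (f := fun i s => a s i * dA i f s) (fun i _ => (ha i).mul (dA_analytic i h))]
  apply Finset.sum_congr rfl
  intro i _
  rw [hf_mul (ha i) (dA_analytic i h), hf_dA h]
  rfl

theorem hat_bA {a b : (Fin m → ℝ) → Fin m → ℂ} (ha : VAn a 0) (hb : VAn b 0) :
    hat (bA a b) = br (hat a) (hat b) := by
  funext j
  change hf (fun s => ap a (fun s => b s j) s - ap b (fun s => a s j) s) = _
  rw [hf_sub (ap_analytic ha (hb j)) (ap_analytic hb (ha j))]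
  unfold br
  congr 1
  · exact hf_ap ha (hb j)
  · exact hf_ap hb (ha j)

theorem hat_BRl {ι : Type*} {g : ι → (Fin m → ℝ) → Fin m → ℂ} (hg : ∀ i, VAn (g i) 0)
    (l : List ι) : hat (BRl g l) = bcm (fun i => hat (g i)) l := by
  induction l with
  | nil => funext j; exact hf_zero
  | cons i l ih =>
    cases l with
    | nil => rfl
    | cons j l =>
      change hat (bA (g i) (BRl g (j :: l))) = br (hat (g i)) (bcm (fun i => hat (g i)) (j :: l))
      rw [hat_bA (hg i) (BRl_an hg _), ih]

theorem hf_det {n : ℕ} {P : Fin n → Fin n → (Fin m → ℝ) → ℂ} (h : ∀ a b, AnalyticAt ℝ (P a b) 0) :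
    hf (fun s => (Matrix.of (fun a b => P a b s)).det) =
      (Matrix.of (fun a b => hf (P a b))).det := by
  simp only [Matrix.det_apply', Matrix.of_apply]
  rw [hf_sum _ (f := fun σ s => ((Equiv.Perm.sign σ : ℤ) : ℂ) * ∏ i, P (σ i) i s)
    (fun σ _ => analyticAt_const.mul (an_prod _ (fun i _ => h _ _)))]
  apply Finset.sum_congr rfl
  intro σ _
  rw [hf_mul analyticAt_const (an_prod _ (fun i _ => h _ _)), hf_int,
    hf_prod _ (fun i _ => h _ _)]

theorem hf_ne_zero {U : Set (Fin m → ℝ)} (hU : IsPreconnected U) (h0 : (0 : Fin m → ℝ) ∈ U)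
    {f : (Fin m → ℝ) → ℂ} (h : ∀ t ∈ U, AnalyticAt ℝ f t) {t : Fin m → ℝ} (ht : t ∈ U)
    (hne : f t ≠ 0) : hf f ≠ 0 := by
  intro h1
  unfold hf at h1
  have h2 : TT f = 0 := by
    apply FaithfulSMul.algebraMap_injective (PS m) (KK m)
    rw [h1, map_zero]
  have h3 := TT_eq_zero (h 0 h0) h2
  have h4 : AnalyticOnNhd ℝ f U := h
  exact hne (h4.eqOn_zero_of_preconnected_of_eventuallyEq_zero hU h0 h3 ht)

/-- transfer of the spanning property. -/
theorem transfer {I : Type*} {n : ℕ} (r : I → (Fin m → ℝ) → Fin n → ℂ) {U : Set (Fin m → ℝ)}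
    (hU : IsPreconnected U) (h0 : (0 : Fin m → ℝ) ∈ U)
    (han : ∀ i, ∀ t ∈ U, ∀ j, AnalyticAt ℝ (fun s => r i s j) t) {t : Fin m → ℝ} (ht : t ∈ U)
    (hspan : Submodule.span ℂ (Set.range (fun i => r i t)) = ⊤) :
    Submodule.span (KK m) (Set.range (fun i => hat (r i))) = ⊤ := by
  classical
  obtain ⟨f, hf1, hf3⟩ : ∃ f : Fin n → Fin n → ℂ, (∀ i, f i ∈ (Set.range (fun i => r i t))) ∧
      LinearIndependent ℂ f := by
    obtain ⟨d, hWd, f, hf1, hf3⟩ : ∃ d : ℕ,
      Module.finrank ℂ (Submodule.span ℂ (Set.range (fun i => r i t))) = d ∧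
      ∃ f : Fin d → Fin n → ℂ, (∀ i, f i ∈ (Set.range (fun i => r i t))) ∧
        LinearIndependent ℂ f := by
      obtain ⟨f, hf1, hf2, hf3⟩ := Submodule.exists_fun_fin_finrank_span_eq ℂ
        (Set.range (fun i => r i t))
      exact ⟨_, rfl, f, hf1, hf3⟩
    have hd : d = n := by
      rw [← hWd, hspan, finrank_top, Module.finrank_fin_fun]
    subst hd
    exact ⟨f, hf1, hf3⟩
  choose p hp using hf1
  have hdet : (Matrix.of (fun a b => r (p a) t b)).det ≠ 0 := by
    have h1 : LinearIndependent ℂ (Matrix.of (fun a b => r (p a) t b)).row := by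
      have : (Matrix.of (fun a b => r (p a) t b)).row = f := by
        funext a
        exact hp a
      rw [this]; exact hf3
    rw [Matrix.linearIndependent_rows_iff_isUnit, Matrix.isUnit_iff_isUnit_det] at h1
    exact h1.ne_zero
  have hK : (Matrix.of (fun a b => hf (fun s => r (p a) s b))).det ≠ 0 := by
    rw [← hf_det (P := fun a b s => r (p a) s b) (fun a b => han (p a) 0 h0 b)]
    apply hf_ne_zero hU h0 _ ht hdet
    intro t' ht'
    apply an_det
    intro a b
    exact han (p a) t' ht' b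
  have hKli : LinearIndependent (KK m) (Matrix.of (fun a b => hf (fun s => r (p a) s b))).row := by
    rw [Matrix.linearIndependent_rows_iff_isUnit, Matrix.isUnit_iff_isUnit_det]
    exact isUnit_iff_ne_zero.mpr hK
  have hsp := hKli.span_eq_top_of_card_eq_finrank' (by rw [Module.finrank_fin_fun, Fintype.card_fin])
  rw [eq_top_iff, ← hsp]
  apply Submodule.span_mono
  rintro _ ⟨a, rfl⟩
  exact ⟨p a, rfl⟩

namespace Loc

variable {M : Set (Fin N → ℂ)} (D : Loc N m M)

/-- the parametrisation, formally. -/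
noncomputable def psi : Fin N → KK m := fun j => hf (D.pc j)

/-- its conjugate. -/
noncomputable def phi : Fin N → KK m := fun j => hf (fun s => (starRingEnd ℂ) (D.pc j s))

theorem hat_Lk_mem (k : Fin m) : hat (D.Lk k) ∈ kerS D.psi := by
  intro j
  unfold psi
  rw [← hf_ap (D.Lk_an k D.h0) (D.pc_an D.h0 j), ← hf_zero]
  apply hf_congr
  filter_upwards [D.eventually_U D.h0] with s hs
  exact D.ap_Lk k j hs

theorem hat_gen_mem (a : Fin m ⊕ Fin m) : hat (D.gen a) ∈ kerS D.psi ∨ hat (D.gen a) ∈ kerS D.phi := by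
  rcases a with k | k
  · exact Or.inl (D.hat_Lk_mem k)
  · right
    intro j
    unfold phi
    rw [← hf_ap (D.gen_an (Sum.inr k) D.h0) (analyticAt_conj (D.pc_an D.h0 j)), ← hf_zero]
    apply hf_congr
    filter_upwards [D.eventually_U D.h0] with s hs
    have h1 := congrArg (starRingEnd ℂ) (D.ap_Lk k j hs)
    rw [map_zero] at h1
    rw [← h1]
    unfold ap
    rw [map_sum]
    apply Finset.sum_congr rfl
    intro i _
    rw [map_mul, dA_conj i (D.pc_an hs j).differentiableAt]
    rfl

theorem bg_K {t : Fin m → ℝ} (ht : t ∈ D.U) (hft : FiniteTypeAt M (D.ψ t)) :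
    Submodule.span (KK m) (Set.range (bcm (fun a => hat (D.gen a)))) = ⊤ := by
  have h1 := transfer (fun l : List (Fin m ⊕ Fin m) => BRl D.gen l) D.hUc D.h0
    (fun l t ht j => BRl_an (fun a => D.gen_an a ht) l j) ht (D.span_of_finiteType ht hft)
  have h2 : (fun l : List (Fin m ⊕ Fin m) => hat (BRl D.gen l)) =
      bcm (fun a => hat (D.gen a)) := by
    funext l
    exact hat_BRl (fun a => D.gen_an a D.h0) l
  rw [h2] at h1
  exact h1

theorem nd_K (hnd : HolomorphicallyNondegenerate M) :
    ∀ y ∈ kerS D.phi, (∀ l ∈ kerS D.psi, br l y ∈ kerS D.psi) → y = 0 := by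
  intro y hy hyl
  obtain ⟨t, ht, hspan⟩ := D.exists_full_rank hnd
  have hK := transfer (fun p : List (Fin m) × (Fin N ⊕ Fin N) => D.rw' p.1 p.2) D.hUc D.h0
    (fun p t ht j => D.rw'_an p.1 p.2 ht j) ht hspan
  have h0 := D.h0
  set g : Fin N → KK m := fun j => DD y (D.psi j) with hg
  have hLg : ∀ k j, DD (hat (D.Lk k)) (g j) = 0 := by
    intro k j
    have h1 := hyl _ (D.hat_Lk_mem k) j
    rw [DD_br, Derivation.commutator_apply, D.hat_Lk_mem k j, map_zero, sub_zero] at h1
    exact h1
  have hgB : ∀ j, g j = ∑ l, y l * hf (dA l (D.pc j)) := by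
    intro j
    rw [hg]
    change DD y (D.psi j) = _
    rw [DD_apply]
    apply Finset.sum_congr rfl
    intro l _
    rw [hf_dA (D.pc_an h0 j)]
    rfl
  have hhB : ∀ j, ∑ l, y l * hf (fun s => (starRingEnd ℂ) (dA l (D.pc j) s)) = 0 := by
    intro j
    have h1 := hy j
    rw [DD_apply] at h1
    rw [← h1]
    apply Finset.sum_congr rfl
    intro l _
    congr 1
    unfold phi
    rw [← hf_dA (analyticAt_conj (D.pc_an h0 j))]
    apply hf_congr
    filter_upwards [(D.pc_an h0 j).eventually_analyticAt] with s hs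
    exact (dA_conj l hs.differentiableAt).symm
  have hSy : ∀ k, ∑ j, hf (D.Sc k j) * g j = y k := by
    intro k
    have h1 : ∀ l, ∑ j, hf (D.Sc k j) * hf (dA l (D.pc j)) +
        ∑ j, hf (fun s => (starRingEnd ℂ) (D.Sc k j s)) *
          hf (fun s => (starRingEnd ℂ) (dA l (D.pc j) s)) = if k = l then 1 else 0 := by
      intro l
      have h2 : hf (fun s => ∑ j, D.Sc k j s * dA l (D.pc j) s +
          ∑ j, (starRingEnd ℂ) (D.Sc k j s) * (starRingEnd ℂ) (dA l (D.pc j) s)) =
          hf (fun _ => if k = l then 1 else 0) := by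
        apply hf_congr
        filter_upwards [D.eventually_U h0] with s hs
        exact D.Sc_id hs k l
      have a1 : ∀ j, AnalyticAt ℝ (fun s => D.Sc k j s * dA l (D.pc j) s) 0 := fun j =>
        (D.Sc_an h0 k j).mul (dA_analytic l (D.pc_an h0 j))
      have a2 : ∀ j, AnalyticAt ℝ (fun s => (starRingEnd ℂ) (D.Sc k j s) *
          (starRingEnd ℂ) (dA l (D.pc j) s)) 0 := fun j =>
        (analyticAt_conj (D.Sc_an h0 k j)).mul (analyticAt_conj (dA_analytic l (D.pc_an h0 j)))
      rw [hf_add (an_sum _ (fun j _ => a1 j)) (an_sum _ (fun j _ => a2 j)),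
        hf_sum _ (fun j _ => a1 j), hf_sum _ (fun j _ => a2 j)] at h2
      have h3 : ∀ j, hf (fun s => D.Sc k j s * dA l (D.pc j) s) =
          hf (D.Sc k j) * hf (dA l (D.pc j)) := fun j =>
        hf_mul (D.Sc_an h0 k j) (dA_analytic l (D.pc_an h0 j))
      have h4 : ∀ j, hf (fun s => (starRingEnd ℂ) (D.Sc k j s) *
          (starRingEnd ℂ) (dA l (D.pc j) s)) = hf (fun s => (starRingEnd ℂ) (D.Sc k j s)) *
          hf (fun s => (starRingEnd ℂ) (dA l (D.pc j) s)) := fun j =>
        hf_mul (analyticAt_conj (D.Sc_an h0 k j)) (analyticAt_conj (dA_analytic l (D.pc_an h0 j)))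
      simp only [h3, h4] at h2
      rw [h2]
      by_cases hkl : k = l
      · rw [if_pos hkl]
        simp only [hkl, if_true]
        exact hf_one
      · simp only [if_neg hkl]
        exact hf_zero
    have h5 : ∑ j, hf (D.Sc k j) * g j = ∑ l, y l * (∑ j, hf (D.Sc k j) * hf (dA l (D.pc j)) +
        ∑ j, hf (fun s => (starRingEnd ℂ) (D.Sc k j s)) *
          hf (fun s => (starRingEnd ℂ) (dA l (D.pc j) s))) := by
      simp only [mul_add, Finset.sum_add_distrib, Finset.mul_sum]
      have h6 : ∑ l, ∑ j, y l * (hf (fun s => (starRingEnd ℂ) (D.Sc k j s)) *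
          hf (fun s => (starRingEnd ℂ) (dA l (D.pc j) s))) = 0 := by
        rw [Finset.sum_comm]
        apply Finset.sum_eq_zero
        intro j _
        have h7 : ∑ l, y l * (hf (fun s => (starRingEnd ℂ) (D.Sc k j s)) *
          hf (fun s => (starRingEnd ℂ) (dA l (D.pc j) s))) =
          hf (fun s => (starRingEnd ℂ) (D.Sc k j s)) *
            ∑ l, y l * hf (fun s => (starRingEnd ℂ) (dA l (D.pc j) s)) := by
          rw [Finset.mul_sum]
          apply Finset.sum_congr rfl; intro l _; ring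
        rw [h7, hhB j, mul_zero]
      rw [h6, add_zero, Finset.sum_comm]
      apply Finset.sum_congr rfl; intro j _
      rw [hgB j, Finset.mul_sum]
      apply Finset.sum_congr rfl; intro l _
      ring
    rw [h5]
    simp only [h1, mul_ite, mul_one, mul_zero, Finset.sum_ite_eq, Finset.mem_univ, if_true]
  -- all rows annihilate g
  have hrow : ∀ w a, ∑ j, hat (D.rw' w a) j * g j = 0 := by
    intro w
    induction w with
    | nil =>
      intro a
      rcases a with i | i
      · have h1 : ∀ j, hat (D.rw' [] (Sum.inl i)) j = (if i = j then 1 else 0) -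
            ∑ k, hf (dA k (D.pc i)) * hf (D.Sc k j) := by
          intro j
          change hf (fun s => (if i = j then 1 else 0) - ∑ k, dA k (D.pc i) s * D.Sc k j s) = _
          have a1 : ∀ k, AnalyticAt ℝ (fun s => dA k (D.pc i) s * D.Sc k j s) 0 := fun k =>
            (dA_analytic k (D.pc_an h0 i)).mul (D.Sc_an h0 k j)
          rw [hf_sub analyticAt_const (an_sum _ (fun k _ => a1 k)), hf_sum _ (fun k _ => a1 k)]
          congr 1
          · by_cases hij : i = j
            · simp only [hij, if_true]; exact hf_one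
            · simp only [if_neg hij]; exact hf_zero
          · apply Finset.sum_congr rfl; intro k _
            exact hf_mul (dA_analytic k (D.pc_an h0 i)) (D.Sc_an h0 k j)
        simp only [h1, sub_mul, Finset.sum_sub_distrib, ite_mul, one_mul, zero_mul,
          Finset.sum_ite_eq, Finset.mem_univ, if_true, Finset.sum_mul]
        rw [Finset.sum_comm, sub_eq_zero, hgB i]
        apply Finset.sum_congr rfl; intro k _
        rw [← hSy k, Finset.sum_mul]
        apply Finset.sum_congr rfl; intro j _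
        ring
      · have h1 : ∀ j, hat (D.rw' [] (Sum.inr i)) j =
            ∑ k, hf (fun s => (starRingEnd ℂ) (dA k (D.pc i) s)) * hf (D.Sc k j) := by
          intro j
          change hf (fun s => ∑ k, (starRingEnd ℂ) (dA k (D.pc i) s) * D.Sc k j s) = _
          have a1 : ∀ k, AnalyticAt ℝ (fun s => (starRingEnd ℂ) (dA k (D.pc i) s) * D.Sc k j s) 0 :=
            fun k => (analyticAt_conj (dA_analytic k (D.pc_an h0 i))).mul (D.Sc_an h0 k j)
          rw [hf_sum _ (fun k _ => a1 k)]
          apply Finset.sum_congr rfl; intro k _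
          exact hf_mul (analyticAt_conj (dA_analytic k (D.pc_an h0 i))) (D.Sc_an h0 k j)
        simp only [h1, Finset.sum_mul]
        rw [Finset.sum_comm, ← hhB i]
        apply Finset.sum_congr rfl; intro k _
        rw [← hSy k, Finset.sum_mul]
        apply Finset.sum_congr rfl; intro j _
        ring
    | cons k w ih =>
      intro a
      have h1 := congrArg (DD (hat (D.Lk k))) (ih a)
      rw [map_zero, map_sum] at h1
      rw [← h1]
      apply Finset.sum_congr rfl
      intro j _
      rw [Derivation.leibniz, hLg k j, smul_zero, zero_add, smul_eq_mul, mul_comm]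
      congr 1
      exact hf_ap (D.Lk_an k h0) (D.rw'_an w a h0 j)
  have hg0 : g = 0 := by
    have h1 : ∀ v : Fin N → KK m, ∑ j, v j * g j = 0 := by
      intro v
      have hv : v ∈ Submodule.span (KK m) (Set.range (fun p : List (Fin m) × (Fin N ⊕ Fin N) =>
        hat (D.rw' p.1 p.2))) := by rw [hK]; trivial
      induction hv using Submodule.span_induction with
      | mem x hx => obtain ⟨p, rfl⟩ := hx; exact hrow p.1 p.2
      | zero => simp
      | add a b _ _ ha hb =>
        simp only [Pi.add_apply, add_mul, Finset.sum_add_distrib, ha, hb, add_zero]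
      | smul c a _ ha =>
        simp only [Pi.smul_apply, smul_eq_mul, mul_assoc, ← Finset.mul_sum, ha, mul_zero]
    funext j
    have h2 := h1 (Pi.single j 1)
    simpa [Pi.single_apply] using h2
  funext k
  rw [← hSy k, hg0]
  simp

end Loc

end Pool.Agent.Lib51bf1a
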