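import Mathlib
import Pool.Agent.Lib_51bf1a.D2_Transfer

/-!
The local theorem: self-maps of the parameter space.
-/

namespace Pool.Agent.Lib51bf1a

open Topology Filter Pool.Agent.MP_51bf1a_an MvPowerSeries

variable {N m : ℕ}

/-- chain rule for a holomorphic function composed with a vector of functions. -/
theorem dA_holo_comp {ψ : (Fin m → ℝ) → (Fin N → ℂ)} {g : (Fin N → ℂ) → ℂ} {s : Fin m → ℝ}
    (hψ : DifferentiableAt ℝ ψ s) (hg : DifferentiableAt ℂ g (ψ s)) (i : Fin m) :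
    dA i (fun s => g (ψ s)) s =
      ∑ q, fderiv ℂ g (ψ s) (Pi.single q 1) * dA i (fun s => ψ s q) s := by
  unfold dA
  have h1 : (fun s => g (ψ s)) = g ∘ ψ := rfl
  rw [h1, fderiv_comp s (hg.restrictScalars ℝ) hψ, ContinuousLinearMap.comp_apply]
  have h2 : fderiv ℝ g (ψ s) = (fderiv ℂ g (ψ s)).restrictScalars ℝ :=
    hg.fderiv_restrictScalars ℝ
  rw [h2]
  change fderiv ℂ g (ψ s) (fderiv ℝ ψ s (Pi.single i 1)) = _
  set v := fderiv ℝ ψ s (Pi.single i 1) with hv
  have h3 : v = ∑ q, v q • (Pi.single q 1 : Fin N → ℂ) := pi_eq_sum_univ' v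
  conv_lhs => rw [h3]
  rw [map_sum]
  apply Finset.sum_congr rfl
  intro q _
  rw [map_smul, smul_eq_mul, mul_comm]
  congr 1
  have h4 : (fun s => ψ s q) = (fun v : Fin N → ℂ => (ContinuousLinearMap.proj (R := ℝ)
    (φ := fun _ : Fin N => ℂ) q) v) ∘ ψ := rfl
  rw [h4, fderiv_comp s (ContinuousLinearMap.differentiableAt _) hψ, ContinuousLinearMap.fderiv]
  rfl

/-- the abstract symmetry condition. -/
theorem sym_aux {h : (Fin m → ℝ) → (Fin m → ℝ)} (hh : Tan h) (χ : Fin N → (Fin m → ℝ) → ℂ)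
    (hχ : ∀ j, AnalyticAt ℝ (χ j) 0)
    (hrel : ∀ (n : ℕ) (j : Fin N), ∃ c : Fin N → (Fin m → ℝ) → ℂ, (∀ q, AnalyticAt ℝ (c q) 0) ∧
      ∀ i, ∀ᶠ s in 𝓝 0, dA i (χ j ∘ h^[n]) s = ∑ q, c q s * dA i (χ q) s) :
    ∀ l ∈ kerS (fun j => hf (χ j)),
      br l (fun i => algebraMap (PS m) (KK m) (logT h (co i))) ∈ kerS (fun j => hf (χ j)) := by
  intro l hl j
  set x : Fin m → KK m := fun i => algebraMap (PS m) (KK m) (logT h (co i)) with hx
  have hxj : DD x (hf (χ j)) = algebraMap (PS m) (KK m) (logT h (χ j)) := by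
    rw [DD_apply, logT_chain hh (hχ j), map_sum]
    apply Finset.sum_congr rfl
    intro i _
    rw [map_mul, ← pdK_algebraMap]
    rfl
  rw [DD_br, Derivation.commutator_apply, hl j, map_zero, sub_zero, hxj]
  -- clear denominators
  obtain ⟨d, hd⟩ := IsLocalization.exist_integer_multiples (nonZeroDivisors (PS m))
    (Finset.univ : Finset (Fin m)) l
  have hd' : ∀ i, ∃ r : PS m, algebraMap (PS m) (KK m) r = algebraMap (PS m) (KK m) d * l i := by
    intro i
    obtain ⟨r, hr⟩ := hd i (Finset.mem_univ i)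
    refine ⟨r, ?_⟩
    rw [hr, Algebra.smul_def]
  choose r hr using hd'
  have hdne : algebraMap (PS m) (KK m) (d : PS m) ≠ 0 := by
    intro h0
    have h1 : (d : PS m) = 0 := by
      apply FaithfulSMul.algebraMap_injective (PS m) (KK m)
      rw [h0, map_zero]
    exact nonZeroDivisors.ne_zero d.2 h1
  have hker : ∀ q, ∑ i, r i * pderiv ℂ i (TT (χ q)) = 0 := by
    intro q
    apply FaithfulSMul.algebraMap_injective (PS m) (KK m)
    rw [map_zero, map_sum]
    have h1 := hl q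
    rw [DD_apply] at h1
    have h2 : ∑ i, algebraMap (PS m) (KK m) (r i * pderiv ℂ i (TT (χ q))) =
        algebraMap (PS m) (KK m) d * ∑ i, l i * pdK i (hf (χ q)) := by
      rw [Finset.mul_sum]
      apply Finset.sum_congr rfl
      intro i _
      rw [map_mul, hr i, mul_assoc]
      unfold hf
      rw [pdK_algebraMap]
    rw [h2, h1, mul_zero]
  have hrel' : ∀ n, ∑ i, r i * pderiv ℂ i (TT (χ j ∘ h^[n])) = 0 := by
    intro n
    obtain ⟨c, hc, hc2⟩ := hrel n j
    obtain ⟨hn, hn0⟩ := iterate_analytic hh n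
    have hχn : AnalyticAt ℝ (χ j ∘ h^[n]) 0 := by
      have : AnalyticAt ℝ (χ j) (h^[n] 0) := by rw [hn0]; exact hχ j
      exact this.comp hn
    have h1 : ∀ i, pderiv ℂ i (TT (χ j ∘ h^[n])) = ∑ q, TT (c q) * pderiv ℂ i (TT (χ q)) := by
      intro i
      rw [pderiv_TT i hχn]
      have h2 : dA i (χ j ∘ h^[n]) =ᶠ[𝓝 0] ∑ q, (c q) * dA i (χ q) := by
        filter_upwards [hc2 i] with s hs
        rw [hs, Finset.sum_apply]
        rfl
      rw [TT_congr h2, TT_sum _ _ (fun q _ => (hc q).mul (dA_analytic i (hχ q)))]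
      apply Finset.sum_congr rfl
      intro q _
      rw [TT_mul (hc q) (dA_analytic i (hχ q)), pderiv_TT i (hχ q)]
    simp only [h1, Finset.mul_sum]
    rw [Finset.sum_comm]
    apply Finset.sum_eq_zero
    intro q _
    have h3 : ∑ i, r i * (TT (c q) * pderiv ℂ i (TT (χ q))) =
        TT (c q) * ∑ i, r i * pderiv ℂ i (TT (χ q)) := by
      rw [Finset.mul_sum]
      apply Finset.sum_congr rfl
      intro i _; ring
    rw [h3, hker q, mul_zero]
  have hlog := logT_relation hh (hχ j) r hrel'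
  rw [DD_apply]
  have h4 : algebraMap (PS m) (KK m) d *
      ∑ i, l i * pdK i (algebraMap (PS m) (KK m) (logT h (χ j))) = 0 := by
    rw [Finset.mul_sum, ← map_zero (algebraMap (PS m) (KK m)), ← hlog, map_sum]
    apply Finset.sum_congr rfl
    intro i _
    rw [map_mul, hr i, pdK_algebraMap, mul_assoc]
  rcases mul_eq_zero.mp h4 with h5 | h5
  · exact absurd h5 hdne
  · exact h5

namespace Loc

variable {M : Set (Fin N → ℂ)} (D : Loc N m M)

/-- **The local theorem.** -/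
theorem local_main (hnd : HolomorphicallyNondegenerate M)
    (hbg : Submodule.span (KK m) (Set.range (bcm (fun a => hat (D.gen a)))) = ⊤) :
    ∃ k : ℕ, ∀ h : (Fin m → ℝ) → (Fin m → ℝ), AnalyticAt ℝ h 0 → h 0 = 0 →
      (∀ i, TT (co i ∘ h - co i) ∈ Ord k) →
      (∃ G : (Fin N → ℂ) → (Fin N → ℂ), AnalyticAt ℂ G (D.ψ 0) ∧ G (D.ψ 0) = D.ψ 0 ∧
        ∀ᶠ s in 𝓝 0, D.ψ (h s) = G (D.ψ s)) →
      ∀ᶠ s in 𝓝 0, h s = s := by
  obtain ⟨k₀, hk₀⟩ := algebraic_core D.psi D.phi (fun a => hat (D.gen a)) D.hat_gen_mem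
    hbg (D.nd_K hnd)
  refine ⟨max k₀ 2, fun h han h0 hord hG => ?_⟩
  obtain ⟨G, G_an, G0, hGψ⟩ := hG
  have hT : Tan h := ⟨han, h0, fun l => Ord_anti (le_max_right _ _) (hord l)⟩
  have hcont : ContinuousAt h 0 := han.continuousAt
  -- iterates
  have hiter : ∀ n : ℕ, ∃ Gn : (Fin N → ℂ) → (Fin N → ℂ), AnalyticAt ℂ Gn (D.ψ 0) ∧
      Gn (D.ψ 0) = D.ψ 0 ∧ ∀ᶠ s in 𝓝 0, D.ψ (h^[n] s) = Gn (D.ψ s) := by
    intro n
    induction n with
    | zero => exact ⟨id, analyticAt_id, rfl, Eventually.of_forall (fun s => rfl)⟩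
    | succ n ih =>
      obtain ⟨Gn, h1, h2, h3⟩ := ih
      refine ⟨Gn ∘ G, ?_, ?_, ?_⟩
      · have : AnalyticAt ℂ Gn (G (D.ψ 0)) := by rw [G0]; exact h1
        exact this.comp G_an
      · rw [Function.comp_apply, G0, h2]
      · have h4 : Tendsto h (𝓝 0) (𝓝 0) := by
          have := hcont.tendsto
          rwa [h0] at this
        filter_upwards [hGψ, h4.eventually h3] with s hs1 hs2
        rw [Function.iterate_succ_apply, hs2, hs1, Function.comp_apply]
  have hψ0 := D.ψ_an 0 D.h0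
  have hder : ∀ (n : ℕ) (j : Fin N), ∃ c : Fin N → (Fin m → ℝ) → ℂ, (∀ q, AnalyticAt ℝ (c q) 0) ∧
      ∀ i, ∀ᶠ s in 𝓝 0, dA i (D.pc j ∘ h^[n]) s = ∑ q, c q s * dA i (D.pc q) s := by
    intro n j
    obtain ⟨Gn, g1, g2, g3⟩ := hiter n
    have gj_an : AnalyticAt ℂ (fun z => Gn z j) (D.ψ 0) :=
      ((ContinuousLinearMap.proj (R := ℂ) (φ := fun _ : Fin N => ℂ) j).analyticAt _).comp g1
    refine ⟨fun q s => fderiv ℂ (fun z => Gn z j) (D.ψ s) (Pi.single q 1), ?_, ?_⟩
    · intro q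
      have h1 : AnalyticAt ℂ (fun z => fderiv ℂ (fun z => Gn z j) z (Pi.single q 1)) (D.ψ 0) :=
        ((ContinuousLinearMap.apply ℂ ℂ (Pi.single q (1 : ℂ) : Fin N → ℂ)).analyticAt _).comp
          gj_an.fderiv
      exact (h1.restrictScalars (𝕜 := ℝ)).comp hψ0
    · intro i
      filter_upwards [eventually_eventually_nhds.mpr g3, D.eventually_U D.h0,
        hψ0.continuousAt.eventually gj_an.eventually_analyticAt] with s hs1 hs2 hs3
      have e1 : (D.pc j ∘ h^[n]) =ᶠ[𝓝 s] (fun s => (fun z => Gn z j) (D.ψ s)) := by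
        filter_upwards [hs1] with s' hs'
        exact congrFun hs' j
      rw [(dA_congr i e1).eq_of_nhds]
      exact dA_holo_comp (D.ψ_an s hs2).differentiableAt hs3.differentiableAt i
  have hder' : ∀ (n : ℕ) (j : Fin N), ∃ c : Fin N → (Fin m → ℝ) → ℂ,
      (∀ q, AnalyticAt ℝ (c q) 0) ∧
      ∀ i, ∀ᶠ s in 𝓝 0, dA i ((fun s => (starRingEnd ℂ) (D.pc j s)) ∘ h^[n]) s =
        ∑ q, c q s * dA i (fun s => (starRingEnd ℂ) (D.pc q s)) s := by
    intro n j
    obtain ⟨c, hc1, hc2⟩ := hder n j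
    obtain ⟨hn, hn0⟩ := iterate_analytic hT n
    refine ⟨fun q s => (starRingEnd ℂ) (c q s), fun q => analyticAt_conj (hc1 q), fun i => ?_⟩
    have hpn : AnalyticAt ℝ (D.pc j ∘ h^[n]) 0 := by
      have : AnalyticAt ℝ (D.pc j) (h^[n] 0) := by rw [hn0]; exact D.pc_an D.h0 j
      exact this.comp hn
    filter_upwards [hc2 i, hpn.eventually_analyticAt, D.eventually_U D.h0] with s hs1 hs2 hs3
    have e1 : ((fun s => (starRingEnd ℂ) (D.pc j s)) ∘ h^[n]) =
        fun s => (starRingEnd ℂ) ((D.pc j ∘ h^[n]) s) := rfl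
    rw [e1, dA_conj i hs2.differentiableAt, hs1, map_sum]
    apply Finset.sum_congr rfl
    intro q _
    rw [map_mul, dA_conj i (D.pc_an hs3 q).differentiableAt]
  have hsym : (fun i => algebraMap (PS m) (KK m) (logT h (co i))) ∈ symS D.psi D.phi := by
    refine ⟨?_, ?_⟩
    · exact sym_aux hT (fun j => D.pc j) (fun j => D.pc_an D.h0 j) hder
    · exact sym_aux hT (fun j s => (starRingEnd ℂ) (D.pc j s))
        (fun j => analyticAt_conj (D.pc_an D.h0 j)) hder'
  have hker := hk₀ (fun i => logT h (co i)) hsym (fun i =>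
    logT_Ord hT (co_analytic i 0) k₀ (Ord_anti (le_max_left _ _) (hord i)))
  have hlog : ∀ j, logT h (D.pc j) = 0 := by
    intro j
    apply FaithfulSMul.algebraMap_injective (PS m) (KK m)
    rw [map_zero, logT_chain hT (D.pc_an D.h0 j), map_sum, ← hker j, DD_apply]
    apply Finset.sum_congr rfl
    intro i _
    rw [map_mul, ← pdK_algebraMap]
    rfl
  have hfix : ∀ᶠ s in 𝓝 0, ∀ j, D.pc j (h s) = D.pc j s := by
    rw [eventually_all]
    intro j
    have h1 := TT_eq_zero (Dl_analytic han h0 (D.pc_an D.h0 j))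
      (TT_Dl_eq_zero hT (D.pc_an D.h0 j) (hlog j))
    filter_upwards [h1] with s hs
    rw [Dl_apply] at hs
    exact sub_eq_zero.mp hs
  have h4 : Tendsto h (𝓝 0) (𝓝 0) := by
    have := hcont.tendsto
    rwa [h0] at this
  filter_upwards [hfix, D.eventually_U D.h0, h4.eventually (D.eventually_U D.h0)] with s h1 h2 h3
  have h5 : D.ψ (h s) = D.ψ s := by
    funext j; exact h1 j
  rw [← D.σψ (h s) h3, h5, D.σψ s h2]

end Loc

end Pool.Agent.Lib51bf1a
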