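import Mathlib
import Pool.Agent.Lib_51bf1a.D3_LocalMain

/-!
Existence of local parametrisations.
-/

namespace Pool.Agent.Lib51bf1a

open Topology Filter Pool.Agent.MP_51bf1a_an

variable {N d : ℕ} {M : Set (Fin N → ℂ)}

theorem exists_loc {ρ : (Fin N → ℂ) → (Fin d → ℝ)} {p : Fin N → ℂ} (hp : p ∈ M)
    (h : IsDefiningAt M d ρ p) : ∃ (m : ℕ) (D : Loc N m M), D.ψ 0 = p ∧ m + d = 2 * N := by
  classical
  set Dρ : (Fin N → ℂ) →L[ℝ] (Fin d → ℝ) := fderiv ℝ ρ p with hDρ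
  -- surjectivity
  have hsurj : Function.Surjective Dρ := by
    intro w
    obtain ⟨v, hv⟩ := h.generic (fun l => ((w l : ℝ) : ℂ))
    refine ⟨v, ?_⟩
    funext l
    have h1 := congrArg Complex.re (hv l)
    simpa using h1
  have hmix : ∀ v : Fin N → ℂ, ∃ a b : Fin N → ℂ, Dρ a = 0 ∧ Dρ b = 0 ∧ v = a + Complex.I • b := by
    intro v
    obtain ⟨b, hb⟩ := h.generic (fun l => - Complex.I * ((Dρ v l : ℝ) : ℂ))
    have h1 : Dρ b = 0 := by
      funext l
      have h1 := congrArg Complex.re (hb l)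
      simpa using h1
    have h2 : Dρ (Complex.I • b) = Dρ v := by
      funext l
      have h1 := congrArg Complex.im (hb l)
      simp only [Complex.sub_im, Complex.mul_im, Complex.ofReal_im, Complex.ofReal_re, Complex.I_re,
        Complex.I_im, Complex.neg_im, Complex.neg_re] at h1
      linarith
    refine ⟨v - Complex.I • b, b, ?_, h1, by rw [sub_add_cancel]⟩
    rw [map_sub, h2, sub_self]
  -- the kernel
  set K₀ : Submodule ℝ (Fin N → ℂ) := LinearMap.ker (Dρ : (Fin N → ℂ) →ₗ[ℝ] (Fin d → ℝ)) with hK₀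
  obtain ⟨m, hm⟩ : ∃ m, m = Module.finrank ℝ K₀ := ⟨_, rfl⟩
  have hdim : m + d = 2 * N := by
    have h1 := LinearMap.finrank_range_add_finrank_ker (Dρ : (Fin N → ℂ) →ₗ[ℝ] (Fin d → ℝ))
    have h2 : LinearMap.range (Dρ : (Fin N → ℂ) →ₗ[ℝ] (Fin d → ℝ)) = ⊤ :=
      LinearMap.range_eq_top.mpr hsurj
    rw [h2, finrank_top, Module.finrank_fin_fun, ← hK₀, ← hm] at h1
    have h3 : Module.finrank ℝ (Fin N → ℂ) = 2 * N := by
      rw [Module.finrank_pi_fintype]
      simp [Complex.finrank_real_complex, mul_comm]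
    rw [h3] at h1
    omega
  let eK : K₀ ≃ₗ[ℝ] (Fin m → ℝ) := LinearEquiv.ofFinrankEq _ _ (by rw [Module.finrank_fin_fun, hm])
  obtain ⟨π, hπ⟩ := LinearMap.exists_leftInverse_of_injective K₀.subtype
    (LinearMap.ker_eq_bot.mpr K₀.injective_subtype)
  set P : (Fin N → ℂ) →ₗ[ℝ] (Fin m → ℝ) := eK.toLinearMap.comp π with hP
  set E₀ : (Fin N → ℂ) →ₗ[ℝ] (Fin m → ℝ) × (Fin d → ℝ) :=
    P.prod (Dρ : (Fin N → ℂ) →ₗ[ℝ] (Fin d → ℝ)) with hE₀
  have hinj : Function.Injective E₀ := by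
    rw [← LinearMap.ker_eq_bot, LinearMap.ker_eq_bot']
    intro v hv
    have h1 : P v = 0 := congrArg Prod.fst hv
    have h2 : Dρ v = 0 := congrArg Prod.snd hv
    have h3 : v ∈ K₀ := h2
    have h4 : π v = ⟨v, h3⟩ := by
      have := congrArg (fun A : K₀ →ₗ[ℝ] K₀ => A ⟨v, h3⟩) hπ
      exact this
    have h5 : π v = 0 := by
      apply eK.injective
      rw [map_zero]
      exact h1
    rw [h4] at h5
    exact congrArg Subtype.val h5
  have hfr : Module.finrank ℝ (Fin N → ℂ) = Module.finrank ℝ ((Fin m → ℝ) × (Fin d → ℝ)) := by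
    rw [Module.finrank_prod, Module.finrank_fin_fun, Module.finrank_fin_fun,
      Module.finrank_pi_fintype]
    simp [Complex.finrank_real_complex]
    omega
  let eL : (Fin N → ℂ) ≃ₗ[ℝ] ((Fin m → ℝ) × (Fin d → ℝ)) :=
    LinearMap.linearEquivOfInjective E₀ hinj hfr
  let e : (Fin N → ℂ) ≃L[ℝ] ((Fin m → ℝ) × (Fin d → ℝ)) := eL.toContinuousLinearEquiv
  have he : ∀ v, e v = (P v, Dρ v) := fun v => rfl
  -- P as a continuous linear map
  set PC : (Fin N → ℂ) →L[ℝ] (Fin m → ℝ) :=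
    (ContinuousLinearMap.fst ℝ _ _).comp (e : (Fin N → ℂ) →L[ℝ] ((Fin m → ℝ) × (Fin d → ℝ))) with hPC
  have hPCe : ∀ v, e v = (PC v, Dρ v) := fun v => rfl
  set G : (Fin N → ℂ) → (Fin m → ℝ) × (Fin d → ℝ) := fun z => (PC (z - p), ρ z) with hG
  have hsub : AnalyticAt ℝ (fun z : Fin N → ℂ => z - p) p := analyticAt_id.sub analyticAt_const
  have G_an : AnalyticAt ℝ G p := by
    apply AnalyticAt.prod
    · exact AnalyticAt.comp (g := fun w => PC w) (f := fun z : Fin N → ℂ => z - p)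
        (PC.analyticAt _) hsub
    · exact h.analytic
  have hG' : fderiv ℝ G p = (e : (Fin N → ℂ) →L[ℝ] ((Fin m → ℝ) × (Fin d → ℝ))) := by
    have h1 : HasFDerivAt (fun z : Fin N → ℂ => z - p) (ContinuousLinearMap.id ℝ (Fin N → ℂ)) p := by
      exact (hasFDerivAt_id p).sub_const p
    have h2 : HasFDerivAt (fun z => PC (z - p)) (PC.comp (ContinuousLinearMap.id ℝ (Fin N → ℂ))) p :=
      HasFDerivAt.comp (g := fun w => PC w) (f := fun z : Fin N → ℂ => z - p) p PC.hasFDerivAt h1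
    have h3 : HasFDerivAt ρ Dρ p := h.analytic.differentiableAt.hasFDerivAt
    have h4 : HasFDerivAt G ((PC.comp (ContinuousLinearMap.id ℝ (Fin N → ℂ))).prod Dρ) p :=
      h2.prodMk h3
    rw [h4.fderiv]
    rfl
  have hρp : ρ p = 0 := (h.zeroSet.self_of_nhds).mp hp
  have hGp : G p = 0 := by
    change (PC (p - p), ρ p) = 0
    rw [sub_self, map_zero, hρp]; rfl
  obtain ⟨Θ, Θ_an, Θ0, hl, hr⟩ := exists_analytic_inverse G_an e hG'
  rw [hGp] at Θ_an Θ0 hr
  -- the maps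
  set ψ : (Fin m → ℝ) → (Fin N → ℂ) := fun t => Θ (t, 0) with hψ
  set σ : (Fin N → ℂ) → (Fin m → ℝ) := fun z => PC (z - p) with hσ
  have hψ0 : ψ 0 = p := Θ0
  have ψ_an : AnalyticAt ℝ ψ 0 := by
    have h1 : AnalyticAt ℝ (fun t : Fin m → ℝ => ((t, 0) : (Fin m → ℝ) × (Fin d → ℝ))) 0 :=
      analyticAt_id.prod analyticAt_const
    exact AnalyticAt.comp (g := Θ) (f := fun t : Fin m → ℝ => ((t, 0) : (Fin m → ℝ) × (Fin d → ℝ)))
      Θ_an h1
  have σ_an : ∀ z, AnalyticAt ℝ σ z := by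
    intro z
    exact AnalyticAt.comp (g := fun w => PC w) (f := fun z : Fin N → ℂ => z - p)
        (PC.analyticAt _) (analyticAt_id.sub analyticAt_const)
  have c1 : Tendsto (fun t : Fin m → ℝ => ((t, 0) : (Fin m → ℝ) × (Fin d → ℝ))) (𝓝 0) (𝓝 0) := by
    have : Continuous (fun t : Fin m → ℝ => ((t, 0) : (Fin m → ℝ) × (Fin d → ℝ))) :=
      continuous_id.prodMk continuous_const
    exact this.tendsto 0
  have c2 : Tendsto ψ (𝓝 0) (𝓝 p) := by
    have := ψ_an.continuousAt.tendsto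
    rwa [hψ0] at this
  have p1 : ∀ᶠ t in 𝓝 0, σ (ψ t) = t ∧ ρ (ψ t) = 0 := by
    filter_upwards [c1.eventually hr] with t ht
    exact ⟨congrArg Prod.fst ht, congrArg Prod.snd ht⟩
  have p2 : ∀ᶠ t in 𝓝 0, ψ t ∈ M := by
    filter_upwards [c2.eventually h.zeroSet, p1] with t h1 h2
    exact h1.mpr h2.2
  have p3 : ∀ᶠ z in 𝓝 p, z ∈ M → ψ (σ z) = z := by
    filter_upwards [hl, h.zeroSet] with z h1 h2 hz
    have h3 : G z = (σ z, 0) := by
      change (PC (z - p), ρ z) = _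
      rw [h2.mp hz]
    rw [h3] at h1
    exact h1
  have p4 : ∀ᶠ t in 𝓝 0, ∀ᶠ z in 𝓝 (ψ t), z ∈ M → ψ (σ z) = z :=
    c2.eventually (eventually_eventually_nhds.mpr p3)
  -- derivative of ψ at 0
  have hdψ : ∀ a, Dρ a = 0 → fderiv ℝ ψ 0 (PC a) = a := by
    intro a ha
    apply e.injective
    rw [hPCe a, ha]
    have h1 : (G ∘ ψ) =ᶠ[𝓝 0] fun t => ((t, 0) : (Fin m → ℝ) × (Fin d → ℝ)) := by
      filter_upwards [p1] with t ht
      change (σ (ψ t), ρ (ψ t)) = _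
      rw [ht.1, ht.2]
    have h2 : HasFDerivAt (G ∘ ψ)
        ((e : (Fin N → ℂ) →L[ℝ] ((Fin m → ℝ) × (Fin d → ℝ))).comp (fderiv ℝ ψ 0)) 0 := by
      have h3 : HasFDerivAt G (e : (Fin N → ℂ) →L[ℝ] ((Fin m → ℝ) × (Fin d → ℝ))) (ψ 0) := by
        rw [hψ0, ← hG']; exact G_an.differentiableAt.hasFDerivAt
      exact h3.comp 0 ψ_an.differentiableAt.hasFDerivAt
    have h4 : HasFDerivAt (fun t : Fin m → ℝ => ((t, 0) : (Fin m → ℝ) × (Fin d → ℝ)))
        (ContinuousLinearMap.inl ℝ (Fin m → ℝ) (Fin d → ℝ)) 0 := hasFDerivAt_prodMk_left 0 0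
    have h5 := (h2.congr_of_eventuallyEq h1.symm).unique h4
    have h6 := congrArg (fun A : (Fin m → ℝ) →L[ℝ] ((Fin m → ℝ) × (Fin d → ℝ)) => A (PC a)) h5
    exact h6
  -- right inverse of B
  have pc_an : ∀ j, AnalyticAt ℝ (fun s => ψ s j) 0 := fun j =>
    ((ContinuousLinearMap.proj (R := ℝ) (φ := fun _ : Fin N => ℂ) j).analyticAt _).comp ψ_an
  have hfd : ∀ (x : Fin m → ℝ) (j : Fin N), fderiv ℝ ψ 0 x j =
      ∑ k, dA k (fun s => ψ s j) 0 * (x k : ℂ) := by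
    intro x j
    have h1 : fderiv ℝ (fun s => ψ s j) 0 = (ContinuousLinearMap.proj (R := ℝ)
        (φ := fun _ : Fin N => ℂ) j).comp (fderiv ℝ ψ 0) := by
      have h2 : (fun s => ψ s j) = (fun v : Fin N → ℂ => (ContinuousLinearMap.proj (R := ℝ)
        (φ := fun _ : Fin N => ℂ) j) v) ∘ ψ := rfl
      rw [h2, fderiv_comp 0 (ContinuousLinearMap.differentiableAt _) ψ_an.differentiableAt,
        ContinuousLinearMap.fderiv]
    have h3 : fderiv ℝ ψ 0 x j = fderiv ℝ (fun s => ψ s j) 0 x := by rw [h1]; rfl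
    rw [h3]
    have h4 : x = ∑ k, x k • (Pi.single k 1 : Fin m → ℝ) := pi_eq_sum_univ' x
    conv_lhs => rw [h4]
    rw [map_sum]
    apply Finset.sum_congr rfl
    intro k _
    rw [map_smul, mul_comm, Complex.real_smul]
    rfl
  have hBsurj : ∀ v : Fin N → ℂ, ∃ x : Fin m → ℂ, ∀ j,
      ∑ k, dA k (fun s => ψ s j) 0 * x k = v j := by
    intro v
    obtain ⟨a, b, ha, hb, hab⟩ := hmix v
    refine ⟨fun k => ((PC a k : ℝ) : ℂ) + Complex.I * ((PC b k : ℝ) : ℂ), fun j => ?_⟩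
    have h1 := hfd (PC a) j
    have h2 := hfd (PC b) j
    rw [hdψ a ha] at h1
    rw [hdψ b hb] at h2
    rw [hab, Pi.add_apply, Pi.smul_apply, smul_eq_mul, h1, h2, Finset.mul_sum,
      ← Finset.sum_add_distrib]
    apply Finset.sum_congr rfl
    intro k _
    ring
  choose R₀ hR₀ using fun j' : Fin N => hBsurj (Pi.single j' 1)
  -- R₀ j' k : the column j'
  set Q : (Fin m → ℝ) → Matrix (Fin N) (Fin N) ℂ := fun t =>
    Matrix.of (fun j j' => ∑ k, dA k (fun s => ψ s j) t * R₀ j' k) with hQ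
  have hQ0 : Q 0 = 1 := by
    ext j j'
    change ∑ k, dA k (fun s => ψ s j) 0 * R₀ j' k = _
    rw [hR₀ j' j, Matrix.one_apply, Pi.single_apply]
  have Q_an : ∀ t, AnalyticAt ℝ ψ t → ∀ a b, AnalyticAt ℝ (fun x => Q x a b) t := by
    intro t ht a b
    have h1 : ∀ k ∈ (Finset.univ : Finset (Fin m)),
        AnalyticAt ℝ (fun x => dA k (fun s => ψ s a) x * R₀ b k) t := by
      intro k _
      exact (dA_analytic k (((ContinuousLinearMap.proj (R := ℝ)
        (φ := fun _ : Fin N => ℂ) a).analyticAt _).comp ht)).mul analyticAt_const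
    exact an_sum Finset.univ h1
  have hdet : ∀ᶠ s in 𝓝 0, (Q s).det ≠ 0 := by
    have h1 : ContinuousAt (fun s => (Q s).det) 0 := (an_det (Q_an 0 ψ_an)).continuousAt
    have h2 : (Q 0).det ≠ 0 := by rw [hQ0, Matrix.det_one]; exact one_ne_zero
    exact h1.eventually_ne h2
  obtain ⟨r, hr0, hball⟩ := Metric.eventually_nhds_iff_ball.mp
    (((ψ_an.eventually_analyticAt.and p1).and (p2.and p4)).and hdet)
  refine ⟨m, {
    ψ := ψ
    σ := σ
    U := Metric.ball 0 r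
    R := fun t k j' => ∑ j, R₀ j k * (Q t)⁻¹ j j'
    hU := Metric.isOpen_ball
    hUc := (convex_ball 0 r).isPreconnected
    h0 := Metric.mem_ball_self hr0
    ψ_an := fun t ht => (hball t ht).1.1.1
    σ_an := fun t _ => σ_an _
    σψ := fun t ht => (hball t ht).1.1.2.1
    ψM := fun t ht => (hball t ht).1.2.1
    ψσ := fun t ht => (hball t ht).1.2.2
    R_an := ?_
    BR := ?_ }, hψ0, hdim⟩
  · intro t ht k j'
    apply an_sum
    intro j _
    exact analyticAt_const.mul (an_inv (Q_an t (hball t ht).1.1.1) (hball t ht).2 j j')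
  · intro t ht j j'
    have h1 : ∑ k, dA k (fun s => ψ s j) t * ∑ i, R₀ i k * (Q t)⁻¹ i j' =
        (Q t * (Q t)⁻¹) j j' := by
      rw [Matrix.mul_apply]
      simp only [hQ, Matrix.of_apply, Finset.mul_sum, Finset.sum_mul]
      rw [Finset.sum_comm]
      apply Finset.sum_congr rfl; intro i _
      apply Finset.sum_congr rfl; intro k _
      ring
    rw [h1, Matrix.mul_nonsing_inv _ (isUnit_iff_ne_zero.mpr (hball t ht).2), Matrix.one_apply]

end Pool.Agent.Lib51bf1a
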