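import Mathlib
import Pool.Agent.Lib_51bf1a.E1_Exists

/-!
Jets of compositions, and uniqueness of holomorphic functions on a generic submanifold.
-/

namespace Pool.Agent.Lib51bf1a

open Topology Filter Pool.Agent.MP_51bf1a_an

section Van

/-- vanishing of the derivatives of order `< k`. -/
def Van {E F : Type} [NormedAddCommGroup E] [NormedSpace ℝ E] [NormedAddCommGroup F]
    [NormedSpace ℝ F] (k : ℕ) (f : E → F) (x : E) : Prop := ∀ n < k, iteratedFDeriv ℝ n f x = 0

variable {D E F G : Type} [NormedAddCommGroup D] [NormedSpace ℝ D]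
  [NormedAddCommGroup E] [NormedSpace ℝ E] [NormedAddCommGroup F] [NormedSpace ℝ F]
  [NormedAddCommGroup G] [NormedSpace ℝ G]

theorem van_zero (f : E → F) (x : E) : Van 0 f x := fun _ hn => absurd hn (Nat.not_lt_zero _)

theorem van_succ {k : ℕ} {f : E → F} {x : E} :
    Van (k + 1) f x ↔ f x = 0 ∧ Van k (fderiv ℝ f) x := by
  constructor
  · intro h
    refine ⟨?_, fun n hn => ?_⟩
    · have h1 := h 0 (Nat.succ_pos k)
      have h2 := congrArg (fun A : ContinuousMultilinearMap ℝ (fun _ : Fin 0 => E) F => A 0) h1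
      simpa using h2
    · rw [← norm_eq_zero, norm_iteratedFDeriv_fderiv, h (n + 1) (Nat.succ_lt_succ hn), norm_zero]
  · rintro ⟨h0, h⟩ n hn
    cases n with
    | zero =>
      ext v
      simpa using h0
    | succ n =>
      rw [← norm_eq_zero, ← norm_iteratedFDeriv_fderiv, h n (Nat.lt_of_succ_lt_succ hn), norm_zero]

theorem Van.mono {k l : ℕ} {f : E → F} {x : E} (h : Van l f x) (hkl : k ≤ l) : Van k f x :=
  fun n hn => h n (lt_of_lt_of_le hn hkl)

theorem Van.congr {k : ℕ} {f g : E → F} {x : E} (h : Van k f x) (hfg : f =ᶠ[𝓝 x] g) :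
    Van k g x := by
  intro n hn
  rw [← (hfg.iteratedFDeriv ℝ n).eq_of_nhds]
  exact h n hn

theorem an_bilin (B : E →L[ℝ] F →L[ℝ] G) {f : D → E} {g : D → F} {x : D}
    (hf : AnalyticAt ℝ f x) (hg : AnalyticAt ℝ g x) : AnalyticAt ℝ (fun y => B (f y) (g y)) x := by
  have h1 := B.analyticAt_bilinear (f x, g x)
  exact AnalyticAt.comp₂ h1 hf hg

theorem Van.add {k : ℕ} [CompleteSpace F] {f g : E → F} {x : E} (hf : AnalyticAt ℝ f x)
    (hg : AnalyticAt ℝ g x) (h : Van k f x) (h' : Van k g x) : Van k (fun y => f y + g y) x := by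
  intro n hn
  have e : (fun y => f y + g y) = f + g := rfl
  have hf' : ContDiffAt ℝ (⊤ : WithTop ℕ∞) f x := hf.contDiffAt
  have hg' : ContDiffAt ℝ (⊤ : WithTop ℕ∞) g x := hg.contDiffAt
  rw [e, iteratedFDeriv_add_apply (hf'.of_le le_top) (hg'.of_le le_top), h n hn, h' n hn, add_zero]

theorem Van.bilin {k : ℕ} (B : E →L[ℝ] F →L[ℝ] G) {f : D → E} {g : D → F} {x : D}
    (hf : AnalyticAt ℝ f x) (hg : AnalyticAt ℝ g x) [CompleteSpace E] [CompleteSpace F]
    [CompleteSpace G] (h : Van k f x) : Van k (fun y => B (f y) (g y)) x := by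
  induction k generalizing E F G with
  | zero => exact van_zero _ _
  | succ k ih =>
    rw [van_succ] at h ⊢
    refine ⟨by rw [h.1, map_zero]; rfl, ?_⟩
    have h1 : (fun y => B.precompR D (f y) (fderiv ℝ g y) + B.precompL D (fderiv ℝ f y) (g y))
        =ᶠ[𝓝 x] fderiv ℝ (fun y => B (f y) (g y)) := by
      filter_upwards [hf.eventually_analyticAt, hg.eventually_analyticAt] with y h1 h2
      exact (B.fderiv_of_bilinear h1.differentiableAt h2.differentiableAt).symm
    have hk : Van k f x := by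
      have : Van (k + 1) f x := van_succ.mpr h
      exact this.mono (Nat.le_succ k)
    refine Van.congr ?_ h1
    have a1 : AnalyticAt ℝ (fun y => B.precompR D (f y) (fderiv ℝ g y)) x :=
      an_bilin (B.precompR D) hf hg.fderiv
    have a2 : AnalyticAt ℝ (fun y => B.precompL D (fderiv ℝ f y) (g y)) x :=
      an_bilin (B.precompL D) hf.fderiv hg
    exact Van.add a1 a2 (ih (B.precompR D) hf hg.fderiv hk) (ih (B.precompL D) hf.fderiv hg h.2)

theorem Van.bilin_right {k : ℕ} (B : E →L[ℝ] F →L[ℝ] G) {f : D → E} {g : D → F} {x : D}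
    (hf : AnalyticAt ℝ f x) (hg : AnalyticAt ℝ g x) [CompleteSpace E] [CompleteSpace F]
    [CompleteSpace G] (h : Van k g x) : Van k (fun y => B (f y) (g y)) x := by
  have := Van.bilin B.flip hg hf h
  exact this

theorem Van.comp {k : ℕ} [CompleteSpace D] [CompleteSpace E] [CompleteSpace F] {f : E → F}
    {a : D → E} {x : D} (hf : AnalyticAt ℝ f (a x)) (ha : AnalyticAt ℝ a x)
    (h : Van k f (a x)) : Van k (fun y => f (a y)) x := by
  induction k generalizing F with
  | zero => exact van_zero _ _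
  | succ k ih =>
    rw [van_succ] at h ⊢
    refine ⟨h.1, ?_⟩
    have h1 : (fun y => ContinuousLinearMap.compL ℝ D E F (fderiv ℝ f (a y)) (fderiv ℝ a y))
        =ᶠ[𝓝 x] fderiv ℝ (fun y => f (a y)) := by
      filter_upwards [ha.continuousAt.eventually hf.eventually_analyticAt,
        ha.eventually_analyticAt] with y h1 h2
      exact (fderiv_comp y h1.differentiableAt h2.differentiableAt).symm
    refine Van.congr ?_ h1
    exact Van.bilin _ (hf.fderiv.comp ha) ha.fderiv (ih hf.fderiv h.2)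

theorem Van.comp_sub {k : ℕ} [CompleteSpace D] [CompleteSpace E] [CompleteSpace F] {f : E → F}
    {a b : D → E} {x : D} (hf : AnalyticAt ℝ f (a x)) (ha : AnalyticAt ℝ a x)
    (hb : AnalyticAt ℝ b x) (hab : a x = b x)
    (h : Van k (fun y => a y - b y) x) : Van k (fun y => f (a y) - f (b y)) x := by
  induction k generalizing F with
  | zero => exact van_zero _ _
  | succ k ih =>
    rw [van_succ]
    refine ⟨by rw [hab, sub_self], ?_⟩
    have hfb : AnalyticAt ℝ f (b x) := by rw [← hab]; exact hf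
    have h1 : (fun y => ContinuousLinearMap.compL ℝ D E F (fderiv ℝ f (a y) - fderiv ℝ f (b y))
        (fderiv ℝ a y) + ContinuousLinearMap.compL ℝ D E F (fderiv ℝ f (b y))
        (fderiv ℝ (fun y => a y - b y) y)) =ᶠ[𝓝 x] fderiv ℝ (fun y => f (a y) - f (b y)) := by
      filter_upwards [ha.continuousAt.eventually hf.eventually_analyticAt,
        ha.eventually_analyticAt, hb.continuousAt.eventually hfb.eventually_analyticAt,
        hb.eventually_analyticAt] with y h1 h2 h3 h4
      have e1 : fderiv ℝ (fun y => a y - b y) y = fderiv ℝ a y - fderiv ℝ b y :=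
        fderiv_fun_sub h2.differentiableAt h4.differentiableAt
      have e2 : fderiv ℝ (fun y => f (a y) - f (b y)) y =
          fderiv ℝ (fun y => f (a y)) y - fderiv ℝ (fun y => f (b y)) y :=
        fderiv_fun_sub (h1.differentiableAt.comp y h2.differentiableAt)
          (h3.differentiableAt.comp y h4.differentiableAt)
      have e3 : fderiv ℝ (fun y => f (a y)) y = (fderiv ℝ f (a y)).comp (fderiv ℝ a y) :=
        fderiv_comp y h1.differentiableAt h2.differentiableAt
      have e4 : fderiv ℝ (fun y => f (b y)) y = (fderiv ℝ f (b y)).comp (fderiv ℝ b y) :=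
        fderiv_comp y h3.differentiableAt h4.differentiableAt
      rw [e1, e2, e3, e4]
      change (fderiv ℝ f (a y) - fderiv ℝ f (b y)).comp (fderiv ℝ a y) +
        (fderiv ℝ f (b y)).comp (fderiv ℝ a y - fderiv ℝ b y) = _
      ext v
      simp
    refine Van.congr ?_ h1
    have hk := h.mono (Nat.le_succ k)
    have h' := (van_succ.mp h).2
    have afa : AnalyticAt ℝ (fun y => fderiv ℝ f (a y)) x := hf.fderiv.comp ha
    have afb : AnalyticAt ℝ (fun y => fderiv ℝ f (b y)) x := hfb.fderiv.comp hb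
    have afab : AnalyticAt ℝ (fun y => fderiv ℝ f (a y) - fderiv ℝ f (b y)) x := afa.sub afb
    have aab : AnalyticAt ℝ (fderiv ℝ (fun y => a y - b y)) x :=
      (AnalyticAt.fun_sub ha hb).fderiv
    have a1 : AnalyticAt ℝ (fun y => ContinuousLinearMap.compL ℝ D E F
        (fderiv ℝ f (a y) - fderiv ℝ f (b y)) (fderiv ℝ a y)) x :=
      an_bilin (ContinuousLinearMap.compL ℝ D E F) afab ha.fderiv
    have a2 : AnalyticAt ℝ (fun y => ContinuousLinearMap.compL ℝ D E F (fderiv ℝ f (b y))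
        (fderiv ℝ (fun y => a y - b y) y)) x :=
      an_bilin (ContinuousLinearMap.compL ℝ D E F) afb aab
    exact Van.add a1 a2 (Van.bilin _ afab ha.fderiv (ih hf.fderiv hk))
      (Van.bilin_right _ afb aab h')

end Van

variable {N m : ℕ} {M : Set (Fin N → ℂ)}

namespace Loc

variable (D : Loc N m M)

/-- holomorphic derivative along `M`. -/
theorem deriv_vanish {t : Fin m → ℝ} (ht : t ∈ D.U) {F : (Fin N → ℂ) → ℂ}
    (hF : AnalyticAt ℂ F (D.ψ t)) (h : ∀ᶠ s in 𝓝 t, F (D.ψ s) = 0) (q : Fin N) :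
    ∀ᶠ s in 𝓝 t, fderiv ℂ F (D.ψ s) (Pi.single q 1) = 0 := by
  have hψ := D.ψ_an t ht
  filter_upwards [eventually_eventually_nhds.mpr h, D.eventually_U ht,
    hψ.continuousAt.eventually hF.eventually_analyticAt] with s h1 h2 h3
  have h4 : ∀ k, ∑ q, fderiv ℂ F (D.ψ s) (Pi.single q 1) * dA k (D.pc q) s = 0 := by
    intro k
    have h5 := dA_holo_comp (D.ψ_an s h2).differentiableAt h3.differentiableAt k
    have h6 : (fun s => F (D.ψ s)) =ᶠ[𝓝 s] fun _ => (0 : ℂ) := h1
    rw [(dA_congr k h6).eq_of_nhds, dA_const] at h5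
    exact h5.symm
  have h5 : ∑ k, (∑ q', fderiv ℂ F (D.ψ s) (Pi.single q' 1) * dA k (D.pc q') s) * D.R s k q =
      fderiv ℂ F (D.ψ s) (Pi.single q 1) := by
    simp only [Finset.sum_mul]
    rw [Finset.sum_comm]
    have h6 : ∀ q', ∑ k, fderiv ℂ F (D.ψ s) (Pi.single q' 1) * dA k (D.pc q') s * D.R s k q =
        fderiv ℂ F (D.ψ s) (Pi.single q' 1) * (if q' = q then 1 else 0) := by
      intro q'
      rw [← D.BR' h2 q' q, Finset.mul_sum]
      apply Finset.sum_congr rfl
      intro k _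
      ring
    simp only [h6, mul_ite, mul_one, mul_zero, Finset.sum_ite_eq', Finset.mem_univ, if_true]
  rw [← h5]
  simp only [h4, zero_mul, Finset.sum_const_zero]

/-- uniqueness. -/
theorem unique {t : Fin m → ℝ} (ht : t ∈ D.U) {F : (Fin N → ℂ) → ℂ}
    (hF : AnalyticAt ℂ F (D.ψ t)) (h : ∀ᶠ s in 𝓝 t, F (D.ψ s) = 0) :
    ∀ᶠ z in 𝓝 (D.ψ t), F z = 0 := by
  have key : ∀ (n : ℕ) (F : (Fin N → ℂ) → ℂ), AnalyticAt ℂ F (D.ψ t) →
      (∀ᶠ s in 𝓝 t, F (D.ψ s) = 0) → iteratedFDeriv ℂ n F (D.ψ t) = 0 := by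
    intro n
    induction n with
    | zero =>
      intro F _ h
      ext v
      simpa using h.self_of_nhds
    | succ n ih =>
      intro F hF h
      rw [← norm_eq_zero, ← norm_iteratedFDeriv_fderiv, norm_eq_zero]
      have hq : ∀ q, AnalyticAt ℂ (fun z => fderiv ℂ F z (Pi.single q 1)) (D.ψ t) := fun q =>
        ((ContinuousLinearMap.apply ℂ ℂ (Pi.single q (1 : ℂ) : Fin N → ℂ)).analyticAt _).comp
          hF.fderiv
      have h1 : fderiv ℂ F = ∑ q : Fin N, (ContinuousLinearMap.toSpanSingleton ℂ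
          (ContinuousLinearMap.proj (R := ℂ) (φ := fun _ : Fin N => ℂ) q)) ∘
          (fun z => fderiv ℂ F z (Pi.single q 1)) := by
        funext z
        rw [Finset.sum_apply]
        apply ContinuousLinearMap.ext
        intro v
        rw [_root_.sum_apply]
        have h3 : v = ∑ q, v q • (Pi.single q 1 : Fin N → ℂ) := pi_eq_sum_univ' v
        conv_lhs => rw [h3]
        rw [map_sum]
        apply Finset.sum_congr rfl
        intro q _
        rw [map_smul]
        simp [mul_comm]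
      have hq' : ∀ q, AnalyticAt ℂ ((ContinuousLinearMap.toSpanSingleton ℂ
          (ContinuousLinearMap.proj (R := ℂ) (φ := fun _ : Fin N => ℂ) q)) ∘
          (fun z => fderiv ℂ F z (Pi.single q 1))) (D.ψ t) := fun q =>
        (ContinuousLinearMap.analyticAt _ _).comp (hq q)
      rw [h1, iteratedFDeriv_sum_apply (fun q _ => by
        have h5 : ContDiffAt ℂ (⊤ : WithTop ℕ∞) _ (D.ψ t) := (hq' q).contDiffAt
        exact h5.of_le le_top)]
      apply Finset.sum_eq_zero
      intro q _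
      have h5 : ContDiffAt ℂ (⊤ : WithTop ℕ∞) _ (D.ψ t) := (hq q).contDiffAt
      rw [ContinuousLinearMap.iteratedFDeriv_comp_left (n := (⊤ : WithTop ℕ∞)) _ h5 le_top,
        ih _ (hq q) (D.deriv_vanish ht hF h q)]
      ext v
      simp
  have h0 : ∀ n, iteratedFDeriv ℂ n F (D.ψ t) = 0 := fun n => key n F hF h
  obtain ⟨p, r, hp⟩ := hF
  have hr : 0 < r := hp.r_pos
  have h1 : Tendsto (fun z => z - D.ψ t) (𝓝 (D.ψ t)) (𝓝 0) := by
    have : Tendsto (fun z => z - D.ψ t) (𝓝 (D.ψ t)) (𝓝 (D.ψ t - D.ψ t)) :=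
      (continuous_id.sub continuous_const).tendsto _
    rwa [sub_self] at this
  filter_upwards [h1.eventually (Metric.eball_mem_nhds (0 : Fin N → ℂ) hr)] with z hz
  have h2 := hp.hasSum_iteratedFDeriv (y := z - D.ψ t) hz
  simp only [h0, _root_.zero_apply, smul_zero, add_sub_cancel] at h2
  exact h2.unique hasSum_zero

theorem unique_vec {t : Fin m → ℝ} (ht : t ∈ D.U) {F : (Fin N → ℂ) → (Fin N → ℂ)}
    (hF : AnalyticAt ℂ F (D.ψ t)) (h : ∀ᶠ s in 𝓝 t, F (D.ψ s) = 0) :
    ∀ᶠ z in 𝓝 (D.ψ t), F z = 0 := by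
  have h1 : ∀ j, ∀ᶠ z in 𝓝 (D.ψ t), F z j = 0 := by
    intro j
    apply D.unique ht
      (((ContinuousLinearMap.proj (R := ℂ) (φ := fun _ : Fin N => ℂ) j).analyticAt _).comp hF)
    filter_upwards [h] with s hs
    exact congrFun hs j
  filter_upwards [eventually_all.mpr h1] with z hz
  funext j
  exact hz j

end Loc

end Pool.Agent.Lib51bf1a
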