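import Mathlib
import Pool.Agent.Lib_51bf1a.E2_Jets

/-!
Finite jet determination from the local theorem.
-/

namespace Pool.Agent.Lib51bf1a

open Topology Filter Pool.Agent.MP_51bf1a_an

variable {N m : ℕ} {M : Set (Fin N → ℂ)}

theorem van_of_jets {k : ℕ} {H₁ H₂ : (Fin N → ℂ) → (Fin N → ℂ)} {p : Fin N → ℂ}
    (h1 : AnalyticAt ℂ H₁ p) (h2 : AnalyticAt ℂ H₂ p)
    (h : ∀ i ≤ k, iteratedFDeriv ℂ i H₁ p = iteratedFDeriv ℂ i H₂ p) :
    Van (k + 1) (fun z => H₁ z - H₂ z) p := by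
  intro n hn
  have c1 : ContDiffAt ℝ n H₁ p := by
    have : ContDiffAt ℝ (⊤ : WithTop ℕ∞) H₁ p := (h1.restrictScalars (𝕜 := ℝ)).contDiffAt
    exact this.of_le le_top
  have c2 : ContDiffAt ℝ n H₂ p := by
    have : ContDiffAt ℝ (⊤ : WithTop ℕ∞) H₂ p := (h2.restrictScalars (𝕜 := ℝ)).contDiffAt
    exact this.of_le le_top
  have d1 : ContDiffAt ℂ n H₁ p := by
    have : ContDiffAt ℂ (⊤ : WithTop ℕ∞) H₁ p := h1.contDiffAt
    exact this.of_le le_top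
  have d2 : ContDiffAt ℂ n H₂ p := by
    have : ContDiffAt ℂ (⊤ : WithTop ℕ∞) H₂ p := h2.contDiffAt
    exact this.of_le le_top
  have e : (fun z => H₁ z - H₂ z) = H₁ - H₂ := rfl
  rw [e, iteratedFDeriv_sub_apply c1 c2, ← d1.restrictScalars_iteratedFDeriv,
    ← d2.restrictScalars_iteratedFDeriv, Function.comp_apply, Function.comp_apply,
    h n (Nat.lt_succ_iff.mp hn), sub_self]

namespace Loc

variable (D : Loc N m M)

/-- The self-map of the parameter space induced by a local automorphism. -/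
theorem induced {H : (Fin N → ℂ) → (Fin N → ℂ)} (hH : IsLocalAutomorphism M (D.ψ 0) H) :
    AnalyticAt ℝ (fun s => D.σ (H (D.ψ s))) 0 ∧ D.σ (H (D.ψ 0)) = 0 ∧
      ∀ᶠ s in 𝓝 0, D.ψ (D.σ (H (D.ψ s))) = H (D.ψ s) := by
  have hψ := D.ψ_an 0 D.h0
  have hHr : AnalyticAt ℝ H (D.ψ 0) := hH.analytic.restrictScalars (𝕜 := ℝ)
  have hHψ : AnalyticAt ℝ (fun s => H (D.ψ s)) 0 := hHr.comp hψ
  have c : Tendsto (fun s => H (D.ψ s)) (𝓝 0) (𝓝 (D.ψ 0)) := by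
    have h1 : Tendsto (fun s => H (D.ψ s)) (𝓝 0) (𝓝 (H (D.ψ 0))) := hHψ.continuousAt.tendsto
    rwa [hH.fix] at h1
  refine ⟨?_, ?_, ?_⟩
  · have h1 : AnalyticAt ℝ D.σ (H (D.ψ 0)) := by rw [hH.fix]; exact D.σ_an 0 D.h0
    exact AnalyticAt.comp (g := D.σ) (f := fun s => H (D.ψ s)) h1 hHψ
  · rw [hH.fix, D.σψ 0 D.h0]
  · filter_upwards [c.eventually (D.ψσ 0 D.h0), hψ.continuousAt.eventually hH.maps,
      D.eventually_U D.h0] with s h1 h2 h3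
    exact h1 (h2 (D.ψM s h3))

/-- **Finite jet determination.** -/
theorem fjd (hnd : HolomorphicallyNondegenerate M)
    (hbg : Submodule.span (KK m) (Set.range (bcm (fun a => hat (D.gen a)))) = ⊤) :
    FiniteJetDetermination M (D.ψ 0) := by
  obtain ⟨k, hk⟩ := D.local_main hnd hbg
  refine ⟨k, fun H₁ H₂ hH₁ hH₂ hjets => ?_⟩
  have hψ := D.ψ_an 0 D.h0
  set p := D.ψ 0 with hp
  set h₁ : (Fin m → ℝ) → (Fin m → ℝ) := fun s => D.σ (H₁ (D.ψ s)) with hh₁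
  set h₂ : (Fin m → ℝ) → (Fin m → ℝ) := fun s => D.σ (H₂ (D.ψ s)) with hh₂
  obtain ⟨a1, z1, r1⟩ := D.induced hH₁
  obtain ⟨a2, z2, r2⟩ := D.induced hH₂
  change AnalyticAt ℝ h₁ 0 at a1
  change AnalyticAt ℝ h₂ 0 at a2
  change h₁ 0 = 0 at z1
  change h₂ 0 = 0 at z2
  change ∀ᶠ s in 𝓝 0, D.ψ (h₁ s) = H₁ (D.ψ s) at r1
  change ∀ᶠ s in 𝓝 0, D.ψ (h₂ s) = H₂ (D.ψ s) at r2
  have cψ : Tendsto D.ψ (𝓝 0) (𝓝 p) := hψ.continuousAt.tendsto
  have c1 : Tendsto h₁ (𝓝 0) (𝓝 0) := by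
    have := a1.continuousAt.tendsto
    rwa [z1] at this
  -- the derivative of h₂ is injective
  have hinj : Function.Injective (fderiv ℝ h₂ 0) := by
    rw [← ContinuousLinearMap.coe_coe, ← LinearMap.ker_eq_bot, LinearMap.ker_eq_bot']
    intro v hv
    have e1 : HasFDerivAt (D.ψ ∘ h₂) ((fderiv ℝ D.ψ 0).comp (fderiv ℝ h₂ 0)) 0 := by
      have : HasFDerivAt D.ψ (fderiv ℝ D.ψ 0) (h₂ 0) := by
        rw [z2]; exact hψ.differentiableAt.hasFDerivAt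
      exact this.comp 0 a2.differentiableAt.hasFDerivAt
    have e2 : HasFDerivAt (H₂ ∘ D.ψ) (((fderiv ℂ H₂ p).restrictScalars ℝ).comp (fderiv ℝ D.ψ 0)) 0 :=
      (hH₂.analytic.differentiableAt.hasFDerivAt.restrictScalars ℝ).comp 0
        hψ.differentiableAt.hasFDerivAt
    have e3 := (e1.congr_of_eventuallyEq (f₁ := H₂ ∘ D.ψ) (by
      filter_upwards [r2] with s hs
      exact hs.symm)).unique e2
    have e4 := congrArg (fun A : (Fin m → ℝ) →L[ℝ] (Fin N → ℂ) => A v) e3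
    simp only [ContinuousLinearMap.comp_apply] at e4
    have hv' : fderiv ℝ h₂ 0 v = 0 := hv
    rw [hv', map_zero] at e4
    have e5 : fderiv ℂ H₂ p (fderiv ℝ D.ψ 0 v) = fderiv ℂ H₂ p 0 := by
      rw [map_zero]; exact e4.symm
    have e6 := hH₂.bij.injective e5
    have e7 := D.dσ_dψ D.h0 v
    rw [e6, map_zero] at e7
    exact e7.symm
  let e₂ : (Fin m → ℝ) ≃L[ℝ] (Fin m → ℝ) :=
    (LinearMap.linearEquivOfInjective (fderiv ℝ h₂ 0 : (Fin m → ℝ) →ₗ[ℝ] (Fin m → ℝ)) hinj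
      rfl).toContinuousLinearEquiv
  have he₂ : fderiv ℝ h₂ 0 = (e₂ : (Fin m → ℝ) →L[ℝ] (Fin m → ℝ)) := by
    apply ContinuousLinearMap.ext
    intro v; rfl
  obtain ⟨g₂, g₂_an, g₂0, g₂l, g₂r⟩ := exists_analytic_inverse a2 e₂ he₂
  rw [z2] at g₂_an g₂0 g₂r
  let E₂ : (Fin N → ℂ) ≃L[ℂ] (Fin N → ℂ) :=
    (LinearMap.linearEquivOfInjective (fderiv ℂ H₂ p : (Fin N → ℂ) →ₗ[ℂ] (Fin N → ℂ))
      hH₂.bij.injective rfl).toContinuousLinearEquiv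
  have hE₂ : fderiv ℂ H₂ p = (E₂ : (Fin N → ℂ) →L[ℂ] (Fin N → ℂ)) := by
    apply ContinuousLinearMap.ext
    intro v; rfl
  obtain ⟨G₂, G₂_an, G₂0, G₂l, G₂r⟩ := exists_analytic_inverse hH₂.analytic E₂ hE₂
  rw [hH₂.fix] at G₂_an G₂0 G₂r
  have cg : Tendsto g₂ (𝓝 0) (𝓝 0) := by
    have := g₂_an.continuousAt.tendsto
    rwa [g₂0] at this
  -- H₂⁻¹ ∘ ψ = ψ ∘ h₂⁻¹
  have hrel : ∀ᶠ s in 𝓝 0, G₂ (D.ψ s) = D.ψ (g₂ s) := by
    filter_upwards [g₂r, cg.eventually r2, (cψ.comp cg).eventually G₂l] with s s1 s2 s3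
    rw [s1] at s2
    rw [s2]
    exact s3
  set h : (Fin m → ℝ) → (Fin m → ℝ) := fun s => g₂ (h₁ s) with hh
  have h_an : AnalyticAt ℝ h 0 := by
    have : AnalyticAt ℝ g₂ (h₁ 0) := by rw [z1]; exact g₂_an
    exact this.comp a1
  have h_0 : h 0 = 0 := by rw [hh]; change g₂ (h₁ 0) = 0; rw [z1, g₂0]
  have hGψ : ∀ᶠ s in 𝓝 0, D.ψ (h s) = G₂ (H₁ (D.ψ s)) := by
    filter_upwards [c1.eventually hrel, r1] with s s1 s2
    rw [← s2, s1]
  have hG_an : AnalyticAt ℂ (fun z => G₂ (H₁ z)) (D.ψ 0) := by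
    have : AnalyticAt ℂ G₂ (H₁ p) := by rw [hH₁.fix]; exact G₂_an
    exact this.comp hH₁.analytic
  -- orders
  have v0 : Van (k + 1) (fun z => H₁ z - H₂ z) p := van_of_jets hH₁.analytic hH₂.analytic hjets
  have hr1 : AnalyticAt ℝ H₁ p := hH₁.analytic.restrictScalars (𝕜 := ℝ)
  have hr2 : AnalyticAt ℝ H₂ p := hH₂.analytic.restrictScalars (𝕜 := ℝ)
  have v1 : Van (k + 1) (fun s => H₁ (D.ψ s) - H₂ (D.ψ s)) 0 :=
    Van.comp (f := fun z => H₁ z - H₂ z) (a := D.ψ) (hr1.sub hr2) hψ v0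
  have v2 : Van (k + 1) (fun s => h₁ s - h₂ s) 0 := by
    apply Van.comp_sub (f := D.σ) (a := fun s => H₁ (D.ψ s)) (b := fun s => H₂ (D.ψ s)) _ _ _ _ v1
    · change AnalyticAt ℝ D.σ (H₁ p)
      rw [hH₁.fix]; exact D.σ_an 0 D.h0
    · exact hr1.comp hψ
    · exact hr2.comp hψ
    · change H₁ p = H₂ p
      rw [hH₁.fix, hH₂.fix]
  have v3 : Van (k + 1) (fun s => g₂ (h₁ s) - g₂ (h₂ s)) 0 := by
    apply Van.comp_sub (f := g₂) (a := h₁) (b := h₂) _ a1 a2 (by rw [z1, z2]) v2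
    rw [z1]; exact g₂_an
  have v4 : Van (k + 1) (fun s => h s - s) 0 := by
    refine Van.congr v3 ?_
    filter_upwards [g₂l] with s hs
    rw [hs]
  have hord : ∀ i, TT (co i ∘ h - co i) ∈ Ord k := by
    intro i
    have hcoh : AnalyticAt ℝ (co i ∘ h) 0 := (co_analytic i _).comp h_an
    apply Ord_anti (Nat.le_succ k)
    apply Ord_of_iteratedFDeriv (hcoh.sub (co_analytic i 0))
    have v5 : Van (k + 1) (fun s => co i (h s) - co i (id s)) 0 := by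
      apply Van.comp_sub (f := co i) (a := h) (b := id) (co_analytic i _) h_an analyticAt_id _ v4
      rw [h_0]; rfl
    exact v5
  have hfinal := hk h h_an h_0 hord ⟨fun z => G₂ (H₁ z), hG_an, by
    change G₂ (H₁ p) = p
    rw [hH₁.fix, G₂0], hGψ⟩
  have h12 : ∀ᶠ s in 𝓝 0, h₁ s = h₂ s := by
    filter_upwards [hfinal, c1.eventually g₂r] with s s1 s2
    have s3 : g₂ (h₁ s) = s := s1
    rw [s3] at s2
    exact s2.symm
  have hH12 : ∀ᶠ s in 𝓝 0, (fun z => H₁ z - H₂ z) (D.ψ s) = 0 := by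
    filter_upwards [h12, r1, r2] with s s1 s2 s3
    change H₁ (D.ψ s) - H₂ (D.ψ s) = 0
    rw [← s2, ← s3, s1, sub_self]
  have hres := D.unique_vec D.h0 (F := fun z => H₁ z - H₂ z)
    (hH₁.analytic.sub hH₂.analytic) hH12
  filter_upwards [hres] with z hz
  exact sub_eq_zero.mp hz

end Loc

end Pool.Agent.Lib51bf1a
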