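import Mathlib
import Pool.Agent.Lib_51bf1a.E3_FJD

/-!
Propagation of the finite type condition along a connected manifold.
-/

namespace Pool.Agent.Lib51bf1a

open Topology Filter Pool.Agent.MP_51bf1a_an

variable {N m : ℕ} {M : Set (Fin N → ℂ)}

theorem exists_det {I : Type*} {n : ℕ} (v : I → Fin n → ℂ)
    (hspan : Submodule.span ℂ (Set.range v) = ⊤) :
    ∃ p : Fin n → I, (Matrix.of (fun a b => v (p a) b)).det ≠ 0 := by
  classical
  obtain ⟨f, hf1, hf3⟩ : ∃ f : Fin n → Fin n → ℂ, (∀ i, f i ∈ (Set.range v)) ∧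
      LinearIndependent ℂ f := by
    obtain ⟨d, hWd, f, hf1, hf3⟩ : ∃ d : ℕ,
      Module.finrank ℂ (Submodule.span ℂ (Set.range v)) = d ∧
      ∃ f : Fin d → Fin n → ℂ, (∀ i, f i ∈ (Set.range v)) ∧
        LinearIndependent ℂ f := by
      obtain ⟨f, hf1, hf2, hf3⟩ := Submodule.exists_fun_fin_finrank_span_eq ℂ (Set.range v)
      exact ⟨_, rfl, f, hf1, hf3⟩
    have hd : d = n := by
      rw [← hWd, hspan, finrank_top, Module.finrank_fin_fun]
    subst hd
    exact ⟨f, hf1, hf3⟩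
  choose p hp using hf1
  refine ⟨p, ?_⟩
  have h1 : LinearIndependent ℂ (Matrix.of (fun a b => v (p a) b)).row := by
    have : (Matrix.of (fun a b => v (p a) b)).row = f := by
      funext a
      exact hp a
    rw [this]; exact hf3
  rw [Matrix.linearIndependent_rows_iff_isUnit, Matrix.isUnit_iff_isUnit_det] at h1
  exact h1.ne_zero

theorem span_of_det {I : Type*} {n : ℕ} (v : I → Fin n → ℂ) (p : Fin n → I)
    (h : (Matrix.of (fun a b => v (p a) b)).det ≠ 0) :
    Submodule.span ℂ (Set.range v) = ⊤ := by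
  have hKli : LinearIndependent ℂ (Matrix.of (fun a b => v (p a) b)).row := by
    rw [Matrix.linearIndependent_rows_iff_isUnit, Matrix.isUnit_iff_isUnit_det]
    exact isUnit_iff_ne_zero.mpr h
  have hsp := hKli.span_eq_top_of_card_eq_finrank' (by rw [Module.finrank_fin_fun, Fintype.card_fin])
  rw [eq_top_iff, ← hsp]
  apply Submodule.span_mono
  rintro _ ⟨a, rfl⟩
  exact ⟨p a, rfl⟩

theorem dense_span {I : Type*} {n : ℕ} (r : I → (Fin m → ℝ) → Fin n → ℂ) {U : Set (Fin m → ℝ)}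
    (hU : IsPreconnected U)
    (han : ∀ i, ∀ t ∈ U, ∀ j, AnalyticAt ℝ (fun s => r i s j) t) {t : Fin m → ℝ} (ht : t ∈ U)
    (hspan : Submodule.span ℂ (Set.range (fun i => r i t)) = ⊤) (s : Fin m → ℝ) (hs : s ∈ U) :
    ∃ᶠ s' in 𝓝 s, Submodule.span ℂ (Set.range (fun i => r i s')) = ⊤ := by
  obtain ⟨p, hp⟩ := exists_det _ hspan
  intro hcon
  have h1 : ∀ᶠ s' in 𝓝 s, (Matrix.of (fun a b => r (p a) s' b)).det = 0 := by
    filter_upwards [hcon] with s' hs'
    by_contra hne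
    exact hs' (span_of_det _ p hne)
  have h2 : AnalyticOnNhd ℝ (fun s' => (Matrix.of (fun a b => r (p a) s' b)).det) U := by
    intro t' ht'
    apply an_det
    intro a b
    exact han (p a) t' ht' b
  exact hp (h2.eqOn_zero_of_preconnected_of_eventuallyEq_zero hU hs h1 ht)

/-- the finite type points accumulate everywhere. -/
theorem subset_closure_finiteType {d : ℕ} (hM : IsGenericSubmanifold M d) (hc : IsPreconnected M)
    (hft : ∃ q ∈ M, FiniteTypeAt M q) : M ⊆ closure {q | q ∈ M ∧ FiniteTypeAt M q} := by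
  set S : Set (Fin N → ℂ) := {q | q ∈ M ∧ FiniteTypeAt M q} with hS
  -- local propagation
  have hloc : ∀ p ∈ M, p ∈ closure S → ∀ᶠ z in 𝓝 p, z ∈ M → z ∈ closure S := by
    intro p hp hpS
    obtain ⟨ρ, hρ⟩ := hM p hp
    obtain ⟨m, D, hD, -⟩ := exists_loc hp hρ
    rw [← hD] at hpS ⊢
    -- a finite type point in the chart
    have h1 : ∃ᶠ z in 𝓝 (D.ψ 0), z ∈ S := mem_closure_iff_frequently.mp hpS
    obtain ⟨z, hzS, hz⟩ := (h1.and_eventually
      (D.eventually_param D.h0 (P := fun _ => True) (by simp))).exists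
    obtain ⟨t, ht, -, rfl, -⟩ := hz hzS.1
    have hsp := D.span_of_finiteType ht hzS.2
    have hcl : ∀ s ∈ D.U, D.ψ s ∈ closure S := by
      intro s hs
      have h2 := dense_span (fun l => BRl D.gen l) D.hUc
        (fun l t ht j => BRl_an (fun a => D.gen_an a ht) l j) ht hsp s hs
      rw [mem_closure_iff_frequently]
      have h3 : ∃ᶠ s' in 𝓝 s, D.ψ s' ∈ S := by
        refine (h2.and_eventually (D.eventually_U hs)).mono ?_
        rintro s' ⟨h4, h5⟩
        exact ⟨D.ψM s' h5, D.finiteType_of_span h5 h4⟩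
      exact (D.ψ_an s hs).continuousAt.tendsto.frequently h3
    filter_upwards [D.eventually_param D.h0 (P := fun _ => True) (by simp)] with z hz hzM
    obtain ⟨s, hs, -, rfl, -⟩ := hz hzM
    exact hcl s hs
  -- connectedness
  set u : Set (Fin N → ℂ) := {x | ∀ᶠ z in 𝓝 x, z ∈ M → z ∈ closure S} with hu
  have hu_open : IsOpen u := by
    rw [isOpen_iff_mem_nhds]
    intro x hx
    have h1 : ∀ᶠ y in 𝓝 x, ∀ᶠ z in 𝓝 y, z ∈ M → z ∈ closure S := eventually_eventually_nhds.mpr hx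
    exact h1
  by_contra hnot
  obtain ⟨x, hxM, hx⟩ := Set.not_subset.mp hnot
  obtain ⟨q, hqM, hq⟩ := hft
  have h1 := hc u (closure S)ᶜ hu_open isClosed_closure.isOpen_compl (by
    intro y hy
    by_cases hyc : y ∈ closure S
    · exact Or.inl (hloc y hy hyc)
    · exact Or.inr hyc) ⟨q, hqM, hloc q hqM (subset_closure ⟨hqM, hq⟩)⟩ ⟨x, hxM, hx⟩
  obtain ⟨y, hyM, hyu, hyv⟩ := h1
  exact hyv ((Eventually.self_of_nhds hyu) hyM)

/-- **Main theorem**, generically minimal case. -/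
theorem main_generic {d : ℕ} (hM : IsGenericSubmanifold M d) (hc : IsPreconnected M)
    (hnd : HolomorphicallyNondegenerate M) (hft : ∃ q ∈ M, FiniteTypeAt M q) :
    ∀ p ∈ M, FiniteJetDetermination M p := by
  intro p hp
  have hcl := subset_closure_finiteType hM hc hft hp
  obtain ⟨ρ, hρ⟩ := hM p hp
  obtain ⟨m, D, hD, -⟩ := exists_loc hp hρ
  rw [← hD] at hcl ⊢
  have h1 : ∃ᶠ z in 𝓝 (D.ψ 0), z ∈ {q | q ∈ M ∧ FiniteTypeAt M q} :=
    mem_closure_iff_frequently.mp hcl
  obtain ⟨z, hzS, hz⟩ := (h1.and_eventually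
    (D.eventually_param D.h0 (P := fun _ => True) (by simp))).exists
  obtain ⟨t, ht, -, rfl, -⟩ := hz hzS.1
  exact D.fjd hnd (D.bg_K ht hzS.2)

end Pool.Agent.Lib51bf1a
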