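import Mathlib
import Pool.Agent.Lib_51bf1a.E4_Global

/-!
The hypersurface case.
-/

namespace Pool.Agent.Lib51bf1a

open Topology Filter Pool.Agent.MP_51bf1a_an

variable {N m : ℕ} {M : Set (Fin N → ℂ)}

/-- A nonzero subspace stable under derivations contains a nonzero vector killed by them. -/
theorem exists_const_vector {J : Type*} (δ : J → Derivation ℂ (KK m) (KK m))
    (T : Submodule (KK m) (Fin N → KK m)) (hT : ∀ j, ∀ w ∈ T, (fun i => δ j (w i)) ∈ T)
    (hne : ∃ w ∈ T, w ≠ 0) : ∃ w ∈ T, w ≠ 0 ∧ ∀ j i, δ j (w i) = 0 := by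
  classical
  -- minimal support
  obtain ⟨w, ⟨hwT, hw0⟩, hmin⟩ : ∃ w : Fin N → KK m, (w ∈ T ∧ w ≠ 0) ∧
      ∀ w' : Fin N → KK m, (w' ∈ T ∧ w' ≠ 0) → (Finset.univ.filter (fun i => w i ≠ 0)).card ≤
        (Finset.univ.filter (fun i => w' i ≠ 0)).card := by
    obtain ⟨w0, hw0⟩ := hne
    have h1 := WellFounded.has_min (measure (fun w : Fin N → KK m =>
      (Finset.univ.filter (fun i => w i ≠ 0)).card)).wf {w | w ∈ T ∧ w ≠ 0} ⟨w0, hw0⟩
    obtain ⟨w, hw, hmin⟩ := h1
    exact ⟨w, hw, fun w' hw' => not_lt.mp (hmin w' hw')⟩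
  obtain ⟨i₀, hi₀⟩ : ∃ i, w i ≠ 0 := by
    by_contra hcon
    push Not at hcon
    exact hw0 (funext hcon)
  set w1 : Fin N → KK m := (w i₀)⁻¹ • w with hw1
  have hw1T : w1 ∈ T := T.smul_mem _ hwT
  have hw1i : w1 i₀ = 1 := by
    rw [hw1, Pi.smul_apply, smul_eq_mul, inv_mul_cancel₀ hi₀]
  refine ⟨w1, hw1T, ?_, ?_⟩
  · intro h
    rw [h] at hw1i
    exact zero_ne_one hw1i
  · intro j
    by_contra hcon
    push Not at hcon
    obtain ⟨i, hi⟩ := hcon
    have h1 := hmin (fun i => δ j (w1 i)) ⟨hT j w1 hw1T, fun h => hi (congrFun h i)⟩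
    have h2 : (Finset.univ.filter (fun i => δ j (w1 i) ≠ 0)).card <
        (Finset.univ.filter (fun i => w i ≠ 0)).card := by
      apply Finset.card_lt_card
      rw [Finset.ssubset_iff_of_subset]
      · refine ⟨i₀, by simp [hi₀], ?_⟩
        simp [hw1i]
      · intro i' hi'
        rw [Finset.mem_filter] at hi' ⊢
        refine ⟨Finset.mem_univ _, fun h0 => hi'.2 ?_⟩
        rw [hw1, Pi.smul_apply, h0, smul_zero, map_zero]
    exact absurd h1 (not_le.mpr h2)

/-- dimension of the annihilator. -/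
theorem finrank_kerS {n : ℕ} (ψ : Fin n → KK m) :
    m ≤ Module.finrank (KK m) (kerS ψ) + n := by
  let L : (Fin m → KK m) →ₗ[KK m] (Fin n → KK m) :=
    { toFun := fun a j => DD a (ψ j)
      map_add' := by
        intro a b; funext j
        rw [DD_add]; rfl
      map_smul' := by
        intro c a; funext j
        rw [DD_smul]; rfl }
  have hker : LinearMap.ker L = kerS ψ := by
    ext a
    rw [LinearMap.mem_ker, mem_kerS]
    constructor
    · intro h j; exact congrFun h j
    · intro h; funext j; exact h j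
  have h1 := LinearMap.finrank_range_add_finrank_ker L
  have h2 : Module.finrank (KK m) (LinearMap.range L) ≤ n := by
    have := Submodule.finrank_le (LinearMap.range L)
    rwa [Module.finrank_fin_fun] at this
  rw [hker, Module.finrank_fin_fun] at h1
  omega

namespace Loc

variable (D : Loc N m M)

/-- reconstruction of a field from its action on the coordinates. -/
theorem recon (y : Fin m → KK m) (k : Fin m) :
    y k = ∑ j, hf (D.Sc k j) * DD y (D.psi j) +
      ∑ j, hf (fun s => (starRingEnd ℂ) (D.Sc k j s)) * DD y (D.phi j) := by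
  have h0 := D.h0
  have hgB : ∀ j, DD y (D.psi j) = ∑ l, y l * hf (dA l (D.pc j)) := by
    intro j
    rw [DD_apply]
    apply Finset.sum_congr rfl
    intro l _
    rw [hf_dA (D.pc_an h0 j)]
    rfl
  have hhB : ∀ j, DD y (D.phi j) =
      ∑ l, y l * hf (fun s => (starRingEnd ℂ) (dA l (D.pc j) s)) := by
    intro j
    rw [DD_apply]
    apply Finset.sum_congr rfl
    intro l _
    congr 1
    unfold phi
    rw [← hf_dA (analyticAt_conj (D.pc_an h0 j))]
    apply hf_congr
    filter_upwards [(D.pc_an h0 j).eventually_analyticAt] with s hs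
    exact dA_conj l hs.differentiableAt
  have h1 : ∀ l, ∑ j, hf (D.Sc k j) * hf (dA l (D.pc j)) +
        ∑ j, hf (fun s => (starRingEnd ℂ) (D.Sc k j s)) *
          hf (fun s => (starRingEnd ℂ) (dA l (D.pc j) s)) = if k = l then 1 else 0 := by
    intro l
    have h2 : hf (fun s => ∑ j, D.Sc k j s * dA l (D.pc j) s +
          ∑ j, (starRingEnd ℂ) (D.Sc k j s) * (starRingEnd ℂ) (dA l (D.pc j) s)) =
          hf (fun _ => if k = l then 1 else 0) := by
      apply hf_congr
      filter_upwards [D.eventually_U h0] with s hs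
      exact D.Sc_id hs k l
    have a1 : ∀ j, AnalyticAt ℝ (fun s => D.Sc k j s * dA l (D.pc j) s) 0 := fun j =>
      (D.Sc_an h0 k j).mul (dA_analytic l (D.pc_an h0 j))
    have a2 : ∀ j, AnalyticAt ℝ (fun s => (starRingEnd ℂ) (D.Sc k j s) *
          (starRingEnd ℂ) (dA l (D.pc j) s)) 0 := fun j =>
      (analyticAt_conj (D.Sc_an h0 k j)).mul (analyticAt_conj (dA_analytic l (D.pc_an h0 j)))
    rw [hf_add (an_sum _ (fun j _ => a1 j)) (an_sum _ (fun j _ => a2 j)),
      hf_sum _ (fun j _ => a1 j), hf_sum _ (fun j _ => a2 j)] at h2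
    have h3 : ∀ j, hf (fun s => D.Sc k j s * dA l (D.pc j) s) =
        hf (D.Sc k j) * hf (dA l (D.pc j)) := fun j =>
      hf_mul (D.Sc_an h0 k j) (dA_analytic l (D.pc_an h0 j))
    have h4 : ∀ j, hf (fun s => (starRingEnd ℂ) (D.Sc k j s) *
        (starRingEnd ℂ) (dA l (D.pc j) s)) = hf (fun s => (starRingEnd ℂ) (D.Sc k j s)) *
        hf (fun s => (starRingEnd ℂ) (dA l (D.pc j) s)) := fun j =>
      hf_mul (analyticAt_conj (D.Sc_an h0 k j)) (analyticAt_conj (dA_analytic l (D.pc_an h0 j)))
    simp only [h3, h4] at h2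
    rw [h2]
    by_cases hkl : k = l
    · rw [if_pos hkl]
      simp only [hkl, if_true]
      exact hf_one
    · simp only [if_neg hkl]
      exact hf_zero
  have h5 : ∑ j, hf (D.Sc k j) * DD y (D.psi j) +
      ∑ j, hf (fun s => (starRingEnd ℂ) (D.Sc k j s)) * DD y (D.phi j) =
      ∑ l, y l * (∑ j, hf (D.Sc k j) * hf (dA l (D.pc j)) +
        ∑ j, hf (fun s => (starRingEnd ℂ) (D.Sc k j s)) *
          hf (fun s => (starRingEnd ℂ) (dA l (D.pc j) s))) := by
    simp only [hgB, hhB, mul_add, Finset.sum_add_distrib, Finset.mul_sum]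
    congr 1
    · rw [Finset.sum_comm]
      apply Finset.sum_congr rfl; intro l _
      apply Finset.sum_congr rfl; intro j _
      ring
    · rw [Finset.sum_comm]
      apply Finset.sum_congr rfl; intro l _
      apply Finset.sum_congr rfl; intro j _
      ring
  rw [h5]
  simp only [h1, mul_ite, mul_one, mul_zero, Finset.sum_ite_eq, Finset.mem_univ, if_true]

theorem inf_eq_zero {y : Fin m → KK m} (h1 : y ∈ kerS D.psi) (h2 : y ∈ kerS D.phi) : y = 0 := by
  funext k
  rw [D.recon y k]
  have e1 : ∀ j, DD y (D.psi j) = 0 := h1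
  have e2 : ∀ j, DD y (D.phi j) = 0 := h2
  simp [e1, e2]

theorem hat_Lk_apply (k i : Fin m) : hat (D.Lk k) i = (if i = k then 1 else 0) -
    ∑ j, hf (fun s => D.R s i j) * hf (dA k (D.pc j)) := by
  have h0 := D.h0
  change hf (fun s => (if i = k then 1 else 0) - ∑ j, D.R s i j * dA k (D.pc j) s) = _
  have a1 : ∀ j, AnalyticAt ℝ (fun s => D.R s i j * dA k (D.pc j) s) 0 := fun j =>
    (D.R_an 0 h0 i j).mul (dA_analytic k (D.pc_an h0 j))
  rw [hf_sub analyticAt_const (an_sum _ (fun j _ => a1 j)), hf_sum _ (fun j _ => a1 j)]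
  congr 1
  · by_cases hij : i = k
    · simp only [hij, if_true]; exact hf_one
    · simp only [if_neg hij]; exact hf_zero
  · apply Finset.sum_congr rfl; intro j _
    exact hf_mul (D.R_an 0 h0 i j) (dA_analytic k (D.pc_an h0 j))

theorem hat_Lkbar_apply (k i : Fin m) : hat (D.gen (Sum.inr k)) i = (if i = k then 1 else 0) -
    ∑ j, hf (fun s => (starRingEnd ℂ) (D.R s i j)) *
      hf (fun s => (starRingEnd ℂ) (dA k (D.pc j) s)) := by
  have h0 := D.h0
  have e0 : (fun s => D.gen (Sum.inr k) s i) = (fun s => (if i = k then 1 else 0) -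
      ∑ j, (starRingEnd ℂ) (D.R s i j) * (starRingEnd ℂ) (dA k (D.pc j) s)) := by
    funext s
    change (starRingEnd ℂ) ((if i = k then 1 else 0) - ∑ j, D.R s i j * dA k (D.pc j) s) = _
    rw [map_sub, map_sum]
    congr 1
    · by_cases hij : i = k
      · simp only [hij, if_true, map_one]
      · simp only [if_neg hij, map_zero]
    · apply Finset.sum_congr rfl; intro j _
      rw [map_mul]
  change hf (fun s => D.gen (Sum.inr k) s i) = _
  rw [e0]
  have a1 : ∀ j, AnalyticAt ℝ (fun s => (starRingEnd ℂ) (D.R s i j) *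
      (starRingEnd ℂ) (dA k (D.pc j) s)) 0 := fun j =>
    (analyticAt_conj (D.R_an 0 h0 i j)).mul (analyticAt_conj (dA_analytic k (D.pc_an h0 j)))
  rw [hf_sub analyticAt_const (an_sum _ (fun j _ => a1 j)), hf_sum _ (fun j _ => a1 j)]
  congr 1
  · by_cases hij : i = k
    · simp only [hij, if_true]; exact hf_one
    · simp only [if_neg hij]; exact hf_zero
  · apply Finset.sum_congr rfl; intro j _
    exact hf_mul (analyticAt_conj (D.R_an 0 h0 i j))
      (analyticAt_conj (dA_analytic k (D.pc_an h0 j)))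

theorem kerS_psi_span {a : Fin m → KK m} (ha : a ∈ kerS D.psi) :
    a = ∑ k, a k • hat (D.Lk k) := by
  have h0 := D.h0
  have h1 : ∀ j, ∑ k, a k * hf (dA k (D.pc j)) = 0 := by
    intro j
    have := ha j
    rw [DD_apply] at this
    rw [← this]
    apply Finset.sum_congr rfl
    intro k _
    rw [hf_dA (D.pc_an h0 j)]
    rfl
  funext i
  rw [Finset.sum_apply]
  simp only [Pi.smul_apply, smul_eq_mul, D.hat_Lk_apply, mul_sub, Finset.sum_sub_distrib,
    Finset.mul_sum, mul_ite, mul_one, mul_zero, Finset.sum_ite_eq, Finset.mem_univ, if_true]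
  rw [Finset.sum_comm]
  have h2 : ∀ j, ∑ k, a k * (hf (fun s => D.R s i j) * hf (dA k (D.pc j))) = 0 := by
    intro j
    have : ∑ k, a k * (hf (fun s => D.R s i j) * hf (dA k (D.pc j))) =
        hf (fun s => D.R s i j) * ∑ k, a k * hf (dA k (D.pc j)) := by
      rw [Finset.mul_sum]
      apply Finset.sum_congr rfl; intro k _; ring
    rw [this, h1 j, mul_zero]
  simp only [h2, Finset.sum_const_zero, sub_zero]

theorem kerS_phi_span {a : Fin m → KK m} (ha : a ∈ kerS D.phi) :
    a = ∑ k, a k • hat (D.gen (Sum.inr k)) := by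
  have h0 := D.h0
  have h1 : ∀ j, ∑ k, a k * hf (fun s => (starRingEnd ℂ) (dA k (D.pc j) s)) = 0 := by
    intro j
    have := ha j
    rw [DD_apply] at this
    rw [← this]
    apply Finset.sum_congr rfl
    intro l _
    congr 1
    unfold phi
    rw [← hf_dA (analyticAt_conj (D.pc_an h0 j))]
    apply hf_congr
    filter_upwards [(D.pc_an h0 j).eventually_analyticAt] with s hs
    exact (dA_conj l hs.differentiableAt).symm
  funext i
  rw [Finset.sum_apply]
  simp only [Pi.smul_apply, smul_eq_mul, D.hat_Lkbar_apply, mul_sub, Finset.sum_sub_distrib,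
    Finset.mul_sum, mul_ite, mul_one, mul_zero, Finset.sum_ite_eq, Finset.mem_univ, if_true]
  rw [Finset.sum_comm]
  have h2 : ∀ j, ∑ k, a k * (hf (fun s => (starRingEnd ℂ) (D.R s i j)) *
      hf (fun s => (starRingEnd ℂ) (dA k (D.pc j) s))) = 0 := by
    intro j
    have : ∑ k, a k * (hf (fun s => (starRingEnd ℂ) (D.R s i j)) *
        hf (fun s => (starRingEnd ℂ) (dA k (D.pc j) s))) =
        hf (fun s => (starRingEnd ℂ) (D.R s i j)) *
          ∑ k, a k * hf (fun s => (starRingEnd ℂ) (dA k (D.pc j) s)) := by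
      rw [Finset.mul_sum]
      apply Finset.sum_congr rfl; intro k _; ring
    rw [this, h1 j, mul_zero]
  simp only [h2, Finset.sum_const_zero, sub_zero]

/-- In the hypersurface case nondegeneracy forces the bracket condition. -/
theorem bg_hyper (hnd : HolomorphicallyNondegenerate M) (hm : m + 1 = 2 * N) (hN : 2 ≤ N) :
    Submodule.span (KK m) (Set.range (bcm (fun a => hat (D.gen a)))) = ⊤ := by
  by_contra hne
  set S : Submodule (KK m) (Fin m → KK m) :=
    Submodule.span (KK m) (Set.range (bcm (fun a => hat (D.gen a)))) with hS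
  have hgenS : ∀ a, hat (D.gen a) ∈ S := fun a => Submodule.subset_span ⟨[a], rfl⟩
  have h1S : kerS D.psi ≤ S := by
    intro a ha
    rw [D.kerS_psi_span ha]
    exact Submodule.sum_mem _ (fun k _ => Submodule.smul_mem _ _ (hgenS (Sum.inl k)))
  have h2S : kerS D.phi ≤ S := by
    intro a ha
    rw [D.kerS_phi_span ha]
    exact Submodule.sum_mem _ (fun k _ => Submodule.smul_mem _ _ (hgenS (Sum.inr k)))
  have hclS : ∀ a, ∀ x ∈ S, br (hat (D.gen a)) x ∈ S := by
    intro a x hx
    induction hx using Submodule.span_induction with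
    | mem x hx =>
      obtain ⟨l, rfl⟩ := hx
      cases l with
      | nil =>
        have : br (hat (D.gen a)) (bcm (fun a => hat (D.gen a)) []) = 0 := by
          funext j
          simp [br, bcm, DD_zero]
        rw [this]; exact Submodule.zero_mem _
      | cons i l => exact Submodule.subset_span ⟨a :: i :: l, rfl⟩
    | zero =>
      have : br (hat (D.gen a)) (0 : Fin m → KK m) = 0 := by
        funext j
        simp [br, DD_zero]
      rw [this]; exact Submodule.zero_mem _
    | add u v _ _ hu hv => rw [br_add_right]; exact Submodule.add_mem _ hu hv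
    | smul c u hu' hu =>
      rw [br_smul_right]
      exact Submodule.add_mem _ (Submodule.smul_mem _ _ hu) (Submodule.smul_mem _ _ hu')
  -- dimension count
  have hsup : kerS D.psi ⊔ kerS D.phi = S := by
    apply Submodule.eq_of_le_of_finrank_le (sup_le h1S h2S)
    have h1 := Submodule.finrank_sup_add_finrank_inf_eq (kerS D.psi) (kerS D.phi)
    have h2 : kerS D.psi ⊓ kerS D.phi = ⊥ := by
      rw [eq_bot_iff]
      rintro y ⟨hy1, hy2⟩
      exact D.inf_eq_zero hy1 hy2
    rw [h2, finrank_bot, add_zero] at h1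
    have h3 := finrank_kerS D.psi
    have h4 := finrank_kerS D.phi
    have h5 : Module.finrank (KK m) S < m := by
      have := Submodule.finrank_lt hne
      rwa [Module.finrank_fin_fun] at this
    omega
  -- the space T
  set T : Submodule (KK m) (Fin N → KK m) :=
    { carrier := {w | ∃ y ∈ kerS D.phi, ∀ j, w j = DD y (D.psi j)}
      add_mem' := by
        rintro u v ⟨y, hy, h1⟩ ⟨z, hz, h2⟩
        refine ⟨y + z, Submodule.add_mem _ hy hz, fun j => ?_⟩
        rw [Pi.add_apply, h1 j, h2 j, DD_add, Derivation.add_apply]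
      zero_mem' := ⟨0, Submodule.zero_mem _, fun j => by rw [DD_zero]; rfl⟩
      smul_mem' := by
        rintro c u ⟨y, hy, h1⟩
        refine ⟨c • y, Submodule.smul_mem _ _ hy, fun j => ?_⟩
        rw [Pi.smul_apply, h1 j, DD_smul, Derivation.smul_apply] } with hT
  have hTs : ∀ k, ∀ w ∈ T, (fun i => DD (hat (D.Lk k)) (w i)) ∈ T := by
    rintro k w ⟨y, hy, hw⟩
    have h1 : br (hat (D.Lk k)) y ∈ kerS D.psi ⊔ kerS D.phi := by
      rw [hsup]; exact hclS (Sum.inl k) y (h2S hy)
    obtain ⟨a, ha, b, hb, hab⟩ := Submodule.mem_sup.mp h1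
    refine ⟨b, hb, fun j => ?_⟩
    have e1 : DD (br (hat (D.Lk k)) y) (D.psi j) = DD (hat (D.Lk k)) (DD y (D.psi j)) := by
      rw [DD_br, Derivation.commutator_apply, D.hat_Lk_mem k j, map_zero, sub_zero]
    change DD (hat (D.Lk k)) (w j) = DD b (D.psi j)
    rw [hw j, ← e1, ← hab, DD_add, Derivation.add_apply, ha j, zero_add]
  have hTne : ∃ w ∈ T, w ≠ 0 := by
    have h4 := finrank_kerS D.phi
    have h5 : 0 < Module.finrank (KK m) (kerS D.phi) := by omega
    have h6 : kerS D.phi ≠ ⊥ := by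
      intro h; rw [h, finrank_bot] at h5; exact lt_irrefl _ h5
    obtain ⟨y, hy, hy0⟩ := (Submodule.ne_bot_iff _).mp h6
    refine ⟨fun j => DD y (D.psi j), ⟨y, hy, fun j => rfl⟩, fun h => hy0 ?_⟩
    exact D.inf_eq_zero (fun j => congrFun h j) hy
  obtain ⟨w, ⟨y, hy, hw⟩, hw0, hwc⟩ := exists_const_vector (fun k => DD (hat (D.Lk k))) T hTs hTne
  have hy0 : y = 0 := by
    apply D.nd_K hnd y hy
    intro l hl j
    rw [DD_br, Derivation.commutator_apply, hl j, map_zero, sub_zero, ← hw j]
    have h1 := D.kerS_psi_span hl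
    rw [DD_apply]
    have h2 : ∀ x : KK m, ∑ i, l i * pdK i x = ∑ k, l k * DD (hat (D.Lk k)) x := by
      intro x
      conv_lhs => rw [← DD_apply, h1]
      have h3 : ∀ (s : Finset (Fin m)), DD (∑ k ∈ s, l k • hat (D.Lk k)) x =
          ∑ k ∈ s, l k * DD (hat (D.Lk k)) x := by
        intro s
        induction s using Finset.induction_on with
        | empty => simp [DD_zero]
        | insert a s ha ih =>
          rw [Finset.sum_insert ha, Finset.sum_insert ha, DD_add, Derivation.add_apply, ih,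
            DD_smul, Derivation.smul_apply, smul_eq_mul]
      exact h3 Finset.univ
    rw [h2]
    apply Finset.sum_eq_zero
    intro k _
    rw [hwc k j, mul_zero]
  apply hw0
  funext j
  rw [hw j, hy0, DD_zero]
  rfl

end Loc

/-- **Main theorem**, hypersurface case. -/
theorem main_hyper (hM : IsGenericSubmanifold M 1) (hN : 2 ≤ N)
    (hnd : HolomorphicallyNondegenerate M) : ∀ p ∈ M, FiniteJetDetermination M p := by
  intro p hp
  obtain ⟨ρ, hρ⟩ := hM p hp
  obtain ⟨m, D, hD, hm⟩ := exists_loc hp hρ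
  rw [← hD]
  exact D.fjd hnd (D.bg_hyper hnd hm hN)

end Pool.Agent.Lib51bf1a
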