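import Mathlib
import Pool.Agent.Lib_51bf1a.E5_Hyper

/-!
A nowhere minimal holomorphically nondegenerate submanifold where finite jet determination fails.
-/

namespace Pool.Agent.Lib51bf1a

open Topology Filter Pool.Agent.MP_51bf1a_an

/-- The product of the Heisenberg hypersurface with a real line. -/
def Mex : Set (Fin 3 → ℂ) := {z | (z 1).im = Complex.normSq (z 0) ∧ (z 2).im = 0}

theorem dA_add' {m : ℕ} {f g : (Fin m → ℝ) → ℂ} {x : Fin m → ℝ} (i : Fin m)
    (hf : AnalyticAt ℝ f x) (hg : AnalyticAt ℝ g x) : dA i (f + g) x = dA i f x + dA i g x :=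
  (dA_add i hf hg).eq_of_nhds

theorem dA_mul' {m : ℕ} {f g : (Fin m → ℝ) → ℂ} {x : Fin m → ℝ} (i : Fin m)
    (hf : AnalyticAt ℝ f x) (hg : AnalyticAt ℝ g x) :
    dA i (f * g) x = dA i f x * g x + f x * dA i g x :=
  (dA_mul i hf hg).eq_of_nhds

/-- parametrisation components. -/
noncomputable def ex0 : (Fin 4 → ℝ) → ℂ := co 0 + (fun _ => Complex.I) * co 1
noncomputable def ex1 : (Fin 4 → ℝ) → ℂ :=
  co 2 + (fun _ => Complex.I) * (co 0 * co 0 + co 1 * co 1)
noncomputable def ex2 : (Fin 4 → ℝ) → ℂ := co 3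

theorem ex0_an (t : Fin 4 → ℝ) : AnalyticAt ℝ ex0 t :=
  (co_analytic 0 t).add (analyticAt_const.mul (co_analytic 1 t))

theorem ex1_an (t : Fin 4 → ℝ) : AnalyticAt ℝ ex1 t :=
  (co_analytic 2 t).add (analyticAt_const.mul
    (((co_analytic 0 t).mul (co_analytic 0 t)).add ((co_analytic 1 t).mul (co_analytic 1 t))))

theorem ex2_an (t : Fin 4 → ℝ) : AnalyticAt ℝ ex2 t := co_analytic 3 t

theorem dA_ex0 (k : Fin 4) (t : Fin 4 → ℝ) :
    dA k ex0 t = (if k = 0 then 1 else 0) + Complex.I * (if k = 1 then 1 else 0) := by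
  unfold ex0
  rw [dA_add' k (co_analytic 0 t) (analyticAt_const.mul (co_analytic 1 t)),
    dA_mul' k analyticAt_const (co_analytic 1 t), dA_const, dA_co, dA_co]
  simp

theorem dA_ex1 (k : Fin 4) (t : Fin 4 → ℝ) :
    dA k ex1 t = (if k = 2 then 1 else 0) +
      Complex.I * (2 * (t 0 : ℂ) * (if k = 0 then 1 else 0) +
        2 * (t 1 : ℂ) * (if k = 1 then 1 else 0)) := by
  unfold ex1
  have a0 := (co_analytic 0 t).mul (co_analytic (m := 4) 0 t)
  have a1 := (co_analytic 1 t).mul (co_analytic (m := 4) 1 t)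
  rw [dA_add' k (co_analytic 2 t) (analyticAt_const.mul (a0.add a1)),
    dA_mul' k analyticAt_const (a0.add a1), dA_const, dA_co, dA_add' k a0 a1,
    dA_mul' k (co_analytic 0 t) (co_analytic 0 t),
    dA_mul' k (co_analytic 1 t) (co_analytic 1 t), dA_co, dA_co]
  simp only [Pi.add_apply, Pi.mul_apply, Pi.zero_apply, co]
  ring

theorem dA_ex2 (k : Fin 4) (t : Fin 4 → ℝ) :
    dA k ex2 t = if k = 3 then 1 else 0 := by
  unfold ex2
  rw [dA_co]

/-- the parametrisation. -/
noncomputable def exψ : (Fin 4 → ℝ) → (Fin 3 → ℂ) := fun t => ![ex0 t, ex1 t, ex2 t]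

def exσ : (Fin 3 → ℂ) → (Fin 4 → ℝ) := fun z => ![(z 0).re, (z 0).im, (z 1).re, (z 2).re]

theorem exσ_exψ (t : Fin 4 → ℝ) : exσ (exψ t) = t := by
  funext i
  fin_cases i <;> simp [exσ, exψ, ex0, ex1, ex2, co, Complex.mul_re, Complex.mul_im]

theorem exψ_mem (t : Fin 4 → ℝ) : exψ t ∈ Mex := by
  constructor
  · simp [exψ, ex0, ex1, co, Complex.normSq_apply]
  · simp [exψ, ex2, co]

theorem exψ_exσ (z : Fin 3 → ℂ) (hz : z ∈ Mex) : exψ (exσ z) = z := by
  obtain ⟨h1, h2⟩ := hz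
  funext i
  fin_cases i
  · apply Complex.ext <;> simp [exσ, exψ, ex0, co]
  · apply Complex.ext
    · simp [exσ, exψ, ex1, co]
    · simp [exσ, exψ, ex1, co, h1, Complex.normSq_apply]
  · apply Complex.ext
    · simp [exσ, exψ, ex2, co]
    · simp [exσ, exψ, ex2, co, h2]

theorem exψ_an (t : Fin 4 → ℝ) : AnalyticAt ℝ exψ t := by
  apply AnalyticAt.pi
  intro i
  fin_cases i
  · exact ex0_an t
  · exact ex1_an t
  · exact ex2_an t

theorem exσ_an (z : Fin 3 → ℂ) : AnalyticAt ℝ exσ z := by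
  have hp : ∀ i : Fin 3, AnalyticAt ℝ (fun z : Fin 3 → ℂ => z i) z := fun i =>
    (ContinuousLinearMap.proj (R := ℝ) (φ := fun _ : Fin 3 => ℂ) i).analyticAt _
  apply AnalyticAt.pi
  intro i
  fin_cases i
  · exact analyticAt_re (hp 0)
  · exact (Complex.imCLM.analyticAt _).comp (hp 0)
  · exact analyticAt_re (hp 1)
  · exact analyticAt_re (hp 2)

/-- the right inverse. -/
noncomputable def exR (t : Fin 4 → ℝ) (k : Fin 4) (j : Fin 3) : ℂ :=
  ![![1, 0, 0], ![0, 0, 0], ![-2 * Complex.I * (t 0 : ℂ), 1, 0], ![0, 0, 1]] k j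

/-- the global chart. -/
noncomputable def exD : Loc 3 4 Mex where
  ψ := exψ
  σ := exσ
  U := Set.univ
  R := exR
  hU := isOpen_univ
  hUc := isPreconnected_univ
  h0 := trivial
  ψ_an := fun t _ => exψ_an t
  σ_an := fun t _ => exσ_an _
  σψ := fun t _ => exσ_exψ t
  ψM := fun t _ => exψ_mem t
  ψσ := fun t _ => Eventually.of_forall (fun z hz => exψ_exσ z hz)
  R_an := by
    intro t _ k j
    unfold exR
    fin_cases k <;> fin_cases j <;> simp only [Matrix.cons_val_zero, Matrix.cons_val_one,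
      Matrix.cons_val, Fin.zero_eta, Fin.mk_one, Fin.reduceFinMk]
    all_goals first
      | exact analyticAt_const
      | exact analyticAt_const.mul (co_analytic 0 t)
  BR := by
    intro t _ j j'
    have e0 : (fun s => exψ s 0) = ex0 := rfl
    have e1 : (fun s => exψ s 1) = ex1 := rfl
    have e2 : (fun s => exψ s 2) = ex2 := rfl
    fin_cases j <;> fin_cases j' <;>
      simp [Fin.sum_univ_four, e0, e1, e2, dA_ex0, dA_ex1, dA_ex2, exR] <;> ring_nf

theorem exNondeg : HolomorphicallyNondegenerate Mex := by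
  intro q hq X hX htan
  set t := exσ q with ht
  have hqt : exD.ψ t = q := exψ_exσ q hq
  rw [← hqt] at hX htan ⊢
  have hU : t ∈ exD.U := trivial
  have hψ := exD.ψ_an t hU
  have p0 : exD.pc 0 = ex0 := rfl
  have p1 : exD.pc 1 = ex1 := rfl
  have p2 : exD.pc 2 = ex2 := rfl
  rw [eventually_nhdsWithin_iff] at htan
  have htan' : ∀ᶠ s in 𝓝 t, X (exD.ψ s) 2 = 0 ∧
      X (exD.ψ s) 1 = 2 * Complex.I * ((s 0 : ℂ) - Complex.I * (s 1 : ℂ)) * X (exD.ψ s) 0 := by
    filter_upwards [hψ.continuousAt.eventually htan] with s hs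
    have h1 := (exD.mem_cxT (t := s) trivial).mp (hs (exD.ψM s trivial))
    obtain ⟨x, y, hx, hy⟩ := h1
    have fx : ∀ j, X (exD.ψ s) j = ∑ k, dA k (exD.pc j) s * (x k : ℂ) := by
      intro j; rw [← hx]; exact exD.fderiv_ψ trivial x j
    have fy : ∀ j, Complex.I * X (exD.ψ s) j = ∑ k, dA k (exD.pc j) s * (y k : ℂ) := by
      intro j
      have : Complex.I * X (exD.ψ s) j = (Complex.I • X (exD.ψ s)) j := rfl
      rw [this, ← hy]; exact exD.fderiv_ψ trivial y j
    have x0 := fx 0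
    have x1 := fx 1
    have x2 := fx 2
    have y0 := fy 0
    have y1 := fy 1
    have y2 := fy 2
    rw [p0] at x0 y0
    rw [p1] at x1 y1
    rw [p2] at x2 y2
    simp [Fin.sum_univ_four, dA_ex0, dA_ex1, dA_ex2] at x0 x1 x2 y0 y1 y2
    refine ⟨?_, ?_⟩
    · rw [x2] at y2 ⊢
      have := congrArg Complex.im y2
      simp at this
      rw [this]; simp
    · rw [x0] at y0 ⊢
      rw [x1] at y1 ⊢
      have r0 := congrArg Complex.re y0
      have i0 := congrArg Complex.im y0
      have i1 := congrArg Complex.im y1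
      simp at r0 i0 i1
      apply Complex.ext
      · simp
        rw [← r0, ← i0] at i1
        linarith
      · simp
        ring
  have hXj : ∀ j, AnalyticAt ℂ (fun z => X z j) (exD.ψ t) := fun j =>
    ((ContinuousLinearMap.proj (R := ℂ) (φ := fun _ : Fin 3 => ℂ) j).analyticAt _).comp hX
  -- X₀ vanishes along M
  have h0 : ∀ᶠ s in 𝓝 t, X (exD.ψ s) 0 = 0 := by
    have hev : ∀ᶠ s in 𝓝 t, ∀ j, AnalyticAt ℂ (fun z => X z j) (exD.ψ s) :=
      eventually_all.mpr (fun j => hψ.continuousAt.eventually (hXj j).eventually_analyticAt)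
    filter_upwards [eventually_eventually_nhds.mpr htan', hev] with s h1 h2
    have hψs := exD.ψ_an s trivial
    have e1 : (fun s => X (exD.ψ s) 1) =ᶠ[𝓝 s] (fun _ => 2 * Complex.I) *
        ((co 0 + (fun _ => - Complex.I) * co 1) * (fun s => X (exD.ψ s) 0)) := by
      filter_upwards [h1] with s' hs'
      rw [hs'.2]
      simp only [Pi.mul_apply, Pi.add_apply, co]
      ring
    have hX0 : AnalyticAt ℝ (fun s => X (exD.ψ s) 0) s :=
      AnalyticAt.comp (g := fun z => X z 0) (f := exD.ψ) ((h2 0).restrictScalars (𝕜 := ℝ)) hψs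
    have hco : AnalyticAt ℝ (co 0 + (fun _ => - Complex.I) * co 1 : (Fin 4 → ℝ) → ℂ) s :=
      (co_analytic 0 s).add (analyticAt_const.mul (co_analytic 1 s))
    have e2 : ∀ k : Fin 4, ∑ q, fderiv ℂ (fun z => X z 1) (exD.ψ s) (Pi.single q 1) *
        dA k (exD.pc q) s = 2 * Complex.I * (((if k = 0 then 1 else 0) +
          (- Complex.I) * (if k = 1 then 1 else 0)) * X (exD.ψ s) 0 +
          ((s 0 : ℂ) - Complex.I * (s 1 : ℂ)) *
          ∑ q, fderiv ℂ (fun z => X z 0) (exD.ψ s) (Pi.single q 1) * dA k (exD.pc q) s) := by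
      intro k
      have h3 := dA_holo_comp (g := fun z => X z 1) hψs.differentiableAt (h2 1).differentiableAt k
      have h4 := dA_holo_comp (g := fun z => X z 0) hψs.differentiableAt (h2 0).differentiableAt k
      rw [(dA_congr k e1).eq_of_nhds, dA_mul' k analyticAt_const (hco.mul hX0),
        dA_mul' k hco hX0,
        dA_add' k (co_analytic 0 s) (analyticAt_const.mul (co_analytic 1 s)),
        dA_mul' k analyticAt_const (co_analytic 1 s), dA_const,
        dA_const, dA_co, dA_co, h4] at h3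
      simp only [Pi.add_apply, Pi.mul_apply, Pi.zero_apply, co] at h3
      have e5 : ∀ F : (Fin 3 → ℂ) → ℂ, ∑ q, fderiv ℂ F (exD.ψ s) (Pi.single q 1) *
          dA k (exD.pc q) s = ∑ q, fderiv ℂ F (exD.ψ s) (Pi.single q 1) *
          dA k (fun s => exD.ψ s q) s := fun F => rfl
      rw [e5, e5, ← h3]
      simp only [eq_comm (a := k)]
      ring
    have k0 := e2 0
    have k1 := e2 1
    have k2 := e2 2
    simp only [Fin.sum_univ_three, p0, p1, p2, dA_ex0, dA_ex1, dA_ex2] at k0 k1 k2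
    simp at k0 k1 k2
    have I2 : Complex.I * Complex.I = -1 := Complex.I_mul_I
    have hfin : 4 * Complex.I * X (exD.ψ s) 0 = 0 := by
      generalize (fderiv ℂ (fun z => X z 1) (exD.ψ s)) (Pi.single 0 1) = A0 at k0 k1 k2
      generalize (fderiv ℂ (fun z => X z 1) (exD.ψ s)) (Pi.single 1 1) = A1 at k0 k1 k2
      generalize (fderiv ℂ (fun z => X z 0) (exD.ψ s)) (Pi.single 0 1) = C0 at k0 k1 k2
      generalize (fderiv ℂ (fun z => X z 0) (exD.ψ s)) (Pi.single 1 1) = C1 at k0 k1 k2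
      linear_combination (-1 : ℂ) * k0 - Complex.I * k1 +
        (2 * Complex.I * (s 0 : ℂ) - 2 * (s 1 : ℂ)) * k2 +
        (A0 + 2 * (s 1 : ℂ) * A1 + 2 * Complex.I * X (exD.ψ s) 0 -
          2 * Complex.I * ((s 0 : ℂ) - Complex.I * (s 1 : ℂ)) * (C0 + 2 * (s 1 : ℂ) * C1)) * I2
    have h4 : (4 : ℂ) * Complex.I ≠ 0 := mul_ne_zero (by norm_num) Complex.I_ne_zero
    exact (mul_eq_zero.mp hfin).resolve_left h4
  have hall : ∀ᶠ s in 𝓝 t, X (exD.ψ s) = 0 := by
    filter_upwards [h0, htan'] with s h1 h2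
    funext j
    fin_cases j
    · exact h1
    · change X (exD.ψ s) 1 = 0
      rw [h2.2, h1, mul_zero]
    · exact h2.1
  exact exD.unique_vec trivial hX hall

end Pool.Agent.Lib51bf1a
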