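import Mathlib
import Pool.Agent.Lib_51bf1a.E6_Example

/-!
Failure of finite jet determination in the nowhere minimal example.
-/

namespace Pool.Agent.Lib51bf1a

open Topology Filter Pool.Agent.MP_51bf1a_an

theorem exConnected : IsConnected Mex := by
  have h1 : Mex = Set.range exψ := by
    ext z
    constructor
    · intro hz; exact ⟨exσ z, exψ_exσ z hz⟩
    · rintro ⟨t, rfl⟩; exact exψ_mem t
  rw [h1]
  apply isConnected_range
  rw [continuous_iff_continuousAt]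
  intro t
  exact (exψ_an t).continuousAt

theorem exGeneric : IsGenericSubmanifold Mex 2 := by
  intro q hq
  set ρ : (Fin 3 → ℂ) → (Fin 2 → ℝ) := fun z =>
    ![(z 1).im - ((z 0).re * (z 0).re + (z 0).im * (z 0).im), (z 2).im] with hρ
  set reL : Fin 3 → (Fin 3 → ℂ) →L[ℝ] ℝ := fun i =>
    Complex.reCLM.comp (ContinuousLinearMap.proj (R := ℝ) (φ := fun _ : Fin 3 => ℂ) i) with hreL
  set imL : Fin 3 → (Fin 3 → ℂ) →L[ℝ] ℝ := fun i =>
    Complex.imCLM.comp (ContinuousLinearMap.proj (R := ℝ) (φ := fun _ : Fin 3 => ℂ) i) with himL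
  have hre : ∀ i z, reL i z = (z i).re := fun i z => rfl
  have him : ∀ i z, imL i z = (z i).im := fun i z => rfl
  have han : ∀ z, AnalyticAt ℝ ρ z := by
    intro z
    apply AnalyticAt.pi
    intro i
    fin_cases i
    · exact ((imL 1).analyticAt z).sub ((((reL 0).analyticAt z).mul ((reL 0).analyticAt z)).add
        (((imL 0).analyticAt z).mul ((imL 0).analyticAt z)))
    · exact (imL 2).analyticAt z
  -- the derivative
  have hd0 : HasFDerivAt (fun z : Fin 3 → ℂ => ρ z 0)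
      (imL 1 - ((reL 0 q • reL 0 + reL 0 q • reL 0) + (imL 0 q • imL 0 + imL 0 q • imL 0))) q := by
    exact (imL 1).hasFDerivAt.sub (((reL 0).hasFDerivAt.mul (reL 0).hasFDerivAt).add
      ((imL 0).hasFDerivAt.mul (imL 0).hasFDerivAt))
  have hd1 : HasFDerivAt (fun z : Fin 3 → ℂ => ρ z 1) (imL 2) q := (imL 2).hasFDerivAt
  have hfd : ∀ v, fderiv ℝ ρ q v 0 = (v 1).im - 2 * ((q 0).re * (v 0).re + (q 0).im * (v 0).im) ∧
      fderiv ℝ ρ q v 1 = (v 2).im := by
    intro v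
    have h1 : ∀ i, fderiv ℝ ρ q v i = fderiv ℝ (fun z => ρ z i) q v := by
      intro i
      have h2 : (fun z => ρ z i) = (fun w : Fin 2 → ℝ => (ContinuousLinearMap.proj (R := ℝ)
        (φ := fun _ : Fin 2 => ℝ) i) w) ∘ ρ := rfl
      rw [h2, fderiv_comp q (ContinuousLinearMap.differentiableAt _) (han q).differentiableAt,
        ContinuousLinearMap.fderiv]
      rfl
    rw [h1, h1, hd0.fderiv, hd1.fderiv]
    refine ⟨?_, rfl⟩
    change (v 1).im - (((q 0).re * (v 0).re + (q 0).re * (v 0).re) +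
      ((q 0).im * (v 0).im + (q 0).im * (v 0).im)) = _
    ring
  refine ⟨ρ, han q, ?_, ?_⟩
  · filter_upwards with z
    constructor
    · rintro ⟨h1, h2⟩
      funext i
      fin_cases i
      · change (z 1).im - ((z 0).re * (z 0).re + (z 0).im * (z 0).im) = 0
        rw [h1, Complex.normSq_apply, sub_self]
      · exact h2
    · intro h
      have h1 : (z 1).im - ((z 0).re * (z 0).re + (z 0).im * (z 0).im) = 0 := congrFun h 0
      have h2 : (z 2).im = 0 := congrFun h 1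
      refine ⟨?_, h2⟩
      rw [Complex.normSq_apply]
      linarith
  · intro w
    refine ⟨![0, Complex.I * w 0, Complex.I * w 1], fun l => ?_⟩
    obtain ⟨a1, a2⟩ := hfd ![0, Complex.I * w 0, Complex.I * w 1]
    obtain ⟨b1, b2⟩ := hfd (Complex.I • ![0, Complex.I * w 0, Complex.I * w 1])
    fin_cases l
    · change ((fderiv ℝ ρ q _ 0 : ℝ) : ℂ) - Complex.I * ((fderiv ℝ ρ q _ 0 : ℝ) : ℂ) = w 0
      rw [a1, b1]
      apply Complex.ext <;> simp
    · change ((fderiv ℝ ρ q _ 1 : ℝ) : ℂ) - Complex.I * ((fderiv ℝ ρ q _ 1 : ℝ) : ℂ) = w 1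
      rw [a2, b2]
      apply Complex.ext <;> simp

/-- the extra automorphisms. -/
noncomputable def exH (p : Fin 3 → ℂ) (k : ℕ) : (Fin 3 → ℂ) → (Fin 3 → ℂ) :=
  fun z => z + Pi.single 1 ((z 2 - p 2) ^ (k + 2))

/-- the embedding of the second coordinate. -/
noncomputable def sL : ℂ →L[ℂ] (Fin 3 → ℂ) := ContinuousLinearMap.single ℂ (fun _ : Fin 3 => ℂ) 1

theorem pow_jet (n i : ℕ) (hi : i < n) :
    iteratedFDeriv ℂ i (fun x : ℂ => x ^ n) 0 = 0 := by
  rw [← norm_eq_zero, norm_iteratedFDeriv_eq_norm_iteratedDeriv, iteratedDeriv_pow,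
    zero_pow (by omega), mul_zero, norm_zero]

theorem exG_jet (p : Fin 3 → ℂ) (n i : ℕ) (hi : i < n) :
    iteratedFDeriv ℂ i (fun z : Fin 3 → ℂ => sL ((z 2 - p 2) ^ n)) p = 0 := by
  set P : (Fin 3 → ℂ) →L[ℂ] ℂ := ContinuousLinearMap.proj (R := ℂ) (φ := fun _ : Fin 3 => ℂ) 2
    with hP
  have h1 : (fun z : Fin 3 → ℂ => sL ((z 2 - p 2) ^ n)) =
      fun z => (sL ∘ ((fun x : ℂ => x ^ n) ∘ P)) (z - p) := by
    funext z
    rfl
  rw [h1, iteratedFDeriv_comp_sub, sub_self]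
  have hpow : ContDiff ℂ (⊤ : WithTop ℕ∞) (fun x : ℂ => x ^ n) := contDiff_id.pow n
  have h2 : ContDiff ℂ (⊤ : WithTop ℕ∞) ((fun x : ℂ => x ^ n) ∘ P) := hpow.comp P.contDiff
  rw [ContinuousLinearMap.iteratedFDeriv_comp_left (n := (⊤ : WithTop ℕ∞)) sL h2.contDiffAt le_top,
    ContinuousLinearMap.iteratedFDeriv_comp_right (n := (⊤ : WithTop ℕ∞)) P hpow 0 le_top,
    map_zero, pow_jet n i hi]
  ext v
  simp

theorem exH_eq (p : Fin 3 → ℂ) (k : ℕ) :
    exH p k = fun z => z + sL ((z 2 - p 2) ^ (k + 2)) := rfl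

theorem exg_an (p : Fin 3 → ℂ) (n : ℕ) (z : Fin 3 → ℂ) :
    AnalyticAt ℂ (fun z : Fin 3 → ℂ => sL ((z 2 - p 2) ^ n)) z := by
  have h1 : AnalyticAt ℂ (fun z : Fin 3 → ℂ => (z 2 - p 2) ^ n) z := by
    have h2 : AnalyticAt ℂ (fun z : Fin 3 → ℂ => z 2) z :=
      (ContinuousLinearMap.proj (R := ℂ) (φ := fun _ : Fin 3 => ℂ) 2).analyticAt _
    exact (h2.sub analyticAt_const).pow n
  exact (sL.analyticAt _).comp h1

theorem exH_aut {p : Fin 3 → ℂ} (hp : p ∈ Mex) (k : ℕ) :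
    IsLocalAutomorphism Mex p (exH p k) := by
  have han : AnalyticAt ℂ (exH p k) p := by
    rw [exH_eq]
    exact analyticAt_id.add (exg_an p (k + 2) p)
  refine ⟨han, ?_, ?_, ?_⟩
  · simp [exH]
  · have h1 : fderiv ℂ (exH p k) p = ContinuousLinearMap.id ℂ (Fin 3 → ℂ) := by
      have h2 : fderiv ℂ (fun z : Fin 3 → ℂ => sL ((z 2 - p 2) ^ (k + 2))) p = 0 := by
        rw [← norm_eq_zero, ← norm_iteratedFDeriv_one, exG_jet p (k + 2) 1 (by omega), norm_zero]
      rw [exH_eq, fderiv_fun_add differentiableAt_fun_id (exg_an p (k + 2) p).differentiableAt, h2,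
        fderiv_fun_id, add_zero]
    rw [h1]
    exact Function.bijective_id
  · filter_upwards with z hz
    have h2 : (z 2 - p 2) = (((z 2).re - (p 2).re : ℝ) : ℂ) := by
      apply Complex.ext
      · simp
      · simp [hz.2, hp.2]
    refine ⟨?_, ?_⟩
    · have h3 : ((z 2 - p 2) ^ (k + 2)).im = 0 := by
        rw [h2, ← Complex.ofReal_pow, Complex.ofReal_im]
      have h4 : exH p k z 1 = z 1 + (z 2 - p 2) ^ (k + 2) := by simp [exH]
      have h5 : exH p k z 0 = z 0 := by simp [exH]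
      rw [h4, h5, Complex.add_im, h3, add_zero]
      exact hz.1
    · have h4 : exH p k z 2 = z 2 := by simp [exH]
      rw [h4]
      exact hz.2

theorem id_aut {p : Fin 3 → ℂ} : IsLocalAutomorphism Mex p (fun z => z) := by
  refine ⟨analyticAt_id, rfl, ?_, ?_⟩
  · rw [fderiv_fun_id]
    exact Function.bijective_id
  · filter_upwards with z hz
    exact hz

theorem exFail {p : Fin 3 → ℂ} (hp : p ∈ Mex) : ¬ FiniteJetDetermination Mex p := by
  rintro ⟨k, hk⟩
  have h1 := hk (fun z => z) (exH p k) id_aut (exH_aut hp k) (by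
    intro i hi
    rw [exH_eq]
    have e : (fun z : Fin 3 → ℂ => z + sL ((z 2 - p 2) ^ (k + 2))) =
        (fun z => z) + (fun z : Fin 3 → ℂ => sL ((z 2 - p 2) ^ (k + 2))) := rfl
    have c1 : ContDiffAt ℂ i (fun z : Fin 3 → ℂ => z) p := contDiffAt_id
    have c2 : ContDiffAt ℂ i (fun z : Fin 3 → ℂ => sL ((z 2 - p 2) ^ (k + 2))) p := by
      have : ContDiffAt ℂ (⊤ : WithTop ℕ∞) (fun z : Fin 3 → ℂ => sL ((z 2 - p 2) ^ (k + 2))) p :=
        (exg_an p (k + 2) p).contDiffAt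
      exact this.of_le le_top
    rw [e, iteratedFDeriv_add_apply c1 c2, exG_jet p (k + 2) i (by omega), add_zero])
  have h2 : Tendsto (fun x : ℂ => p + Pi.single 2 x) (𝓝[≠] (0 : ℂ)) (𝓝 p) := by
    have h3 : Continuous (fun x : ℂ => p + (Pi.single 2 x : Fin 3 → ℂ)) :=
      continuous_const.add (ContinuousLinearMap.single ℂ (fun _ : Fin 3 => ℂ) 2).continuous
    have h4 := h3.tendsto 0
    simp only [Pi.single_zero, add_zero] at h4
    exact h4.mono_left nhdsWithin_le_nhds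
  have h3 := h2.eventually h1
  have h4 : ∀ᶠ x : ℂ in 𝓝[≠] (0 : ℂ), x ≠ 0 := self_mem_nhdsWithin
  obtain ⟨x, hx1, hx2⟩ := (h3.and h4).exists
  have h5 := congrFun hx1 1
  simp [exH] at h5
  exact hx2 h5

end Pool.Agent.Lib51bf1a
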